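import Pool.Agent.Lib.MP_a137af_pr.Zeros

section

/-!
# B7: functional equation of the kernel
-/

set_option autoImplicit false
open MeasureTheory Set Filter Topology
open scoped ENNReal ComplexConjugate

namespace Pool.Agent.Lib.KLP

variable {Δ : Type*} [Group Δ] {A : DAct Δ}

private theorem ke_one_sub_ne {a z : ℂ} (ha : ‖a‖ < 1) (hz : ‖z‖ < 1) : 1 - conj a * z ≠ 0 := by
  intro h
  have h1 : conj a * z = 1 := (sub_eq_zero.mp h).symm
  have h2 : ‖a‖ * ‖z‖ = 1 := by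
    have := congrArg norm h1
    rwa [norm_mul, RCLike.norm_conj, norm_one] at this
  have h3 : ‖a‖ * ‖z‖ < 1 := by
    have h4 := norm_nonneg a
    have h5 := norm_nonneg z
    nlinarith
  linarith

private theorem ke_mob_hasDerivAt (c : ℂ) {a z : ℂ} (h : 1 - conj a * z ≠ 0) :
    HasDerivAt (mob c a) (c * (1 - conj a * a) / (1 - conj a * z) ^ 2) z := by
  have h1 : HasDerivAt (fun z : ℂ => c * (z - a)) c z := by
    simpa using ((hasDerivAt_id z).sub_const a).const_mul c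
  have h2 : HasDerivAt (fun z : ℂ => 1 - conj a * z) (-conj a) z := by
    simpa using ((hasDerivAt_id z).const_mul (conj a)).const_sub 1
  refine (h1.div h2 h).congr_deriv ?_
  congr 1
  ring

private theorem ke_denom {a z : ℂ} (hz : ‖z‖ < 1) :
    1 - ‖a‖ ≤ ‖1 - conj a * z‖ := by
  have h4 := norm_sub_norm_le (1 : ℂ) (conj a * z)
  rw [norm_one, norm_mul, RCLike.norm_conj] at h4
  have := norm_nonneg a
  have := norm_nonneg z
  nlinarith

/-- `v(w) = (1 - ā ζ) / (1 - ā w)`. -/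
private noncomputable def kv (a ζ w : ℂ) : ℂ := (1 - conj a * ζ) / (1 - conj a * w)

/-- The bounded holomorphic function `Q`. -/
private noncomputable def kQ (a ζ : ℂ) (n : ℕ) (w : ℂ) : ℂ :=
  conj a / (1 - conj a * w) * ∑ j ∈ Finset.range n, kv a ζ w ^ j

private theorem kQ_diff {a ζ : ℂ} (ha : ‖a‖ < 1) (n : ℕ) :
    DifferentiableOn ℂ (kQ a ζ n) (Metric.ball 0 1) := by
  have hne : ∀ z ∈ Metric.ball (0 : ℂ) 1, 1 - conj a * z ≠ 0 := fun z hz =>
    ke_one_sub_ne ha (by simpa using hz)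
  have hden : DifferentiableOn ℂ (fun w : ℂ => 1 - conj a * w) (Metric.ball 0 1) := by fun_prop
  have hv : DifferentiableOn ℂ (kv a ζ) (Metric.ball 0 1) :=
    DifferentiableOn.div (by fun_prop) hden hne
  unfold kQ
  refine DifferentiableOn.mul (DifferentiableOn.div (by fun_prop) hden hne) ?_
  exact DifferentiableOn.fun_sum fun j _ => hv.pow j

private theorem kQ_bdd {a ζ : ℂ} (ha : ‖a‖ < 1) (hζ : ‖ζ‖ < 1) (n : ℕ) :
    ∃ B : ℝ, ∀ z, ‖z‖ < 1 → ‖kQ a ζ n z‖ ≤ B := by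
  refine ⟨1 / (1 - ‖a‖) * ∑ j ∈ Finset.range n, (2 / (1 - ‖a‖)) ^ j, fun z hz => ?_⟩
  have ha' : 0 < 1 - ‖a‖ := by linarith
  have ha0 := norm_nonneg a
  have hd := ke_denom (a := a) hz
  have hd0 : 0 < ‖1 - conj a * z‖ := lt_of_lt_of_le ha' hd
  have hv : ‖kv a ζ z‖ ≤ 2 / (1 - ‖a‖) := by
    rw [kv, norm_div]
    have h1 : ‖1 - conj a * ζ‖ ≤ 2 := by
      have := norm_sub_le (1 : ℂ) (conj a * ζ)
      rw [norm_one, norm_mul, RCLike.norm_conj] at this
      have := norm_nonneg ζ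
      nlinarith
    exact div_le_div₀ (by norm_num) h1 ha' hd
  rw [kQ, norm_mul]
  apply mul_le_mul _ _ (norm_nonneg _) (by positivity)
  · rw [norm_div, RCLike.norm_conj]
    exact div_le_div₀ (by norm_num) ha.le ha' hd
  · refine (norm_sum_le _ _).trans (Finset.sum_le_sum fun j _ => ?_)
    rw [norm_pow]
    exact pow_le_pow_left₀ (norm_nonneg _) hv j

private theorem kQ_eq {a ζ w : ℂ} (ha : ‖a‖ < 1) (hw : ‖w‖ < 1) (n : ℕ) :
    1 + (w - ζ) * kQ a ζ n w = kv a ζ w ^ n := by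
  have hp := ke_one_sub_ne ha hw
  have h1 : kv a ζ w - 1 = (w - ζ) * (conj a / (1 - conj a * w)) := by
    rw [kv]
    field_simp
    ring
  have h2 := geom_sum_mul (kv a ζ w) n
  rw [h1] at h2
  rw [kQ]
  linear_combination h2

private theorem ke_summable (h : HF A) {k : ℕ} (hk : 2 ≤ k) {z : ℂ} (hz : ‖z‖ < 1)
    {u : Δ → ℂ} {B : ℝ} (hu : ∀ γ, ‖u γ‖ ≤ B) :
    Summable fun γ => u γ * (deriv (A.act γ) z) ^ k := by
  have hB : 0 ≤ B := le_trans (norm_nonneg _) (hu 1)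
  have hz' : 0 < 1 - ‖z‖ := by linarith
  refine Summable.of_norm_bounded
    (g := fun γ => B * (1 / (1 - ‖z‖) ^ 2) ^ k * A.t γ ^ 2)
    ((summable_t_sq A).mul_left _) fun γ => ?_
  rw [norm_mul, norm_pow, mul_assoc]
  apply mul_le_mul (hu γ) _ (by positivity) hB
  have h1 : ‖deriv (A.act γ) z‖ ≤ A.t γ / (1 - ‖z‖) ^ 2 := norm_deriv_act_le h γ hz le_rfl
  calc ‖deriv (A.act γ) z‖ ^ k ≤ (A.t γ / (1 - ‖z‖) ^ 2) ^ k :=
        pow_le_pow_left₀ (norm_nonneg _) h1 k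
    _ = (1 / (1 - ‖z‖) ^ 2) ^ k * A.t γ ^ k := by rw [← mul_pow]; congr 1; ring
    _ ≤ (1 / (1 - ‖z‖) ^ 2) ^ k * A.t γ ^ 2 := by
        apply mul_le_mul_of_nonneg_left _ (by positivity)
        exact pow_le_pow_of_le_one (A.t_pos γ).le (A.t_le_one γ) hk

theorem ker_eq (h : HF A) {k : ℕ} (hk : 2 ≤ k) (d : Δ) {ζ : ℂ} (hζ : ‖ζ‖ < 1) :
    ∃ g, Wt A k g ∧ ∀ z, ‖z‖ < 1 → (∀ γ, A.act γ z ≠ ζ) →
      ker A k z (A.act d ζ) = (deriv (A.act d) ζ) ^ (k - 1) * (ker A k z ζ + g z) := by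
  obtain ⟨c, a, hc, ha, hd⟩ := h.hol d
  obtain ⟨m, rfl⟩ : ∃ m, k = m + 1 := ⟨k - 1, by omega⟩
  refine ⟨theta A (m + 1) (kQ a ζ (2 * m + 1)), theta_wt h hk (kQ_diff ha _)
    (kQ_bdd ha hζ _), fun z hz hne => ?_⟩
  -- the term identity
  have hterm : ∀ w, ‖w‖ < 1 → w ≠ ζ →
      (deriv (A.act d) w) ^ (m + 1) / (A.act d w - A.act d ζ) =
        (deriv (A.act d) ζ) ^ m * (1 / (w - ζ) + kQ a ζ (2 * m + 1) w) := by
    intro w hw hwζ
    have hp := ke_one_sub_ne ha hw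
    have hq := ke_one_sub_ne ha hζ
    have hwz : w - ζ ≠ 0 := sub_ne_zero.mpr hwζ
    have hc0 : c ≠ 0 := by
      rintro rfl
      simp at hc
    have haa : 1 - conj a * a ≠ 0 := ke_one_sub_ne ha ha
    have e1 : 1 / (w - ζ) + kQ a ζ (2 * m + 1) w = kv a ζ w ^ (2 * m + 1) / (w - ζ) := by
      rw [← kQ_eq ha hw]
      field_simp
    have e2 : mob c a w - mob c a ζ = c * (1 - conj a * a) * (w - ζ) /
        ((1 - conj a * w) * (1 - conj a * ζ)) := by
      unfold mob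
      rw [div_sub_div _ _ hp hq]
      congr 1
      ring
    rw [e1, hd, (ke_mob_hasDerivAt c hp).deriv, (ke_mob_hasDerivAt c hq).deriv, e2, kv]
    set e := c * (1 - conj a * a) with he
    have he0 : e ≠ 0 := mul_ne_zero hc0 haa
    set p := 1 - conj a * w with hpdef
    set q := 1 - conj a * ζ with hqdef
    rw [div_pow, div_pow, div_pow, ← pow_mul, ← pow_mul]
    field_simp
    ring
  -- bounded denominators
  have hA : ∃ ε : ℝ, 0 < ε ∧ ∀ γ, ε ≤ ‖A.act γ z - ζ‖ := by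
    have h1 := orbit_discrete A hz hζ
    rw [eventually_nhdsWithin_iff, Metric.eventually_nhds_iff] at h1
    obtain ⟨ε, hε, h2⟩ := h1
    refine ⟨ε, hε, fun γ => ?_⟩
    by_contra hcon
    push Not at hcon
    have h3 := h2 (y := A.act γ z) (by rw [dist_eq_norm]; exact hcon) (hne γ) γ
    exact h3 rfl
  obtain ⟨ε, hε, hεγ⟩ := hA
  have hs1 : Summable fun γ => 1 / (A.act γ z - ζ) * (deriv (A.act γ) z) ^ (m + 1) := by
    apply ke_summable h hk hz (B := 1 / ε)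
    intro γ
    rw [norm_div, norm_one]
    exact one_div_le_one_div_of_le hε (hεγ γ)
  obtain ⟨B, hB⟩ := kQ_bdd ha hζ (2 * m + 1)
  have hs2 : Summable fun γ => kQ a ζ (2 * m + 1) (A.act γ z) *
      (deriv (A.act γ) z) ^ (m + 1) := by
    apply ke_summable h hk hz (B := B)
    intro γ
    exact hB _ (A.norm_act_lt γ hz)
  have e3 : ker A (m + 1) z (A.act d ζ) = ∑' γ,
      (deriv (A.act d) ζ) ^ m * (1 / (A.act γ z - ζ) * (deriv (A.act γ) z) ^ (m + 1) +
        kQ a ζ (2 * m + 1) (A.act γ z) * (deriv (A.act γ) z) ^ (m + 1)) := by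
    rw [ker, ← (Equiv.mulLeft d).tsum_eq]
    apply tsum_congr
    intro γ
    have hw := A.norm_act_lt γ hz
    show (deriv (A.act (d * γ)) z) ^ (m + 1) / (A.act (d * γ) z - A.act d ζ) = _
    rw [deriv_act_mul h d γ hz, A.mul d γ z hz.le, mul_pow, mul_div_right_comm,
      hterm _ hw (hne γ)]
    ring
  rw [e3, tsum_mul_left, hs1.tsum_add hs2, Nat.add_sub_cancel]
  congr 2
  · rw [ker]
    apply tsum_congr
    intro γ
    ring

end Pool.Agent.Lib.KLP
end

section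

/-!
# B2: non-vanishing forms
-/

set_option autoImplicit false
open MeasureTheory Set Filter Topology
open scoped ENNReal ComplexConjugate

namespace Pool.Agent.Lib.KLP

variable {Δ : Type*} [Group Δ] {A : DAct Δ}

private lemma nv_den_ge {q w : ℂ} (hw : ‖w‖ ≤ 1) :
    1 - ‖q‖ ≤ ‖1 - conj q * w‖ := by
  have h1 : ‖(1 : ℂ)‖ ≤ ‖1 - conj q * w‖ + ‖conj q * w‖ := by
    have := norm_add_le (1 - conj q * w) (conj q * w)
    simpa using this
  have h2 : ‖conj q * w‖ ≤ ‖q‖ := by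
    rw [norm_mul, Complex.norm_conj]
    exact mul_le_of_le_one_right (norm_nonneg _) hw
  rw [norm_one] at h1
  linarith

private lemma nv_den_pos {q w : ℂ} (hq : ‖q‖ < 1) (hw : ‖w‖ ≤ 1) :
    0 < ‖1 - conj q * w‖ := lt_of_lt_of_le (by linarith) (nv_den_ge (q := q) hw)

private lemma nv_kap_eq (g : Δ) {q : ℂ} (hq : ‖q‖ < 1) :
    kap q (A.act g q) = (1 - ‖q‖ ^ 2) ^ 2 * A.J g q / ‖1 - conj q * A.act g q‖ ^ 2 := by
  unfold kap
  rw [A.tau_act g hq.le]
  ring

private lemma nv_kap_le (g : Δ) {q : ℂ} {ρ : ℝ} (hρ : ρ < 1) (hq : ‖q‖ ≤ ρ) :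
    kap q (A.act g q) ≤ 1 / (1 - ρ) ^ 4 * A.t g := by
  have hq1 : ‖q‖ < 1 := lt_of_le_of_lt hq hρ
  rw [nv_kap_eq g hq1]
  have hw : ‖A.act g q‖ ≤ 1 := A.norm_act_le g hq1.le
  have h1 : 1 - ρ ≤ ‖1 - conj q * A.act g q‖ := by
    have := nv_den_ge (q := q) hw
    linarith
  have hp : 0 < 1 - ρ := by linarith
  have h2 : A.J g q ≤ A.t g / (1 - ρ) ^ 2 := by
    refine (A.J_upper g hq1).trans ?_
    have h3 : (1 - ρ) ^ 2 ≤ (1 - ‖q‖) ^ 2 := by
      apply pow_le_pow_left₀ hp.le; linarith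
    exact div_le_div_of_nonneg_left (A.t_pos g).le (by positivity) h3
  have h4 : (1 - ‖q‖ ^ 2) ^ 2 ≤ 1 := by
    have h5 : 0 ≤ 1 - ‖q‖ ^ 2 := by nlinarith [norm_nonneg q]
    have h6 : 1 - ‖q‖ ^ 2 ≤ 1 := by nlinarith [norm_nonneg q]
    nlinarith
  have hJ : 0 ≤ A.J g q := (A.J_pos g hq1.le).le
  have h7 : (1 - ‖q‖ ^ 2) ^ 2 * A.J g q ≤ A.t g / (1 - ρ) ^ 2 :=
    (mul_le_of_le_one_left hJ h4).trans h2
  have h8 : (1 - ρ) ^ 2 ≤ ‖1 - conj q * A.act g q‖ ^ 2 := pow_le_pow_left₀ hp.le h1 2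
  have h9 : 0 ≤ A.t g / (1 - ρ) ^ 2 := div_nonneg (A.t_pos g).le (by positivity)
  calc (1 - ‖q‖ ^ 2) ^ 2 * A.J g q / ‖1 - conj q * A.act g q‖ ^ 2
      ≤ (A.t g / (1 - ρ) ^ 2) / (1 - ρ) ^ 2 :=
        div_le_div₀ h9 h7 (by positivity) h8
    _ = 1 / (1 - ρ) ^ 4 * A.t g := by
        field_simp

private lemma nv_kap_lt (h : HF A) {g : Δ} (hg : g ≠ 1) {q : ℂ} (hq : ‖q‖ < 1) :
    kap q (A.act g q) < 1 := by
  have hw : ‖A.act g q‖ < 1 := A.norm_act_lt g hq
  have hne : A.act g q ≠ q := fun he => hg (h.free g q hq he)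
  have hpos := nv_den_pos hq hw.le
  unfold kap
  rw [div_lt_one (by positivity), norm_one_sub_conj_mul_sq]
  have h1 : 0 < ‖q - A.act g q‖ ^ 2 := by
    have : 0 < ‖q - A.act g q‖ := norm_pos_iff.mpr (sub_ne_zero.mpr (Ne.symm hne))
    positivity
  linarith

private lemma nv_kap_nonneg (g : Δ) {q : ℂ} (hq : ‖q‖ < 1) : 0 ≤ kap q (A.act g q) :=
  (kap_pos hq (A.norm_act_lt g hq)).le

private lemma nv_cont (g : Δ) {ρ : ℝ} (hρ : ρ < 1) :
    ContinuousOn (fun q => kap q (A.act g q)) (Metric.closedBall 0 ρ) := by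
  have hsub : Metric.closedBall (0 : ℂ) ρ ⊆ Metric.closedBall 0 1 :=
    Metric.closedBall_subset_closedBall hρ.le
  have h1 : ContinuousOn (A.act g) (Metric.closedBall 0 ρ) :=
    ((A.iso g).continuousOn).mono hsub
  unfold kap
  refine ContinuousOn.div ?_ ?_ ?_
  · exact (continuousOn_const.sub (continuousOn_id.norm.pow 2)).mul
      (continuousOn_const.sub (h1.norm.pow 2))
  · refine ((continuousOn_const.sub ?_).norm).pow 2
    exact (Complex.continuous_conj.continuousOn).mul h1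
  · intro q hq
    have hq1 : ‖q‖ < 1 := lt_of_le_of_lt (by simpa using hq) hρ
    have := nv_den_pos hq1 (A.norm_act_le g hq1.le)
    positivity

private lemma nv_unif_finset (h : HF A) {ρ : ℝ} (h0 : 0 ≤ ρ) (hρ : ρ < 1) (F : Finset Δ) :
    ∃ m : ℝ, 0 ≤ m ∧ m < 1 ∧ ∀ g ∈ F, g ≠ 1 → ∀ q : ℂ, ‖q‖ ≤ ρ → kap q (A.act g q) ≤ m := by
  classical
  induction F using Finset.induction_on with
  | empty => exact ⟨0, le_refl _, zero_lt_one, by simp⟩
  | insert a F ha ih =>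
    obtain ⟨m, hm0, hm1, hm⟩ := ih
    by_cases ha1 : a = 1
    · refine ⟨m, hm0, hm1, fun g hg hg1 => ?_⟩
      rcases Finset.mem_insert.mp hg with rfl | hg'
      · exact absurd ha1 hg1
      · exact hm g hg' hg1
    · obtain ⟨q₀, hq₀, hmax⟩ := (isCompact_closedBall (0 : ℂ) ρ).exists_isMaxOn
        ⟨0, by simpa using h0⟩ (nv_cont (A := A) a hρ)
      have hq₀' : ‖q₀‖ < 1 := lt_of_le_of_lt (by simpa using hq₀) hρ
      refine ⟨max m (kap q₀ (A.act a q₀)), le_max_of_le_left hm0,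
        max_lt hm1 (nv_kap_lt h ha1 hq₀'), fun g hg hg1 q hq => ?_⟩
      rcases Finset.mem_insert.mp hg with rfl | hg'
      · exact le_max_of_le_right (hmax (by simpa using hq))
      · exact le_max_of_le_left (hm g hg' hg1 q hq)

private lemma nv_unif (h : HF A) {ρ : ℝ} (h0 : 0 ≤ ρ) (hρ : ρ < 1) :
    ∃ m : ℝ, 0 ≤ m ∧ m < 1 ∧ ∀ g, g ≠ 1 → ∀ q : ℂ, ‖q‖ ≤ ρ → kap q (A.act g q) ≤ m := by
  have hp : 0 < 1 - ρ := by linarith
  have hε : 0 < (1 - ρ) ^ 4 / 2 := by positivity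
  obtain ⟨m, hm0, hm1, hm⟩ := nv_unif_finset h h0 hρ (A.finite_t hε).toFinset
  refine ⟨max m (1 / 2), le_max_of_le_left hm0, max_lt hm1 (by norm_num), fun g hg q hq => ?_⟩
  by_cases hgt : (1 - ρ) ^ 4 / 2 ≤ A.t g
  · exact le_max_of_le_left (hm g (by simpa using hgt) hg q hq)
  · apply le_max_of_le_right
    refine (nv_kap_le g hρ hq).trans ?_
    push Not at hgt
    have : 1 / (1 - ρ) ^ 4 * A.t g ≤ 1 / (1 - ρ) ^ 4 * ((1 - ρ) ^ 4 / 2) :=
      mul_le_mul_of_nonneg_left hgt.le (by positivity)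
    refine this.trans (le_of_eq ?_)
    field_simp

theorem exists_nonvan (h : HF A) : ∃ k : ℕ, 2 ≤ k ∧ ∀ q : ℂ, ‖q‖ < 1 → ∃ f, Wt A k f ∧ f q ≠ 0 := by
  classical
  obtain ⟨ρ', hρ', hco'⟩ := A.cocompact
  obtain ⟨ρ, h0, hρ, hco⟩ : ∃ ρ : ℝ, 0 ≤ ρ ∧ ρ < 1 ∧ ∀ z, ‖z‖ < 1 → ∃ g, ‖A.act g z‖ ≤ ρ :=
    ⟨max ρ' 0, le_max_right _ _, max_lt hρ' zero_lt_one, fun z hz => by
      obtain ⟨g, hg⟩ := hco' z hz
      exact ⟨g, hg.trans (le_max_left _ _)⟩⟩
  obtain ⟨m, hm0, hm1, hm⟩ := nv_unif h h0 hρ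
  have hp : 0 < 1 - ρ := by linarith
  have hsum := summable_t_sq A
  set St : ℝ := ∑' g, A.t g ^ 2 with hSt
  set C : ℝ := 1 / (1 - ρ) ^ 4 with hC
  have hC0 : 0 ≤ C := by rw [hC]; positivity
  obtain ⟨j, hj⟩ : ∃ j : ℕ, m ^ j * (C ^ 2 * St) < 1 := by
    have h1 : Tendsto (fun j : ℕ => m ^ j * (C ^ 2 * St)) atTop (𝓝 (0 * (C ^ 2 * St))) :=
      (tendsto_pow_atTop_nhds_zero_of_lt_one hm0 hm1).mul_const _
    rw [zero_mul] at h1
    exact ((tendsto_order.mp h1).2 1 zero_lt_one).exists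
  refine ⟨j + 2, by omega, ?_⟩
  -- it is enough to treat points in the compact set
  suffices hK : ∀ q : ℂ, ‖q‖ ≤ ρ → ∃ f, Wt A (j + 2) f ∧ f q ≠ 0 by
    intro q hq
    obtain ⟨g, hg⟩ := hco q hq
    obtain ⟨f, hf, hfq⟩ := hK _ hg
    refine ⟨f, hf, ?_⟩
    rw [← hf.eq g q hq]
    exact mul_ne_zero hfq (pow_ne_zero _ (deriv_act_ne_zero h g hq))
  intro q hq
  have hq1 : ‖q‖ < 1 := lt_of_le_of_lt hq hρ
  have hpq : 0 < 1 - ‖q‖ := by linarith
  set k : ℕ := j + 2 with hk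
  set F : ℂ → ℂ := fun w => ((1 - conj q * w) ^ (2 * k))⁻¹ with hF
  have hFd : DifferentiableOn ℂ F (Metric.ball 0 1) := by
    intro w hw
    have hw' : ‖w‖ < 1 := by simpa using hw
    have h1 : (1 - conj q * w) ^ (2 * k) ≠ 0 :=
      pow_ne_zero _ (norm_pos_iff.mp (nv_den_pos hq1 hw'.le))
    have h2 : DifferentiableAt ℂ (fun w : ℂ => (1 - conj q * w) ^ (2 * k)) w := by fun_prop
    exact (h2.inv h1).differentiableWithinAt
  have hFb : ∃ B : ℝ, ∀ z, ‖z‖ < 1 → ‖F z‖ ≤ B := by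
    refine ⟨((1 - ‖q‖) ^ (2 * k))⁻¹, fun z hz => ?_⟩
    rw [hF]
    simp only [norm_inv, norm_pow]
    exact inv_anti₀ (by positivity) (pow_le_pow_left₀ hpq.le (nv_den_ge hz.le) _)
  refine ⟨theta A k F, theta_wt h (by omega) hFd hFb, ?_⟩
  -- the normalised terms
  set a : ℂ := ((1 - ‖q‖ ^ 2 : ℝ) : ℂ) with ha
  have ha0 : 0 < 1 - ‖q‖ ^ 2 := by nlinarith [norm_nonneg q]
  set x : Δ → ℂ := fun g => a ^ 2 * deriv (A.act g) q / (1 - conj q * A.act g q) ^ 2 with hx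
  have hxn : ∀ g, ‖x g‖ = kap q (A.act g q) := by
    intro g
    rw [nv_kap_eq g hq1, hx]
    simp only [norm_div, norm_mul, norm_pow, norm_deriv_act h g hq1]
    rw [ha, Complex.norm_real, Real.norm_of_nonneg ha0.le]
  have hx1 : x 1 = 1 := by
    rw [hx]
    simp only []
    rw [deriv_act_one A hq1, A.one q hq1.le]
    have h1 : (1 : ℂ) - conj q * q = a := by
      rw [ha, ← Complex.normSq_eq_conj_mul_self, Complex.normSq_eq_norm_sq]
      push_cast
      ring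
    rw [h1]
    have : a ≠ 0 := by rw [ha]; exact_mod_cast ha0.ne'
    field_simp
  have hbound : ∀ g, g ≠ 1 → ‖x g ^ k‖ ≤ m ^ j * (C ^ 2 * A.t g ^ 2) := by
    intro g hg
    rw [norm_pow, hxn, hk, pow_add]
    have h1 := hm g hg q hq
    have h2 := nv_kap_le (A := A) g hρ hq
    have h3 := nv_kap_nonneg (A := A) g hq1
    calc kap q (A.act g q) ^ j * kap q (A.act g q) ^ 2 ≤ m ^ j * (C * A.t g) ^ 2 :=
          mul_le_mul (pow_le_pow_left₀ h3 h1 j) (pow_le_pow_left₀ h3 h2 2) (by positivity)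
            (by positivity)
      _ = m ^ j * (C ^ 2 * A.t g ^ 2) := by ring
  have hite : ∀ g, ‖(if g = 1 then (0 : ℂ) else x g ^ k)‖ ≤ m ^ j * (C ^ 2 * A.t g ^ 2) := by
    intro g
    split_ifs with hg
    · rw [norm_zero]; positivity
    · exact hbound g hg
  have hsum' : Summable (fun g => m ^ j * (C ^ 2 * A.t g ^ 2)) :=
    (hsum.mul_left _).mul_left _
  have hs1 : Summable (fun g => (if g = 1 then (0 : ℂ) else x g ^ k)) :=
    Summable.of_norm_bounded hsum' hite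
  have hs2 : Summable (fun g => x g ^ k) := by
    have h2 : Summable (fun g => (if g = 1 then x g ^ k else 0)) :=
      summable_of_ne_finset_zero (s := {1}) (by
        intro b hb
        rw [if_neg (by simpa using hb)])
    have h3 := hs1.add h2
    refine h3.congr (fun g => ?_)
    by_cases hg : g = 1 <;> simp [hg]
  have htot : ∑' g, x g ^ k = 1 + ∑' g, (if g = 1 then (0 : ℂ) else x g ^ k) := by
    rw [hs2.tsum_eq_add_tsum_ite 1, hx1, one_pow]
  have hsmall : ‖∑' g, (if g = 1 then (0 : ℂ) else x g ^ k)‖ < 1 := by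
    refine lt_of_le_of_lt (tsum_of_norm_bounded hsum'.hasSum hite) ?_
    rw [tsum_mul_left, tsum_mul_left]
    exact hj
  have hne : ∑' g, x g ^ k ≠ 0 := by
    intro h1
    rw [htot] at h1
    have h2 : ∑' g, (if g = 1 then (0 : ℂ) else x g ^ k) = -1 := by linear_combination h1
    rw [h2] at hsmall
    simp at hsmall
  have hrel : a ^ (2 * k) * theta A k F q = ∑' g, x g ^ k := by
    unfold theta
    rw [← tsum_mul_left]
    refine tsum_congr (fun g => ?_)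
    rw [hx, hF]
    simp only []
    have h1 : (1 - conj q * A.act g q) ≠ 0 :=
      norm_pos_iff.mp (nv_den_pos hq1 (A.norm_act_le g hq1.le))
    rw [div_pow, mul_pow, ← pow_mul, ← pow_mul]
    field_simp
  intro h1
  rw [h1, mul_zero] at hrel
  exact hne hrel.symm

end Pool.Agent.Lib.KLP
end

section

/-!
# B12: the product trick
-/

set_option autoImplicit false
open MeasureTheory Set Filter Topology
open scoped ENNReal ComplexConjugate

namespace Pool.Agent.Lib.KLP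

variable {Δ : Type*} [Group Δ] {A : DAct Δ}

/-- Behaviour at a simple pole with residue one. -/
theorem pole_tendsto {F : ℂ → ℂ} {p : ℂ} (K : ℂ)
    (hpole : ∃ r : ℂ → ℂ, AnalyticAt ℂ r p ∧ ∀ᶠ z in 𝓝[≠] p, F z = 1 / (z - p) + r z) :
    Tendsto (fun w => (w - p) * (F w - K)) (𝓝[≠] p) (𝓝 1) := by
  obtain ⟨r, hr, hF⟩ := hpole
  have h1 : ContinuousAt (fun w => 1 + (w - p) * (r w - K)) p :=
    continuousAt_const.add ((continuousAt_id.sub continuousAt_const).mul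
      (hr.continuousAt.sub continuousAt_const))
  have h2 : Tendsto (fun w => 1 + (w - p) * (r w - K)) (𝓝[≠] p) (𝓝 1) := by
    have h3 := h1.tendsto.mono_left (nhdsWithin_le_nhds (s := {p}ᶜ))
    simpa using h3
  refine h2.congr' ?_
  filter_upwards [hF, self_mem_nhdsWithin] with w hw hne
  have h4 : w - p ≠ 0 := sub_ne_zero.2 hne
  rw [hw]
  field_simp
  ring

theorem pole_ne {F : ℂ → ℂ} {p : ℂ} (K : ℂ)
    (hpole : ∃ r : ℂ → ℂ, AnalyticAt ℂ r p ∧ ∀ᶠ z in 𝓝[≠] p, F z = 1 / (z - p) + r z) :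
    ∀ᶠ w in 𝓝[≠] p, F w ≠ K := by
  filter_upwards [(pole_tendsto K hpole).eventually_ne one_ne_zero] with w hw heq
  exact hw (by rw [heq, sub_self, mul_zero])

theorem prod_tendsto {F₁ F₂ : ℂ → ℂ} {p : ℂ} (K : ℂ)
    (hpole : ∃ r : ℂ → ℂ, AnalyticAt ℂ r p ∧ ∀ᶠ z in 𝓝[≠] p, F₁ z = 1 / (z - p) + r z)
    (hd : DifferentiableAt ℂ F₂ p) :
    Tendsto (fun w => (F₁ w - K) * (F₂ w - F₂ p)) (𝓝[≠] p) (𝓝 (deriv F₂ p)) := by
  have h1 := (pole_tendsto K hpole).mul (hasDerivAt_iff_tendsto_slope.1 hd.hasDerivAt)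
  rw [one_mul] at h1
  refine h1.congr' ?_
  filter_upwards [self_mem_nhdsWithin] with w hne
  have h4 : w - p ≠ 0 := sub_ne_zero.2 hne
  rw [slope_def_field]
  field_simp

theorem isOpen_eventually_punctured (P : ℂ → Prop) : IsOpen {z : ℂ | ∀ᶠ w in 𝓝[≠] z, P w} := by
  rw [isOpen_iff_mem_nhds]
  intro z hz
  have h1 := eventually_nhdsWithin_iff.1 (show ∀ᶠ w in 𝓝[≠] z, P w from hz)
  obtain ⟨O, hO, hOo, hzO⟩ := mem_nhds_iff.1 h1
  refine mem_nhds_iff.2 ⟨O, fun w hw => ?_, hOo, hzO⟩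
  by_cases hwz : w = z
  · rw [hwz]; exact hz
  · have h2 : O \ {z} ∈ 𝓝 w := (hOo.sdiff isClosed_singleton).mem_nhds ⟨hw, hwz⟩
    exact nhdsWithin_le_nhds (mem_of_superset h2 fun v hv => hO hv.1 hv.2)

theorem norm_lt_one_eventually {z : ℂ} (hz : ‖z‖ < 1) : ∀ᶠ w in 𝓝 z, ‖w‖ < 1 :=
  continuous_norm.continuousAt.eventually_lt continuousAt_const hz

theorem Fq_deriv_ne (h : HF A) {p q : ℂ} (hp : ‖p‖ < 1) (hq : ‖q‖ < 1)
    (hpq : ∀ g, A.act g p ≠ q) {Fp Fq : ℂ → ℂ} (hFp : IsFq A p Fp) (hFq : IsFq A q Fq) :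
    deriv Fp q ≠ 0 := by
  have hqp : ∀ g, A.act g q ≠ p := by
    intro g hg
    apply hpq g⁻¹
    rw [← hg, A.inv_act_act g hq.le]
  set S : Set ℂ := {z | (∃ g, A.act g p = z) ∨ ∃ g, A.act g q = z} with hSdef
  set G : ℂ → ℂ := fun z => (Fp z - Fp q) * (Fq z - Fq p) with hG
  have hSp : ∀ z, z ∉ S → ∀ g, A.act g p ≠ z := fun z hz g hg => hz (Or.inl ⟨g, hg⟩)
  have hSq : ∀ z, z ∉ S → ∀ g, A.act g q ≠ z := fun z hz g hg => hz (Or.inr ⟨g, hg⟩)
  have hS : ∀ z, ‖z‖ < 1 → ∀ᶠ w in 𝓝[≠] z, w ∉ S := by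
    intro z hz
    filter_upwards [orbit_discrete A hp hz, orbit_discrete A hq hz] with w h1 h2 hw
    rcases hw with ⟨g, hg⟩ | ⟨g, hg⟩
    · exact h1 g hg
    · exact h2 g hg
  have hGd : ∀ z, ‖z‖ < 1 → z ∉ S → DifferentiableAt ℂ G z := fun z hz hzS =>
    ((hFp.diff z hz (hSp z hzS)).sub_const _).mul ((hFq.diff z hz (hSq z hzS)).sub_const _)
  have hGi : ∀ g z, ‖z‖ < 1 → z ∉ S → G (A.act g z) = G z := by
    intro g z hz hzS
    simp only [hG]
    rw [hFp.inv g z hz (hSp z hzS), hFq.inv g z hz (hSq z hzS)]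
  have hFpq : DifferentiableAt ℂ Fp q := hFp.diff q hq hpq
  have hFqp : DifferentiableAt ℂ Fq p := hFq.diff p hp hqp
  have hGp : Tendsto G (𝓝[≠] p) (𝓝 (deriv Fq p)) := prod_tendsto (Fp q) hFp.pole hFqp
  have hGq : Tendsto G (𝓝[≠] q) (𝓝 (deriv Fp q)) := by
    have h1 := prod_tendsto (Fq p) hFq.pole hFpq
    refine h1.congr fun w => ?_
    simp only [hG]
    ring
  -- limits at the orbits
  have key : ∀ (x : ℂ), ‖x‖ < 1 → ∀ c : ℂ, Tendsto G (𝓝[≠] x) (𝓝 c) → ∀ g : Δ,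
      Tendsto G (𝓝[≠] (A.act g x)) (𝓝 c) := by
    intro x hx c hc g
    have hgx := A.norm_act_lt g hx
    have h1 := tendsto_act_punctured h g⁻¹ hgx
    rw [A.inv_act_act g hx.le] at h1
    refine (hc.comp h1).congr' ?_
    filter_upwards [hS _ hgx, nhdsWithin_le_nhds (norm_lt_one_eventually hgx)] with w hw1 hw2
    exact hGi g⁻¹ w hw2 hw1
  have hbd : ∀ (x c : ℂ), Tendsto G (𝓝[≠] x) (𝓝 c) → ∃ B : ℝ, ∀ᶠ w in 𝓝[≠] x, ‖G w‖ ≤ B := by
    intro x c hc
    refine ⟨‖c‖ + 1, ?_⟩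
    filter_upwards [hc.norm.eventually_lt_const (lt_add_one ‖c‖)] with w hw
    exact hw.le
  have hb : ∀ z, ‖z‖ < 1 → ∃ B : ℝ, ∀ᶠ w in 𝓝[≠] z, ‖G w‖ ≤ B := by
    intro z hz
    by_cases hzS : z ∈ S
    · rcases hzS with ⟨g, rfl⟩ | ⟨g, rfl⟩
      · exact hbd _ _ (key p hp _ hGp g)
      · exact hbd _ _ (key q hq _ hGq g)
    · exact hbd z (G z) ((hGd z hz hzS).continuousAt.tendsto.mono_left nhdsWithin_le_nhds)
  obtain ⟨c, hc⟩ := invariant_const h hS hGd hb hGi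
  have hcq : deriv Fp q = c := by
    refine tendsto_nhds_unique hGq ?_
    refine tendsto_const_nhds.congr' ?_
    filter_upwards [hS q hq, nhdsWithin_le_nhds (norm_lt_one_eventually hq)] with w hw1 hw2
    exact (hc w hw2 hw1).symm
  rw [hcq]
  intro hc0
  -- `Fp` is locally constant near `q`
  let Z : Set ℂ := {z | ∀ᶠ w in 𝓝[≠] z, Fp w = Fp q}
  let W : Set ℂ := {z | ∀ᶠ w in 𝓝[≠] z, Fp w ≠ Fp q}
  have hZo : IsOpen Z := isOpen_eventually_punctured _
  have hWo : IsOpen W := isOpen_eventually_punctured _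
  have hdisj : Disjoint Z W := by
    rw [Set.disjoint_left]
    intro z hz hw
    have hz' : ∀ᶠ w in 𝓝[≠] z, Fp w = Fp q := hz
    have hw' : ∀ᶠ w in 𝓝[≠] z, Fp w ≠ Fp q := hw
    obtain ⟨w, h1, h2⟩ := (hz'.and hw').exists
    exact h2 h1
  have hqZ : q ∈ Z := by
    show ∀ᶠ w in 𝓝[≠] q, Fp w = Fp q
    filter_upwards [hS q hq, nhdsWithin_le_nhds (norm_lt_one_eventually hq),
      pole_ne (Fq p) hFq.pole] with w hw1 hw2 hw3
    have h1 := hc w hw2 hw1
    rw [hc0] at h1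
    rcases mul_eq_zero.1 h1 with h2 | h2
    · exact sub_eq_zero.1 h2
    · exact absurd (sub_eq_zero.1 h2) hw3
  have hpW : p ∈ W := pole_ne (Fp q) hFp.pole
  have hcov : Metric.ball (0:ℂ) 1 ⊆ Z ∪ W := by
    intro z hz
    have hz1 : ‖z‖ < 1 := by simpa using hz
    by_cases hzo : ∃ g, A.act g p = z
    · obtain ⟨g, rfl⟩ := hzo
      right
      show ∀ᶠ w in 𝓝[≠] (A.act g p), Fp w ≠ Fp q
      have h1 := tendsto_act_punctured h g⁻¹ hz1
      rw [A.inv_act_act g hp.le] at h1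
      filter_upwards [h1.eventually (pole_ne (Fp q) hFp.pole), hS _ hz1,
        nhdsWithin_le_nhds (norm_lt_one_eventually hz1)] with w hw1 hw2 hw3
      rwa [hFp.inv g⁻¹ w hw3 (hSp w hw2)] at hw1
    · have hzo' : ∀ g, A.act g p ≠ z := fun g hg => hzo ⟨g, hg⟩
      have h1 : ∀ᶠ w in 𝓝 z, DifferentiableAt ℂ Fp w := by
        have h2 := eventually_nhdsWithin_iff.1 (orbit_discrete A hp hz1)
        filter_upwards [h2, norm_lt_one_eventually hz1] with w hw1 hw2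
        by_cases hwz : w = z
        · rw [hwz]; exact hFp.diff z hz1 hzo'
        · exact hFp.diff w hw2 (hw1 hwz)
      have h3 : AnalyticAt ℂ Fp z := Complex.analyticAt_iff_eventually_differentiableAt.2 h1
      rcases h3.eventually_eq_or_eventually_ne (analyticAt_const (v := Fp q)) with h4 | h4
      · left
        exact nhdsWithin_le_nhds h4
      · right
        exact h4
  have hsub := (convex_ball (0:ℂ) 1).isPreconnected.subset_left_of_subset_union hZo hWo hdisj hcov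
    ⟨q, by simpa using hq, hqZ⟩
  exact Set.disjoint_left.1 hdisj (hsub (show p ∈ Metric.ball (0:ℂ) 1 by simpa using hp)) hpW

end Pool.Agent.Lib.KLP
end

section

/-!
# B9: forms of weight two vanish under NoBloch
-/

set_option autoImplicit false
open MeasureTheory Set Filter Topology
open scoped ENNReal ComplexConjugate

namespace Pool.Agent.Lib.KLP

variable {Δ : Type*} [Group Δ] {A : DAct Δ}

/-- Riemann extension over a discrete set, in the open disc. -/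
theorem exists_extension {S : Set ℂ} (hS : ∀ z, ‖z‖ < 1 → ∀ᶠ w in 𝓝[≠] z, w ∉ S)
    {f : ℂ → ℂ} (hd : ∀ z, ‖z‖ < 1 → z ∉ S → DifferentiableAt ℂ f z)
    (hb : ∀ z, ‖z‖ < 1 → ∃ B : ℝ, ∀ᶠ w in 𝓝[≠] z, ‖f w‖ ≤ B) :
    ∃ F : ℂ → ℂ, (∀ z, ‖z‖ < 1 → DifferentiableAt ℂ F z) ∧ ∀ z, ‖z‖ < 1 → z ∉ S → F z = f z := by
  classical
  have hnorm : ∀ z : ℂ, ‖z‖ < 1 → ∀ᶠ w in 𝓝 z, ‖w‖ < 1 := fun z hz =>
    continuous_norm.continuousAt.eventually_lt continuousAt_const hz
  have hFf : ∀ z, ‖z‖ < 1 → z ∉ S → limUnder (𝓝[≠] z) f = f z := fun z hz hzS =>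
    ((hd z hz hzS).continuousAt.tendsto.mono_left nhdsWithin_le_nhds).limUnder_eq
  refine ⟨fun z => limUnder (𝓝[≠] z) f, ?_, hFf⟩
  intro z hz
  obtain ⟨B, hB⟩ := hb z hz
  have h1 : ∀ᶠ w in 𝓝 z, w ≠ z → (‖w‖ < 1 ∧ w ∉ S ∧ ‖f w‖ ≤ B) := by
    have h0 : ∀ᶠ w in 𝓝[≠] z, ‖w‖ < 1 := nhdsWithin_le_nhds (hnorm z hz)
    have h2 : ∀ᶠ w in 𝓝[≠] z, ‖w‖ < 1 ∧ w ∉ S ∧ ‖f w‖ ≤ B :=
      h0.and ((hS z hz).and hB)
    exact eventually_nhdsWithin_iff.1 h2
  obtain ⟨s, hs, hsm⟩ := eventually_iff_exists_mem.1 h1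
  have hds : DifferentiableOn ℂ f (s \ {z}) := fun w hw =>
    (hd w (hsm w hw.1 hw.2).1 (hsm w hw.1 hw.2).2.1).differentiableWithinAt
  have hbs : BddAbove (norm ∘ f '' (s \ {z})) := by
    refine ⟨B, ?_⟩
    rintro _ ⟨w, hw, rfl⟩
    exact (hsm w hw.1 hw.2).2.2
  have h3 := Complex.differentiableOn_update_limUnder_of_bddAbove hs hds hbs
  have h4 : DifferentiableAt ℂ (Function.update f z (limUnder (𝓝[≠] z) f)) z :=
    h3.differentiableAt hs
  refine h4.congr_of_eventuallyEq ?_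
  filter_upwards [hs] with w hw
  by_cases hwz : w = z
  · rw [hwz, Function.update_self]
  · rw [Function.update_of_ne hwz]
    exact hFf w (hsm w hw hwz).1 (hsm w hw hwz).2.1

theorem weight_two_zero (h : HF A) (hNB : NoBloch A) {S : Set ℂ}
    (hS : ∀ z, ‖z‖ < 1 → ∀ᶠ w in 𝓝[≠] z, w ∉ S)
    {f : ℂ → ℂ} (hd : ∀ z, ‖z‖ < 1 → z ∉ S → DifferentiableAt ℂ f z)
    (hb : ∀ z, ‖z‖ < 1 → ∃ B : ℝ, ∀ᶠ w in 𝓝[≠] z, ‖f w‖ ≤ B)
    (hinv : ∀ g z, ‖z‖ < 1 → z ∉ S → f (A.act g z) * deriv (A.act g) z = f z) :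
    ∀ z, ‖z‖ < 1 → z ∉ S → f z = 0 := by
  obtain ⟨F, hFd, hFf⟩ := exists_extension hS hd hb
  have hnorm : ∀ z : ℂ, ‖z‖ < 1 → ∀ᶠ w in 𝓝 z, ‖w‖ < 1 := fun z hz =>
    continuous_norm.continuousAt.eventually_lt continuousAt_const hz
  -- `F` is a form of weight two
  have hFi : ∀ g z, ‖z‖ < 1 → F (A.act g z) * deriv (A.act g) z = F z := by
    intro g z hz
    have hgz := A.norm_act_lt g hz
    have c1 : ContinuousAt (fun w => F (A.act g w) * deriv (A.act g) w) z :=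
      (ContinuousAt.comp (f := A.act g) (g := F) (hFd _ hgz).continuousAt
        (differentiableAt_act h g hz).continuousAt).mul
        (differentiableAt_deriv_act h g hz).continuousAt
    have t1 := c1.tendsto.mono_left (nhdsWithin_le_nhds (s := {z}ᶜ))
    have t2 := (hFd z hz).continuousAt.tendsto.mono_left (nhdsWithin_le_nhds (s := {z}ᶜ))
    have e : (fun w => F (A.act g w) * deriv (A.act g) w) =ᶠ[𝓝[≠] z] F := by
      have h5 := (tendsto_act_punctured h g hz).eventually (hS _ hgz)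
      filter_upwards [h5, hS z hz, nhdsWithin_le_nhds (hnorm z hz)] with w hw1 hw2 hw3
      rw [hFf _ (A.norm_act_lt g hw3) hw1, hFf _ hw3 hw2, hinv g w hw3 hw2]
    exact tendsto_nhds_unique (t1.congr' e) t2
  have hFD : DifferentiableOn ℂ F (Metric.ball 0 1) := fun z hz =>
    (hFd z (by simpa using hz)).differentiableWithinAt
  obtain ⟨b, hb'⟩ := hFD.isExactOn_ball
  have hb'' : ∀ z : ℂ, ‖z‖ < 1 → HasDerivAt b (F z) z := fun z hz => hb' z (by simpa using hz)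
  obtain ⟨c, hc⟩ := hNB b (fun z hz => (hb'' z (by simpa using hz)).differentiableAt.differentiableWithinAt) (by
    intro g
    have hder : ∀ z : ℂ, ‖z‖ < 1 → HasDerivAt (fun w => b (A.act g w) - b w) 0 z := by
      intro z hz
      have h1 := (hb'' _ (A.norm_act_lt g hz)).comp z (differentiableAt_act h g hz).hasDerivAt
      have h2 := h1.sub (hb'' z hz)
      rw [hFi g z hz, sub_self] at h2
      exact h2
    refine ⟨b (A.act g 0) - b 0, fun z hz => ?_⟩
    have h3 := (convex_ball (0:ℂ) 1).is_const_of_fderivWithin_eq_zero (𝕜 := ℂ)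
      (f := fun w => b (A.act g w) - b w)
      (fun w hw => (hder w (by simpa using hw)).differentiableAt.differentiableWithinAt)
      (fun w hw => by
        rw [fderivWithin_of_isOpen Metric.isOpen_ball hw]
        have := (hder w (by simpa using hw)).hasFDerivAt.fderiv
        rw [this]
        ext
        simp)
      (show z ∈ Metric.ball (0:ℂ) 1 by simpa using hz)
      (show (0:ℂ) ∈ Metric.ball (0:ℂ) 1 by simp)
    have h4 : b (A.act g z) - b z = b (A.act g 0) - b 0 := h3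
    rw [← h4]
    ring)
  intro z hz hzS
  rw [← hFf z hz hzS]
  have h5 : HasDerivAt b 0 z := by
    refine (hasDerivAt_const z c).congr_of_eventuallyEq ?_
    filter_upwards [hnorm z hz] with w hw
    exact hc w hw
  exact (hb'' z hz).unique h5

end Pool.Agent.Lib.KLP
end

section

/-!
# B4: forms with simple zeros
-/

set_option autoImplicit false
open MeasureTheory Set Filter Topology
open scoped ENNReal ComplexConjugate

namespace Pool.Agent.Lib.KLP

variable {Δ : Type*} [Group Δ] {A : DAct Δ}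

private lemma wt_comb {k : ℕ} {f g : ℂ → ℂ} (hf : Wt A k f) (hg : Wt A k g) (c : ℂ) :
    Wt A k (fun z => f z + c * g z) := by
  refine ⟨hf.diff.add (hg.diff.const_mul c), fun γ z hz => ?_⟩
  have h1 := hf.eq γ z hz
  have h2 := hg.eq γ z hz
  linear_combination h1 + c * h2

private lemma wt_zero (k : ℕ) : Wt A k (fun _ => 0) :=
  ⟨differentiableOn_const 0, fun γ z _ => by simp⟩

private lemma exists_wt_nonzero {k : ℕ} (hk : ∀ q : ℂ, ‖q‖ < 1 → ∃ f, Wt A k f ∧ f q ≠ 0)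
    (Z : Finset ℂ) : (∀ z ∈ Z, ‖z‖ < 1) → ∃ f, Wt A k f ∧ ∀ z ∈ Z, f z ≠ 0 := by
  classical
  induction Z using Finset.induction_on with
  | empty => intro _; exact ⟨fun _ => 0, wt_zero k, by simp⟩
  | insert a Z ha ih =>
    intro hZ
    obtain ⟨f, hf, hfz⟩ := ih (fun z hz => hZ z (Finset.mem_insert_of_mem hz))
    obtain ⟨g, hg, hga⟩ := hk a (hZ a (Finset.mem_insert_self _ _))
    obtain ⟨c, hc⟩ := Infinite.exists_notMem_finset ((insert a Z).image (fun z => - f z / g z))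
    refine ⟨_, wt_comb hf hg c, fun z hz h0 => ?_⟩
    by_cases hgz : g z = 0
    · rcases Finset.mem_insert.mp hz with rfl | hz'
      · exact hga hgz
      · rw [hgz, mul_zero, add_zero] at h0
        exact hfz z hz' h0
    · apply hc
      refine Finset.mem_image.mpr ⟨z, hz, ?_⟩
      rw [div_eq_iff hgz]
      linear_combination -h0

private lemma exists_comb {f₁ f₂ : ℂ → ℂ} (h1 : DifferentiableOn ℂ f₁ (Metric.ball 0 1))
    (h2 : DifferentiableOn ℂ f₂ (Metric.ball 0 1))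
    (hcom : ∀ z, ‖z‖ < 1 → f₁ z = 0 → f₂ z ≠ 0) {q : ℂ} (hq : ‖q‖ < 1) (hfq : f₁ q ≠ 0) :
    ∃ c : ℂ, f₁ q + c * f₂ q ≠ 0 ∧
      ∀ z, ‖z‖ < 1 → f₁ z + c * f₂ z = 0 → deriv (fun z => f₁ z + c * f₂ z) z ≠ 0 := by
  have hU : IsOpen (Metric.ball (0 : ℂ) 1) := Metric.isOpen_ball
  have hpre : IsPreconnected (Metric.ball (0 : ℂ) 1) := (convex_ball (0 : ℂ) 1).isPreconnected
  have mem : ∀ z : ℂ, z ∈ Metric.ball (0 : ℂ) 1 ↔ ‖z‖ < 1 := fun z => by simp
  have a1 : AnalyticOnNhd ℂ f₁ (Metric.ball 0 1) := h1.analyticOnNhd hU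
  have a2 : AnalyticOnNhd ℂ f₂ (Metric.ball 0 1) := h2.analyticOnNhd hU
  have d1 : ∀ z, ‖z‖ < 1 → HasDerivAt f₁ (deriv f₁ z) z := fun z hz =>
    (a1 z ((mem z).2 hz)).differentiableAt.hasDerivAt
  have d2 : ∀ z, ‖z‖ < 1 → HasDerivAt f₂ (deriv f₂ z) z := fun z hz =>
    (a2 z ((mem z).2 hz)).differentiableAt.hasDerivAt
  have dc : ∀ (c : ℂ) z, ‖z‖ < 1 →
      deriv (fun z => f₁ z + c * f₂ z) z = deriv f₁ z + c * deriv f₂ z := fun c z hz =>
    ((d1 z hz).add ((d2 z hz).const_mul c)).deriv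
  set w : ℂ → ℂ := fun z => f₁ z * deriv f₂ z - deriv f₁ z * f₂ z with hw
  have aw : AnalyticOnNhd ℂ w (Metric.ball 0 1) := (a1.mul a2.deriv).sub (a1.deriv.mul a2)
  rcases aw.eqOn_zero_or_eventually_ne_zero_of_preconnected hpre with hz0 | hne
  · -- the Wronskian vanishes: `f₁` has no zeros
    refine ⟨0, by simpa using hfq, fun z hz h0 => ?_⟩
    exfalso
    rw [zero_mul, add_zero] at h0
    have hf2 := hcom z hz h0
    -- a ball around z where `f₂` does not vanish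
    have hev : ∀ᶠ y in 𝓝 z, f₂ y ≠ 0 ∧ y ∈ Metric.ball (0 : ℂ) 1 :=
      ((a2 z ((mem z).2 hz)).continuousAt.eventually_ne hf2).and (hU.mem_nhds ((mem z).2 hz))
    obtain ⟨r, hr, hball⟩ := Metric.eventually_nhds_iff_ball.mp hev
    have hconst : ∀ y ∈ Metric.ball z r, f₁ y / f₂ y = f₁ z / f₂ z := by
      intro y hy
      have hd : ∀ x ∈ Metric.ball z r, HasDerivAt (fun x => f₁ x / f₂ x) 0 x := by
        intro x hx
        have hx' := (mem x).1 (hball x hx).2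
        have h3 := (d1 x hx').div (d2 x hx') (hball x hx).1
        have h4 : (deriv f₁ x * f₂ x - f₁ x * deriv f₂ x) / f₂ x ^ 2 = 0 := by
          have h5 : w x = 0 := hz0 (hball x hx).2
          have h6 : deriv f₁ x * f₂ x - f₁ x * deriv f₂ x = - w x := by rw [hw]; ring
          rw [h6, h5, neg_zero, zero_div]
        rw [h4] at h3
        exact h3
      have hdo : DifferentiableOn ℂ (fun x => f₁ x / f₂ x) (Metric.ball z r) := fun x hx =>
        (hd x hx).differentiableAt.differentiableWithinAt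
      exact (convex_ball z r).is_const_of_fderivWithin_eq_zero (𝕜 := ℂ) hdo (fun x hx => by
        rw [fderivWithin_of_isOpen Metric.isOpen_ball hx]
        have := (hd x hx).hasFDerivAt.fderiv
        rw [this]
        ext
        simp) hy (Metric.mem_ball_self hr)
    have hzero : ∀ᶠ y in 𝓝 z, f₁ y = 0 := by
      filter_upwards [Metric.ball_mem_nhds z hr] with y hy
      have h7 := hconst y hy
      rw [h0, zero_div, div_eq_zero_iff] at h7
      exact h7.resolve_right (hball y hy).1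
    have := a1.eqOn_zero_of_preconnected_of_eventuallyEq_zero hpre ((mem z).2 hz) hzero
    exact hfq (this ((mem q).2 hq))
  · -- the zeros of the Wronskian are countable
    have hcnt : ({z | w z = 0} ∩ Metric.ball (0 : ℂ) 1).Countable :=
      (HereditarilyLindelofSpace.isLindelof _).countable_of_isDiscrete
        (isDiscrete_of_codiscreteWithin (by
          have : {z | w z = 0}ᶜ = {z | w z ≠ 0} := by ext; simp
          rw [this]; exact hne))
    have hbad : (insert (- f₁ q / f₂ q)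
        ((fun z => - f₁ z / f₂ z) '' ({z | w z = 0} ∩ Metric.ball (0 : ℂ) 1))).Countable :=
      (hcnt.image _).insert _
    obtain ⟨c, hc⟩ := (hbad.dense_compl ℝ).nonempty
    have hc1 : c ≠ - f₁ q / f₂ q := fun h => hc (by rw [h]; exact mem_insert _ _)
    have hc2 : ∀ z, ‖z‖ < 1 → w z = 0 → c ≠ - f₁ z / f₂ z := fun z hz hwz h =>
      hc (mem_insert_of_mem _ ⟨z, ⟨hwz, (mem z).2 hz⟩, h.symm⟩)
    refine ⟨c, ?_, fun z hz h0 => ?_⟩
    · by_cases hq2 : f₂ q = 0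
      · rw [hq2, mul_zero, add_zero]; exact hfq
      · intro h0
        apply hc1
        rw [eq_div_iff hq2]
        linear_combination h0
    · rw [dc c z hz]
      intro h0'
      have hf2 : f₂ z ≠ 0 := by
        intro h
        rw [h, mul_zero, add_zero] at h0
        exact hcom z hz h0 h
      have hwz : w z = 0 := by
        rw [hw]
        linear_combination deriv f₂ z * h0 - f₂ z * h0'
      apply hc2 z hz hwz
      rw [eq_div_iff hf2]
      linear_combination h0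

theorem exists_simple (h : HF A) : ∃ k : ℕ, 2 ≤ k ∧ ∀ q : ℂ, ‖q‖ < 1 →
    ∃ f, Wt A k f ∧ f q ≠ 0 ∧ ∀ z, ‖z‖ < 1 → f z = 0 → deriv f z ≠ 0 := by
  obtain ⟨k, hk, hnv⟩ := exists_nonvan h
  refine ⟨k, hk, fun q hq => ?_⟩
  obtain ⟨f₁, hf₁, hf₁q⟩ := hnv q hq
  obtain ⟨Z, hZ, -, hZ3⟩ := zeros_finite h hf₁ hq hf₁q
  obtain ⟨f₂, hf₂, hf₂Z⟩ := exists_wt_nonzero hnv Z (fun z hz => (hZ z hz).1)
  have hcom : ∀ z, ‖z‖ < 1 → f₁ z = 0 → f₂ z ≠ 0 := by
    intro z hz h0 h0'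
    obtain ⟨w, hw, g, hg⟩ := hZ3 z hz h0
    have h1 := hf₂.eq g w (hZ w hw).1
    rw [hg, h0', zero_mul] at h1
    exact hf₂Z w hw h1.symm
  obtain ⟨c, hc, hc'⟩ := exists_comb hf₁.diff hf₂.diff hcom hq hf₁q
  exact ⟨_, wt_comb hf₁ hf₂ c, hc, hc'⟩

end Pool.Agent.Lib.KLP
end

section

/-!
# B10: surjectivity of evaluation at the zeros of a form
-/

set_option autoImplicit false
open MeasureTheory Set Filter Topology
open scoped ENNReal ComplexConjugate

namespace Pool.Agent.Lib.KLP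

variable {Δ : Type*} [Group Δ] {A : DAct Δ}

private theorem es_differentiableAt {f : ℂ → ℂ} (hf : DifferentiableOn ℂ f (Metric.ball 0 1))
    {z : ℂ} (hz : ‖z‖ < 1) : DifferentiableAt ℂ f z :=
  hf.differentiableAt (Metric.isOpen_ball.mem_nhds (by simpa using hz))

private theorem es_key (h : HF A) (hNB : NoBloch A) {k : ℕ} (hk : 2 ≤ k) {f : ℂ → ℂ}
    (hf : Wt A k f) (hsimple : ∀ z, ‖z‖ < 1 → f z = 0 → deriv f z ≠ 0) (Z : Finset ℂ)
    (hZ : ∀ z ∈ Z, ‖z‖ < 1 ∧ f z = 0) (hineq : ∀ z ∈ Z, ∀ w ∈ Z, ∀ g, A.act g z = w → z = w)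
    (c : ℂ → ℂ) (hc : ∀ g, Wt A k g → ∑ z ∈ Z, c z * g z = 0) : ∀ z ∈ Z, c z = 0 := by
  classical
  set S : Set ℂ := {ζ | ∃ z ∈ Z, ∃ g, A.act g z = ζ} with hSdef
  have hS : ∀ z, ‖z‖ < 1 → ∀ᶠ w in 𝓝[≠] z, w ∉ S := by
    intro w hw
    have h1 : ∀ᶠ ζ in 𝓝[≠] w, ∀ z ∈ Z, ∀ g, A.act g z ≠ ζ := by
      rw [Finset.eventually_all]
      intro z hz
      exact orbit_discrete A (hZ z hz).1 hw
    filter_upwards [h1] with ζ hζ
    rintro ⟨z, hz, g, hg⟩
    exact hζ z hz g hg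
  set R : ℂ → ℂ := fun ζ => ∑ z ∈ Z, c z * ker A k z ζ with hR
  set ω : ℂ → ℂ := fun ζ => f ζ * R ζ with hω
  have hd : ∀ z, ‖z‖ < 1 → z ∉ S → DifferentiableAt ℂ ω z := by
    intro ζ hζ hζS
    refine (es_differentiableAt hf.diff hζ).mul ?_
    refine DifferentiableAt.fun_sum fun z hz => ?_
    refine DifferentiableAt.const_mul ?_ _
    exact ker_zeta_diff h hk (hZ z hz).1 hζ (fun g hg => hζS ⟨z, hz, g, hg⟩)
  have hinv : ∀ g z, ‖z‖ < 1 → z ∉ S → ω (A.act g z) * deriv (A.act g) z = ω z := by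
    intro d ζ hζ hζS
    obtain ⟨gd, hgd, hgd2⟩ := ker_eq h hk d hζ
    have h1 : R (A.act d ζ) = (deriv (A.act d) ζ) ^ (k - 1) * R ζ := by
      have h2 : R (A.act d ζ) = ∑ z ∈ Z, ((deriv (A.act d) ζ) ^ (k - 1) * (c z * ker A k z ζ) +
          (deriv (A.act d) ζ) ^ (k - 1) * (c z * gd z)) := by
        refine Finset.sum_congr rfl fun z hz => ?_
        rw [hgd2 z (hZ z hz).1 (fun g hg => hζS ⟨z, hz, g, hg⟩)]
        ring
      rw [h2, Finset.sum_add_distrib, ← Finset.mul_sum, ← Finset.mul_sum, hc gd hgd, mul_zero,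
        add_zero]
    have h3 := hf.eq d ζ hζ
    have h4 : (deriv (A.act d) ζ) ^ k = (deriv (A.act d) ζ) ^ (k - 1) * deriv (A.act d) ζ := by
      rw [← pow_succ, Nat.sub_add_cancel (by omega)]
    calc ω (A.act d ζ) * deriv (A.act d) ζ
        = f (A.act d ζ) * R (A.act d ζ) * deriv (A.act d) ζ := rfl
      _ = f (A.act d ζ) * (deriv (A.act d) ζ) ^ k * R ζ := by
          rw [h1, h4]
          ring
      _ = ω ζ := by rw [h3]
  -- the limit of `ω` at the points of `Z`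
  have hlim : ∀ z₀ ∈ Z, Tendsto ω (𝓝[≠] z₀) (𝓝 (-(c z₀ * deriv f z₀))) := by
    intro z₀ hz₀
    obtain ⟨hz1, hfz⟩ := hZ z₀ hz₀
    have hfd := es_differentiableAt hf.diff hz1
    obtain ⟨r, hr, hker⟩ := ker_zeta_pole h hk hz1
    have h1 : Tendsto (fun ζ => f ζ * (1 / (z₀ - ζ))) (𝓝[≠] z₀) (𝓝 (-(deriv f z₀))) := by
      have h2 := (hasDerivAt_iff_tendsto_slope.1 hfd.hasDerivAt).neg
      refine h2.congr fun ζ => ?_
      rw [slope_def_field, hfz, sub_zero, one_div, ← neg_sub ζ z₀, inv_neg, div_eq_mul_inv]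
      ring
    have h2 : Tendsto f (𝓝[≠] z₀) (𝓝 0) := by
      have := hfd.continuousAt.tendsto
      rw [hfz] at this
      exact this.mono_left nhdsWithin_le_nhds
    have h3 : Tendsto r (𝓝[≠] z₀) (𝓝 (r z₀)) :=
      hr.continuousAt.tendsto.mono_left nhdsWithin_le_nhds
    have h4 : Tendsto (fun ζ => ∑ z ∈ Z.erase z₀, c z * ker A k z ζ) (𝓝[≠] z₀)
        (𝓝 (∑ z ∈ Z.erase z₀, c z * ker A k z z₀)) := by
      refine Tendsto.mono_left ?_ nhdsWithin_le_nhds
      refine tendsto_finsetSum _ fun z hz => ?_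
      refine Tendsto.const_mul _ ?_
      obtain ⟨hne, hzZ⟩ := Finset.mem_erase.1 hz
      exact (ker_zeta_diff h hk (hZ z hzZ).1 hz1
        (fun g hg => hne (hineq z hzZ z₀ hz₀ g hg))).continuousAt.tendsto
    have h5 : Tendsto (fun ζ => c z₀ * (f ζ * (1 / (z₀ - ζ)) + f ζ * r ζ) +
        f ζ * ∑ z ∈ Z.erase z₀, c z * ker A k z ζ) (𝓝[≠] z₀)
        (𝓝 (c z₀ * (-(deriv f z₀) + 0 * r z₀) +
          0 * ∑ z ∈ Z.erase z₀, c z * ker A k z z₀)) :=
      ((h1.add (h2.mul h3)).const_mul _).add (h2.mul h4)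
    have h6 : c z₀ * (-(deriv f z₀) + 0 * r z₀) + 0 * ∑ z ∈ Z.erase z₀, c z * ker A k z z₀ =
        -(c z₀ * deriv f z₀) := by ring
    rw [h6] at h5
    refine h5.congr' ?_
    filter_upwards [hker] with ζ hζ
    have h7 : R ζ = c z₀ * ker A k z₀ ζ + ∑ z ∈ Z.erase z₀, c z * ker A k z ζ :=
      (Finset.add_sum_erase Z (fun z => c z * ker A k z ζ) hz₀).symm
    change _ = f ζ * R ζ
    rw [h7, hζ]
    ring
  have hb : ∀ z, ‖z‖ < 1 → ∃ B : ℝ, ∀ᶠ w in 𝓝[≠] z, ‖ω w‖ ≤ B := by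
    have hbnd : ∀ (z : ℂ) (L : ℂ), Tendsto ω (𝓝[≠] z) (𝓝 L) →
        ∃ B : ℝ, ∀ᶠ w in 𝓝[≠] z, ‖ω w‖ ≤ B := by
      intro z L hL
      refine ⟨‖L‖ + 1, ?_⟩
      exact (hL.norm.eventually (gt_mem_nhds (lt_add_one ‖L‖))).mono fun w hw => hw.le
    intro ζ₀ hζ₀
    by_cases hζS : ζ₀ ∈ S
    · obtain ⟨z₀, hz₀, g, hg⟩ := hζS
      obtain ⟨B, hB⟩ := hbnd z₀ _ (hlim z₀ hz₀)
      have hz1 := (hZ z₀ hz₀).1
      have hgz : A.act g⁻¹ ζ₀ = z₀ := by
        rw [← hg]
        exact A.inv_act_act g hz1.le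
      have hball : ∀ᶠ ζ in 𝓝[≠] ζ₀, ‖ζ‖ < 1 := by
        have h1 : Metric.ball (0 : ℂ) 1 ∈ 𝓝 ζ₀ :=
          Metric.isOpen_ball.mem_nhds (by simpa using hζ₀)
        filter_upwards [nhdsWithin_le_nhds h1] with ζ hζ
        simpa using hζ
      have hne : ∀ᶠ ζ in 𝓝[≠] ζ₀, ζ ≠ ζ₀ := eventually_mem_nhdsWithin
      have ht : Tendsto (A.act g⁻¹) (𝓝[≠] ζ₀) (𝓝[≠] z₀) := by
        rw [tendsto_nhdsWithin_iff]
        constructor
        · have := (differentiableAt_act h g⁻¹ hζ₀).continuousAt.tendsto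
          rw [hgz] at this
          exact this.mono_left nhdsWithin_le_nhds
        · filter_upwards [hball, hne] with ζ h1 h2 h3
          apply h2
          have h4 : A.act g (A.act g⁻¹ ζ) = ζ := A.act_inv_act g h1.le
          rw [← h4, h3, hg]
      have h5 := ht.eventually hB
      have h6 : ∀ᶠ ζ in 𝓝[≠] ζ₀, ‖deriv (A.act g⁻¹) ζ‖ ≤ ‖deriv (A.act g⁻¹) ζ₀‖ + 1 := by
        have h7 := (differentiableAt_deriv_act h g⁻¹ hζ₀).continuousAt.tendsto.norm
        have h8 := h7.eventually (gt_mem_nhds (lt_add_one ‖deriv (A.act g⁻¹) ζ₀‖))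
        exact (Filter.Eventually.filter_mono nhdsWithin_le_nhds h8).mono fun w hw => hw.le
      refine ⟨B * (‖deriv (A.act g⁻¹) ζ₀‖ + 1), ?_⟩
      filter_upwards [h5, h6, hball, hS ζ₀ hζ₀] with ζ h1 h2 h3 h4
      rw [← hinv g⁻¹ ζ h3 h4, norm_mul]
      exact mul_le_mul h1 h2 (norm_nonneg _) ((norm_nonneg _).trans h1)
    · exact hbnd ζ₀ _ ((hd ζ₀ hζ₀ hζS).continuousAt.tendsto.mono_left nhdsWithin_le_nhds)
  have hzero := weight_two_zero h hNB hS hd hb hinv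
  intro z₀ hz₀
  have hz1 := (hZ z₀ hz₀).1
  have hball : ∀ᶠ ζ in 𝓝[≠] z₀, ‖ζ‖ < 1 := by
    have h1 : Metric.ball (0 : ℂ) 1 ∈ 𝓝 z₀ :=
      Metric.isOpen_ball.mem_nhds (by simpa using hz1)
    filter_upwards [nhdsWithin_le_nhds h1] with ζ hζ
    simpa using hζ
  have h1 : Tendsto ω (𝓝[≠] z₀) (𝓝 0) := by
    refine Tendsto.congr' (f₁ := fun _ => (0 : ℂ)) ?_ tendsto_const_nhds
    filter_upwards [hball, hS z₀ hz1] with ζ h1 h2
    exact (hzero ζ h1 h2).symm
  have h2 := tendsto_nhds_unique (hlim z₀ hz₀) h1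
  have h3 : c z₀ * deriv f z₀ = 0 := neg_eq_zero.1 h2
  exact (mul_eq_zero.1 h3).resolve_right (hsimple z₀ hz1 (hZ z₀ hz₀).2)

private theorem es_add {k : ℕ} {f g : ℂ → ℂ} (hf : Wt A k f) (hg : Wt A k g) :
    Wt A k (fun z => f z + g z) := by
  refine ⟨hf.diff.add hg.diff, fun a z hz => ?_⟩
  rw [add_mul, hf.eq a z hz, hg.eq a z hz]

private theorem es_smul {k : ℕ} {f : ℂ → ℂ} (hf : Wt A k f) (c : ℂ) :
    Wt A k (fun z => c * f z) := by
  refine ⟨hf.diff.const_mul c, fun a z hz => ?_⟩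
  rw [mul_assoc, hf.eq a z hz]

private theorem es_zero (k : ℕ) : Wt A k (fun _ => 0) :=
  ⟨differentiableOn_const 0, fun a z _ => by simp⟩

theorem eval_surj (h : HF A) (hNB : NoBloch A) {k : ℕ} (hk : 2 ≤ k) {f : ℂ → ℂ}
    (hf : Wt A k f) (hsimple : ∀ z, ‖z‖ < 1 → f z = 0 → deriv f z ≠ 0) (Z : Finset ℂ)
    (hZ : ∀ z ∈ Z, ‖z‖ < 1 ∧ f z = 0) (hineq : ∀ z ∈ Z, ∀ w ∈ Z, ∀ g, A.act g z = w → z = w)
    (v : ℂ → ℂ) : ∃ g, Wt A k g ∧ ∀ z ∈ Z, g z = v z := by
  classical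
  set V : Submodule ℂ (Z → ℂ) :=
    { carrier := {v | ∃ g, Wt A k g ∧ ∀ z : Z, g z = v z}
      add_mem' := by
        rintro a b ⟨g, hg, hga⟩ ⟨g', hg', hgb⟩
        refine ⟨_, es_add hg hg', fun z => ?_⟩
        rw [hga z, hgb z]
        rfl
      zero_mem' := ⟨_, es_zero k, fun z => rfl⟩
      smul_mem' := by
        rintro c a ⟨g, hg, hga⟩
        refine ⟨_, es_smul hg c, fun z => ?_⟩
        rw [hga z]
        rfl } with hV
  have htop : V = ⊤ := by
    by_contra hne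
    obtain ⟨φ, hφ, hle⟩ := V.exists_le_ker_of_lt_top (lt_top_iff_ne_top.2 hne)
    apply hφ
    set c : ℂ → ℂ := fun z => if hz : z ∈ Z then φ (Pi.single ⟨z, hz⟩ 1) else 0 with hc
    have hφc : ∀ a : Z → ℂ, φ a = ∑ z : Z, c z * a z := by
      intro a
      have h1 : a = ∑ z : Z, a z • (Pi.single z (1 : ℂ) : Z → ℂ) := by
        ext w
        simp [Finset.sum_apply, Pi.single_apply]
      conv_lhs => rw [h1]
      rw [map_sum]
      refine Finset.sum_congr rfl fun z _ => ?_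
      rw [map_smul, smul_eq_mul, mul_comm]
      simp only [hc]
      rw [dif_pos z.2]
    have h2 := es_key h hNB hk hf hsimple Z hZ hineq c (fun g hg => by
      have h3 : (fun z : Z => g z) ∈ V := ⟨g, hg, fun z => rfl⟩
      have h4 := hle h3
      rw [LinearMap.mem_ker, hφc] at h4
      rw [← Finset.sum_coe_sort Z (fun z => c z * g z)]
      exact h4)
    ext a
    simp only [LinearMap.comp_apply, LinearMap.zero_apply]
    rw [hφc]
    refine Finset.sum_eq_zero fun z _ => ?_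
    rw [h2 z z.2, zero_mul]
  have h1 : (fun z : Z => v z) ∈ V := by
    rw [htop]
    trivial
  obtain ⟨g, hg, hgv⟩ := h1
  exact ⟨g, hg, fun z hz => hgv ⟨z, hz⟩⟩

end Pool.Agent.Lib.KLP
end

section

/-!
# B11: an invariant function with one simple pole
-/

set_option autoImplicit false
open MeasureTheory Set Filter Topology
open scoped ENNReal ComplexConjugate

namespace Pool.Agent.Lib.KLP

variable {Δ : Type*} [Group Δ] {A : DAct Δ}

private theorem fq_differentiableAt {f : ℂ → ℂ} (hf : DifferentiableOn ℂ f (Metric.ball 0 1))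
    {z : ℂ} (hz : ‖z‖ < 1) : DifferentiableAt ℂ f z :=
  hf.differentiableAt (Metric.isOpen_ball.mem_nhds (by simpa using hz))

private theorem fq_ball {z : ℂ} (hz : ‖z‖ < 1) : ∀ᶠ w in 𝓝 z, ‖w‖ < 1 := by
  have h1 : Metric.ball (0 : ℂ) 1 ∈ 𝓝 z := Metric.isOpen_ball.mem_nhds (by simpa using hz)
  filter_upwards [h1] with ζ hζ
  simpa using hζ

/-- derivative of the weight equation at a zero -/
private theorem fq_deriv (h : HF A) {k : ℕ} {φ : ℂ → ℂ}
    (hφ : ∀ g z, ‖z‖ < 1 → φ (A.act g z) * (deriv (A.act g) z) ^ k = φ z) (g : Δ) {z : ℂ}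
    (hz : ‖z‖ < 1) (hd : DifferentiableAt ℂ φ (A.act g z)) (h0 : φ (A.act g z) = 0) :
    deriv φ (A.act g z) * (deriv (A.act g) z) ^ (k + 1) = deriv φ z := by
  have h1 : HasDerivAt (fun w => φ (A.act g w)) (deriv φ (A.act g z) * deriv (A.act g) z) z :=
    hd.hasDerivAt.comp z (differentiableAt_act h g hz).hasDerivAt
  have h2 := h1.mul (((differentiableAt_deriv_act h g hz).pow k).hasDerivAt)
  have h3 : (fun w => φ (A.act g w)) * (fun w => deriv (A.act g) w) ^ k =ᶠ[𝓝 z] φ := by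
    filter_upwards [fq_ball hz] with w hw
    exact hφ g w hw
  have h4 := h2.congr_of_eventuallyEq h3.symm
  rw [h4.deriv, h0, zero_mul, add_zero]
  simp only [Pi.pow_apply]
  ring

/-- quotient of two functions at a common simple zero -/
private theorem fq_quot {f k : ℂ → ℂ} {z : ℂ} {s : Set ℂ} (hs : s ∈ 𝓝 z)
    (hf : DifferentiableOn ℂ f s) (hk : DifferentiableOn ℂ k s) (hf0 : f z = 0) (hk0 : k z = 0)
    (hf1 : deriv f z ≠ 0) :
    DifferentiableAt ℂ (fun w => if f w = 0 then deriv k w / deriv f w else k w / f w) z := by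
  have h1 : DifferentiableAt ℂ (dslope f z) z :=
    ((Complex.differentiableOn_dslope hs).2 hf).differentiableAt hs
  have h2 : DifferentiableAt ℂ (dslope k z) z :=
    ((Complex.differentiableOn_dslope hs).2 hk).differentiableAt hs
  have h3 : dslope f z z ≠ 0 := by rwa [dslope_same]
  refine (h2.div h1 h3).congr_of_eventuallyEq ?_
  filter_upwards [h1.continuousAt.eventually_ne h3] with w hw
  by_cases hwz : w = z
  · subst hwz
    rw [if_pos hf0]
    simp [dslope_same]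
  · have e1 : f w = (w - z) * dslope f z w := by
      have := sub_smul_dslope f z w
      rw [hf0, sub_zero, smul_eq_mul] at this
      exact this.symm
    have e2 : k w = (w - z) * dslope k z w := by
      have := sub_smul_dslope k z w
      rw [hk0, sub_zero, smul_eq_mul] at this
      exact this.symm
    have hwz' : w - z ≠ 0 := sub_ne_zero.2 hwz
    have e3 : f w ≠ 0 := by
      rw [e1]
      exact mul_ne_zero hwz' hw
    rw [if_neg e3, e1, e2, mul_div_mul_left _ _ hwz']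
    rfl

theorem exists_Fq (h : HF A) (hNB : NoBloch A) {q : ℂ} (hq : ‖q‖ < 1) : ∃ F, IsFq A q F := by
  obtain ⟨k, hk, hkf⟩ := exists_simple h
  obtain ⟨f, hf, hfq, hsimple⟩ := hkf q hq
  obtain ⟨Z, hZ, hineq, hcov⟩ := zeros_finite h hf hq hfq
  obtain ⟨g, hg, hgZ⟩ := eval_surj h hNB hk hf hsimple Z hZ hineq
    (fun z => -(f q * ker A k z q))
  set φ : ℂ → ℂ := fun z => f q * ker A k z q + g z with hφdef
  have hφw : ∀ a z, ‖z‖ < 1 → φ (A.act a z) * (deriv (A.act a) z) ^ k = φ z := by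
    intro a z hz
    have h1 := ker_z_wt h k a hz q
    have h2 := hg.eq a z hz
    calc φ (A.act a z) * (deriv (A.act a) z) ^ k =
        f q * (ker A k (A.act a z) q * (deriv (A.act a) z) ^ k) +
          g (A.act a z) * (deriv (A.act a) z) ^ k := by
          simp only [hφdef]
          ring
      _ = φ z := by rw [h1, h2]
  have hφd : ∀ z, ‖z‖ < 1 → (∀ a, A.act a q ≠ z) → DifferentiableAt ℂ φ z := by
    intro z hz hne
    refine DifferentiableAt.add (DifferentiableAt.const_mul ?_ _) (fq_differentiableAt hg.diff hz)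
    refine ker_z_diff h hk hz hq fun a ha => ?_
    apply hne a⁻¹
    rw [← ha]
    exact A.inv_act_act a hz.le
  have hφ0 : ∀ z, ‖z‖ < 1 → f z = 0 → φ z = 0 := by
    intro z hz hfz
    obtain ⟨w, hw, a, ha⟩ := hcov z hz hfz
    have hw1 := (hZ w hw).1
    have h1 : φ w = 0 := by
      simp only [hφdef]
      rw [hgZ w hw]
      ring
    have h2 := hφw a w hw1
    rw [h1, ha] at h2
    exact (mul_eq_zero.1 h2).resolve_right (pow_ne_zero _ (deriv_act_ne_zero h a hw1))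
  have hoff : ∀ (a : Δ) (z : ℂ), ‖z‖ < 1 → (∀ b, A.act b q ≠ z) → ∀ b, A.act b q ≠ A.act a z := by
    intro a z hz hne b hb
    apply hne (a⁻¹ * b)
    rw [A.mul _ _ _ hq.le, hb]
    exact A.inv_act_act a hz.le
  refine ⟨fun w => if f w = 0 then deriv φ w / deriv f w else φ w / f w, ?_, ?_, ?_⟩
  · intro z hz hne
    have hfd := fq_differentiableAt hf.diff hz
    by_cases hfz : f z = 0
    · have hev : ∀ᶠ w in 𝓝 z, ∀ b, A.act b q ≠ w := by
        have h1 := orbit_discrete A hq hz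
        rw [eventually_nhdsWithin_iff] at h1
        filter_upwards [h1] with w hw b hb
        by_cases hwz : w = z
        · subst hwz
          exact hne b hb
        · exact hw hwz b hb
      refine fq_quot (s := {w | ‖w‖ < 1 ∧ ∀ b, A.act b q ≠ w}) ((fq_ball hz).and hev)
        ?_ ?_ hfz (hφ0 z hz hfz) (hsimple z hz hfz)
      · intro w hw
        exact (fq_differentiableAt hf.diff hw.1).differentiableWithinAt
      · intro w hw
        exact (hφd w hw.1 hw.2).differentiableWithinAt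
    · refine ((hφd z hz hne).div hfd hfz).congr_of_eventuallyEq ?_
      filter_upwards [hfd.continuousAt.eventually_ne hfz] with w hw
      rw [if_neg hw]
      rfl
  · intro a z hz hne
    have hD := deriv_act_ne_zero h a hz
    have hfw := hf.eq a z hz
    have hφz := hφw a z hz
    by_cases hfz : f z = 0
    · have hfa : f (A.act a z) = 0 := by
        rw [hfz] at hfw
        exact (mul_eq_zero.1 hfw).resolve_right (pow_ne_zero _ hD)
      have haz := A.norm_act_lt a hz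
      have hφa := hφ0 _ haz hfa
      have h1 := fq_deriv h hf.eq a hz (fq_differentiableAt hf.diff haz) hfa
      have h2 := fq_deriv h hφw a hz (hφd _ haz (hoff a z hz hne)) hφa
      simp only [hfa, hfz, if_true]
      rw [← h1, ← h2, mul_div_mul_right _ _ (pow_ne_zero _ hD)]
    · have hfa : f (A.act a z) ≠ 0 := by
        intro h0
        rw [h0, zero_mul] at hfw
        exact hfz hfw.symm
      simp only [hfa, hfz, if_false]
      rw [← hfw, ← hφz, mul_div_mul_right _ _ (pow_ne_zero _ hD)]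
  · obtain ⟨r0, hr0, hker⟩ := ker_z_pole h hk hq
    have hball : Metric.ball (0 : ℂ) 1 ∈ 𝓝 q := Metric.isOpen_ball.mem_nhds (by simpa using hq)
    have hfa : AnalyticAt ℂ f q := hf.diff.analyticAt hball
    have hga : AnalyticAt ℂ g q := hg.diff.analyticAt hball
    have hua : AnalyticAt ℂ (fun z => f q / f z) q := analyticAt_const.div hfa hfq
    have hda : AnalyticAt ℂ (dslope (fun z => f q / f z) q) q := by
      obtain ⟨p, hp⟩ := hua
      exact hp.has_fpower_series_dslope_fslope.analyticAt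
    refine ⟨fun z => dslope (fun z => f q / f z) q z + f q / f z * r0 z + g z / f z,
      (hda.add (hua.mul hr0)).add (hga.div hfa hfq), ?_⟩
    have hfne : ∀ᶠ z in 𝓝[≠] q, f z ≠ 0 :=
      (hfa.continuousAt.eventually_ne hfq).filter_mono nhdsWithin_le_nhds
    have hne : ∀ᶠ z in 𝓝[≠] q, z ≠ q := eventually_mem_nhdsWithin
    filter_upwards [hker, hfne, hne] with z h1 h2 h3
    have h4 : z - q ≠ 0 := sub_ne_zero.2 h3
    rw [if_neg h2]
    have h5 : (z - q) * dslope (fun z => f q / f z) q z = f q / f z - 1 := by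
      have := sub_smul_dslope (fun z => f q / f z) q z
      rw [smul_eq_mul] at this
      rw [this, div_self hfq]
    have h6 : dslope (fun z => f q / f z) q z = (f q / f z - 1) / (z - q) := by
      rw [eq_div_iff h4, mul_comm]
      exact h5
    simp only [hφdef]
    rw [h6, h1]
    field_simp
    ring

end Pool.Agent.Lib.KLP
end

section

/-!
# B13: existence of Bloch functions
-/

set_option autoImplicit false
open MeasureTheory Set Filter Topology
open scoped ENNReal ComplexConjugate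

namespace Pool.Agent.Lib.KLP

variable {Δ : Type*} [Group Δ] {A : DAct Δ}

theorem exists_bloch (h : HF A) : ¬ NoBloch A := by
  intro hNB
  have h01 : ‖(0 : ℂ)‖ < 1 := by simp
  obtain ⟨Fp, hFp⟩ := exists_Fq h hNB h01
  obtain ⟨k, hk, hnv⟩ := exists_nonvan h
  obtain ⟨f, hf, hf0⟩ := hnv 0 h01
  set S : Set ℂ := {z | ∃ g, A.act g 0 = z} with hSdef
  have hnotS : ∀ z, z ∉ S → ∀ g, A.act g 0 ≠ z := fun z hz g hg => hz ⟨g, hg⟩
  have hS : ∀ z, ‖z‖ < 1 → ∀ᶠ w in 𝓝[≠] z, w ∉ S := by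
    intro z hz
    filter_upwards [orbit_discrete A h01 hz] with w hw
    rintro ⟨g, hg⟩
    exact hw g hg
  have hnorm : ∀ z : ℂ, ‖z‖ < 1 → ∀ᶠ w in 𝓝 z, ‖w‖ < 1 := fun z hz =>
    continuous_norm.continuousAt.eventually_lt continuousAt_const hz
  have hSopen : ∀ z, ‖z‖ < 1 → z ∉ S → ∀ᶠ w in 𝓝 z, ‖w‖ < 1 ∧ w ∉ S := by
    intro z hz hzS
    have h1 := eventually_nhdsWithin_iff.1 (hS z hz)
    filter_upwards [h1, hnorm z hz] with w hw hw1
    refine ⟨hw1, ?_⟩
    by_cases hwz : w = z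
    · rw [hwz]; exact hzS
    · exact hw hwz
  have hne : ∀ z, ‖z‖ < 1 → z ∉ S → deriv Fp z ≠ 0 := by
    intro z hz hzS
    obtain ⟨Fz, hFz⟩ := exists_Fq h hNB hz
    exact Fq_deriv_ne h h01 hz (hnotS z hzS) hFp hFz
  have hdF : ∀ z, ‖z‖ < 1 → z ∉ S → DifferentiableAt ℂ Fp z := fun z hz hzS =>
    hFp.diff z hz (hnotS z hzS)
  have hdd : ∀ z, ‖z‖ < 1 → z ∉ S → DifferentiableAt ℂ (deriv Fp) z := by
    intro z hz hzS
    have h1 : ∀ᶠ w in 𝓝 z, DifferentiableAt ℂ Fp w := by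
      filter_upwards [hSopen z hz hzS] with w hw
      exact hdF w hw.1 hw.2
    have h2 : AnalyticAt ℂ Fp z := Complex.analyticAt_iff_eventually_differentiableAt.2 h1
    exact h2.deriv.differentiableAt
  have hfd : ∀ z, ‖z‖ < 1 → DifferentiableAt ℂ f z := fun z hz =>
    (hf.diff z (by simpa using hz)).differentiableAt
      (Metric.isOpen_ball.mem_nhds (by simpa using hz))
  have hSact : ∀ g z, ‖z‖ < 1 → z ∉ S → A.act g z ∉ S := by
    rintro g z hz hzS ⟨g', hg'⟩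
    apply hzS
    refine ⟨g⁻¹ * g', ?_⟩
    rw [A.mul _ _ _ h01.le, hg', A.inv_act_act g hz.le]
  set G : ℂ → ℂ := fun z => f z / (deriv Fp z) ^ k with hG
  have hGd : ∀ z, ‖z‖ < 1 → z ∉ S → DifferentiableAt ℂ G z := fun z hz hzS =>
    (hfd z hz).div ((hdd z hz hzS).pow k) (pow_ne_zero k (hne z hz hzS))
  have hGinv : ∀ g z, ‖z‖ < 1 → z ∉ S → G (A.act g z) = G z := by
    intro g z hz hzS
    have hgz := A.norm_act_lt g hz
    have e1 : (Fp ∘ A.act g) =ᶠ[𝓝 z] Fp := by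
      filter_upwards [hSopen z hz hzS] with w hw
      exact hFp.inv g w hw.1 (hnotS w hw.2)
    have e2 : deriv Fp (A.act g z) * deriv (A.act g) z = deriv Fp z := by
      rw [← e1.deriv_eq]
      exact (deriv_comp z (hdF _ hgz (hSact g z hz hzS)) (differentiableAt_act h g hz)).symm
    have e3 := hf.eq g z hz
    have e4 : deriv (A.act g) z ≠ 0 := deriv_act_ne_zero h g hz
    have e5 : deriv Fp (A.act g z) ≠ 0 := hne _ hgz (hSact g z hz hzS)
    show f (A.act g z) / (deriv Fp (A.act g z)) ^ k = f z / (deriv Fp z) ^ k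
    rw [← e2, ← e3, mul_pow]
    field_simp
  -- behaviour near `0`
  have hlim : Tendsto G (𝓝[≠] 0) (𝓝 0) := by
    obtain ⟨r, hr, hFr⟩ := hFp.pole
    have e1 : deriv Fp =ᶠ[𝓝[≠] 0] deriv (fun z => 1 / (z - 0) + r z) :=
      EventuallyEq.nhdsNE_deriv hFr
    have e2 : ∀ᶠ w in 𝓝[≠] (0 : ℂ), w ^ 2 * deriv Fp w = -1 + w ^ 2 * deriv r w := by
      have e3 : ∀ᶠ w in 𝓝[≠] (0 : ℂ), AnalyticAt ℂ r w :=
        nhdsWithin_le_nhds hr.eventually_analyticAt
      filter_upwards [e1, e3, self_mem_nhdsWithin] with w hw1 hw2 hw3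
      have hw0 : w ≠ 0 := hw3
      have hd1 : HasDerivAt (fun z : ℂ => 1 / (z - 0)) (-(w ^ 2)⁻¹) w := by
        have := hasDerivAt_inv hw0
        simpa using this
      have hd2 := hd1.add hw2.differentiableAt.hasDerivAt
      have hd3 : deriv (fun z => 1 / (z - 0) + r z) w = -(w ^ 2)⁻¹ + deriv r w := hd2.deriv
      rw [hw1, hd3, mul_add]
      congr 1
      field_simp
    have e4 : Tendsto (fun w : ℂ => -1 + w ^ 2 * deriv r w) (𝓝[≠] 0) (𝓝 (-1)) := by
      have h1 : ContinuousAt (fun w : ℂ => -1 + w ^ 2 * deriv r w) 0 := by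
        have := hr.deriv.continuousAt
        fun_prop
      have h2 := h1.tendsto.mono_left (nhdsWithin_le_nhds (s := {0}ᶜ))
      simpa using h2
    have e5 : Tendsto (fun w : ℂ => w ^ 2 * deriv Fp w) (𝓝[≠] 0) (𝓝 (-1)) :=
      e4.congr' (by filter_upwards [e2] with w hw using hw.symm)
    have e6 : Tendsto (fun w : ℂ => f w * w ^ (2 * k)) (𝓝[≠] 0) (𝓝 0) := by
      have h1 : ContinuousAt (fun w : ℂ => f w * w ^ (2 * k)) 0 := by
        have := (hfd 0 h01).continuousAt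
        fun_prop
      have h2 := h1.tendsto.mono_left (nhdsWithin_le_nhds (s := {0}ᶜ))
      have h3 : (0 : ℂ) ^ (2 * k) = 0 := zero_pow (by omega)
      simpa [h3] using h2
    have e7 := e6.div (e5.pow k) (pow_ne_zero k (by norm_num))
    rw [zero_div] at e7
    refine e7.congr' ?_
    filter_upwards [self_mem_nhdsWithin] with w hw
    have hw0 : w ≠ 0 := hw
    show f w * w ^ (2 * k) / (w ^ 2 * deriv Fp w) ^ k = f w / (deriv Fp w) ^ k
    rw [mul_pow, ← pow_mul]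
    have hw1 : w ^ (2 * k) ≠ 0 := pow_ne_zero _ hw0
    rw [mul_comm (f w), mul_div_mul_left _ _ hw1]
  have hGb : ∀ z, ‖z‖ < 1 → ∃ B : ℝ, ∀ᶠ w in 𝓝[≠] z, ‖G w‖ ≤ B := by
    intro z hz
    by_cases hzS : z ∈ S
    · obtain ⟨g, hg⟩ := hzS
      have e1 : A.act g⁻¹ z = 0 := by rw [← hg, A.inv_act_act g h01.le]
      have e2 := tendsto_act_punctured h g⁻¹ hz
      rw [e1] at e2
      have e3 : Tendsto (fun w => G (A.act g⁻¹ w)) (𝓝[≠] z) (𝓝 0) := hlim.comp e2
      have e4 : Tendsto G (𝓝[≠] z) (𝓝 0) := by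
        refine e3.congr' ?_
        filter_upwards [hS z hz, nhdsWithin_le_nhds (hnorm z hz)] with w hw1 hw2
        exact hGinv g⁻¹ w hw2 hw1
      refine ⟨1, ?_⟩
      have e5 := e4.norm
      rw [norm_zero] at e5
      filter_upwards [e5.eventually (gt_mem_nhds (show (0 : ℝ) < 1 by norm_num))] with w hw
      exact le_of_lt hw
    · have e5 := ((hGd z hz hzS).continuousAt.tendsto.mono_left
        (nhdsWithin_le_nhds (s := {z}ᶜ))).norm
      refine ⟨‖G z‖ + 1, ?_⟩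
      filter_upwards [e5.eventually (gt_mem_nhds (show ‖G z‖ < ‖G z‖ + 1 by linarith))] with w hw
      exact le_of_lt hw
  obtain ⟨c, hc⟩ := invariant_const h hS hGd hGb hGinv
  have hc0 : c = 0 := by
    have e1 : Tendsto G (𝓝[≠] 0) (𝓝 c) := by
      refine tendsto_const_nhds.congr' ?_
      filter_upwards [hS 0 h01, nhdsWithin_le_nhds (hnorm 0 h01)] with w hw1 hw2
      exact (hc w hw2 hw1).symm
    exact tendsto_nhds_unique e1 hlim
  apply hf0
  have e1 : Tendsto f (𝓝[≠] 0) (𝓝 (f 0)) :=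
    (hfd 0 h01).continuousAt.tendsto.mono_left nhdsWithin_le_nhds
  have e2 : Tendsto f (𝓝[≠] 0) (𝓝 0) := by
    refine tendsto_const_nhds.congr' ?_
    filter_upwards [hS 0 h01, nhdsWithin_le_nhds (hnorm 0 h01)] with w hw1 hw2
    have e3 : f w / (deriv Fp w) ^ k = 0 := by
      have := hc w hw2 hw1
      rw [hc0] at this
      exact this
    rcases div_eq_zero_iff.1 e3 with e4 | e4
    · exact e4.symm
    · exact absurd e4 (pow_ne_zero k (hne w hw2 hw1))
  exact tendsto_nhds_unique e1 e2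

end Pool.Agent.Lib.KLP
end
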