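import Pool.Agent.Lib.MP_a137af_pr.IsomClass

section

/-!
# C3: measure of balls and annuli
-/

set_option autoImplicit false
open MeasureTheory Set Filter Topology
open scoped ENNReal ComplexConjugate

namespace Pool.Agent.Lib.KLP

private lemma cb_rot {c : ℂ} (hc : ‖c‖ = 1) {E : Set ℂ} (hE : MeasurableSet E) :
    circ E = circ ((fun z => c * z) ⁻¹' E) := by
  conv_lhs => rw [← circ_map_mul hc]
  rw [Measure.map_apply (measurable_const_mul c) hE]

private lemma cb_norm (θ : ℝ) : ‖Complex.exp ((θ : ℂ) * Complex.I) - 1‖ = |2 * Real.sin (θ / 2)| := by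
  rw [mul_comm, Complex.norm_exp_I_mul_ofReal_sub_one, Real.norm_eq_abs]

/-- `(2/π)|θ| ≤ |e^{iθ} - 1|` for `|θ| ≤ π` -/
private lemma cb_lower {θ : ℝ} (hθ : |θ| ≤ Real.pi) :
    2 / Real.pi * |θ| ≤ ‖Complex.exp ((θ : ℂ) * Complex.I) - 1‖ := by
  rw [cb_norm]
  have h1 : |2 * Real.sin (θ / 2)| = 2 * |Real.sin (θ / 2)| := by
    rw [abs_mul, abs_of_pos (by norm_num : (0 : ℝ) < 2)]
  have h2 : |Real.sin (θ / 2)| = Real.sin (|θ| / 2) := by
    rcases le_total 0 θ with h | h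
    · rw [abs_of_nonneg h, abs_of_nonneg]
      rw [abs_of_nonneg h] at hθ
      exact Real.sin_nonneg_of_nonneg_of_le_pi (by linarith) (by linarith [Real.pi_pos])
    · rw [abs_of_nonpos h]
      rw [abs_of_nonpos h] at hθ
      rw [neg_div, Real.sin_neg, abs_of_nonpos]
      have := Real.sin_nonneg_of_nonneg_of_le_pi (x := -θ / 2) (by linarith)
        (by linarith [Real.pi_pos])
      rw [neg_div, Real.sin_neg] at this
      linarith
  have h3 := Real.mul_le_sin (x := |θ| / 2) (by positivity) (by linarith)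
  rw [h1, h2]
  calc 2 / Real.pi * |θ| = 2 * (2 / Real.pi * (|θ| / 2)) := by ring
    _ ≤ _ := by linarith

private lemma cb_upper (θ : ℝ) : ‖Complex.exp ((θ : ℂ) * Complex.I) - 1‖ ≤ |θ| := by
  rw [cb_norm, abs_mul, abs_of_pos (by norm_num : (0 : ℝ) < 2)]
  have h := Real.abs_sin_le_abs (x := θ / 2)
  rw [abs_div, abs_of_pos (by norm_num : (0 : ℝ) < 2)] at h
  linarith

private lemma cb_closedBall_one {ρ : ℝ} (hρ : 0 ≤ ρ) :
    circ (Metric.closedBall 1 (2 * ρ)) ≤ ENNReal.ofReal ρ := by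
  have hpi := Real.pi_pos
  rw [circ_apply Metric.isClosed_closedBall.measurableSet]
  have hsub : {θ : ℝ | Complex.exp ((θ : ℂ) * Complex.I) ∈ Metric.closedBall 1 (2 * ρ)} ∩
      Ioc (-Real.pi) Real.pi ⊆ Icc (-(Real.pi * ρ)) (Real.pi * ρ) := by
    intro θ hθ
    have h1 : ‖Complex.exp ((θ : ℂ) * Complex.I) - 1‖ ≤ 2 * ρ := by
      have := hθ.1
      rw [mem_ofPred_eq, mem_closedBall_iff_norm] at this
      exact this
    have h2 := cb_lower (θ := θ) (abs_le.2 ⟨by linarith [hθ.2.1], hθ.2.2⟩)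
    have h3 : |θ| ≤ Real.pi * ρ := by
      have h4 : 2 / Real.pi * |θ| ≤ 2 * ρ := h2.trans h1
      have h5 : 2 / Real.pi * |θ| = 2 * |θ| / Real.pi := by ring
      rw [h5, div_le_iff₀ hpi] at h4
      linarith
    exact abs_le.1 h3
  calc ENNReal.ofReal (1 / (2 * Real.pi)) *
      volume ({θ : ℝ | Complex.exp ((θ : ℂ) * Complex.I) ∈ Metric.closedBall 1 (2 * ρ)} ∩
        Ioc (-Real.pi) Real.pi)
      ≤ ENNReal.ofReal (1 / (2 * Real.pi)) * volume (Icc (-(Real.pi * ρ)) (Real.pi * ρ)) := by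
        gcongr
    _ = ENNReal.ofReal ρ := by
        rw [Real.volume_Icc, ← ENNReal.ofReal_mul (by positivity)]
        congr 1
        field_simp
        ring

theorem circ_closedBall_le (z : ℂ) {ρ : ℝ} (hρ : 0 ≤ ρ) :
    circ (Metric.closedBall z ρ) ≤ ENNReal.ofReal ρ := by
  by_cases h : ∃ ξ : ℂ, ‖ξ‖ = 1 ∧ ξ ∈ Metric.closedBall z ρ
  · obtain ⟨ξ, hξ, hξz⟩ := h
    have h1 : circ (Metric.closedBall z ρ) ≤ circ (Metric.closedBall ξ (2 * ρ)) := by
      refine measure_mono ?_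
      intro y hy
      rw [Metric.mem_closedBall] at *
      have := dist_triangle_right y ξ z
      linarith
    refine h1.trans ?_
    rw [cb_rot hξ Metric.isClosed_closedBall.measurableSet]
    refine le_trans (le_of_eq ?_) (cb_closedBall_one hρ)
    congr 1
    ext y
    rw [mem_preimage, mem_closedBall_iff_norm, mem_closedBall_iff_norm]
    have : ξ * y - ξ = ξ * (y - 1) := by ring
    rw [this, norm_mul, hξ, one_mul]
  · have h1 : Metric.closedBall z ρ ⊆ {z : ℂ | ‖z‖ ≠ 1} := by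
      intro y hy hy1
      exact h ⟨y, hy1, hy⟩
    have h2 := measure_mono (μ := circ) h1
    rw [circ_compl] at h2
    exact h2.trans zero_le

theorem le_circ_ball {ξ : ℂ} (hξ : ‖ξ‖ = 1) {ρ : ℝ} (hρ : 0 ≤ ρ) (hρ2 : ρ ≤ 2) :
    ENNReal.ofReal (ρ / 4) ≤ circ (Metric.ball ξ ρ) := by
  have hpi := Real.pi_gt_three
  have hpi4 := Real.pi_le_four
  rw [cb_rot hξ Metric.isOpen_ball.measurableSet]
  have e : (fun z => ξ * z) ⁻¹' Metric.ball ξ ρ = Metric.ball 1 ρ := by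
    ext y
    rw [mem_preimage, mem_ball_iff_norm, mem_ball_iff_norm]
    have : ξ * y - ξ = ξ * (y - 1) := by ring
    rw [this, norm_mul, hξ, one_mul]
  rw [e, circ_apply Metric.isOpen_ball.measurableSet]
  have hsub : Ioo (-ρ) ρ ⊆ {θ : ℝ | Complex.exp ((θ : ℂ) * Complex.I) ∈ Metric.ball 1 ρ} ∩
      Ioc (-Real.pi) Real.pi := by
    intro θ hθ
    refine ⟨?_, ?_, ?_⟩
    · rw [mem_ofPred_eq, mem_ball_iff_norm]
      exact (cb_upper θ).trans_lt (abs_lt.2 hθ)
    · linarith [hθ.1]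
    · linarith [hθ.2]
  calc ENNReal.ofReal (ρ / 4) ≤ ENNReal.ofReal (1 / (2 * Real.pi)) * volume (Ioo (-ρ) ρ) := by
        rw [Real.volume_Ioo, ← ENNReal.ofReal_mul (by positivity)]
        apply ENNReal.ofReal_le_ofReal
        have : 1 / (2 * Real.pi) * (ρ - -ρ) = ρ / Real.pi := by
          field_simp
          ring
        rw [this]
        exact div_le_div_of_nonneg_left hρ (by linarith) hpi4
    _ ≤ _ := by gcongr

/-- the part of the annulus with `θ ≥ 0` has diameter at most `2πa` -/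
private lemma cb_half {r a θ₁ θ₂ : ℝ} (hra : r + a ≤ 1) (h1 : 0 ≤ θ₁)
    (h12 : θ₁ ≤ θ₂) (h2 : θ₂ ≤ Real.pi)
    (hl : r - a ≤ ‖Complex.exp ((θ₁ : ℂ) * Complex.I) - 1‖)
    (hu : ‖Complex.exp ((θ₂ : ℂ) * Complex.I) - 1‖ ≤ r + a) :
    θ₂ - θ₁ ≤ 2 * Real.pi * a := by
  have hpi := Real.pi_pos
  have n : ∀ θ : ℝ, 0 ≤ θ → θ ≤ Real.pi →
      ‖Complex.exp ((θ : ℂ) * Complex.I) - 1‖ = 2 * Real.sin (θ / 2) := by
    intro θ h0 hp
    rw [cb_norm, abs_of_nonneg]
    have := Real.sin_nonneg_of_nonneg_of_le_pi (x := θ / 2) (by linarith) (by linarith)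
    linarith
  rw [n θ₁ h1 (h12.trans h2)] at hl
  rw [n θ₂ (h1.trans h12) h2] at hu
  have h3 := Real.mul_le_sin (x := θ₂ / 2) (by linarith) (by linarith)
  have h4 : θ₂ / 2 ≤ Real.pi / 4 := by
    have h5 : 2 / Real.pi * (θ₂ / 2) ≤ 1 / 2 := by linarith
    have h6 : 2 / Real.pi * (θ₂ / 2) = θ₂ / Real.pi := by ring
    rw [h6, div_le_iff₀ hpi] at h5
    linarith
  have h5 : Real.sin (θ₂ / 2) - Real.sin (θ₁ / 2) =
      2 * Real.sin ((θ₂ / 2 - θ₁ / 2) / 2) * Real.cos ((θ₂ / 2 + θ₁ / 2) / 2) :=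
    Real.sin_sub_sin _ _
  have h6 := Real.mul_le_sin (x := (θ₂ / 2 - θ₁ / 2) / 2) (by linarith) (by linarith)
  have h7 : 1 / 2 ≤ Real.cos ((θ₂ / 2 + θ₁ / 2) / 2) := by
    rw [← Real.cos_pi_div_three]
    apply Real.cos_le_cos_of_nonneg_of_le_pi (by linarith) (by linarith)
    linarith
  have h8 : 0 ≤ 2 / Real.pi * ((θ₂ / 2 - θ₁ / 2) / 2) := by
    apply mul_nonneg (by positivity)
    linarith
  have h9 : 2 * (2 / Real.pi * ((θ₂ / 2 - θ₁ / 2) / 2)) * (1 / 2) ≤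
      Real.sin (θ₂ / 2) - Real.sin (θ₁ / 2) := by
    rw [h5]
    apply mul_le_mul _ h7 (by norm_num) (by linarith)
    linarith
  have h10 : 2 * (2 / Real.pi * ((θ₂ / 2 - θ₁ / 2) / 2)) * (1 / 2) = (θ₂ - θ₁) / (2 * Real.pi) := by
    field_simp
  rw [h10] at h9
  have h11 : (θ₂ - θ₁) / (2 * Real.pi) ≤ a := by linarith
  rw [div_le_iff₀ (by positivity)] at h11
  linarith

private lemma cb_norm_neg (θ : ℝ) : ‖Complex.exp (((-θ : ℝ) : ℂ) * Complex.I) - 1‖ =
    ‖Complex.exp ((θ : ℂ) * Complex.I) - 1‖ := by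
  rw [cb_norm, cb_norm, neg_div, Real.sin_neg, mul_neg, abs_neg]

theorem circ_annulus_le {ξ₀ : ℂ} (hξ₀ : ‖ξ₀‖ = 1) {r a : ℝ} (hr : 0 ≤ r) (ha : 0 ≤ a)
    (hra : r + a ≤ 1) :
    circ {ξ : ℂ | r - a ≤ ‖ξ - ξ₀‖ ∧ ‖ξ - ξ₀‖ ≤ r + a} ≤ ENNReal.ofReal (2 * a) := by
  have hpi := Real.pi_pos
  have hm : ∀ c : ℂ, MeasurableSet {ξ : ℂ | r - a ≤ ‖ξ - c‖ ∧ ‖ξ - c‖ ≤ r + a} := by
    intro c
    have h1 : IsClosed {ξ : ℂ | r - a ≤ ‖ξ - c‖} :=
      isClosed_le continuous_const (by fun_prop)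
    have h2 : IsClosed {ξ : ℂ | ‖ξ - c‖ ≤ r + a} :=
      isClosed_le (by fun_prop) continuous_const
    exact (h1.inter h2).measurableSet
  rw [cb_rot hξ₀ (hm ξ₀)]
  have e : (fun z => ξ₀ * z) ⁻¹' {ξ : ℂ | r - a ≤ ‖ξ - ξ₀‖ ∧ ‖ξ - ξ₀‖ ≤ r + a} =
      {ξ : ℂ | r - a ≤ ‖ξ - 1‖ ∧ ‖ξ - 1‖ ≤ r + a} := by
    ext y
    simp only [mem_preimage, mem_ofPred_eq]
    have : ξ₀ * y - ξ₀ = ξ₀ * (y - 1) := by ring
    rw [this, norm_mul, hξ₀, one_mul]
  rw [e, circ_apply (hm 1)]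
  set S : Set ℝ := {θ : ℝ | Complex.exp ((θ : ℂ) * Complex.I) ∈
    {ξ : ℂ | r - a ≤ ‖ξ - 1‖ ∧ ‖ξ - 1‖ ≤ r + a}} ∩ Ioc (-Real.pi) Real.pi with hS
  have hSub : S ⊆ (S ∩ Ici 0) ∪ (S ∩ Iic 0) := by
    intro θ hθ
    rcases le_total 0 θ with h | h
    · exact Or.inl ⟨hθ, h⟩
    · exact Or.inr ⟨hθ, h⟩
  have hpos : ∀ θ₁ ∈ S ∩ Ici 0, ∀ θ₂ ∈ S ∩ Ici 0, |θ₁ - θ₂| ≤ 2 * Real.pi * a := by
    have key : ∀ θ₁ ∈ S ∩ Ici 0, ∀ θ₂ ∈ S ∩ Ici 0, θ₁ ≤ θ₂ → θ₂ - θ₁ ≤ 2 * Real.pi * a := by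
      intro θ₁ h₁ θ₂ h₂ h12
      exact cb_half hra h₁.2 h12 h₂.1.2.2 h₁.1.1.1 h₂.1.1.2
    intro θ₁ h₁ θ₂ h₂
    rcases le_total θ₁ θ₂ with h | h
    · rw [abs_sub_comm, abs_of_nonneg (by linarith)]
      exact key θ₁ h₁ θ₂ h₂ h
    · rw [abs_of_nonneg (by linarith)]
      exact key θ₂ h₂ θ₁ h₁ h
  have hneg : ∀ θ₁ ∈ S ∩ Iic 0, ∀ θ₂ ∈ S ∩ Iic 0, |θ₁ - θ₂| ≤ 2 * Real.pi * a := by
    have key : ∀ θ₁ ∈ S ∩ Iic 0, ∀ θ₂ ∈ S ∩ Iic 0, θ₂ ≤ θ₁ → θ₁ - θ₂ ≤ 2 * Real.pi * a := by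
      intro θ₁ h₁ θ₂ h₂ h12
      have a1 : (0 : ℝ) ≤ -θ₁ := by
        have : θ₁ ≤ 0 := h₁.2
        linarith
      have a2 : -θ₂ ≤ Real.pi := by linarith [h₂.1.2.1]
      have hl : r - a ≤ ‖Complex.exp (((-θ₁ : ℝ) : ℂ) * Complex.I) - 1‖ := by
        rw [cb_norm_neg]; exact h₁.1.1.1
      have hu : ‖Complex.exp (((-θ₂ : ℝ) : ℂ) * Complex.I) - 1‖ ≤ r + a := by
        rw [cb_norm_neg]; exact h₂.1.1.2
      have := cb_half hra a1 (by linarith : -θ₁ ≤ -θ₂) a2 hl hu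
      linarith
    intro θ₁ h₁ θ₂ h₂
    rcases le_total θ₂ θ₁ with h | h
    · rw [abs_of_nonneg (by linarith)]
      exact key θ₁ h₁ θ₂ h₂ h
    · rw [abs_sub_comm, abs_of_nonneg (by linarith)]
      exact key θ₂ h₂ θ₁ h₁ h
  have hvol : ∀ T : Set ℝ, (∀ θ₁ ∈ T, ∀ θ₂ ∈ T, |θ₁ - θ₂| ≤ 2 * Real.pi * a) →
      volume T ≤ ENNReal.ofReal (2 * Real.pi * a) := by
    intro T hT
    refine (Real.volume_le_diam T).trans ?_
    refine Metric.ediam_le ?_
    intro x hx y hy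
    rw [edist_dist, Real.dist_eq]
    exact ENNReal.ofReal_le_ofReal (hT x hx y hy)
  have h1 : volume S ≤ ENNReal.ofReal (2 * Real.pi * a) + ENNReal.ofReal (2 * Real.pi * a) :=
    (measure_mono hSub).trans ((measure_union_le _ _).trans
      (add_le_add (hvol _ hpos) (hvol _ hneg)))
  rw [← ENNReal.ofReal_add (by positivity) (by positivity)] at h1
  calc ENNReal.ofReal (1 / (2 * Real.pi)) * volume S
      ≤ ENNReal.ofReal (1 / (2 * Real.pi)) * ENNReal.ofReal (2 * Real.pi * a + 2 * Real.pi * a) := by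
        gcongr
    _ = ENNReal.ofReal (2 * a) := by
        rw [← ENNReal.ofReal_mul (by positivity)]
        congr 1
        field_simp
        ring

end Pool.Agent.Lib.KLP
end

section

/-!
# G3: points at comparable height near a boundary point
-/

set_option autoImplicit false
open MeasureTheory Set Filter Topology
open scoped ENNReal ComplexConjugate

namespace Pool.Agent.Lib.KLP

variable {Γ : Type*} [Group Γ]

theorem near_finite (A : DAct Γ) {δ R : ℝ} (hδ : 0 < δ) (hR : 0 < R) :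
    ∃ T : Finset Γ, ∀ (ξ : ℂ) (r : ℝ), ‖ξ‖ = 1 → 0 < r → ∀ y y' : Γ,
      δ * r ≤ A.t y → δ * r ≤ A.t y' → ‖A.act y 0 - ξ‖ ≤ R * r → ‖A.act y' 0 - ξ‖ ≤ R * r →
      y⁻¹ * y' ∈ T := by
  have hε : 0 < δ ^ 2 / (8 * R ^ 2) := by positivity
  refine ⟨(A.finite_t hε).toFinset, fun ξ r hξ hr y y' h1 h2 h3 h4 => ?_⟩
  rw [Set.Finite.mem_toFinset, Set.mem_setOf_eq, ← A.kap_orbit]
  have hup : ∀ g : Γ, ‖A.act g 0 - ξ‖ ≤ R * r → A.t g ≤ 2 * R * r := by
    intro g hg
    have e1 : 1 - ‖A.act g 0‖ ≤ ‖A.act g 0 - ξ‖ := by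
      have := norm_sub_norm_le ξ (A.act g 0)
      rw [hξ, norm_sub_rev] at this
      exact this
    have e2 := A.norm_act_lt g (by simp : ‖(0 : ℂ)‖ < 1)
    have e3 := norm_nonneg (A.act g 0)
    have e4 : A.t g ≤ 2 * (1 - ‖A.act g 0‖) := by
      unfold DAct.t
      nlinarith
    linarith
  have hy := hup y h3
  have hy' := hup y' h4
  have hty := A.t_pos y
  have hty' := A.t_pos y'
  have hd : ‖A.act y 0 - A.act y' 0‖ ≤ 2 * R * r := by
    have : A.act y 0 - A.act y' 0 = (A.act y 0 - ξ) - (A.act y' 0 - ξ) := by ring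
    rw [this]
    refine (norm_sub_le _ _).trans ?_
    linarith
  unfold kap
  rw [norm_one_sub_conj_mul_sq]
  have e1 : (1 - ‖A.act y 0‖ ^ 2) * (1 - ‖A.act y' 0‖ ^ 2) = A.t y * A.t y' := rfl
  rw [e1]
  have e2 : (δ * r) ^ 2 ≤ A.t y * A.t y' := by
    rw [sq]
    exact mul_le_mul h1 h2 (by positivity) hty.le
  have e3 : A.t y * A.t y' ≤ (2 * R * r) ^ 2 := by
    rw [sq]
    exact mul_le_mul hy hy' hty'.le (by positivity)
  have e4 : ‖A.act y 0 - A.act y' 0‖ ^ 2 ≤ (2 * R * r) ^ 2 :=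
    pow_le_pow_left₀ (norm_nonneg _) hd 2
  rw [div_le_div_iff₀ (by positivity) (by positivity)]
  have e5 : ‖A.act y 0 - A.act y' 0‖ ^ 2 + A.t y * A.t y' ≤ 8 * R ^ 2 * r ^ 2 := by nlinarith
  calc δ ^ 2 * (‖A.act y 0 - A.act y' 0‖ ^ 2 + A.t y * A.t y')
      ≤ δ ^ 2 * (8 * R ^ 2 * r ^ 2) := mul_le_mul_of_nonneg_left e5 (by positivity)
    _ = (δ * r) ^ 2 * (8 * R ^ 2) := by ring
    _ ≤ A.t y * A.t y' * (8 * R ^ 2) := mul_le_mul_of_nonneg_right e2 (by positivity)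

end Pool.Agent.Lib.KLP
end

section

/-!
# G7: orbit points near every boundary point
-/

set_option autoImplicit false
open MeasureTheory Set Filter Topology
open scoped ENNReal ComplexConjugate

namespace Pool.Agent.Lib.KLP

variable {Γ : Type*} [Group Γ]

theorem exists_near_point (A : DAct Γ) : ∃ c C : ℝ, 0 < c ∧ 0 < C ∧
    ∀ (ξ : ℂ) (ρ : ℝ), ‖ξ‖ = 1 → 0 < ρ → ρ ≤ 1 →
      ∃ x : Γ, c * ρ ≤ A.t x ∧ ‖A.act x 0 - ξ‖ ≤ C * ρ := by
  obtain ⟨ρ₀, hρ1, hco⟩ := A.cocompact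
  have hρ0 : 0 ≤ ρ₀ := by
    obtain ⟨g, hg⟩ := hco 0 (by simp)
    exact (norm_nonneg _).trans hg
  set ε : ℝ := 1 - ρ₀ ^ 2 with hε
  have hε0 : 0 < ε := by nlinarith
  refine ⟨ε / 2, 1 + 4 / ε, by positivity, by positivity, fun ξ ρ hξ hρ hρ' => ?_⟩
  set z : ℂ := ((1 - ρ : ℝ) : ℂ) * ξ with hz
  have hzn : ‖z‖ = 1 - ρ := by
    rw [hz, norm_mul, hξ, mul_one, Complex.norm_real, Real.norm_eq_abs,
      abs_of_nonneg (by linarith)]
  have hz1 : ‖z‖ < 1 := by rw [hzn]; linarith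
  obtain ⟨g, hg⟩ := hco z hz1
  have hx1 := A.norm_act_lt g⁻¹ (by simp : ‖(0 : ℂ)‖ < 1)
  have hx0 := norm_nonneg (A.act g⁻¹ 0)
  have htx := A.t_pos g⁻¹
  have hk : ε ≤ kap (A.act g⁻¹ 0) z := by
    rw [A.kap_orbit_left g⁻¹ hz1, inv_inv]
    have : ‖A.act g z‖ ^ 2 ≤ ρ₀ ^ 2 := pow_le_pow_left₀ (norm_nonneg _) hg 2
    linarith
  set D : ℝ := ‖1 - conj (A.act g⁻¹ 0) * z‖ with hD
  have hD0 : 0 ≤ D := norm_nonneg _
  have hm : ‖conj (A.act g⁻¹ 0) * z‖ = ‖A.act g⁻¹ 0‖ * ‖z‖ := by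
    rw [norm_mul, RCLike.norm_conj]
  have hD' : 1 - ‖A.act g⁻¹ 0‖ * ‖z‖ ≤ D := by
    have := norm_sub_norm_le (1 : ℂ) (conj (A.act g⁻¹ 0) * z)
    rwa [norm_one, hm] at this
  have hDρ : ρ ≤ D := by nlinarith [norm_nonneg z]
  have hDp : 0 < D := lt_of_lt_of_le hρ hDρ
  have ht2 : A.t g⁻¹ ≤ 2 * (1 - ‖A.act g⁻¹ 0‖) := by
    unfold DAct.t
    nlinarith
  have hDt : A.t g⁻¹ / 2 ≤ D := by nlinarith [norm_nonneg z]
  have hkey : ε * D ^ 2 ≤ A.t g⁻¹ * (2 * ρ) := by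
    have h1 : kap (A.act g⁻¹ 0) z = A.t g⁻¹ * (1 - ‖z‖ ^ 2) / D ^ 2 := rfl
    rw [h1, le_div_iff₀ (by positivity), hzn] at hk
    refine hk.trans (mul_le_mul_of_nonneg_left ?_ htx.le)
    nlinarith
  have h1 : ε / 2 * ρ ≤ A.t g⁻¹ := by
    have e1 : ε * ρ ^ 2 ≤ A.t g⁻¹ * (2 * ρ) := by
      refine le_trans (mul_le_mul_of_nonneg_left ?_ hε0.le) hkey
      exact pow_le_pow_left₀ hρ.le hDρ 2
    have e2 : (ε / 2 * ρ) * (2 * ρ) ≤ A.t g⁻¹ * (2 * ρ) := by nlinarith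
    exact le_of_mul_le_mul_right e2 (by positivity)
  have h2 : A.t g⁻¹ * ε ≤ 8 * ρ := by
    have e1 : ε * (A.t g⁻¹ / 2) ^ 2 ≤ A.t g⁻¹ * (2 * ρ) := by
      refine le_trans (mul_le_mul_of_nonneg_left ?_ hε0.le) hkey
      exact pow_le_pow_left₀ (by positivity) hDt 2
    have e2 : (A.t g⁻¹ * ε) * A.t g⁻¹ ≤ (8 * ρ) * A.t g⁻¹ := by nlinarith
    exact le_of_mul_le_mul_right e2 htx
  have h3 : ‖A.act g⁻¹ 0 - z‖ ≤ 4 / ε * ρ := by
    have e1 : ‖A.act g⁻¹ 0 - z‖ ^ 2 ≤ D ^ 2 := by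
      rw [hD, norm_one_sub_conj_mul_sq]
      have : 0 ≤ (1 - ‖A.act g⁻¹ 0‖ ^ 2) * (1 - ‖z‖ ^ 2) :=
        mul_nonneg (A.t_pos g⁻¹).le (by nlinarith [norm_nonneg z])
      linarith
    have e2 : D ^ 2 ≤ (4 / ε * ρ) ^ 2 := by
      have e3 : (4 / ε * ρ) ^ 2 = 16 * ρ ^ 2 / ε ^ 2 := by
        field_simp
        norm_num
      rw [e3, le_div_iff₀ (by positivity)]
      calc D ^ 2 * ε ^ 2 = (ε * D ^ 2) * ε := by ring
        _ ≤ (A.t g⁻¹ * (2 * ρ)) * ε := mul_le_mul_of_nonneg_right hkey hε0.le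
        _ = (A.t g⁻¹ * ε) * (2 * ρ) := by ring
        _ ≤ (8 * ρ) * (2 * ρ) := mul_le_mul_of_nonneg_right h2 (by positivity)
        _ = 16 * ρ ^ 2 := by ring
    exact (pow_le_pow_iff_left₀ (norm_nonneg _) (by positivity) two_ne_zero).1 (e1.trans e2)
  refine ⟨g⁻¹, h1, ?_⟩
  have h4 : ‖z - ξ‖ = ρ := by
    have : z - ξ = ((-ρ : ℝ) : ℂ) * ξ := by
      rw [hz]
      push_cast
      ring
    rw [this, norm_mul, hξ, mul_one, Complex.norm_real, Real.norm_eq_abs, abs_neg,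
      abs_of_pos hρ]
  have h5 : A.act g⁻¹ 0 - ξ = (A.act g⁻¹ 0 - z) + (z - ξ) := by ring
  rw [h5]
  refine (norm_add_le _ _).trans ?_
  rw [h4]
  linarith

end Pool.Agent.Lib.KLP
end

section

section

/-!
# S6: groups of isometries are linear
-/

set_option autoImplicit false
open MeasureTheory Set Filter Topology
open scoped ENNReal ComplexConjugate

namespace Pool.Agent.Lib.KLP

open Matrix in
private noncomputable def linAd :
    GL (Fin 2) ℝ →* Matrix (Fin 2 × Fin 2) (Fin 2 × Fin 2) ℝ where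
  toFun g := Matrix.kroneckerMap (fun a b => a * b) g.val (g⁻¹.val)ᵀ
  map_one' := by
    rw [inv_one, Units.val_one, Matrix.transpose_one]
    exact Matrix.one_kronecker_one
  map_mul' g h := by
    rw [_root_.mul_inv_rev, Units.val_mul, Units.val_mul, Matrix.transpose_mul]
    exact Matrix.mul_kronecker_mul _ _ _ _

private lemma linAd_eq_one (g : GL (Fin 2) ℝ) :
    linAd g = 1 ↔ g ∈ Subgroup.center (GL (Fin 2) ℝ) := by
  rw [Matrix.GeneralLinearGroup.mem_center_iff_val_mem_range_scalar]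
  constructor
  · intro h
    have key : ∀ i j k l : Fin 2, g.val i j * (g⁻¹.val) l k =
        (1 : Matrix (Fin 2 × Fin 2) (Fin 2 × Fin 2) ℝ) (i, k) (j, l) := by
      intro i j k l
      rw [← h]
      rfl
    have hne : ∃ l k, (g⁻¹.val) l k ≠ 0 := by
      by_contra hcon
      push Not at hcon
      have h0 : g⁻¹.val = 0 := by
        ext l k
        exact hcon l k
      exact g⁻¹.ne_zero h0
    obtain ⟨l, k, hlk⟩ := hne
    have h01 : g.val 0 1 = 0 := by
      have := key 0 1 k l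
      rw [Matrix.one_apply_ne (by simp)] at this
      exact (mul_eq_zero.1 this).resolve_right hlk
    have h10 : g.val 1 0 = 0 := by
      have := key 1 0 k l
      rw [Matrix.one_apply_ne (by simp)] at this
      exact (mul_eq_zero.1 this).resolve_right hlk
    have e0 := key 0 0 0 0
    have e1 := key 1 1 0 0
    rw [Matrix.one_apply_eq] at e0 e1
    have hd : g.val 0 0 = g.val 1 1 := by
      have hc : (g⁻¹.val) 0 0 ≠ 0 := fun h => by rw [h, mul_zero] at e0; exact zero_ne_one e0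
      exact mul_right_cancel₀ hc (e0.trans e1.symm)
    refine ⟨g.val 0 0, ?_⟩
    ext i j
    fin_cases i <;> fin_cases j
    · simp
    · simpa using h01.symm
    · simpa using h10.symm
    · simpa using hd
  · rintro ⟨u, hu⟩
    have hg : g.val = u • (1 : Matrix (Fin 2) (Fin 2) ℝ) := by
      rw [← hu]
      ext i j
      simp [Matrix.diagonal_apply, Matrix.one_apply]
    have hu0 : u ≠ 0 := by
      rintro rfl
      rw [zero_smul] at hg
      exact g.ne_zero hg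
    have hinv : g⁻¹.val = u⁻¹ • (1 : Matrix (Fin 2) (Fin 2) ℝ) := by
      have h1 : g⁻¹.val * g.val = 1 := by
        rw [← Units.val_mul, inv_mul_cancel, Units.val_one]
      rw [hg, Matrix.mul_smul, Matrix.mul_one] at h1
      rw [← h1, smul_smul, inv_mul_cancel₀ hu0, one_smul]
    ext ⟨i, k⟩ ⟨j, l⟩
    change g.val i j * (g⁻¹.val) l k = _
    rw [hg, hinv]
    simp only [Matrix.smul_apply, Matrix.one_apply, smul_eq_mul, Prod.mk.injEq]
    by_cases h1 : i = j <;> by_cases h2 : l = k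
    · subst h1 h2
      simp [hu0]
    · simp [h1, h2, Ne.symm h2]
    · simp [h1, h2]
    · simp [h1, h2]

/-- The adjoint representation. -/
private noncomputable def linRep : GL (Fin 2) ℝ →* GL (Fin (2 * 2)) ℝ :=
  (Units.mapEquiv (Matrix.reindexAlgEquiv ℝ ℝ finProdFinEquiv).toMulEquiv).toMonoidHom.comp
    linAd.toHomUnits

private lemma linRep_eq_one (g : GL (Fin 2) ℝ) (h : g ∈ Subgroup.center (GL (Fin 2) ℝ)) :
    linRep g = 1 := by
  have h1 : linAd.toHomUnits g = 1 := by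
    ext1
    exact (linAd_eq_one g).2 h
  rw [linRep, MonoidHom.comp_apply, h1, map_one]

private lemma mem_center_of_linRep (g : GL (Fin 2) ℝ) (h : linRep g = 1) :
    g ∈ Subgroup.center (GL (Fin 2) ℝ) := by
  rw [← linAd_eq_one]
  have h1 : linAd.toHomUnits g = 1 := by
    apply (Units.mapEquiv
      (Matrix.reindexAlgEquiv ℝ ℝ (finProdFinEquiv (m := 2) (n := 2))).toMulEquiv).injective
    rw [map_one]
    exact h
  exact congrArg Units.val h1

theorem exists_linear (Γ : Subgroup (UpperHalfPlane ≃ᵢ UpperHalfPlane)) :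
    ∃ (n : ℕ) (R : Γ →* GL (Fin n) ℝ), Function.Injective R := by
  choose M hM using isom_class
  have hcen : ∀ a b : GL (Fin 2) ℝ, (∀ z : UpperHalfPlane, a • z = b • z) →
      linRep a = linRep b := by
    intro a b hab
    have h1 : b⁻¹ * a ∈ Subgroup.center (GL (Fin 2) ℝ) := by
      rw [← UpperHalfPlane.forall_smul_eq_self_iff_mem_center]
      intro z
      rw [mul_smul, hab z, inv_smul_smul]
    have h2 := linRep_eq_one _ h1
    rw [map_mul, map_inv, inv_mul_eq_one] at h2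
    exact h2.symm
  have hmul : ∀ g h : Γ, linRep (M ((g * h : Γ) : UpperHalfPlane ≃ᵢ UpperHalfPlane)) =
      linRep (M g) * linRep (M h) := by
    intro g h
    rw [← map_mul]
    apply hcen
    intro z
    rw [← hM, mul_smul, ← hM, ← hM]
    rfl
  refine ⟨2 * 2, MonoidHom.mk' (fun g : Γ => linRep (M g)) hmul, ?_⟩
  rw [injective_iff_map_eq_one]
  intro g hg
  have h1 := mem_center_of_linRep _ hg
  rw [← UpperHalfPlane.forall_smul_eq_self_iff_mem_center] at h1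
  apply Subtype.ext
  ext z
  rw [hM, h1 z]
  rfl

end Pool.Agent.Lib.KLP
end

section

/-!
# S4: boundary extensions
-/

set_option autoImplicit false
open MeasureTheory Set Filter Topology
open scoped ENNReal ComplexConjugate

namespace Pool.Agent.Lib.KLP

private theorem comap_neBot {ξ : ℂ} (hξ : ‖ξ‖ = 1) : (comap toDisc (𝓝 ξ)).NeBot := by
  rw [comap_neBot_iff]
  intro t ht
  have h1 : ξ ∈ closure (Metric.ball (0 : ℂ) 1) := by
    rw [closure_ball (0 : ℂ) one_ne_zero, Metric.mem_closedBall, dist_zero_right, hξ]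
  obtain ⟨w, hwt, hwb⟩ := mem_closure_iff_nhds.1 h1 t ht
  obtain ⟨z, hz⟩ := toDisc_surj (w := w) (by simpa using hwb)
  exact ⟨z, by rw [hz]; exact hwt⟩

private theorem tendsto_disc {g : UpperHalfPlane ≃ᵢ UpperHalfPlane} {f : ℂ → ℂ}
    (hf : IsDiscIso f) (hg : ∀ z, toDisc (g z) = f (toDisc z)) {ξ : ℂ} (hξ : ‖ξ‖ = 1) :
    Tendsto (fun z : UpperHalfPlane => toDisc (g z)) (comap toDisc (𝓝 ξ)) (𝓝 (f ξ)) := by
  have h1 : ContinuousWithinAt f (Metric.closedBall 0 1) ξ :=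
    hf.continuousOn ξ (by rw [Metric.mem_closedBall, dist_zero_right, hξ])
  have h2 : Tendsto toDisc (comap toDisc (𝓝 ξ)) (𝓝[Metric.closedBall 0 1] ξ) := by
    rw [tendsto_nhdsWithin_iff]
    refine ⟨tendsto_comap, Eventually.of_forall fun z => ?_⟩
    rw [Metric.mem_closedBall, dist_zero_right]
    exact (norm_toDisc_lt z).le
  have h3 := h1.tendsto.comp h2
  refine h3.congr fun z => ?_
  rw [Function.comp_apply, hg z]

theorem bdryExt_of_disc {g : UpperHalfPlane ≃ᵢ UpperHalfPlane} {f : ℂ → ℂ} (hf : IsDiscIso f)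
    (hg : ∀ z, toDisc (g z) = f (toDisc z)) {e : Circle → Circle} (he : IsBdryExt g e) :
    ∀ ξ : Circle, (e ξ : ℂ) = f (ξ : ℂ) := by
  intro ξ
  haveI := comap_neBot (ξ := (ξ : ℂ)) (Circle.norm_coe ξ)
  exact tendsto_nhds_unique (he ξ) (tendsto_disc hf hg (Circle.norm_coe ξ))

theorem exists_bdryExt_of_disc {g : UpperHalfPlane ≃ᵢ UpperHalfPlane} {f : ℂ → ℂ}
    (hf : IsDiscIso f) (hg : ∀ z, toDisc (g z) = f (toDisc z)) :
    ∃ e : Circle → Circle, Continuous e ∧ IsBdryExt g e := by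
  have hmem : ∀ ξ : Circle, f (ξ : ℂ) ∈ Submonoid.unitSphere ℂ := by
    intro ξ
    show f (ξ : ℂ) ∈ Metric.sphere (0 : ℂ) 1
    rw [mem_sphere_zero_iff_norm]
    exact hf.norm_eq_one (Circle.norm_coe ξ)
  refine ⟨fun ξ => ⟨f ξ, hmem ξ⟩, ?_, ?_⟩
  · refine Continuous.subtype_mk ?_ _
    exact hf.continuousOn.comp_continuous continuous_subtype_val (fun ξ => by
      rw [Metric.mem_closedBall, dist_zero_right]; exact (Circle.norm_coe ξ).le)
  · intro ξ
    exact tendsto_disc hf hg (Circle.norm_coe ξ)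

end Pool.Agent.Lib.KLP
end
end

section

/-!
# C2: image of the circle measure under an isometry
-/

set_option autoImplicit false
open MeasureTheory Set Filter Topology
open scoped ENNReal ComplexConjugate

namespace Pool.Agent.Lib.KLP

private noncomputable def ex2 (θ : ℝ) : ℂ := Complex.exp ((θ : ℂ) * Complex.I)

private lemma norm_ex2 (θ : ℝ) : ‖ex2 θ‖ = 1 := Complex.norm_exp_ofReal_mul_I θ

private lemma hasDerivAt_ex2 (θ : ℝ) : HasDerivAt ex2 (ex2 θ * Complex.I) θ := by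
  have h1 : HasDerivAt (fun θ : ℝ => (θ : ℂ) * Complex.I) Complex.I θ := by
    simpa using (Complex.ofRealCLM.hasDerivAt (x := θ)).mul_const Complex.I
  exact h1.cexp

/-- denominator -/
private noncomputable def den (a : ℂ) (θ : ℝ) : ℂ := 1 - conj a * ex2 θ

private lemma den_re_pos {a : ℂ} (ha : ‖a‖ < 1) (θ : ℝ) : 0 < (den a θ).re := by
  unfold den
  rw [Complex.sub_re, Complex.one_re]
  have h1 : (conj a * ex2 θ).re ≤ ‖conj a * ex2 θ‖ := Complex.re_le_norm _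
  rw [norm_mul, norm_ex2, mul_one, RCLike.norm_conj] at h1
  linarith

private lemma den_ne {a : ℂ} (ha : ‖a‖ < 1) (θ : ℝ) : den a θ ≠ 0 := by
  intro h
  have := den_re_pos ha θ
  rw [h] at this
  simp at this

/-- the lift -/
private noncomputable def lft (γ : ℝ) (a : ℂ) (θ : ℝ) : ℝ :=
  γ + θ - 2 * (Complex.log (den a θ)).im

private lemma pk_eq {a : ℂ} (θ : ℝ) :
    pk a (ex2 θ) = (1 - ‖a‖ ^ 2) / ‖den a θ‖ ^ 2 := by
  unfold pk den
  congr 2
  have h1 : ex2 θ - a = ex2 θ * conj (1 - conj a * ex2 θ) := by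
    have h2 : ex2 θ * conj (ex2 θ) = 1 := by
      rw [Complex.mul_conj, Complex.normSq_eq_norm_sq, norm_ex2]
      norm_num
    rw [map_sub, map_one, map_mul, Complex.conj_conj, mul_sub, mul_one, mul_left_comm, h2, mul_one]
  rw [h1, norm_mul, norm_ex2, one_mul, RCLike.norm_conj]

private lemma hasDerivAt_lft (γ : ℝ) {a : ℂ} (ha : ‖a‖ < 1) (θ : ℝ) :
    HasDerivAt (lft γ a) (pk a (ex2 θ)) θ := by
  have h1 : HasDerivAt (den a) (-(conj a * (ex2 θ * Complex.I))) θ := by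
    have := ((hasDerivAt_ex2 θ).const_mul (conj a)).const_sub 1
    exact this
  have h2 := h1.clog_real (Or.inl (den_re_pos ha θ))
  have h3 : HasDerivAt (fun t => (Complex.log (den a t)).im)
      ((-(conj a * (ex2 θ * Complex.I)) / den a θ).im) θ :=
    Complex.imCLM.hasFDerivAt.comp_hasDerivAt θ h2
  have h4 := (((hasDerivAt_id θ).const_add γ).sub (h3.const_mul 2))
  refine h4.congr_deriv ?_
  rw [pk_eq]
  set w := den a θ with hw
  have hw0 : w ≠ 0 := den_ne ha θ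
  have hu : conj a * ex2 θ = 1 - w := by
    rw [hw]
    unfold den
    ring
  have hnorm : ‖a‖ ^ 2 = Complex.normSq (1 - w) := by
    rw [← hu, Complex.normSq_eq_norm_sq, norm_mul, norm_ex2, mul_one, RCLike.norm_conj]
  have h5 : (-(conj a * (ex2 θ * Complex.I)) / w) = -((1 - w) * Complex.I / w) := by
    rw [← mul_assoc, hu]
    ring
  rw [h5, hnorm, ← Complex.normSq_eq_norm_sq]
  have hns : Complex.normSq w ≠ 0 := by
    rwa [Ne, Complex.normSq_eq_zero]
  rw [Complex.neg_im, Complex.div_im]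
  have hN : Complex.normSq w = w.re * w.re + w.im * w.im := Complex.normSq_apply w
  rw [Complex.normSq_apply (1 - w)]
  simp only [Complex.mul_re, Complex.mul_im, Complex.sub_re, Complex.sub_im, Complex.one_re,
    Complex.one_im, Complex.I_re, Complex.I_im]
  generalize hNN : Complex.normSq w = N at *
  field_simp
  rw [hN]
  ring

private lemma ex2_lft {c a : ℂ} {γ : ℝ} (hγ : ex2 γ = c) (ha : ‖a‖ < 1) (θ : ℝ) :
    ex2 (lft γ a θ) = mob c a (ex2 θ) := by
  have hw0 : den a θ ≠ 0 := den_ne ha θ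
  set w := den a θ with hw
  have h1 : Complex.exp (-(2 * ((Complex.log w).im : ℂ)) * Complex.I) = conj w / w := by
    have h2 : -(2 * ((Complex.log w).im : ℂ)) * Complex.I = conj (Complex.log w) - Complex.log w := by
      apply Complex.ext
      · simp
      · simp
        ring
    rw [h2, Complex.exp_sub, Complex.exp_log hw0, ← Complex.log_conj, Complex.exp_log]
    · intro h
      apply hw0
      rw [← Complex.conj_conj w, h, map_zero]
    · have := den_re_pos ha θ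
      rw [← hw] at this
      intro h
      rw [Complex.arg_eq_pi_iff] at h
      linarith [h.1]
  have h3 : ex2 (lft γ a θ) = ex2 γ * ex2 θ * (conj w / w) := by
    rw [← h1]
    unfold ex2 lft
    rw [← Complex.exp_add, ← Complex.exp_add]
    congr 1
    push_cast
    ring
  rw [h3, hγ]
  unfold mob
  have h4 : ex2 θ * conj w = ex2 θ - a := by
    have h2 : ex2 θ * conj (ex2 θ) = 1 := by
      rw [Complex.mul_conj, Complex.normSq_eq_norm_sq, norm_ex2]
      norm_num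
    rw [hw]
    unfold den
    rw [map_sub, map_one, map_mul, Complex.conj_conj, mul_sub, mul_one, mul_left_comm, h2, mul_one]
  rw [mul_assoc, mul_div_assoc', h4, mul_div_assoc]
  rfl

private lemma lft_period (γ : ℝ) (a : ℂ) (θ : ℝ) :
    lft γ a (θ + 2 * Real.pi) = lft γ a θ + 2 * Real.pi := by
  have h1 : ex2 (θ + 2 * Real.pi) = ex2 θ := by
    unfold ex2
    rw [show ((θ + 2 * Real.pi : ℝ) : ℂ) * Complex.I = (θ : ℂ) * Complex.I +
      2 * Real.pi * Complex.I by push_cast; ring]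
    exact Complex.exp_periodic _
  unfold lft den
  rw [h1]
  ring

private lemma change {c a : ℂ} (hc : ‖c‖ = 1) (ha : ‖a‖ < 1) {H : ℂ → ℝ≥0∞} (hH : Measurable H) :
    ∫⁻ ξ, H (mob c a ξ) * ENNReal.ofReal (pk a ξ) ∂circ = ∫⁻ ξ, H ξ ∂circ := by
  have hpi := Real.pi_pos
  obtain ⟨γ, hγ⟩ : ∃ γ : ℝ, ex2 γ = c := by
    refine ⟨Complex.arg c, ?_⟩
    have h := Complex.norm_mul_exp_arg_mul_I c
    rw [hc, Complex.ofReal_one, one_mul] at h
    exact h
  have hmob : Measurable (mob c a) := by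
    unfold mob
    fun_prop
  have hpk : Measurable (fun ξ => pk a ξ) := by
    unfold pk
    fun_prop
  have hex : Measurable ex2 := by
    unfold ex2
    fun_prop
  rw [lintegral_circ (f := fun ξ => H (mob c a ξ) * ENNReal.ofReal (pk a ξ))
    ((hH.comp hmob).mul hpk.ennreal_ofReal), lintegral_circ hH]
  congr 1
  have hder := hasDerivAt_lft γ ha
  have hpos : ∀ θ, 0 < pk a (ex2 θ) := by
    intro θ
    rw [pk_eq]
    have h1 := den_ne ha θ
    have h2 : 0 < 1 - ‖a‖ ^ 2 := by nlinarith [norm_nonneg a]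
    positivity
  have hmono : StrictMono (lft γ a) := by
    refine strictMono_of_deriv_pos fun θ => ?_
    rw [(hder θ).deriv]
    exact hpos θ
  have hcont : Continuous (lft γ a) := continuous_iff_continuousAt.2 fun θ => (hder θ).continuousAt
  have himg : lft γ a '' Ioc (-Real.pi) Real.pi =
      Ioc (lft γ a (-Real.pi)) (lft γ a (-Real.pi) + 2 * Real.pi) := by
    rw [hcont.image_Ioc_of_strictMono hmono, ← lft_period γ a (-Real.pi)]
    congr 2
    ring
  have h1 := lintegral_image_eq_lintegral_deriv_mul_of_monotoneOn (measurableSet_Ioc)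
    (fun θ _ => (hder θ).hasDerivWithinAt) (hmono.monotone.monotoneOn (Ioc (-Real.pi) Real.pi))
    (fun θ => H (ex2 θ))
  rw [himg] at h1
  have h2 : ∫⁻ θ in Ioc (-Real.pi) Real.pi, H (mob c a (ex2 θ)) * ENNReal.ofReal (pk a (ex2 θ)) =
      ∫⁻ θ in Ioc (-Real.pi) Real.pi, ENNReal.ofReal (pk a (ex2 θ)) * H (ex2 (lft γ a θ)) := by
    refine lintegral_congr fun θ => ?_
    rw [ex2_lft hγ ha, mul_comm]
  have h3 : ∫⁻ θ in Ioc (lft γ a (-Real.pi)) (lft γ a (-Real.pi) + 2 * Real.pi), H (ex2 θ) =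
      ∫⁻ θ in Ioc (-Real.pi) Real.pi, H (ex2 θ) := by
    have h4 := isAddFundamentalDomain_Ioc (T := 2 * Real.pi) (by positivity) (-Real.pi)
    have h5 := isAddFundamentalDomain_Ioc (T := 2 * Real.pi) (by positivity) (lft γ a (-Real.pi))
    have h6 := h5.setLIntegral_eq h4 (fun θ => H (ex2 θ)) (by
      rintro ⟨g, hg⟩ θ
      obtain ⟨n, rfl⟩ := AddSubgroup.mem_zmultiples_iff.1 hg
      have h7 : ex2 ((⟨n • (2 * Real.pi), hg⟩ : AddSubgroup.zmultiples (2 * Real.pi)) +ᵥ θ) =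
          ex2 θ := by
        unfold ex2
        rw [show (((⟨n • (2 * Real.pi), hg⟩ : AddSubgroup.zmultiples (2 * Real.pi)) +ᵥ θ : ℝ) : ℂ) *
          Complex.I = (θ : ℂ) * Complex.I + n * (2 * Real.pi * Complex.I) by
            rw [AddSubgroup.vadd_def, vadd_eq_add]
            push_cast
            simp only [zsmul_eq_mul]
            ring]
        rw [Complex.exp_periodic.int_mul n]
      rw [h7])
    rw [show -Real.pi + 2 * Real.pi = Real.pi by ring] at h6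
    exact h6
  exact h2.trans (h1.symm.trans h3)

private lemma circ_map_mob {c a : ℂ} (hc : ‖c‖ = 1) (ha : ‖a‖ < 1) :
    circ.map (mob c a) = circ.withDensity (fun ξ => ENNReal.ofReal (pk (mob c a 0) ξ)) := by
  have hmob : Measurable (mob c a) := by
    unfold mob
    fun_prop
  have hc0 : c * conj c = 1 := by
    rw [Complex.mul_conj, Complex.normSq_eq_norm_sq, hc]
    norm_num
  set b : ℂ := mob c a 0 with hb
  have hb' : b = -(c * a) := by
    rw [hb]
    unfold mob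
    simp
  have hbn : ‖b‖ < 1 := by
    rw [hb', norm_neg, norm_mul, hc, one_mul]
    exact ha
  have hpk : Measurable (fun ξ => pk b ξ) := by
    unfold pk
    fun_prop
  ext E hE
  rw [Measure.map_apply hmob hE, withDensity_apply _ hE, ← lintegral_indicator hE]
  have h1 := change (c := conj c) (a := b) (by rw [RCLike.norm_conj, hc]) hbn
    (H := (mob c a ⁻¹' E).indicator 1) (measurable_one.indicator (hmob hE))
  rw [lintegral_indicator_one (hmob hE)] at h1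
  rw [← h1]
  refine lintegral_congr_ae ?_
  filter_upwards [ae_circ_norm] with ξ hξ
  have hinv : mob c a (mob (conj c) b ξ) = ξ := by
    have hd : 1 - conj b * ξ ≠ 0 := by
      intro h
      have h2 : ‖conj b * ξ‖ = 1 := by
        rw [← sub_eq_zero.1 h, norm_one]
      rw [norm_mul, RCLike.norm_conj, hξ, mul_one] at h2
      exact hbn.ne h2
    have hca : conj b = -(conj c * conj a) := by rw [hb', map_neg, map_mul]
    have haa : ‖a‖ ^ 2 < 1 := by nlinarith [norm_nonneg a]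
    have h3 : (1 : ℂ) - conj a * a ≠ 0 := by
      rw [← Complex.normSq_eq_conj_mul_self, Complex.normSq_eq_norm_sq]
      intro h
      have : (1 : ℝ) - ‖a‖ ^ 2 = 0 := by exact_mod_cast h
      linarith
    unfold mob
    rw [hca] at hd ⊢
    rw [hb']
    have h4 : (1 - conj a * (conj c * (ξ - -(c * a)) / (1 - -(conj c * conj a) * ξ))) =
        (1 - conj a * a) / (1 - -(conj c * conj a) * ξ) := by
      rw [eq_div_iff hd, sub_mul, mul_assoc (conj a), div_mul_cancel₀ _ hd]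
      linear_combination (-(conj a * a)) * hc0
    rw [h4, div_eq_iff (div_ne_zero h3 hd), mul_div_assoc', eq_div_iff hd, mul_assoc, sub_mul,
      div_mul_cancel₀ _ hd]
    linear_combination (ξ + c * a - ξ * (a * conj a)) * hc0
  by_cases hm : ξ ∈ E
  · have hm' : mob (conj c) b ξ ∈ mob c a ⁻¹' E := by
      rw [mem_preimage, hinv]
      exact hm
    rw [indicator_of_mem hm, indicator_of_mem hm', Pi.one_apply, one_mul]
  · have hm' : mob (conj c) b ξ ∉ mob c a ⁻¹' E := by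
      rw [mem_preimage, hinv]
      exact hm
    rw [indicator_of_notMem hm, indicator_of_notMem hm', zero_mul]

theorem circ_map {f : ℂ → ℂ} (hf : IsDiscIso f) :
    circ.map f = circ.withDensity (fun ξ => ENNReal.ofReal (pk (f 0) ξ)) := by
  rcases hf with ⟨c, a, hc, ha, rfl⟩ | ⟨c, a, hc, ha, rfl⟩
  · exact circ_map_mob hc ha
  · have hmob : Measurable (mob c a) := by
      unfold mob
      fun_prop
    have h1 : circ.map (fun z => mob c a (conj z)) = (circ.map (fun z => conj z)).map (mob c a) :=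
      (Measure.map_map hmob Complex.continuous_conj.measurable).symm
    rw [h1, circ_map_conj, circ_map_mob hc ha]
    simp only [map_zero]

end Pool.Agent.Lib.KLP
end
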