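import Pool.Agent.Lib.MP_a137af_pr.Defs

/-!
# MP_a137af_pr: definitions for the translation from the hyperbolic plane
-/

set_option autoImplicit false
open MeasureTheory Set Filter Topology
open scoped ENNReal ComplexConjugate

namespace Pool.Agent.Lib.KLP

/-- The Cayley transform from the upper half-plane to the unit disc. -/
noncomputable def toDisc (z : UpperHalfPlane) : ℂ :=
  ((z : ℂ) - Complex.I) / ((z : ℂ) + Complex.I)

/-- `e` is the continuous extension of the isometry `g` to the boundary circle (in the disc
model): `g z → e ξ` as `z → ξ`. -/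
def IsBdryExt (g : UpperHalfPlane ≃ᵢ UpperHalfPlane) (e : Circle → Circle) : Prop :=
  ∀ ξ : Circle, Tendsto (fun z : UpperHalfPlane => toDisc (g z))
    (comap toDisc (𝓝 (ξ : ℂ))) (𝓝 (e ξ : ℂ))

end Pool.Agent.Lib.KLP
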