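import Pool.Agent.Lib.MP_a137af_pr.DiscIso
import Pool.Agent.Lib.MP_a137af_pr.DefsS

section

/-!
# G1b: geometry of a disc action
-/

set_option autoImplicit false
open MeasureTheory Set Filter Topology
open scoped ENNReal ComplexConjugate

namespace Pool.Agent.Lib.KLP

variable {Γ : Type*} [Group Γ] (A : DAct Γ)

private theorem ag_den {a z : ℂ} (ha : ‖a‖ < 1) (hz : ‖z‖ ≤ 1) : 0 < ‖1 - conj a * z‖ := by
  have h1 : ‖conj a * z‖ < 1 := by
    rw [norm_mul, RCLike.norm_conj]
    calc ‖a‖ * ‖z‖ ≤ ‖a‖ * 1 := mul_le_mul_of_nonneg_left hz (norm_nonneg _)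
      _ < 1 := by rw [mul_one]; exact ha
  have h2 := norm_sub_norm_le (1 : ℂ) (conj a * z)
  rw [norm_one] at h2
  linarith

private theorem ag_tau {z : ℂ} (hz : ‖z‖ < 1) : 0 < 1 - ‖z‖ ^ 2 := by
  have := norm_nonneg z
  nlinarith

namespace DAct

theorem norm_act_le (g : Γ) {z : ℂ} (hz : ‖z‖ ≤ 1) : ‖A.act g z‖ ≤ 1 :=
  (A.iso g).norm_le_one hz

theorem norm_act_lt (g : Γ) {z : ℂ} (hz : ‖z‖ < 1) : ‖A.act g z‖ < 1 :=
  (A.iso g).norm_lt_one hz

theorem norm_act_eq (g : Γ) {z : ℂ} (hz : ‖z‖ = 1) : ‖A.act g z‖ = 1 :=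
  (A.iso g).norm_eq_one hz

theorem measurable_act (g : Γ) : Measurable (A.act g) := (A.iso g).measurable

theorem inv_act_act (g : Γ) {z : ℂ} (hz : ‖z‖ ≤ 1) : A.act g⁻¹ (A.act g z) = z := by
  rw [← A.mul g⁻¹ g z hz, inv_mul_cancel, A.one z hz]

theorem act_inv_act (g : Γ) {z : ℂ} (hz : ‖z‖ ≤ 1) : A.act g (A.act g⁻¹ z) = z := by
  rw [← A.mul g g⁻¹ z hz, mul_inv_cancel, A.one z hz]

private theorem ag_zero_lt (g : Γ) : ‖A.act g 0‖ < 1 := A.norm_act_lt g (by simp)

theorem t_pos (g : Γ) : 0 < A.t g := ag_tau (A.ag_zero_lt g)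

theorem t_le_one (g : Γ) : A.t g ≤ 1 := by
  unfold t
  have : 0 ≤ ‖A.act g 0‖ ^ 2 := by positivity
  linarith

theorem t_one : A.t 1 = 1 := by
  unfold t
  rw [A.one 0 (by simp)]
  simp

private theorem ag_key (g : Γ) : A.t g = 1 - ‖A.act g⁻¹ 0‖ ^ 2 ∧
    (∀ z w : ℂ, ‖z‖ ≤ 1 → ‖w‖ ≤ 1 →
      ‖A.act g z - A.act g w‖ ^ 2 = A.J g z * A.J g w * ‖z - w‖ ^ 2) ∧
    (∀ z : ℂ, ‖z‖ ≤ 1 → 1 - ‖A.act g z‖ ^ 2 = A.J g z * (1 - ‖z‖ ^ 2)) := by
  obtain ⟨a, ha, ha0, hn, hd, ht⟩ := (A.iso g).exists_zero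
  have h1 : A.act g⁻¹ 0 = a := by
    rw [← ha0]
    exact A.inv_act_act g ha.le
  have h2 : A.t g = 1 - ‖a‖ ^ 2 := by
    unfold t
    rw [hn]
  have hJ : ∀ z, A.J g z = (1 - ‖a‖ ^ 2) / ‖1 - conj a * z‖ ^ 2 := by
    intro z
    unfold J
    rw [h1, h2]
  refine ⟨by rw [h1]; exact h2, fun z w hz hw => ?_, fun z hz => ?_⟩
  · rw [hJ, hJ]
    exact hd z w hz hw
  · rw [hJ]
    exact ht z hz

theorem t_inv (g : Γ) : A.t g⁻¹ = A.t g := by
  rw [(A.ag_key g).1]
  rfl

theorem J_pos (g : Γ) {z : ℂ} (hz : ‖z‖ ≤ 1) : 0 < A.J g z := by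
  have h1 := ag_den (A.ag_zero_lt g⁻¹) hz
  exact div_pos (A.t_pos g) (by positivity)

theorem J_zero (g : Γ) : A.J g 0 = A.t g := by
  unfold J
  simp

theorem J_lower (g : Γ) {z : ℂ} (hz : ‖z‖ ≤ 1) : A.t g / 4 ≤ A.J g z := by
  have h1 := ag_den (A.ag_zero_lt g⁻¹) hz
  unfold J
  apply div_le_div_of_nonneg_left (A.t_pos g).le (by positivity)
  have h2 : ‖1 - conj (A.act g⁻¹ 0) * z‖ ≤ 2 := by
    refine (norm_sub_le _ _).trans ?_
    rw [norm_one, norm_mul, RCLike.norm_conj]
    have h3 := (A.ag_zero_lt g⁻¹).le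
    have h4 := norm_nonneg z
    nlinarith [norm_nonneg (A.act g⁻¹ 0)]
  nlinarith

theorem J_upper (g : Γ) {z : ℂ} (hz : ‖z‖ < 1) : A.J g z ≤ A.t g / (1 - ‖z‖) ^ 2 := by
  have h1 := ag_den (A.ag_zero_lt g⁻¹) hz.le
  unfold J
  have h5 : 0 < 1 - ‖z‖ := by linarith
  apply div_le_div_of_nonneg_left (A.t_pos g).le (by positivity)
  have h2 : 1 - ‖z‖ ≤ ‖1 - conj (A.act g⁻¹ 0) * z‖ := by
    have h3 := norm_sub_norm_le (1 : ℂ) (conj (A.act g⁻¹ 0) * z)
    rw [norm_one, norm_mul, RCLike.norm_conj] at h3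
    have h4 := (A.ag_zero_lt g⁻¹).le
    nlinarith [norm_nonneg z]
  exact pow_le_pow_left₀ h5.le h2 2

private theorem ag_circle_norm {a η : ℂ} (hη : ‖η‖ = 1) : ‖1 - conj a * η‖ = ‖η - a‖ := by
  have h1 := norm_one_sub_conj_mul_sq a η
  rw [hη, one_pow, sub_self, mul_zero, add_zero, norm_sub_rev a η] at h1
  exact (pow_left_inj₀ (norm_nonneg _) (norm_nonneg _) two_ne_zero).1 h1

theorem J_circle (g : Γ) {η : ℂ} (hη : ‖η‖ = 1) :
    A.J g η = A.t g / ‖η - A.act g⁻¹ 0‖ ^ 2 := by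
  unfold J
  rw [ag_circle_norm hη]

theorem dist_act (g : Γ) {z w : ℂ} (hz : ‖z‖ ≤ 1) (hw : ‖w‖ ≤ 1) :
    ‖A.act g z - A.act g w‖ ^ 2 = A.J g z * A.J g w * ‖z - w‖ ^ 2 :=
  (A.ag_key g).2.1 z w hz hw

theorem tau_act (g : Γ) {z : ℂ} (hz : ‖z‖ ≤ 1) :
    1 - ‖A.act g z‖ ^ 2 = A.J g z * (1 - ‖z‖ ^ 2) :=
  (A.ag_key g).2.2 z hz

/-- `|g η - g 0| |η - g⁻¹ 0| = t(g)` for `η` on the circle. -/
theorem circle_dist (g : Γ) {η : ℂ} (hη : ‖η‖ = 1) :
    ‖A.act g η - A.act g 0‖ * ‖η - A.act g⁻¹ 0‖ = A.t g := by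
  have h1 := A.dist_act g hη.le (by simp : ‖(0 : ℂ)‖ ≤ 1)
  rw [A.J_circle g hη, A.J_zero, sub_zero, hη, one_pow, mul_one] at h1
  have h2 : 0 < ‖η - A.act g⁻¹ 0‖ := by
    have h3 := norm_sub_norm_le η (A.act g⁻¹ 0)
    have h4 := A.ag_zero_lt g⁻¹
    rw [hη] at h3
    linarith
  have h3 : (‖A.act g η - A.act g 0‖ * ‖η - A.act g⁻¹ 0‖) ^ 2 = A.t g ^ 2 := by
    rw [mul_pow, h1]
    field_simp
  exact (pow_left_inj₀ (by positivity) (A.t_pos g).le two_ne_zero).1 h3

theorem kap_act (g : Γ) {z w : ℂ} (hz : ‖z‖ < 1) (hw : ‖w‖ < 1) :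
    kap (A.act g z) (A.act g w) = kap z w := by
  unfold kap
  rw [norm_one_sub_conj_mul_sq, A.dist_act g hz.le hw.le, A.tau_act g hz.le, A.tau_act g hw.le,
    norm_one_sub_conj_mul_sq z w]
  have h1 := A.J_pos g hz.le
  have h2 := A.J_pos g hw.le
  have h3 := ag_tau hz
  have h4 := ag_tau hw
  have h5 : 0 < ‖z - w‖ ^ 2 + (1 - ‖z‖ ^ 2) * (1 - ‖w‖ ^ 2) := by positivity
  rw [div_eq_div_iff (by positivity) h5.ne']
  ring

theorem kap_orbit (g h : Γ) : kap (A.act g 0) (A.act h 0) = A.t (g⁻¹ * h) := by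
  have h0 : ‖(0 : ℂ)‖ ≤ 1 := by simp
  rw [← A.kap_act g⁻¹ (A.ag_zero_lt g) (A.ag_zero_lt h), A.inv_act_act g h0,
    ← A.mul g⁻¹ h 0 h0]
  unfold kap t
  simp

theorem kap_orbit_left (g : Γ) {z : ℂ} (hz : ‖z‖ < 1) :
    kap (A.act g 0) z = 1 - ‖A.act g⁻¹ z‖ ^ 2 := by
  have h0 : ‖(0 : ℂ)‖ ≤ 1 := by simp
  rw [← A.kap_act g⁻¹ (A.ag_zero_lt g) hz, A.inv_act_act g h0]
  unfold kap
  simp

theorem t_mul_lower (g h : Γ) : A.t g * A.t h / 4 ≤ A.t (g * h) := by
  have h0 : ‖(0 : ℂ)‖ ≤ 1 := by simp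
  have h1 : A.t (g * h) = A.J g (A.act h 0) * A.t h := by
    have h2 := A.tau_act g (A.ag_zero_lt h).le
    rw [← A.mul g h 0 h0] at h2
    exact h2
  rw [h1]
  calc A.t g * A.t h / 4 = A.t g / 4 * A.t h := by ring
    _ ≤ _ := mul_le_mul_of_nonneg_right (A.J_lower g (A.ag_zero_lt h).le) (A.t_pos h).le

theorem finite_t {ε : ℝ} (hε : 0 < ε) : {g | ε ≤ A.t g}.Finite := by
  have h1 : Real.sqrt (1 - ε) < 1 := by
    rw [Real.sqrt_lt' one_pos]
    linarith
  refine (A.discrete _ h1).subset ?_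
  intro g hg
  have hg' : ε ≤ A.t g := hg
  apply Real.le_sqrt_of_sq_le
  unfold t at hg'
  linarith

end DAct

theorem kap_pos {z w : ℂ} (hz : ‖z‖ < 1) (hw : ‖w‖ < 1) : 0 < kap z w := by
  have h3 := ag_tau hz
  have h4 := ag_tau hw
  have h5 := ag_den hz hw.le
  unfold kap
  positivity

theorem kap_le_one {z w : ℂ} (hz : ‖z‖ < 1) (hw : ‖w‖ < 1) : kap z w ≤ 1 := by
  have h3 := ag_tau hz
  have h4 := ag_tau hw
  have h5 := ag_den hz hw.le
  unfold kap
  rw [div_le_one (by positivity), norm_one_sub_conj_mul_sq]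
  have : 0 ≤ ‖z - w‖ ^ 2 := by positivity
  linarith

end Pool.Agent.Lib.KLP
end

section

/-!
# C1: basic facts on the circle measure
-/

set_option autoImplicit false
open MeasureTheory Set Filter Topology
open scoped ENNReal ComplexConjugate

namespace Pool.Agent.Lib.KLP

private lemma circ_aux_meas : Measurable fun θ : ℝ => Complex.exp ((θ : ℂ) * Complex.I) := by
  fun_prop

private lemma circ_aux_c_ne : ENNReal.ofReal (1 / (2 * Real.pi)) ≠ 0 := by
  have := Real.pi_pos
  positivity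

private lemma circ_aux_apply {E : Set ℂ} (hE : MeasurableSet E) :
    circ E = ENNReal.ofReal (1 / (2 * Real.pi)) *
      volume ({θ : ℝ | Complex.exp ((θ : ℂ) * Complex.I) ∈ E} ∩ Ioc (-Real.pi) Real.pi) := by
  unfold circ
  rw [Measure.smul_apply, Measure.map_apply circ_aux_meas hE,
    Measure.restrict_apply (circ_aux_meas hE), smul_eq_mul]
  rfl

instance isProbabilityMeasure_circ : IsProbabilityMeasure circ := by
  refine ⟨?_⟩
  have hpi := Real.pi_pos
  rw [circ_aux_apply MeasurableSet.univ]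
  have h1 : {θ : ℝ | Complex.exp ((θ : ℂ) * Complex.I) ∈ (univ : Set ℂ)} = univ := by
    ext; simp
  rw [h1, univ_inter, Real.volume_Ioc, ← ENNReal.ofReal_mul (by positivity)]
  rw [show 1 / (2 * Real.pi) * (Real.pi - -Real.pi) = 1 by field_simp; ring, ENNReal.ofReal_one]

theorem circ_compl : circ {z : ℂ | ‖z‖ ≠ 1} = 0 := by
  have hm : MeasurableSet {z : ℂ | ‖z‖ ≠ 1} :=
    (measurableSet_singleton (1 : ℝ)).compl.preimage measurable_norm
  rw [circ_aux_apply hm]
  have h1 : {θ : ℝ | Complex.exp ((θ : ℂ) * Complex.I) ∈ {z : ℂ | ‖z‖ ≠ 1}} = ∅ := by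
    ext θ
    simp only [mem_setOf_eq, mem_empty_iff_false, iff_false, not_not]
    exact Complex.norm_exp_ofReal_mul_I θ
  rw [h1, empty_inter, measure_empty, mul_zero]

theorem ae_circ_norm : ∀ᵐ z ∂circ, ‖z‖ = 1 := circ_compl

theorem circ_apply {E : Set ℂ} (hE : MeasurableSet E) :
    circ E = ENNReal.ofReal (1 / (2 * Real.pi)) *
      volume ({θ : ℝ | Complex.exp ((θ : ℂ) * Complex.I) ∈ E} ∩ Ioc (-Real.pi) Real.pi) :=
  circ_aux_apply hE

theorem lintegral_circ {f : ℂ → ℝ≥0∞} (hf : Measurable f) :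
    ∫⁻ z, f z ∂circ = ENNReal.ofReal (1 / (2 * Real.pi)) *
      ∫⁻ θ in Ioc (-Real.pi) Real.pi, f (Complex.exp ((θ : ℂ) * Complex.I)) := by
  unfold circ
  rw [lintegral_smul_measure, lintegral_map hf circ_aux_meas, smul_eq_mul]

theorem integral_circ {E : Type*} [NormedAddCommGroup E] [NormedSpace ℝ E] {f : ℂ → E}
    (hf : AEStronglyMeasurable f circ) :
    ∫ z, f z ∂circ = (1 / (2 * Real.pi)) •
      ∫ θ in (-Real.pi)..Real.pi, f (Complex.exp ((θ : ℂ) * Complex.I)) := by
  have hpi := Real.pi_pos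
  have hf' : AEStronglyMeasurable f ((volume.restrict (Ioc (-Real.pi) Real.pi)).map
      (fun θ : ℝ => Complex.exp ((θ : ℂ) * Complex.I))) :=
    hf.mono_ac (Measure.absolutelyContinuous_smul circ_aux_c_ne)
  have h1 : ∫ z, f z ∂circ = (ENNReal.ofReal (1 / (2 * Real.pi))).toReal •
      ∫ z, f z ∂((volume.restrict (Ioc (-Real.pi) Real.pi)).map
      (fun θ : ℝ => Complex.exp ((θ : ℂ) * Complex.I))) := by
    unfold circ
    exact integral_smul_measure f _
  rw [h1, integral_map circ_aux_meas.aemeasurable hf',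
    intervalIntegral.integral_of_le (by linarith), ENNReal.toReal_ofReal (by positivity)]

theorem circ_map_mul {c : ℂ} (hc : ‖c‖ = 1) : circ.map (fun z => c * z) = circ := by
  have hpi := Real.pi_pos
  obtain ⟨α, hα⟩ : ∃ α : ℝ, Complex.exp ((α : ℂ) * Complex.I) = c := by
    refine ⟨Complex.arg c, ?_⟩
    have h := Complex.norm_mul_exp_arg_mul_I c
    rw [hc, Complex.ofReal_one, one_mul] at h
    exact h
  have hm : Measurable fun z : ℂ => c * z := measurable_const_mul c
  ext E hE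
  rw [Measure.map_apply hm hE, circ_apply (hm hE), circ_apply hE]
  congr 1
  set A : Set ℝ := {θ : ℝ | Complex.exp ((θ : ℂ) * Complex.I) ∈ E} with hA
  have hAm : MeasurableSet A := circ_aux_meas hE
  have h1 : {θ : ℝ | Complex.exp ((θ : ℂ) * Complex.I) ∈ (fun z : ℂ => c * z) ⁻¹' E} ∩
      Ioc (-Real.pi) Real.pi = (fun θ : ℝ => θ + α) ⁻¹' (A ∩ Ioc (-Real.pi + α) (Real.pi + α)) := by
    ext θ
    simp only [hA, mem_inter_iff, mem_setOf_eq, mem_preimage, mem_Ioc, add_lt_add_iff_right,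
      add_le_add_iff_right]
    rw [show Complex.exp (((θ + α : ℝ) : ℂ) * Complex.I) =
      c * Complex.exp ((θ : ℂ) * Complex.I) by
        rw [← hα, ← Complex.exp_add]
        congr 1
        push_cast
        ring]
  rw [h1, measure_preimage_add_right]
  have h2 := isAddFundamentalDomain_Ioc (T := 2 * Real.pi) (by positivity) (-Real.pi)
  have h3 := isAddFundamentalDomain_Ioc (T := 2 * Real.pi) (by positivity) (-Real.pi + α)
  have h4 := h2.measure_set_eq h3 hAm (by
    rintro ⟨g, hg⟩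
    obtain ⟨n, rfl⟩ := AddSubgroup.mem_zmultiples_iff.1 hg
    ext θ
    simp only [hA, mem_preimage, mem_setOf_eq]
    rw [show (((⟨n • (2 * Real.pi), hg⟩ : AddSubgroup.zmultiples (2 * Real.pi)) +ᵥ θ : ℝ) : ℂ) *
      Complex.I = (θ : ℂ) * Complex.I + n * (2 * Real.pi * Complex.I) by
        rw [AddSubgroup.vadd_def, vadd_eq_add]
        push_cast
        simp only [zsmul_eq_mul]
        push_cast
        ring]
    rw [Complex.exp_periodic.int_mul n])
  rw [show -Real.pi + 2 * Real.pi = Real.pi by ring,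
    show -Real.pi + α + 2 * Real.pi = Real.pi + α by ring] at h4
  exact h4.symm

theorem circ_map_conj : circ.map (fun z => conj z) = circ := by
  have hpi := Real.pi_pos
  have hm : Measurable fun z : ℂ => conj z := Complex.continuous_conj.measurable
  ext E hE
  rw [Measure.map_apply hm hE, circ_apply (hm hE), circ_apply hE]
  congr 1
  set A : Set ℝ := {θ : ℝ | Complex.exp ((θ : ℂ) * Complex.I) ∈ E} with hA
  have h1 : {θ : ℝ | Complex.exp ((θ : ℂ) * Complex.I) ∈ (fun z : ℂ => conj z) ⁻¹' E} ∩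
      Ioc (-Real.pi) Real.pi = (fun θ : ℝ => -θ) ⁻¹' (A ∩ Ico (-Real.pi) Real.pi) := by
    ext θ
    simp only [hA, mem_inter_iff, mem_setOf_eq, mem_preimage, mem_Ioc, mem_Ico]
    rw [show Complex.exp (((-θ : ℝ) : ℂ) * Complex.I) =
      conj (Complex.exp ((θ : ℂ) * Complex.I)) by
        rw [← Complex.exp_conj]
        congr 1
        simp]
    constructor
    · rintro ⟨h, h2, h3⟩
      exact ⟨h, by linarith, by linarith⟩
    · rintro ⟨h, h2, h3⟩
      exact ⟨h, by linarith, by linarith⟩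
  rw [h1, Measure.measure_preimage_neg]
  exact measure_congr ((ae_eq_refl A).inter Ico_ae_eq_Ioc)

end Pool.Agent.Lib.KLP
end

section

section

/-!
# S2: the disc model
-/

set_option autoImplicit false
open MeasureTheory Set Filter Topology
open scoped ENNReal ComplexConjugate

namespace Pool.Agent.Lib.KLP

private theorem uhp_add_I_ne (z : UpperHalfPlane) : (z : ℂ) + Complex.I ≠ 0 := by
  intro h
  have h1 := congrArg Complex.im h
  have h2 := z.im_pos
  have h3 : (z : ℂ).im = z.im := rfl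
  simp only [Complex.add_im, Complex.I_im, Complex.zero_im] at h1
  linarith

private theorem sq_norm_sub_I (z : UpperHalfPlane) :
    ‖(z : ℂ) - Complex.I‖ ^ 2 = z.re ^ 2 + (z.im - 1) ^ 2 := by
  rw [Complex.sq_norm, Complex.normSq_apply]
  have h3 : (z : ℂ).im = z.im := rfl
  have h4 : (z : ℂ).re = z.re := rfl
  simp only [Complex.sub_re, Complex.sub_im, Complex.I_re, Complex.I_im, h3, h4]
  ring

private theorem sq_norm_add_I (z : UpperHalfPlane) :
    ‖(z : ℂ) + Complex.I‖ ^ 2 = z.re ^ 2 + (z.im + 1) ^ 2 := by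
  rw [Complex.sq_norm, Complex.normSq_apply]
  have h3 : (z : ℂ).im = z.im := rfl
  have h4 : (z : ℂ).re = z.re := rfl
  simp only [Complex.add_re, Complex.add_im, Complex.I_re, Complex.I_im, h3, h4]
  ring

private theorem norm_toDisc_eq (z : UpperHalfPlane) :
    ‖toDisc z‖ = ‖(z : ℂ) - Complex.I‖ / ‖(z : ℂ) + Complex.I‖ := by
  rw [toDisc, norm_div]

theorem norm_toDisc_lt (z : UpperHalfPlane) : ‖toDisc z‖ < 1 := by
  have h0 : 0 < ‖(z : ℂ) + Complex.I‖ := norm_pos_iff.mpr (uhp_add_I_ne z)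
  rw [norm_toDisc_eq, div_lt_one h0]
  have h1 := sq_norm_sub_I z
  have h2 := sq_norm_add_I z
  have h3 := z.im_pos
  refine lt_of_pow_lt_pow_left₀ 2 h0.le ?_
  rw [h1, h2]
  nlinarith

theorem toDisc_injective : Function.Injective toDisc := by
  intro z w h
  have hz := uhp_add_I_ne z
  have hw := uhp_add_I_ne w
  rw [toDisc, toDisc, div_eq_div_iff hz hw] at h
  have h1 : 2 * Complex.I * ((z : ℂ) - w) = 0 := by
    linear_combination h
  have h2 : (2 : ℂ) * Complex.I ≠ 0 := mul_ne_zero two_ne_zero Complex.I_ne_zero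
  have h3 : (z : ℂ) - w = 0 := (mul_eq_zero.mp h1).resolve_left h2
  exact UpperHalfPlane.ext (by simpa [sub_eq_zero] using h3)

theorem toDisc_surj {w : ℂ} (hw : ‖w‖ < 1) : ∃ z, toDisc z = w := by
  have hw1 : 1 - w ≠ 0 := by
    intro h
    have h1 : w = 1 := (sub_eq_zero.mp h).symm
    rw [h1, norm_one] at hw
    exact lt_irrefl _ hw
  have him : 0 < (Complex.I * (1 + w) / (1 - w)).im := by
    have h1 : Complex.I * (1 + w) / (1 - w)
        = Complex.I * ((1 + w) * conj (1 - w)) / ((Complex.normSq (1 - w) : ℝ) : ℂ) := by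
      rw [← Complex.mul_conj]
      have h2 : conj (1 - w) ≠ 0 := (map_ne_zero _).mpr hw1
      field_simp
    rw [h1, Complex.div_ofReal_im]
    refine div_pos ?_ (Complex.normSq_pos.mpr hw1)
    have h3 : ‖w‖ ^ 2 < 1 := by
      have := norm_nonneg w
      nlinarith
    rw [Complex.sq_norm, Complex.normSq_apply] at h3
    simp only [Complex.mul_im, Complex.I_re, Complex.I_im, Complex.mul_re, Complex.add_re,
      Complex.add_im, Complex.one_re, Complex.one_im, Complex.conj_re, Complex.conj_im,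
      Complex.sub_re, Complex.sub_im]
    nlinarith
  refine ⟨UpperHalfPlane.mk _ him, ?_⟩
  have h5 : ((UpperHalfPlane.mk _ him : UpperHalfPlane) : ℂ) = Complex.I * (1 + w) / (1 - w) := rfl
  rw [toDisc, h5]
  have h6 : Complex.I * (1 + w) / (1 - w) + Complex.I = 2 * Complex.I / (1 - w) := by
    field_simp
    ring
  have h7 : Complex.I * (1 + w) / (1 - w) - Complex.I = 2 * Complex.I * w / (1 - w) := by
    field_simp
    ring
  rw [h6, h7]
  have hI := Complex.I_ne_zero
  field_simp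

theorem toDisc_I : toDisc UpperHalfPlane.I = 0 := by
  rw [toDisc, UpperHalfPlane.coe_I, sub_self, zero_div]

theorem continuous_toDisc : Continuous toDisc := by
  unfold toDisc
  exact (UpperHalfPlane.continuous_coe.sub continuous_const).div
    (UpperHalfPlane.continuous_coe.add continuous_const) uhp_add_I_ne

/-- compact subsets of the disc are images of compact subsets of the half-plane -/
theorem isCompact_preimage_toDisc {ρ : ℝ} (hρ : ρ < 1) :
    IsCompact {z : UpperHalfPlane | ‖toDisc z‖ ≤ ρ} := by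
  refine Metric.isCompact_of_isClosed_isBounded
    (isClosed_le continuous_toDisc.norm continuous_const) ?_
  refine (Metric.isBounded_closedBall (x := UpperHalfPlane.I)
    (r := 1 + 2 * ρ ^ 2 / (1 - ρ ^ 2))).subset ?_
  intro z hz
  change ‖toDisc z‖ ≤ ρ at hz
  rw [Metric.mem_closedBall]
  have hρ0 : 0 ≤ ρ := (norm_nonneg _).trans hz
  have hρ2 : 0 < 1 - ρ ^ 2 := by nlinarith
  have h0 : 0 < ‖(z : ℂ) + Complex.I‖ := norm_pos_iff.mpr (uhp_add_I_ne z)
  rw [norm_toDisc_eq, div_le_iff₀ h0] at hz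
  have h1 := sq_norm_sub_I z
  have h2 := sq_norm_add_I z
  have h3 := z.im_pos
  have h4 : ‖(z : ℂ) - Complex.I‖ ^ 2 ≤ ρ ^ 2 * ‖(z : ℂ) + Complex.I‖ ^ 2 := by
    rw [← mul_pow]
    exact pow_le_pow_left₀ (norm_nonneg _) hz 2
  have h5 : ‖(z : ℂ) - Complex.I‖ ^ 2 * (1 - ρ ^ 2) ≤ 4 * ρ ^ 2 * z.im := by
    have h6 : ‖(z : ℂ) + Complex.I‖ ^ 2 = ‖(z : ℂ) - Complex.I‖ ^ 2 + 4 * z.im := by
      rw [h1, h2]; ring
    rw [h6] at h4
    nlinarith
  have h7 := UpperHalfPlane.cosh_dist z UpperHalfPlane.I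
  have h8 : dist z UpperHalfPlane.I ≤ Real.sinh (dist z UpperHalfPlane.I) :=
    Real.self_le_sinh_iff.mpr dist_nonneg
  have h9 := Real.sinh_lt_cosh (dist z UpperHalfPlane.I)
  refine h8.trans (h9.le.trans ?_)
  rw [h7, UpperHalfPlane.coe_I, Complex.dist_eq, UpperHalfPlane.I_im, mul_one]
  gcongr 1 + ?_
  rw [div_le_div_iff₀ (by positivity) hρ2]
  nlinarith

private theorem mob_frac {α β : ℂ} (hα : α ≠ 0) (w : ℂ) :
    mob (-(α / conj α)) (-(β / α)) w = -(α * w + β) / (conj β * w + conj α) := by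
  have h1 : conj α ≠ 0 := (map_ne_zero _).mpr hα
  rw [mob, map_neg, map_div₀]
  have h2 : 1 - -(conj β / conj α) * w = (conj β * w + conj α) / conj α := by
    field_simp
    ring
  have h3 : -(α / conj α) * (w - -(β / α)) = -(α * w + β) / conj α := by
    field_simp
    ring
  rw [h2, h3]
  by_cases h4 : conj β * w + conj α = 0
  · rw [h4]; simp
  · field_simp

private theorem norm_unit_frac {α : ℂ} (hα : α ≠ 0) : ‖-(α / conj α)‖ = 1 := by
  rw [norm_neg, norm_div, RCLike.norm_conj, div_self (norm_ne_zero_iff.mpr hα)]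

private theorem norm_lt_frac {α β : ℂ} (h : ‖β‖ < ‖α‖) : ‖-(β / α)‖ < 1 := by
  have h0 : 0 < ‖α‖ := (norm_nonneg _).trans_lt h
  rw [norm_neg, norm_div, div_lt_one h0]
  exact h

theorem exists_disc_of_GL (A : GL (Fin 2) ℝ) :
    ∃ f, IsDiscIso f ∧ ∀ z : UpperHalfPlane, toDisc (A • z) = f (toDisc z) := by
  set a : ℝ := A 0 0 with ha
  set b : ℝ := A 0 1 with hb
  set c : ℝ := A 1 0 with hc
  set d : ℝ := A 1 1 with hd
  have hdet : A.det.val = a * d - b * c := by
    rw [Matrix.GeneralLinearGroup.val_det_apply, Matrix.det_fin_two]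
  have hdet0 : a * d - b * c ≠ 0 := by
    rw [← hdet]; exact Units.ne_zero _
  set α : ℂ := ⟨c - b, a + d⟩ with hα
  set β : ℂ := ⟨c + b, a - d⟩ with hβ
  have hα' : α = (c - b) + (a + d) * Complex.I := by
    apply Complex.ext <;> simp [hα]
  have hβ' : β = (c + b) + (a - d) * Complex.I := by
    apply Complex.ext <;> simp [hβ]
  have hαc : conj α = (c - b) - (a + d) * Complex.I := by
    apply Complex.ext <;> simp [hα]
  have hβc : conj β = (c + b) - (a - d) * Complex.I := by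
    apply Complex.ext <;> simp [hβ]
  have hαβ : ‖α‖ ^ 2 - ‖β‖ ^ 2 = 4 * (a * d - b * c) := by
    rw [Complex.sq_norm, Complex.sq_norm, Complex.normSq_apply, Complex.normSq_apply]
    simp only [hα, hβ]
    ring
  -- the two basic identities
  have hI2 : Complex.I ^ 2 = -1 := Complex.I_sq
  have key1 : ∀ z : UpperHalfPlane,
      (a * (z : ℂ) + b) - Complex.I * (c * (z : ℂ) + d)
        = -Complex.I * (((z : ℂ) + Complex.I) / 2) * (α * toDisc z + β) := by
    intro z
    have hz := uhp_add_I_ne z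
    rw [toDisc, hα', hβ']
    field_simp
    linear_combination ((2 * b : ℂ) + 2 * (a : ℂ) * z - 2 * Complex.I * d) * hI2
  have key2 : ∀ z : UpperHalfPlane,
      (a * (z : ℂ) + b) + Complex.I * (c * (z : ℂ) + d)
        = Complex.I * (((z : ℂ) + Complex.I) / 2) * (conj β * toDisc z + conj α) := by
    intro z
    have hz := uhp_add_I_ne z
    rw [toDisc, hαc, hβc]
    field_simp
    linear_combination ((2 * b : ℂ) + 2 * (a : ℂ) * z + 2 * Complex.I * d) * hI2
  have hnum : ∀ z : UpperHalfPlane, UpperHalfPlane.num A z = a * (z : ℂ) + b := fun z => rfl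
  have hden : ∀ z : UpperHalfPlane, UpperHalfPlane.denom A z = c * (z : ℂ) + d := fun z => rfl
  -- the quotient of the two identities
  have key3 : ∀ z : UpperHalfPlane,
      ((a * (z : ℂ) + b) / (c * (z : ℂ) + d) - Complex.I)
        = (-Complex.I * (((z : ℂ) + Complex.I) / 2) * (α * toDisc z + β)) / (c * (z : ℂ) + d) := by
    intro z
    have h1 : (c * (z : ℂ) + d) ≠ 0 := by
      rw [← hden]; exact UpperHalfPlane.denom_ne_zero A z
    rw [← key1, sub_div, mul_div_assoc, div_self h1, mul_one]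
  have key4 : ∀ z : UpperHalfPlane,
      ((a * (z : ℂ) + b) / (c * (z : ℂ) + d) + Complex.I)
        = (Complex.I * (((z : ℂ) + Complex.I) / 2) * (conj β * toDisc z + conj α))
            / (c * (z : ℂ) + d) := by
    intro z
    have h1 : (c * (z : ℂ) + d) ≠ 0 := by
      rw [← hden]; exact UpperHalfPlane.denom_ne_zero A z
    rw [← key2, add_div (a * (z : ℂ) + b), mul_div_assoc, div_self h1, mul_one]
  have key5 : ∀ z : UpperHalfPlane,
      ((a * (z : ℂ) + b) / (c * (z : ℂ) + d) - Complex.I)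
        / ((a * (z : ℂ) + b) / (c * (z : ℂ) + d) + Complex.I)
        = -(α * toDisc z + β) / (conj β * toDisc z + conj α) := by
    intro z
    have h1 : (c * (z : ℂ) + d) ≠ 0 := by
      rw [← hden]; exact UpperHalfPlane.denom_ne_zero A z
    have h2 : Complex.I * (((z : ℂ) + Complex.I) / 2) ≠ 0 :=
      mul_ne_zero Complex.I_ne_zero (div_ne_zero (uhp_add_I_ne z) two_ne_zero)
    rw [key3, key4, div_div_div_cancel_right₀ h1]
    have h3 : -Complex.I * (((z : ℂ) + Complex.I) / 2) * (α * toDisc z + β)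
        = Complex.I * (((z : ℂ) + Complex.I) / 2) * (-(α * toDisc z + β)) := by ring
    rw [h3, mul_div_mul_left _ _ h2]
  rcases lt_or_gt_of_ne hdet0 with hneg | hpos
  · -- orientation reversing
    have hlt : ‖α‖ < ‖β‖ := by
      have h1 : ‖α‖ ^ 2 < ‖β‖ ^ 2 := by linarith
      exact lt_of_pow_lt_pow_left₀ 2 (norm_nonneg _) h1
    have hβ0 : β ≠ 0 := by
      intro h
      rw [h, norm_zero] at hlt
      exact absurd hlt (not_lt.mpr (norm_nonneg _))
    refine ⟨fun z => mob (-(β / conj β)) (-(α / β)) (conj z),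
      Or.inr ⟨_, _, norm_unit_frac hβ0, norm_lt_frac hlt, rfl⟩, ?_⟩
    intro z
    have hσ : UpperHalfPlane.σ A = Complex.conjCAE := by
      rw [UpperHalfPlane.σ, if_neg]
      rw [hdet]
      exact not_lt.mpr hneg.le
    change toDisc (A • z) = mob (-(β / conj β)) (-(α / β)) (conj (toDisc z))
    rw [mob_frac hβ0, toDisc, UpperHalfPlane.coe_smul, hσ, hnum, hden, Complex.conjCAE_apply]
    have h6 : ∀ u : ℂ, (conj u - Complex.I) / (conj u + Complex.I)
        = conj (((u - Complex.I) / (u + Complex.I))⁻¹) := by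
      intro u
      rw [inv_div, map_div₀, map_add, map_sub, Complex.conj_I, sub_neg_eq_add, ← sub_eq_add_neg]
    rw [h6, key5, inv_div, map_div₀, map_neg, map_add, map_add, map_mul, map_mul,
      Complex.conj_conj, Complex.conj_conj]
    rw [div_neg, neg_div]
  · have hlt : ‖β‖ < ‖α‖ := by
      have h1 : ‖β‖ ^ 2 < ‖α‖ ^ 2 := by linarith
      exact lt_of_pow_lt_pow_left₀ 2 (norm_nonneg _) h1
    have hα0 : α ≠ 0 := by
      intro h
      rw [h, norm_zero] at hlt
      exact absurd hlt (not_lt.mpr (norm_nonneg _))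
    refine ⟨mob (-(α / conj α)) (-(β / α)),
      Or.inl ⟨_, _, norm_unit_frac hα0, norm_lt_frac hlt, rfl⟩, ?_⟩
    intro z
    have hσ : UpperHalfPlane.σ A = ContinuousAlgEquiv.refl ℝ ℂ := by
      rw [UpperHalfPlane.σ, if_pos]
      rw [hdet]
      exact hpos
    rw [mob_frac hα0]
    conv_lhs => rw [toDisc, UpperHalfPlane.coe_smul, hσ, hnum, hden]
    exact key5 z

private theorem mob_self (c a : ℂ) : mob c a a = 0 := by
  rw [mob, sub_self, mul_zero, zero_div]

private theorem one_sub_conj_mul_ne {a z : ℂ} (ha : ‖a‖ < 1) (hz : ‖z‖ < 1) :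
    1 - conj a * z ≠ 0 := by
  intro h
  have h1 : conj a * z = 1 := (sub_eq_zero.mp h).symm
  have h2 := congrArg norm h1
  rw [norm_mul, RCLike.norm_conj, norm_one] at h2
  have h3 := norm_nonneg a
  have h4 := norm_nonneg z
  nlinarith

private theorem eq_of_mob_zero {c a z : ℂ} (hc : ‖c‖ = 1) (ha : ‖a‖ < 1) (hz : ‖z‖ < 1)
    (h : mob c a z = 0) : z = a := by
  have hc0 : c ≠ 0 := by
    intro h0; rw [h0, norm_zero] at hc; exact zero_ne_one hc
  rw [mob, div_eq_zero_iff] at h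
  rcases h with h | h
  · exact sub_eq_zero.mp ((mul_eq_zero.mp h).resolve_left hc0)
  · exact absurd h (one_sub_conj_mul_ne ha hz)

private theorem exists_r {a : ℂ} (ha : ‖a‖ < 1) : ∃ r : ℝ, 0 < r ∧
    ∀ u : ℂ, ‖u‖ = 1 → ‖a + r * u‖ < 1 := by
  refine ⟨(1 - ‖a‖) / 2, by linarith, ?_⟩
  intro u hu
  have h1 : ‖((((1 - ‖a‖) / 2 : ℝ)) : ℂ) * u‖ = (1 - ‖a‖) / 2 := by
    rw [norm_mul, hu, mul_one, Complex.norm_real, Real.norm_of_nonneg (by linarith)]
  calc ‖a + (((1 - ‖a‖) / 2 : ℝ) : ℂ) * u‖ ≤ ‖a‖ + ‖((((1 - ‖a‖) / 2 : ℝ)) : ℂ) * u‖ :=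
        norm_add_le _ _
    _ = ‖a‖ + (1 - ‖a‖) / 2 := by rw [h1]
    _ < 1 := by linarith

private theorem mob_unique {c a c' a' : ℂ} (hc' : ‖c'‖ = 1) (ha : ‖a‖ < 1)
    (ha' : ‖a'‖ < 1) (h : ∀ z, ‖z‖ < 1 → mob c a z = mob c' a' z) : c = c' ∧ a = a' := by
  have h1 : mob c' a' a = 0 := by rw [← h a ha, mob_self]
  have h2 : a = a' := eq_of_mob_zero hc' ha' ha h1
  subst h2
  refine ⟨?_, rfl⟩
  obtain ⟨r, hr, hru⟩ := exists_r ha
  have h3 := h _ (hru 1 norm_one)
  have h4 := one_sub_conj_mul_ne ha (hru 1 norm_one)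
  rw [mob, mob, div_left_inj' h4] at h3
  have h5 : a + (r : ℂ) * 1 - a ≠ 0 := by
    rw [mul_one, add_sub_cancel_left]
    exact_mod_cast hr.ne'
  exact mul_right_cancel₀ h5 h3

private theorem not_mob_anti {c a c' a' : ℂ} (hc : ‖c‖ = 1) (hc' : ‖c'‖ = 1) (ha : ‖a‖ < 1)
    (ha' : ‖a'‖ < 1) (h : ∀ z, ‖z‖ < 1 → mob c a z = mob c' a' (conj z)) : False := by
  have h1 : mob c' a' (conj a) = 0 := by rw [← h a ha, mob_self]
  have h2 : conj a = a' := eq_of_mob_zero hc' ha' (by rwa [RCLike.norm_conj]) h1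
  subst h2
  obtain ⟨r, hr, hru⟩ := exists_r ha
  have hr0 : (r : ℂ) ≠ 0 := by exact_mod_cast hr.ne'
  -- a general evaluation
  have key : ∀ u : ℂ, ‖u‖ = 1 →
      c * u * (1 - a * conj a - a * r * conj u)
        = c' * conj u * (1 - a * conj a - conj a * r * u) := by
    intro u hu
    have h3 := h _ (hru u hu)
    have h4 := one_sub_conj_mul_ne ha (hru u hu)
    have h5 : 1 - conj (conj a) * conj (a + r * u) ≠ 0 :=
      one_sub_conj_mul_ne ha' (by rw [RCLike.norm_conj]; exact hru u hu)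
    rw [mob, mob, div_eq_div_iff h4 h5] at h3
    simp only [Complex.conj_conj, map_add, map_mul, Complex.conj_ofReal] at h3
    apply mul_left_cancel₀ hr0
    linear_combination h3
  have k1 := key 1 norm_one
  have k2 := key (-1) (by rw [norm_neg, norm_one])
  have k3 := key Complex.I Complex.norm_I
  have k4 := key (-Complex.I) (by rw [norm_neg, Complex.norm_I])
  simp only [map_one, map_neg, Complex.conj_I, neg_neg] at k1 k2 k3 k4
  have hs : (1 : ℂ) - a * conj a ≠ 0 := by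
    have := one_sub_conj_mul_ne ha ha
    rwa [mul_comm] at this
  have hc0 : c ≠ 0 := by
    intro h0; rw [h0, norm_zero] at hc; exact zero_ne_one hc
  have e1 : c * (1 - a * conj a) = c' * (1 - a * conj a) := by
    linear_combination (k1 - k2) / 2
  have e2 : Complex.I * c * (1 - a * conj a) = -Complex.I * c' * (1 - a * conj a) := by
    linear_combination (k3 - k4) / 2
  have e3 : c = c' := mul_right_cancel₀ hs e1
  have e4 : Complex.I * c = -Complex.I * c' := mul_right_cancel₀ hs e2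
  rw [← e3] at e4
  have e5 : 2 * Complex.I * c = 0 := by linear_combination e4
  exact (mul_ne_zero (mul_ne_zero two_ne_zero Complex.I_ne_zero) hc0) e5

end Pool.Agent.Lib.KLP
end

section

/-!
# S1: isometries of the upper half-plane are given by matrices
-/

set_option autoImplicit false
open MeasureTheory Set Filter Topology
open scoped ENNReal ComplexConjugate

namespace Pool.Agent.Lib.KLP

private theorem dist_sq' (z w : UpperHalfPlane) :
    dist (z : ℂ) w ^ 2 = (z.re - w.re) ^ 2 + (z.im - w.im) ^ 2 := by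
  rw [Complex.dist_eq, Complex.sq_norm, Complex.normSq_apply]
  simp only [Complex.sub_re, Complex.sub_im, UpperHalfPlane.coe_re, UpperHalfPlane.coe_im]
  ring

private theorem key {z w p : UpperHalfPlane} (h : dist z p = dist w p) :
    ((z.re - p.re) ^ 2 + (z.im - p.im) ^ 2) * w.im
      = ((w.re - p.re) ^ 2 + (w.im - p.im) ^ 2) * z.im := by
  have h1 := congrArg Real.cosh h
  rw [UpperHalfPlane.cosh_dist, UpperHalfPlane.cosh_dist, dist_sq', dist_sq'] at h1
  have hz := z.im_pos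
  have hw := w.im_pos
  have hp := p.im_pos
  have h2 := add_left_cancel h1
  rw [div_eq_div_iff (by positivity) (by positivity)] at h2
  have h3 : (2 * p.im) * (((z.re - p.re) ^ 2 + (z.im - p.im) ^ 2) * w.im)
      = (2 * p.im) * (((w.re - p.re) ^ 2 + (w.im - p.im) ^ 2) * z.im) := by linarith
  exact mul_left_cancel₀ (by positivity) h3

private noncomputable def tI : UpperHalfPlane := ⟨2 * Complex.I, by simp⟩

private theorem tI_re : tI.re = 0 := by simp [tI, UpperHalfPlane.re]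
private theorem tI_im : tI.im = 2 := by simp [tI, UpperHalfPlane.im]

private noncomputable def oI : UpperHalfPlane := ⟨1 + Complex.I, by simp⟩

private theorem oI_re : oI.re = 1 := by simp [oI, UpperHalfPlane.re]
private theorem oI_im : oI.im = 1 := by simp [oI, UpperHalfPlane.im]

private theorem I_re : UpperHalfPlane.I.re = 0 := by simp
private theorem I_im : UpperHalfPlane.I.im = 1 := by simp

private noncomputable def mk4 (a b c d : ℝ) (hdet : a * d - b * c = 1) :
    Matrix.SpecialLinearGroup (Fin 2) ℝ :=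
  ⟨!![a, b; c, d], by rw [Matrix.det_fin_two_of]; exact hdet⟩

private theorem SL_smul_re_im {a b c d : ℝ} (hdet : a * d - b * c = 1) (z : UpperHalfPlane) :
    ((mk4 a b c d hdet • z : UpperHalfPlane) : ℂ)
      = ((a : ℂ) * z + b) / ((c : ℂ) * z + d) := by
  rw [UpperHalfPlane.coe_specialLinearGroup_apply]
  simp [mk4]

/-- Rotation taking `2i` to `w`. -/
private theorem exists_rot {w : UpperHalfPlane}
    (h : dist w UpperHalfPlane.I = dist tI UpperHalfPlane.I) :
    ∃ k : Matrix.SpecialLinearGroup (Fin 2) ℝ, k • UpperHalfPlane.I = UpperHalfPlane.I ∧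
      k • tI = w := by
  have h1 := key h
  rw [I_re, I_im, tI_re, tI_im] at h1
  have hv := w.im_pos
  set x := w.re with hx
  set v := w.im with hv'
  have h2 : x ^ 2 = (2 - v) * (v - 1 / 2) := by nlinarith
  have hwc : (w : ℂ) = x + v * Complex.I := by
    apply Complex.ext <;> simp [hx, hv']
  -- general step
  have gen : ∀ c s : ℝ, c ^ 2 + s ^ 2 = 1 → x * (c ^ 2 + 4 * s ^ 2) = -3 * s * c →
      v * (c ^ 2 + 4 * s ^ 2) = 2 →
      ∃ k : Matrix.SpecialLinearGroup (Fin 2) ℝ, k • UpperHalfPlane.I = UpperHalfPlane.I ∧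
      k • tI = w := by
    intro c s hcs hx1 hv1
    refine ⟨mk4 c s (-s) c (by linarith), ?_, ?_⟩
    · apply UpperHalfPlane.ext
      rw [SL_smul_re_im]
      have hne : (((-s : ℝ) : ℂ) * (UpperHalfPlane.I : ℂ) + c) ≠ 0 := by
        intro h0
        have h3 := congrArg Complex.re h0
        have h4 := congrArg Complex.im h0
        simp at h3 h4
        rw [h3, h4] at hcs
        norm_num at hcs
      rw [div_eq_iff hne]
      apply Complex.ext <;> simp
    · apply UpperHalfPlane.ext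
      rw [SL_smul_re_im, hwc]
      have hD : c ^ 2 + 4 * s ^ 2 ≠ 0 := by
        intro h0
        rw [h0] at hv1
        norm_num at hv1
      have hne : (((-s : ℝ) : ℂ) * (tI : ℂ) + c) ≠ 0 := by
        intro h0
        have h3 := congrArg Complex.re h0
        have h4 := congrArg Complex.im h0
        simp [tI] at h3 h4
        rw [h3, h4] at hcs
        norm_num at hcs
      rw [div_eq_iff hne]
      -- x c + 2 s v = s ; v c - 2 s x = 2 c
      have hD' : 0 < c ^ 2 + 4 * s ^ 2 := lt_of_le_of_ne (by positivity) (Ne.symm hD)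
      have e1 : x * c + 2 * s * v = s := by
        have : (x * c + 2 * s * v) * (c ^ 2 + 4 * s ^ 2) = s * (c ^ 2 + 4 * s ^ 2) := by
          calc (x * c + 2 * s * v) * (c ^ 2 + 4 * s ^ 2)
              = (x * (c ^ 2 + 4 * s ^ 2)) * c + 2 * s * (v * (c ^ 2 + 4 * s ^ 2)) := by ring
            _ = (-3 * s * c) * c + 2 * s * 2 := by rw [hx1, hv1]
            _ = s * (c ^ 2 + 4 * s ^ 2) + 4 * s * (1 - (c ^ 2 + s ^ 2)) := by ring
            _ = s * (c ^ 2 + 4 * s ^ 2) := by rw [hcs]; ring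
        exact mul_right_cancel₀ hD this
      have e2 : v * c - 2 * s * x = 2 * c := by
        have : (v * c - 2 * s * x) * (c ^ 2 + 4 * s ^ 2) = 2 * c * (c ^ 2 + 4 * s ^ 2) := by
          calc (v * c - 2 * s * x) * (c ^ 2 + 4 * s ^ 2)
              = (v * (c ^ 2 + 4 * s ^ 2)) * c - 2 * s * (x * (c ^ 2 + 4 * s ^ 2)) := by ring
            _ = 2 * c - 2 * s * (-3 * s * c) := by rw [hx1, hv1]
            _ = 2 * c * (c ^ 2 + 4 * s ^ 2) + 2 * c * (1 - (c ^ 2 + s ^ 2)) := by ring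
            _ = 2 * c * (c ^ 2 + 4 * s ^ 2) := by rw [hcs]; ring
        exact mul_right_cancel₀ hD this
      apply Complex.ext
      · simp [tI]; linarith
      · simp [tI]; linarith
  by_cases hv2 : v = 1 / 2
  · apply gen 0 1 (by norm_num)
    · rw [hv2] at h2
      have : x = 0 := by nlinarith
      rw [this]; ring
    · rw [hv2]; norm_num
  · have hv3 : 1 / 2 < v := by
      rcases lt_or_gt_of_ne hv2 with h3 | h3
      · exfalso
        nlinarith [sq_nonneg x]
      · exact h3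
    have hr : (4 * v - 2) ^ 2 + (2 * x) ^ 2 = (4 * v - 2) * (3 * v) := by nlinarith
    have hrpos : 0 < (4 * v - 2) * (3 * v) := by
      have : 0 < 4 * v - 2 := by linarith
      positivity
    set r := Real.sqrt ((4 * v - 2) * (3 * v)) with hrdef
    have hr0 : 0 < r := Real.sqrt_pos.2 hrpos
    have hr2 : r ^ 2 = (4 * v - 2) * (3 * v) := Real.sq_sqrt hrpos.le
    have e0 : ((4 * v - 2) / r) ^ 2 = (4 * v - 2) / (3 * v) := by
      rw [div_pow, hr2]
      have : 4 * v - 2 ≠ 0 := by linarith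
      field_simp
    have e1 : ((-2 * x) / r) ^ 2 = (2 - v) / (3 * v) := by
      rw [div_pow, hr2]
      have : 4 * v - 2 ≠ 0 := by linarith
      rw [div_eq_div_iff (by positivity) (by positivity), mul_pow, h2]
      ring
    apply gen ((4 * v - 2) / r) ((-2 * x) / r)
    · rw [e0, e1]; field_simp; ring
    · rw [e0, e1]
      have : -3 * (-2 * x / r) * ((4 * v - 2) / r) = 6 * x * (4 * v - 2) / r ^ 2 := by
        field_simp; ring
      rw [this, hr2]
      have : 4 * v - 2 ≠ 0 := by linarith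
      field_simp; ring
    · rw [e0, e1]; field_simp; ring

theorem isom_class (g : UpperHalfPlane ≃ᵢ UpperHalfPlane) :
    ∃ A : GL (Fin 2) ℝ, ∀ z : UpperHalfPlane, g z = A • z := by
  set s := (g UpperHalfPlane.I).toSL2R with hs
  have hsI : s • UpperHalfPlane.I = g UpperHalfPlane.I := UpperHalfPlane.toSL2R_smul_I _
  have h1 : dist (s⁻¹ • g tI) UpperHalfPlane.I = dist tI UpperHalfPlane.I := by
    have e1 : s⁻¹ • g UpperHalfPlane.I = UpperHalfPlane.I := by rw [← hsI, inv_smul_smul]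
    calc dist (s⁻¹ • g tI) UpperHalfPlane.I = dist (s⁻¹ • g tI) (s⁻¹ • g UpperHalfPlane.I) := by
          rw [e1]
      _ = dist (g tI) (g UpperHalfPlane.I) := dist_smul _ _ _
      _ = dist tI UpperHalfPlane.I := g.isometry.dist_eq _ _
  obtain ⟨k, hkI, hkt⟩ := exists_rot h1
  set u : Matrix.SpecialLinearGroup (Fin 2) ℝ := s * k with hu
  have huI : u • UpperHalfPlane.I = g UpperHalfPlane.I := by rw [hu, mul_smul, hkI, hsI]
  have hut : u • tI = g tI := by rw [hu, mul_smul, hkt, smul_inv_smul]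
  set f : UpperHalfPlane → UpperHalfPlane := fun z => u⁻¹ • g z with hf
  have hfd : ∀ z w, dist (f z) (f w) = dist z w := fun z w => by
    rw [hf]
    exact (dist_smul _ _ _).trans (g.isometry.dist_eq _ _)
  have hfI : f UpperHalfPlane.I = UpperHalfPlane.I := by
    show u⁻¹ • g UpperHalfPlane.I = _
    rw [← huI, inv_smul_smul]
  have hft : f tI = tI := by
    show u⁻¹ • g tI = _
    rw [← hut, inv_smul_smul]
  have hfz : ∀ z, (f z).im = z.im ∧ (f z).re ^ 2 = z.re ^ 2 := by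
    intro z
    have a1 : dist (f z) UpperHalfPlane.I = dist z UpperHalfPlane.I := by
      conv_lhs => rw [← hfI]
      exact hfd _ _
    have a2 : dist (f z) tI = dist z tI := by
      conv_lhs => rw [← hft]
      exact hfd _ _
    have b1 := key a1
    have b2 := key a2
    rw [I_re, I_im] at b1
    rw [tI_re, tI_im] at b2
    have hz := z.im_pos
    have hfz := (f z).im_pos
    have e1 : (f z).im = z.im := by nlinarith
    refine ⟨e1, ?_⟩
    rw [e1] at b1
    have b3 : ((f z).re ^ 2) * z.im = z.re ^ 2 * z.im := by nlinarith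
    exact mul_right_cancel₀ hz.ne' b3
  have hJ : ∀ z : UpperHalfPlane, (UpperHalfPlane.J • z).re = - z.re ∧
      (UpperHalfPlane.J • z).im = z.im := by
    intro z
    have := UpperHalfPlane.coe_J_smul z
    constructor
    · rw [← UpperHalfPlane.coe_re, this]; simp
    · rw [← UpperHalfPlane.coe_im, this]; simp
  have hext : ∀ z w : UpperHalfPlane, z.re = w.re → z.im = w.im → z = w := by
    intro z w h1 h2
    apply UpperHalfPlane.ext
    exact Complex.ext (by simpa using h1) (by simpa using h2)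
  have hfo : (f oI).re = 1 ∨ (f oI).re = -1 := by
    have := (hfz oI).2
    rw [oI_re] at this
    have h5 : ((f oI).re - 1) * ((f oI).re + 1) = 0 := by linarith
    rcases mul_eq_zero.1 h5 with h | h
    · exact Or.inl (by linarith)
    · exact Or.inr (by linarith)
  have hfoim : (f oI).im = 1 := by rw [(hfz oI).1, oI_im]
  have hco : ∀ z : UpperHalfPlane, (Matrix.SpecialLinearGroup.mapGL ℝ u) • z = u • z := fun z => rfl
  rcases hfo with h | h
  · refine ⟨Matrix.SpecialLinearGroup.mapGL ℝ u, fun z => ?_⟩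
    rw [hco]
    have : f z = z := by
      obtain ⟨a1, a2⟩ := hfz z
      apply hext _ _ _ a1
      have a3 : dist (f z) (f oI) = dist z oI := hfd _ _
      have a4 : f oI = oI := hext _ _ (by rw [h, oI_re]) (by rw [hfoim, oI_im])
      rw [a4] at a3
      have a5 := key a3
      rw [oI_re, oI_im, a1] at a5
      have hz := z.im_pos
      have a6 := mul_right_cancel₀ hz.ne' a5
      nlinarith
    calc g z = u • f z := by rw [hf]; exact (smul_inv_smul _ _).symm
      _ = u • z := by rw [this]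
  · refine ⟨Matrix.SpecialLinearGroup.mapGL ℝ u * UpperHalfPlane.J, fun z => ?_⟩
    rw [mul_smul, hco]
    have : f z = UpperHalfPlane.J • z := by
      obtain ⟨a1, a2⟩ := hfz z
      obtain ⟨j1, j2⟩ := hJ z
      apply hext _ _ _ (by rw [a1, j2])
      rw [j1]
      have a3 : dist (f z) (f oI) = dist z oI := hfd _ _
      have h1 := congrArg Real.cosh a3
      rw [UpperHalfPlane.cosh_dist, UpperHalfPlane.cosh_dist, dist_sq', dist_sq', h, hfoim, oI_re,
        oI_im, a1] at h1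
      have hz := z.im_pos
      have h2 := add_left_cancel h1
      rw [div_eq_div_iff (by positivity) (by positivity)] at h2
      have h3 := mul_right_cancel₀ (by positivity) h2
      nlinarith
    calc g z = u • f z := by rw [hf]; exact (smul_inv_smul _ _).symm
      _ = u • (UpperHalfPlane.J • z) := by rw [this]

end Pool.Agent.Lib.KLP
end
end
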