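import Pool.Agent.Lib.MP_a137af_pr.Defs
import Pool.Agent.Lib.MP_a137af_pr.IsomClass
import Pool.Agent.Lib.MP_a137af_pr.CircMap

section

/-!
# M1: hitting operators, basic properties
-/

set_option autoImplicit false
open MeasureTheory Set Filter Topology
open scoped ENNReal ComplexConjugate

namespace Pool.Agent.Lib.KLP

variable {Γ : Type*} [Group Γ] (W : Walk Γ)

namespace Walk

theorem P_mono {f g : Γ → ℝ≥0∞} (h : ∀ w, f w ≤ g w) (w : Γ) : W.P f w ≤ W.P g w := by
  unfold P
  gcongr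
  exact h _

private theorem sum_ofReal : ∑ s ∈ W.S, ENNReal.ofReal (W.μ s) = 1 := by
  rw [← ENNReal.ofReal_sum_of_nonneg (fun s hs => (W.pos s hs).le), W.sum_eq, ENNReal.ofReal_one]

theorem P_const (a : ℝ≥0∞) (w : Γ) : W.P (fun _ => a) w = a := by
  unfold P
  rw [← Finset.sum_mul, sum_ofReal, one_mul]

private theorem hitN_mem {U : Set Γ} {f : Γ → ℝ≥0∞} {w : Γ} (h : w ∈ U) (n : ℕ) :
    W.hitN U f n w = f w := by
  cases n <;> simp [hitN, h]

private theorem hitN_not_mem_zero {U : Set Γ} {f : Γ → ℝ≥0∞} {w : Γ} (h : w ∉ U) :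
    W.hitN U f 0 w = 0 := by
  simp [hitN, h]

private theorem hitN_not_mem_succ {U : Set Γ} {f : Γ → ℝ≥0∞} {w : Γ} (h : w ∉ U) (n : ℕ) :
    W.hitN U f (n + 1) w = W.P (W.hitN U f n) w := by
  simp [hitN, h]

theorem hitN_mono (U : Set Γ) (f : Γ → ℝ≥0∞) (w : Γ) : Monotone (fun n => W.hitN U f n w) := by
  have key : ∀ n, ∀ w, W.hitN U f n w ≤ W.hitN U f (n + 1) w := by
    intro n
    induction n with
    | zero =>
      intro w
      by_cases hw : w ∈ U
      · rw [hitN_mem W hw, hitN_mem W hw]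
      · rw [hitN_not_mem_zero W hw]
        exact zero_le
    | succ n ih =>
      intro w
      by_cases hw : w ∈ U
      · rw [hitN_mem W hw, hitN_mem W hw]
      · rw [hitN_not_mem_succ W hw, hitN_not_mem_succ W hw]
        exact W.P_mono ih w
  exact monotone_nat_of_le_succ fun n => key n w

theorem hit_of_mem {U : Set Γ} {f : Γ → ℝ≥0∞} {w : Γ} (h : w ∈ U) : W.hit U f w = f w := by
  unfold hit
  simp only [hitN_mem W h]
  exact ciSup_const

theorem hit_of_not_mem {U : Set Γ} {f : Γ → ℝ≥0∞} {w : Γ} (h : w ∉ U) :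
    W.hit U f w = W.P (W.hit U f) w := by
  have h1 : W.hit U f w = ⨆ n, W.hitN U f (n + 1) w := by
    unfold hit
    exact ((W.hitN_mono U f w).iSup_nat_add 1).symm
  rw [h1]
  simp only [hitN_not_mem_succ W h]
  unfold P hit
  rw [← ENNReal.finsetSum_iSup_of_monotone]
  · refine Finset.sum_congr rfl fun s _ => ?_
    rw [ENNReal.mul_iSup]
  · intro s a b hab
    exact mul_le_mul_right (W.hitN_mono U f (w * s) hab) _

theorem hit_le {U : Set Γ} {f g : Γ → ℝ≥0∞} (h1 : ∀ w ∈ U, f w ≤ g w)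
    (h2 : ∀ w, w ∉ U → W.P g w ≤ g w) (w : Γ) : W.hit U f w ≤ g w := by
  have key : ∀ n, ∀ w, W.hitN U f n w ≤ g w := by
    intro n
    induction n with
    | zero =>
      intro w
      by_cases hw : w ∈ U
      · rw [hitN_mem W hw]; exact h1 w hw
      · rw [hitN_not_mem_zero W hw]
        exact zero_le
    | succ n ih =>
      intro w
      by_cases hw : w ∈ U
      · rw [hitN_mem W hw]; exact h1 w hw
      · rw [hitN_not_mem_succ W hw]
        exact (W.P_mono ih w).trans (h2 w hw)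
  exact iSup_le fun n => key n w

theorem hit_mono {U : Set Γ} {f g : Γ → ℝ≥0∞} (h : ∀ w ∈ U, f w ≤ g w) (w : Γ) :
    W.hit U f w ≤ W.hit U g w := by
  refine hit_le W (fun w hw => ?_) (fun w hw => ?_) w
  · rw [hit_of_mem W hw]; exact h w hw
  · rw [← hit_of_not_mem W hw]

private theorem hitN_const_mul (a : ℝ≥0∞) (U : Set Γ) (f : Γ → ℝ≥0∞) (n : ℕ) (w : Γ) :
    W.hitN U (fun x => a * f x) n w = a * W.hitN U f n w := by
  induction n generalizing w with
  | zero =>
    by_cases hw : w ∈ U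
    · rw [hitN_mem W hw, hitN_mem W hw]
    · rw [hitN_not_mem_zero W hw, hitN_not_mem_zero W hw, mul_zero]
  | succ n ih =>
    by_cases hw : w ∈ U
    · rw [hitN_mem W hw, hitN_mem W hw]
    · rw [hitN_not_mem_succ W hw, hitN_not_mem_succ W hw]
      unfold P
      rw [Finset.mul_sum]
      refine Finset.sum_congr rfl fun s _ => ?_
      rw [ih]
      ring

theorem hit_const_mul (a : ℝ≥0∞) (U : Set Γ) (f : Γ → ℝ≥0∞) (w : Γ) :
    W.hit U (fun x => a * f x) w = a * W.hit U f w := by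
  unfold hit
  simp only [hitN_const_mul]
  rw [ENNReal.mul_iSup]

private theorem hitN_add (U : Set Γ) (f g : Γ → ℝ≥0∞) (n : ℕ) (w : Γ) :
    W.hitN U (fun x => f x + g x) n w = W.hitN U f n w + W.hitN U g n w := by
  induction n generalizing w with
  | zero =>
    by_cases hw : w ∈ U
    · simp only [hitN_mem W hw]
    · simp only [hitN_not_mem_zero W hw, add_zero]
  | succ n ih =>
    by_cases hw : w ∈ U
    · simp only [hitN_mem W hw]
    · simp only [hitN_not_mem_succ W hw]
      unfold P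
      rw [← Finset.sum_add_distrib]
      refine Finset.sum_congr rfl fun s _ => ?_
      rw [ih]
      ring

theorem hit_add (U : Set Γ) (f g : Γ → ℝ≥0∞) (w : Γ) :
    W.hit U (fun x => f x + g x) w = W.hit U f w + W.hit U g w := by
  unfold hit
  simp only [hitN_add]
  rw [ENNReal.iSup_add_iSup_of_monotone (W.hitN_mono U f w) (W.hitN_mono U g w)]

private theorem hitN_eq_tsum (U : Set Γ) (f : Γ → ℝ≥0∞) (n : ℕ) (w : Γ) :
    W.hitN U f n w = ∑' y, f y * W.hitN U (Set.indicator {y} (fun _ => 1)) n w := by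
  have hmem : ∀ n (w : Γ), w ∈ U →
      W.hitN U f n w = ∑' y, f y * W.hitN U (Set.indicator {y} (fun _ => 1)) n w := by
    intro n w hw
    rw [hitN_mem W hw, tsum_eq_single w]
    · rw [hitN_mem W hw]
      simp
    · intro y hy
      rw [hitN_mem W hw, Set.indicator_of_notMem (by simpa using hy.symm), mul_zero]
  induction n generalizing w with
  | zero =>
    by_cases hw : w ∈ U
    · exact hmem 0 w hw
    · simp only [hitN_not_mem_zero W hw, mul_zero, tsum_zero]
  | succ n ih =>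
    by_cases hw : w ∈ U
    · exact hmem _ w hw
    · simp only [hitN_not_mem_succ W hw]
      unfold P
      simp only [Finset.mul_sum]
      rw [Summable.tsum_finsetSum (fun _ _ => ENNReal.summable)]
      refine Finset.sum_congr rfl fun s _ => ?_
      rw [ih, ← ENNReal.tsum_mul_left]
      refine tsum_congr fun y => ?_
      ring

theorem hit_eq_tsum (U : Set Γ) (f : Γ → ℝ≥0∞) (w : Γ) :
    W.hit U f w = ∑' y, f y * W.hit U (Set.indicator {y} (fun _ => 1)) w := by
  have h1 : W.hit U f w =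
      ⨆ n, ∑' y, f y * W.hitN U (Set.indicator {y} (fun _ => 1)) n w := by
    unfold hit
    simp only [← hitN_eq_tsum]
  rw [h1]
  unfold hit
  simp only [ENNReal.mul_iSup]
  let _ : MeasurableSpace Γ := ⊤
  have h2 : ∀ g : Γ → ℝ≥0∞, ∑' y, g y = ∫⁻ y, g y ∂(Measure.count : Measure Γ) := fun g =>
    (lintegral_count g).symm
  simp only [h2]
  rw [lintegral_iSup (fun n => measurable_from_top)]
  intro a b hab y
  exact mul_le_mul_right (W.hitN_mono U _ w hab) _

end Walk

end Pool.Agent.Lib.KLP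
end

section

/-!
# M2: hitting operators and hitting probabilities
-/

set_option autoImplicit false
open MeasureTheory Set Filter Topology
open scoped ENNReal ComplexConjugate

namespace Pool.Agent.Lib.KLP

variable {Γ : Type*} [Group Γ] (W : Walk Γ)

namespace Walk

private theorem hitN_mem' {U : Set Γ} {f : Γ → ℝ≥0∞} {w : Γ} (h : w ∈ U) (n : ℕ) :
    W.hitN U f n w = f w := by
  cases n <;> simp [hitN, h]

private theorem hitN_zero' {U : Set Γ} {f : Γ → ℝ≥0∞} {w : Γ} (h : w ∉ U) :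
    W.hitN U f 0 w = 0 := by
  simp [hitN, h]

private theorem hitN_succ' {U : Set Γ} {f : Γ → ℝ≥0∞} {w : Γ} (h : w ∉ U) (n : ℕ) :
    W.hitN U f (n + 1) w = W.P (W.hitN U f n) w := by
  simp [hitN, h]

theorem hit_bd {U : Set Γ} {f : Γ → ℝ≥0∞} {w : Γ} (hw : w ∉ U) :
    W.hit U f w = W.hit U (Set.indicator (W.bd U) f) w := by
  have key : ∀ n, ∀ w, w ∉ U → W.hitN U f n w = W.hitN U (Set.indicator (W.bd U) f) n w := by
    intro n
    induction n with
    | zero =>
      intro w hw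
      rw [hitN_zero' W hw, hitN_zero' W hw]
    | succ n ih =>
      intro w hw
      rw [hitN_succ' W hw, hitN_succ' W hw]
      unfold P
      refine Finset.sum_congr rfl fun s hs => ?_
      by_cases h : w * s ∈ U
      · rw [hitN_mem' W h, hitN_mem' W h, Set.indicator_of_mem]
        exact ⟨h, s, hs, by rwa [mul_inv_cancel_right]⟩
      · rw [ih _ h]
  unfold hit
  exact iSup_congr fun n => key n w hw

theorem F_self (w : Γ) : W.F w w = 1 := by
  unfold F
  rw [hit_of_mem W (mem_singleton w)]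

theorem F_le_one (w x : Γ) : W.F w x ≤ 1 := by
  unfold F
  exact hit_le W (fun _ _ => le_rfl) (fun v _ => (W.P_const 1 v).le) w

theorem F_harmonic {w x : Γ} (h : w ≠ x) : W.F w x = W.P (fun v => W.F v x) w := by
  unfold F
  exact hit_of_not_mem W h

theorem F_superharmonic (w x : Γ) : W.P (fun v => W.F v x) w ≤ W.F w x := by
  by_cases h : w = x
  · subst h
    rw [F_self]
    calc W.P (fun v => W.F v w) w ≤ W.P (fun _ => 1) w := W.P_mono (fun v => W.F_le_one v w) w
      _ = 1 := W.P_const 1 w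
  · exact (F_harmonic W h).symm.le

theorem F_mul_le {f : Γ → ℝ≥0∞} (hf : ∀ w, W.P f w ≤ f w) (w y : Γ) :
    W.F w y * f y ≤ f w := by
  have h1 : W.F w y * f y = W.hit {y} (fun _ => f y * 1) w := by
    rw [hit_const_mul W (f y) {y} (fun _ => 1) w, mul_comm]
    rfl
  rw [h1]
  refine hit_le W (fun v hv => ?_) (fun v _ => hf v) w
  rw [mem_singleton_iff] at hv
  rw [hv, mul_one]

theorem F_mul_F_le (w y x : Γ) : W.F w y * W.F y x ≤ W.F w x :=
  F_mul_le W (f := fun v => W.F v x) (fun v => F_superharmonic W v x) w y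

theorem F_mul_left (g w x : Γ) : W.F (g * w) (g * x) = W.F w x := by
  have key : ∀ n, ∀ w, W.hitN {g * x} (fun _ => 1) n (g * w) = W.hitN {x} (fun _ => 1) n w := by
    intro n
    induction n with
    | zero =>
      intro w
      by_cases h : w = x
      · subst h
        rw [hitN_mem' W (mem_singleton _), hitN_mem' W (mem_singleton _)]
      · rw [hitN_zero' W (by rw [mem_singleton_iff, mul_right_inj]; exact h),
          hitN_zero' W (by rw [mem_singleton_iff]; exact h)]
    | succ n ih =>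
      intro w
      by_cases h : w = x
      · subst h
        rw [hitN_mem' W (mem_singleton _), hitN_mem' W (mem_singleton _)]
      · rw [hitN_succ' W (by rw [mem_singleton_iff, mul_right_inj]; exact h),
          hitN_succ' W (by rw [mem_singleton_iff]; exact h)]
        unfold P
        refine Finset.sum_congr rfl fun s _ => ?_
        rw [mul_assoc, ih]
  unfold F hit
  exact iSup_congr fun n => key n w

theorem F_ne_zero (w x : Γ) : W.F w x ≠ 0 := by
  have key : ∀ g : Γ, g ∈ Submonoid.closure (W.S : Set Γ) → ∀ w, W.F w (w * g) ≠ 0 := by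
    intro g hg
    induction hg using Submonoid.closure_induction with
    | mem s hs =>
      intro w
      by_cases h : w = w * s
      · rw [← h, F_self]
        exact one_ne_zero
      · rw [F_harmonic W h]
        unfold P
        have h1 : ENNReal.ofReal (W.μ s) * W.F (w * s) (w * s) ≤
            ∑ t ∈ W.S, ENNReal.ofReal (W.μ t) * W.F (w * t) (w * s) :=
          Finset.single_le_sum (f := fun t => ENNReal.ofReal (W.μ t) * W.F (w * t) (w * s))
            (fun _ _ => zero_le) (Finset.mem_coe.1 hs)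
        rw [F_self, mul_one] at h1
        intro h2
        rw [h2] at h1
        have h3 := W.pos s (Finset.mem_coe.1 hs)
        have h4 : 0 < ENNReal.ofReal (W.μ s) := ENNReal.ofReal_pos.2 h3
        exact absurd h1 (not_le.2 h4)
    | one =>
      intro w
      rw [mul_one, F_self]
      exact one_ne_zero
    | mul a b _ _ iha ihb =>
      intro w h
      have h1 := F_mul_F_le W w (w * a) (w * (a * b))
      rw [h, nonpos_iff_eq_zero, mul_eq_zero] at h1
      rcases h1 with h1 | h1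
      · exact iha w h1
      · rw [← mul_assoc] at h1
        exact ihb (w * a) h1
  have h := key (w⁻¹ * x) (by rw [W.gen]; trivial) w
  rwa [mul_inv_cancel_left] at h

theorem hit_single_le_F {V : Set Γ} {y : Γ} (hy : y ∈ V) (w : Γ) :
    W.hit V (Set.indicator {y} (fun _ => 1)) w ≤ W.F w y := by
  refine hit_le W (g := fun v => W.F v y) (fun v hv => ?_) (fun v _ => F_superharmonic W v y) w
  by_cases h : v = y
  · subst h
    rw [F_self]
    simp
  · rw [Set.indicator_of_notMem (by rwa [mem_singleton_iff])]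
    exact zero_le

theorem hit_le_tsum (U : Set Γ) (f : Γ → ℝ≥0∞) (w : Γ) :
    W.hit U f w ≤ ∑' y, Set.indicator U (fun y => W.F w y * f y) y := by
  rw [hit_eq_tsum]
  refine ENNReal.tsum_le_tsum fun y => ?_
  by_cases hy : y ∈ U
  · rw [Set.indicator_of_mem hy, mul_comm (f y)]
    exact mul_le_mul_left (W.hit_single_le_F hy w) _
  · rw [Set.indicator_of_notMem hy]
    have h0 : W.hit U (Set.indicator {y} (fun _ => 1)) w ≤ 0 := by
      refine hit_le W (g := fun _ => 0) (fun v hv => ?_) (fun v _ => (W.P_const 0 v).le) w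
      rw [Set.indicator_of_notMem]
      rw [mem_singleton_iff]
      rintro rfl
      exact hy hv
    rw [nonpos_iff_eq_zero] at h0
    rw [h0, mul_zero]

theorem hit_le_tsum_bd {U : Set Γ} (f : Γ → ℝ≥0∞) {w : Γ} (hw : w ∉ U) :
    W.hit U f w ≤ ∑' y, Set.indicator (W.bd U) (fun y => W.F w y * f y) y := by
  rw [hit_bd W hw]
  refine (hit_le_tsum W U _ w).trans ?_
  refine ENNReal.tsum_le_tsum fun y => ?_
  by_cases hy : y ∈ W.bd U
  · rw [Set.indicator_of_mem hy, Set.indicator_of_mem hy.1, Set.indicator_of_mem hy]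
  · by_cases hyU : y ∈ U
    · rw [Set.indicator_of_mem hyU, Set.indicator_of_notMem hy, Set.indicator_of_notMem hy, mul_zero]
    · rw [Set.indicator_of_notMem hyU]
      exact zero_le

end Walk

end Pool.Agent.Lib.KLP
end

section

section

/-!
# M4: the harmonic functions attached to a stationary measure
-/

set_option autoImplicit false
open MeasureTheory Set Filter Topology
open scoped ENNReal ComplexConjugate

namespace Pool.Agent.Lib.KLP

variable {Γ : Type*} [Group Γ] {A : DAct Γ} {W : Walk Γ} {ν : Measure ℂ}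

theorem ae_norm_of_ac (hac : ν ≪ circ) : ∀ᵐ z ∂ν, ‖z‖ = 1 :=
  hac.ae_le ae_circ_norm

theorem pf_eq {E : Set ℂ} (hE : MeasurableSet E) (w : Γ) :
    pf A ν E w = ν (A.act w ⁻¹' E) :=
  Measure.map_apply (A.measurable_act w) hE

theorem pf_mul (h : Std A W ν) {E : Set ℂ} (hE : MeasurableSet E) (g w : Γ) :
    pf A ν E (g * w) = pf A ν (A.act g ⁻¹' E) w := by
  rw [pf_eq hE, pf_eq (A.measurable_act g hE)]
  apply measure_congr
  filter_upwards [ae_norm_of_ac h.ac] with z hz
  apply propext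
  change A.act (g * w) z ∈ E ↔ A.act g (A.act w z) ∈ E
  rw [A.mul g w z hz.le]

theorem pf_harmonic (h : Std A W ν) {E : Set ℂ} (hE : MeasurableSet E) (w : Γ) :
    pf A ν E w = W.P (pf A ν E) w := by
  have hE' : MeasurableSet (A.act w ⁻¹' E) := A.measurable_act w hE
  have h1 : ν (A.act w ⁻¹' E) =
      ∑ s ∈ W.S, ENNReal.ofReal (W.μ s) * (ν.map (A.act s)) (A.act w ⁻¹' E) := by
    have h2 := congrArg (fun m : Measure ℂ => m (A.act w ⁻¹' E)) h.stat
    simp only [Measure.coe_finsetSum, Finset.sum_apply, Measure.smul_apply, smul_eq_mul] at h2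
    exact h2
  rw [pf_eq hE, h1]
  unfold Walk.P
  refine Finset.sum_congr rfl fun s _ => ?_
  rw [pf_mul h hE w s]
  rfl

theorem pf_one (h : Std A W ν) {E : Set ℂ} (hE : MeasurableSet E) : pf A ν E 1 = ν E := by
  rw [pf_eq hE]
  apply measure_congr
  filter_upwards [ae_norm_of_ac h.ac] with z hz
  apply propext
  change A.act 1 z ∈ E ↔ z ∈ E
  rw [A.one z hz.le]

theorem pf_le_one (h : Std A W ν) (E : Set ℂ) (w : Γ) : pf A ν E w ≤ 1 := by
  have := h.prob
  have := Measure.isProbabilityMeasure_map (μ := ν) (A.measurable_act w).aemeasurable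
  exact prob_le_one

theorem F_mul_pf_le (h : Std A W ν) {E : Set ℂ} (hE : MeasurableSet E) (w y : Γ) :
    W.F w y * pf A ν E y ≤ pf A ν E w :=
  W.F_mul_le (fun w => (pf_harmonic h hE w).ge) w y

end Pool.Agent.Lib.KLP
end

section

/-!
# C5: harmonic measure of sets
-/

set_option autoImplicit false
open MeasureTheory Set Filter Topology
open scoped ENNReal ComplexConjugate

namespace Pool.Agent.Lib.KLP

variable {Γ : Type*} [Group Γ] (A : DAct Γ)

theorem circ_preimage (g : Γ) {E : Set ℂ} (hE : MeasurableSet E) :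
    circ (A.act g ⁻¹' E) = ∫⁻ ξ in E, ENNReal.ofReal (pk (A.act g 0) ξ) ∂circ := by
  rw [← Measure.map_apply (A.iso g).measurable hE, circ_map (A.iso g), withDensity_apply _ hE]

private lemma pushCirc_pk (g : Γ) (ξ : ℂ) :
    pk (A.act g 0) ξ = A.t g / ‖ξ - A.act g 0‖ ^ 2 := rfl

private lemma pushCirc_dist_pos (g : Γ) {ξ : ℂ} (hξ : ‖ξ‖ = 1) : 0 < ‖ξ - A.act g 0‖ := by
  rw [norm_pos_iff]
  intro h
  have h1 : ξ = A.act g 0 := sub_eq_zero.1 h
  have h2 : ‖A.act g 0‖ < 1 := (A.iso g).norm_lt_one (by simp)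
  rw [← h1, hξ] at h2
  exact lt_irrefl _ h2

private lemma pushCirc_t_pos (g : Γ) : 0 < A.t g := by
  have h2 : ‖A.act g 0‖ < 1 := (A.iso g).norm_lt_one (by simp)
  have h3 := norm_nonneg (A.act g 0)
  unfold DAct.t
  nlinarith

theorem circ_preimage_le (g : Γ) {E : Set ℂ} (hE : MeasurableSet E) {d : ℝ} (hd : 0 < d)
    (h : ∀ ξ ∈ E, ‖ξ‖ = 1 → d ≤ ‖ξ - A.act g 0‖) :
    circ (A.act g ⁻¹' E) ≤ ENNReal.ofReal (A.t g / d ^ 2) * circ E := by
  have ht := pushCirc_t_pos A g
  rw [circ_preimage A g hE, ← setLIntegral_const]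
  apply lintegral_mono_ae
  filter_upwards [ae_restrict_mem hE, ae_restrict_of_ae ae_circ_norm] with ξ hξ hξ1
  apply ENNReal.ofReal_le_ofReal
  rw [pushCirc_pk]
  have h1 := h ξ hξ hξ1
  gcongr

theorem le_circ_preimage (g : Γ) {E : Set ℂ} (hE : MeasurableSet E) {D : ℝ} (hD : 0 < D)
    (h : ∀ ξ ∈ E, ‖ξ‖ = 1 → ‖ξ - A.act g 0‖ ≤ D) :
    ENNReal.ofReal (A.t g / D ^ 2) * circ E ≤ circ (A.act g ⁻¹' E) := by
  have ht := pushCirc_t_pos A g
  rw [circ_preimage A g hE, ← setLIntegral_const]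
  apply lintegral_mono_ae
  filter_upwards [ae_restrict_mem hE, ae_restrict_of_ae ae_circ_norm] with ξ hξ hξ1
  apply ENNReal.ofReal_le_ofReal
  rw [pushCirc_pk]
  have h1 := h ξ hξ hξ1
  have h2 := pushCirc_dist_pos A g hξ1
  gcongr

end Pool.Agent.Lib.KLP
end
end

section

section

/-!
# G2: one step of the walk
-/

set_option autoImplicit false
open MeasureTheory Set Filter Topology
open scoped ENNReal ComplexConjugate

namespace Pool.Agent.Lib.KLP

variable {Γ : Type*} [Group Γ]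

private theorem step_bounds_single (A : DAct Γ) (s : Γ) :
    ∃ c C : ℝ, 0 < c ∧ c ≤ 1 ∧ 1 ≤ C ∧ ∀ w : Γ,
      c * A.t w ≤ A.t (w * s) ∧ A.t (w * s) ≤ C * A.t w ∧
      ‖A.act (w * s) 0 - A.act w 0‖ ≤ C * A.t w ∧
      ∀ ξ : ℂ, ‖ξ‖ = 1 → c * ‖A.act w 0 - ξ‖ ≤ ‖A.act (w * s) 0 - ξ‖ := by
  have hz0 : ‖(0 : ℂ)‖ ≤ 1 := by simp
  set z : ℂ := A.act s 0 with hz
  have ha1 : ‖z‖ < 1 := A.norm_act_lt s (by simp)
  set a : ℝ := ‖z‖ with ha
  have ha0 : 0 ≤ a := norm_nonneg z
  have hts : A.t s = 1 - a ^ 2 := rfl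
  have hts0 := A.t_pos s
  have hts1 := A.t_le_one s
  have h1a : 0 < 1 - a := by linarith
  have hC1 : 1 ≤ 1 / (1 - a) ^ 2 := by
    rw [one_le_div (by positivity)]
    nlinarith
  refine ⟨min (A.t s / 4) ((1 - a) / 2), 1 / (1 - a) ^ 2, lt_min (by positivity) (by positivity),
    (min_le_left _ _).trans (by linarith), hC1, fun w => ?_⟩
  have hact : A.act (w * s) 0 = A.act w z := A.mul w s 0 hz0
  have htw := A.t_pos w
  have hJl := A.J_lower w ha1.le
  have hJu := A.J_upper w ha1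
  have hJ0 := A.J_zero w
  have hJp := A.J_pos w ha1.le
  have htws : A.t (w * s) = A.J w z * A.t s := by
    have h1 := A.tau_act w ha1.le
    rw [← hact] at h1
    exact h1
  have hle1 : A.t (w * s) ≤ 1 / (1 - a) ^ 2 * A.t w := by
    rw [htws]
    calc A.J w z * A.t s ≤ A.J w z * 1 := mul_le_mul_of_nonneg_left hts1 hJp.le
      _ ≤ A.t w / (1 - a) ^ 2 := by rw [mul_one]; exact hJu
      _ = _ := by ring
  refine ⟨?_, hle1, ?_, fun ξ hξ => ?_⟩
  · rw [htws]
    calc min (A.t s / 4) ((1 - a) / 2) * A.t w ≤ A.t s / 4 * A.t w :=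
          mul_le_mul_of_nonneg_right (min_le_left _ _) htw.le
      _ = A.t w / 4 * A.t s := by ring
      _ ≤ _ := mul_le_mul_of_nonneg_right hJl hts0.le
  · rw [hact]
    have h1 := A.dist_act w ha1.le hz0
    rw [hJ0, sub_zero] at h1
    have h2 : ‖A.act w z - A.act w 0‖ ^ 2 ≤ (1 / (1 - a) ^ 2 * A.t w) ^ 2 := by
      rw [h1]
      have h3 : ‖z‖ ^ 2 ≤ 1 := by
        have : ‖z‖ ^ 2 ≤ 1 ^ 2 := pow_le_pow_left₀ ha0 ha1.le 2
        simpa using this
      calc A.J w z * A.t w * ‖z‖ ^ 2 ≤ A.J w z * A.t w * 1 :=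
            mul_le_mul_of_nonneg_left h3 (by positivity)
        _ ≤ A.t w / (1 - a) ^ 2 * A.t w := by
            rw [mul_one]; exact mul_le_mul_of_nonneg_right hJu htw.le
        _ = 1 / (1 - a) ^ 2 * A.t w ^ 2 := by ring
        _ ≤ (1 / (1 - a) ^ 2) ^ 2 * A.t w ^ 2 := by
            apply mul_le_mul_of_nonneg_right _ (by positivity)
            nlinarith
        _ = _ := by ring
    exact (pow_le_pow_iff_left₀ (norm_nonneg _) (by positivity) two_ne_zero).1 h2
  · rw [hact]
    set η : ℂ := A.act w⁻¹ ξ with hη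
    have hη1 : ‖η‖ = 1 := A.norm_act_eq w⁻¹ hξ
    have hwη : A.act w η = ξ := A.act_inv_act w hξ.le
    have hJη := A.J_pos w hη1.le
    have h1 := A.dist_act w ha1.le hη1.le
    have h2 := A.dist_act w hz0 hη1.le
    rw [hwη] at h1 h2
    rw [hJ0, zero_sub, norm_neg, hη1, one_pow, mul_one] at h2
    have h3 : 1 - a ≤ ‖z - η‖ := by
      have := norm_sub_norm_le η z
      rw [hη1, norm_sub_rev] at this
      exact this
    have h4 : (min (A.t s / 4) ((1 - a) / 2) * ‖A.act w 0 - ξ‖) ^ 2 ≤ ‖A.act w z - ξ‖ ^ 2 := by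
      have h5 : (0 : ℝ) ≤ min (A.t s / 4) ((1 - a) / 2) := le_min (by positivity) (by positivity)
      calc (min (A.t s / 4) ((1 - a) / 2) * ‖A.act w 0 - ξ‖) ^ 2
          ≤ ((1 - a) / 2 * ‖A.act w 0 - ξ‖) ^ 2 := by
            apply pow_le_pow_left₀ (by positivity)
            exact mul_le_mul_of_nonneg_right (min_le_right _ _) (norm_nonneg _)
        _ = (1 - a) ^ 2 / 4 * ‖A.act w 0 - ξ‖ ^ 2 := by ring
        _ = A.t w / 4 * A.J w η * (1 - a) ^ 2 := by rw [h2]; ring
        _ ≤ A.J w z * A.J w η * ‖z - η‖ ^ 2 := by gcongr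
        _ = _ := h1.symm
    exact (pow_le_pow_iff_left₀ (by positivity) (norm_nonneg _) two_ne_zero).1 h4

theorem step_bounds (A : DAct Γ) (S : Finset Γ) :
    ∃ c C : ℝ, 0 < c ∧ c ≤ 1 ∧ 1 ≤ C ∧ ∀ w : Γ, ∀ s ∈ S,
      c * A.t w ≤ A.t (w * s) ∧ A.t (w * s) ≤ C * A.t w ∧
      ‖A.act (w * s) 0 - A.act w 0‖ ≤ C * A.t w ∧
      ∀ ξ : ℂ, ‖ξ‖ = 1 → c * ‖A.act w 0 - ξ‖ ≤ ‖A.act (w * s) 0 - ξ‖ := by
  classical
  induction S using Finset.induction_on with
  | empty => exact ⟨1, 1, one_pos, le_rfl, le_rfl, fun w s hs => absurd hs (Finset.notMem_empty s)⟩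
  | insert b S _ ih =>
    obtain ⟨c1, C1, h1, h2, h3, h4⟩ := ih
    obtain ⟨c2, C2, k1, k2, k3, k4⟩ := step_bounds_single A b
    refine ⟨min c1 c2, max C1 C2, lt_min h1 k1, (min_le_left _ _).trans h2,
      h3.trans (le_max_left _ _), fun w s hs => ?_⟩
    have htw := (A.t_pos w).le
    rcases Finset.mem_insert.1 hs with rfl | hs
    · obtain ⟨e1, e2, e3, e4⟩ := k4 w
      refine ⟨(mul_le_mul_of_nonneg_right (min_le_right _ _) htw).trans e1,
        e2.trans (mul_le_mul_of_nonneg_right (le_max_right _ _) htw),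
        e3.trans (mul_le_mul_of_nonneg_right (le_max_right _ _) htw), fun ξ hξ =>
        (mul_le_mul_of_nonneg_right (min_le_right _ _) (norm_nonneg _)).trans (e4 ξ hξ)⟩
    · obtain ⟨e1, e2, e3, e4⟩ := h4 w s hs
      refine ⟨(mul_le_mul_of_nonneg_right (min_le_left _ _) htw).trans e1,
        e2.trans (mul_le_mul_of_nonneg_right (le_max_left _ _) htw),
        e3.trans (mul_le_mul_of_nonneg_right (le_max_left _ _) htw), fun ξ hξ =>
        (mul_le_mul_of_nonneg_right (min_le_left _ _) (norm_nonneg _)).trans (e4 ξ hξ)⟩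

end Pool.Agent.Lib.KLP
end

section

/-!
# M3: decomposition at the hitting time
-/

set_option autoImplicit false
open MeasureTheory Set Filter Topology
open scoped ENNReal ComplexConjugate

namespace Pool.Agent.Lib.KLP

variable {Γ : Type*} [Group Γ]

private theorem decomp_P_add (W : Walk Γ) (f g : Γ → ℝ≥0∞) (w : Γ) :
    W.P (fun v => f v + g v) w = W.P f w + W.P g w := by
  unfold Walk.P
  rw [← Finset.sum_add_distrib]
  exact Finset.sum_congr rfl fun s _ => mul_add _ _ _

private theorem decomp_P_sum (W : Walk Γ) (K : Finset Γ) (C : ℝ≥0∞) (h : Γ → Γ → ℝ≥0∞) (w : Γ) :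
    W.P (fun v => ∑ g ∈ K, C * h g v) w = ∑ g ∈ K, C * W.P (h g) w := by
  unfold Walk.P
  simp_rw [Finset.mul_sum]
  rw [Finset.sum_comm]
  refine Finset.sum_congr rfl fun g _ => Finset.sum_congr rfl fun s _ => ?_
  ring

private theorem decomp_iter (W : Walk Γ) (K : Finset Γ) (ε C : ℝ≥0∞) (h : Γ → Γ → ℝ≥0∞) (n : ℕ) :
    (W.P^[n] (fun v => ε + ∑ g ∈ K, C * h g v)) =
      fun w => ε + ∑ g ∈ K, C * (W.P^[n] (h g)) w := by
  induction n with
  | zero => rfl
  | succ n ih =>
    rw [Function.iterate_succ_apply', ih]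
    funext w
    rw [decomp_P_add W (fun _ => ε), W.P_const, decomp_P_sum W K C (fun g => W.P^[n] (h g))]
    simp only [Function.iterate_succ_apply']

private theorem decomp_iter_mono (W : Walk Γ) {f g : Γ → ℝ≥0∞} (h : ∀ w, f w ≤ g w) (n : ℕ) :
    ∀ w, (W.P^[n] f) w ≤ (W.P^[n] g) w := by
  induction n with
  | zero => exact h
  | succ n ih =>
    intro w
    rw [Function.iterate_succ_apply', Function.iterate_succ_apply']
    exact W.P_mono ih w

theorem Walk.le_hit (W : Walk Γ) (htr : W.Transient) {U : Set Γ} {f : Γ → ℝ≥0∞} {C : ℝ≥0∞}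
    (hC : C ≠ ∞) (hb : ∀ w, f w ≤ C) (harm : ∀ w, w ∉ U → f w = W.P f w)
    (hvan : ∀ ε : ℝ≥0∞, 0 < ε → {w | w ∉ U ∧ ε ≤ f w}.Finite) (w : Γ) :
    f w ≤ W.hit U f w := by
  classical
  have h1 : ∀ n : ℕ, ∀ v, f v ≤ W.hitN U f n v + (W.P^[n] (Set.indicator Uᶜ f)) v := by
    intro n
    induction n with
    | zero =>
      intro v
      by_cases hv : v ∈ U
      · simp [Walk.hitN, hv]
      · simp [Walk.hitN, hv]
    | succ n ih =>
      intro v
      by_cases hv : v ∈ U
      · simp [Walk.hitN, hv]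
      · rw [Function.iterate_succ_apply']
        simp only [Walk.hitN, hv, if_false]
        rw [harm v hv, ← decomp_P_add]
        exact W.P_mono ih v
  apply ENNReal.le_of_forall_pos_le_add
  intro ε hε _
  have hε' : (0 : ℝ≥0∞) < ε := by exact_mod_cast hε
  set K := (hvan ε hε').toFinset with hK
  have h2 : ∀ v, Set.indicator Uᶜ f v ≤
      (ε : ℝ≥0∞) + ∑ g ∈ K, C * Set.indicator {g} (fun _ => (1 : ℝ≥0∞)) v := by
    intro v
    by_cases hv : v ∈ U
    · simp [hv]
    · rw [Set.indicator_of_mem (show v ∈ Uᶜ from hv)]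
      by_cases he : (ε : ℝ≥0∞) ≤ f v
      · have hvK : v ∈ K := by
          rw [hK, Set.Finite.mem_toFinset]
          exact ⟨hv, he⟩
        have h3 : C * Set.indicator {v} (fun _ => (1 : ℝ≥0∞)) v ≤
            ∑ g ∈ K, C * Set.indicator {g} (fun _ => (1 : ℝ≥0∞)) v :=
          Finset.single_le_sum (f := fun g => C * Set.indicator {g} (fun _ => (1 : ℝ≥0∞)) v)
            (fun _ _ => bot_le) hvK
        rw [Set.indicator_of_mem (Set.mem_singleton v), mul_one] at h3
        exact (hb v).trans (h3.trans le_add_self)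
      · exact (not_le.1 he).le.trans le_self_add
  have h3 : ∀ n : ℕ, f w ≤ W.hit U f w + ((ε : ℝ≥0∞) +
      ∑ g ∈ K, C * (W.P^[n] (Set.indicator {g} (fun _ => (1 : ℝ≥0∞)))) w) := by
    intro n
    refine (h1 n w).trans (add_le_add ?_ ?_)
    · exact le_iSup (fun n => W.hitN U f n w) n
    · have h4 := decomp_iter_mono W h2 n w
      rwa [decomp_iter W K (ε : ℝ≥0∞) C (fun g => Set.indicator {g} (fun _ => (1 : ℝ≥0∞))) n] at h4
  have h4 : Tendsto (fun n : ℕ => ∑ g ∈ K,
      C * (W.P^[n] (Set.indicator {g} (fun _ => (1 : ℝ≥0∞)))) w) atTop (𝓝 0) := by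
    have h5 : Tendsto (fun n : ℕ => ∑ g ∈ K,
        C * (W.P^[n] (Set.indicator {g} (fun _ => (1 : ℝ≥0∞)))) w) atTop
        (𝓝 (∑ g ∈ K, C * 0)) := by
      apply tendsto_finsetSum
      intro g _
      exact ENNReal.Tendsto.const_mul (htr g w) (Or.inr hC)
    simpa using h5
  have h5 : Tendsto (fun n : ℕ => W.hit U f w + ((ε : ℝ≥0∞) +
      ∑ g ∈ K, C * (W.P^[n] (Set.indicator {g} (fun _ => (1 : ℝ≥0∞)))) w)) atTop
      (𝓝 (W.hit U f w + ((ε : ℝ≥0∞) + 0))) :=
    tendsto_const_nhds.add (tendsto_const_nhds.add h4)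
  rw [add_zero] at h5
  exact ge_of_tendsto h5 (Eventually.of_forall h3)

end Pool.Agent.Lib.KLP
end
end
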