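import Mathlib

/-!
# MP_a137af_pr (singularity of stationary measures, cocompact Fuchsian groups): definitions

* `mob`, `IsMob`, `IsAntiMob`, `IsDiscIso`: (anti-)Möbius maps of the unit disc.
* `DAct Γ`: a discrete cocompact action of a group by such maps.
* `circ`: normalised Lebesgue measure on the unit circle, as a measure on `ℂ`.
* `Walk Γ`: a finitely supported generating step distribution; `P`, `hit`, `F`.
* `Stationary`, `pf`.
-/

set_option autoImplicit false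
open MeasureTheory Set Filter Topology
open scoped ENNReal ComplexConjugate

namespace Pool.Agent.Lib.KLP

/-- The Möbius map `z ↦ c (z - a) / (1 - ā z)`. -/
noncomputable def mob (c a z : ℂ) : ℂ := c * (z - a) / (1 - conj a * z)

/-- Orientation preserving isometries of the hyperbolic disc. -/
def IsMob (f : ℂ → ℂ) : Prop := ∃ c a : ℂ, ‖c‖ = 1 ∧ ‖a‖ < 1 ∧ f = mob c a

/-- Orientation reversing isometries of the hyperbolic disc. -/
def IsAntiMob (f : ℂ → ℂ) : Prop :=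
  ∃ c a : ℂ, ‖c‖ = 1 ∧ ‖a‖ < 1 ∧ f = fun z => mob c a (conj z)

/-- Isometries of the hyperbolic disc. -/
def IsDiscIso (f : ℂ → ℂ) : Prop := IsMob f ∨ IsAntiMob f

/-- A discrete cocompact action of the group `Γ` on the closed unit disc by isometries of the
hyperbolic disc. -/
structure DAct (Γ : Type*) [Group Γ] where
  act : Γ → ℂ → ℂ
  iso : ∀ g, IsDiscIso (act g)
  one : ∀ z, ‖z‖ ≤ 1 → act 1 z = z
  mul : ∀ g h z, ‖z‖ ≤ 1 → act (g * h) z = act g (act h z)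
  discrete : ∀ ρ : ℝ, ρ < 1 → {g | ‖act g 0‖ ≤ ρ}.Finite
  cocompact : ∃ ρ : ℝ, ρ < 1 ∧ ∀ z, ‖z‖ < 1 → ∃ g, ‖act g z‖ ≤ ρ

section geometry

variable {Γ : Type*} [Group Γ]

/-- The height `1 - |g 0|²` of the orbit point `g 0`. -/
noncomputable def DAct.t (A : DAct Γ) (g : Γ) : ℝ := 1 - ‖A.act g 0‖ ^ 2

/-- The conformal factor `|g'(z)|`. -/
noncomputable def DAct.J (A : DAct Γ) (g : Γ) (z : ℂ) : ℝ :=
  A.t g / ‖1 - conj (A.act g⁻¹ 0) * z‖ ^ 2

/-- Poisson kernel. -/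
noncomputable def pk (z ξ : ℂ) : ℝ := (1 - ‖z‖ ^ 2) / ‖ξ - z‖ ^ 2

/-- The kernel `sech²(d(z,w)/2)`. -/
noncomputable def kap (z w : ℂ) : ℝ := (1 - ‖z‖ ^ 2) * (1 - ‖w‖ ^ 2) / ‖1 - conj z * w‖ ^ 2

/-- Normalised Lebesgue measure on the unit circle, as a measure on `ℂ`. -/
noncomputable def circ : Measure ℂ :=
  ENNReal.ofReal (1 / (2 * Real.pi)) •
    (volume.restrict (Ioc (-Real.pi) Real.pi)).map
      (fun θ : ℝ => Complex.exp ((θ : ℂ) * Complex.I))

/-- Elements of `Γ` whose orbit point is within `r` of `ξ`. -/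
def DAct.U (A : DAct Γ) (ξ : ℂ) (r : ℝ) : Set Γ := {y | ‖A.act y 0 - ξ‖ < r}

/-- `ξ₀` is a Lebesgue point of `dν/dm` with value `L > 0`, in integrated form. -/
def LebPt (ν : Measure ℂ) (ξ₀ : ℂ) (L : ℝ) : Prop :=
  ‖ξ₀‖ = 1 ∧ 0 < L ∧ ∀ R : ℝ, 0 < R → ∀ ε : ℝ, 0 < ε → ∃ r₀ : ℝ, 0 < r₀ ∧
    ∀ r : ℝ, 0 < r → r < r₀ → ∀ E : Set ℂ, MeasurableSet E →
      E ⊆ Metric.closedBall ξ₀ (R * r) →
      |(ν E).toReal - L * (circ E).toReal| ≤ ε * r

end geometry

/-- A finitely supported probability measure on `Γ` whose support generates `Γ` as a monoid. -/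
structure Walk (Γ : Type*) [Group Γ] where
  S : Finset Γ
  μ : Γ → ℝ
  pos : ∀ s ∈ S, 0 < μ s
  sum_eq : ∑ s ∈ S, μ s = 1
  gen : Submonoid.closure (S : Set Γ) = ⊤

namespace Walk

variable {Γ : Type*} [Group Γ] (W : Walk Γ)

/-- The Markov operator `P f (w) = ∑ μ(s) f(w s)`. -/
noncomputable def P (f : Γ → ℝ≥0∞) (w : Γ) : ℝ≥0∞ :=
  ∑ s ∈ W.S, ENNReal.ofReal (W.μ s) * f (w * s)

open Classical in
/-- `hitN U f n w = E_w[f(X_τ); τ ≤ n]`, `τ` the hitting time of `U`. -/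
noncomputable def hitN (U : Set Γ) (f : Γ → ℝ≥0∞) : ℕ → Γ → ℝ≥0∞
  | 0, w => if w ∈ U then f w else 0
  | n + 1, w => if w ∈ U then f w else W.P (hitN U f n) w

/-- `hit U f w = E_w[f(X_τ); τ < ∞]`, `τ` the hitting time of `U`. -/
noncomputable def hit (U : Set Γ) (f : Γ → ℝ≥0∞) (w : Γ) : ℝ≥0∞ := ⨆ n, W.hitN U f n w

/-- Hitting probability of a point. -/
noncomputable def F (w x : Γ) : ℝ≥0∞ := W.hit {x} (fun _ => 1) w

/-- The (inner) boundary of `U` for the walk. -/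
def bd (U : Set Γ) : Set Γ := {y | y ∈ U ∧ ∃ s ∈ W.S, y * s⁻¹ ∉ U}

/-- The walk visits every point with probability tending to `0` (transience). -/
def Transient : Prop :=
  ∀ g w : Γ, Tendsto (fun n : ℕ => (W.P^[n] (Set.indicator {g} (fun _ => (1 : ℝ≥0∞)))) w)
    atTop (𝓝 0)

end Walk

section stationary

variable {Γ : Type*} [Group Γ]

/-- `ν` is `μ`-stationary. -/
def Stationary (A : DAct Γ) (W : Walk Γ) (ν : Measure ℂ) : Prop :=
  ν = ∑ s ∈ W.S, ENNReal.ofReal (W.μ s) • ν.map (A.act s)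

/-- `pf A ν E w = (w_* ν)(E)`. -/
noncomputable def pf (A : DAct Γ) (ν : Measure ℂ) (E : Set ℂ) (w : Γ) : ℝ≥0∞ :=
  ν.map (A.act w) E

/-- The action of `Γ` has no fixed point on the circle. -/
def NoFix (A : DAct Γ) : Prop := ∀ ζ : ℂ, ‖ζ‖ = 1 → ∃ g, A.act g ζ ≠ ζ

/-- Two sided bounds of section 2. -/
structure Bds (A : DAct Γ) (W : Walk Γ) (ν : Measure ℂ) (c C : ℝ) : Prop where
  c_pos : 0 < c
  c_le : c ≤ C
  lowν : ∀ E, MeasurableSet E → ENNReal.ofReal c * circ E ≤ ν E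
  upν : ∀ E, MeasurableSet E → ν E ≤ ENNReal.ofReal C * circ E
  lowF : ∀ h, ENNReal.ofReal (c * A.t h) ≤ W.F 1 h
  upF : ∀ h, W.F 1 h ≤ ENNReal.ofReal (C * A.t h)

/-- Standing assumptions of the regularity part. -/
structure Std (A : DAct Γ) (W : Walk Γ) (ν : Measure ℂ) : Prop where
  prob : IsProbabilityMeasure ν
  ac : ν ≪ circ
  stat : Stationary A W ν
  nofix : NoFix A

end stationary

end Pool.Agent.Lib.KLP
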