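import Pool.Agent.Lib.MP_a137af_pr.Defs

section

/-!
# MP_a137af_pr: definitions for the part on Bloch functions with periods
-/

set_option autoImplicit false
open MeasureTheory Set Filter Topology
open scoped ENNReal ComplexConjugate

namespace Pool.Agent.Lib.KLP

/-- The action is by holomorphic maps and free on the open disc. -/
structure HF {Δ : Type*} [Group Δ] (A : DAct Δ) : Prop where
  hol : ∀ g, IsMob (A.act g)
  free : ∀ g z, ‖z‖ < 1 → A.act g z = z → g = 1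

/-- Every holomorphic function on the disc with constant periods is constant. -/
def NoBloch {Δ : Type*} [Group Δ] (A : DAct Δ) : Prop :=
  ∀ b : ℂ → ℂ, DifferentiableOn ℂ b (Metric.ball 0 1) →
    (∀ g, ∃ c, ∀ z, ‖z‖ < 1 → b (A.act g z) = b z + c) → ∃ c, ∀ z, ‖z‖ < 1 → b z = c

/-- Holomorphic forms of weight `2k`. -/
structure Wt {Δ : Type*} [Group Δ] (A : DAct Δ) (k : ℕ) (f : ℂ → ℂ) : Prop where
  diff : DifferentiableOn ℂ f (Metric.ball 0 1)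
  eq : ∀ g z, ‖z‖ < 1 → f (A.act g z) * (deriv (A.act g) z) ^ k = f z

/-- Poincaré series. -/
noncomputable def theta {Δ : Type*} [Group Δ] (A : DAct Δ) (k : ℕ) (q : ℂ → ℂ) (z : ℂ) : ℂ :=
  ∑' g, q (A.act g z) * (deriv (A.act g) z) ^ k

/-- The kernel `K(z, ζ) = ∑ g'(z)^k / (g z - ζ)`. -/
noncomputable def ker {Δ : Type*} [Group Δ] (A : DAct Δ) (k : ℕ) (z ζ : ℂ) : ℂ :=
  ∑' g, (deriv (A.act g) z) ^ k / (A.act g z - ζ)

/-- `F` is an invariant meromorphic function with only a simple pole (residue 1) at the orbit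
of `q`. -/
structure IsFq {Δ : Type*} [Group Δ] (A : DAct Δ) (q : ℂ) (F : ℂ → ℂ) : Prop where
  diff : ∀ z, ‖z‖ < 1 → (∀ g, A.act g q ≠ z) → DifferentiableAt ℂ F z
  inv : ∀ g z, ‖z‖ < 1 → (∀ g', A.act g' q ≠ z) → F (A.act g z) = F z
  pole : ∃ r : ℂ → ℂ, AnalyticAt ℂ r q ∧ ∀ᶠ z in 𝓝[≠] q, F z = 1 / (z - q) + r z

/-- The finite family of Bloch functions with periods. -/
structure BlochData {Γ : Type*} [Group Γ] (A : DAct Γ) (ι : Type*) where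
  b : ι → ℂ → ℂ
  j : Γ → ι → ι
  χ : Γ → ι → ℂ
  C : ℝ
  hol : ∀ i, DifferentiableOn ℂ (b i) (Metric.ball 0 1) ∨
    DifferentiableOn ℂ (fun z => conj (b i z)) (Metric.ball 0 1)
  growth : ∀ i z, ‖z‖ < 1 → ‖b i z‖ ≤ C * (1 + Real.log (1 / (1 - ‖z‖)))
  equiv : ∀ g i z, ‖z‖ < 1 → b i (A.act g z) = b (j g i) z + χ g i
  j_one : ∀ i, j 1 i = i
  j_mul : ∀ g h i, j (g * h) i = j h (j g i)
  χ_mul : ∀ g h i, χ (g * h) i = χ g i + χ h (j g i)
  trans : ∀ i k, ∃ g, j g i = k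
  nonconst : ∀ i, ¬ ∃ c, ∀ z, ‖z‖ < 1 → b i z = c

/-- The transfer matrix twisted by `θ : ℂ → ℂ`. -/
noncomputable def BlochData.T {Γ : Type*} [Group Γ] {A : DAct Γ} {ι : Type*} [DecidableEq ι]
    (D : BlochData A ι) (W : Walk Γ) (θ : ℂ → ℂ) : Matrix ι ι ℂ :=
  fun i k => ∑ s ∈ W.S, if D.j s i = k then (W.μ s : ℂ) * θ (D.χ s i) else 0

end Pool.Agent.Lib.KLP
end

section

/-!
# G1a: elementary facts on (anti-)Möbius maps of the disc
-/

set_option autoImplicit false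
open MeasureTheory Set Filter Topology
open scoped ENNReal ComplexConjugate

namespace Pool.Agent.Lib.KLP

theorem norm_one_sub_conj_mul_sq (z w : ℂ) :
    ‖1 - conj z * w‖ ^ 2 = ‖z - w‖ ^ 2 + (1 - ‖z‖ ^ 2) * (1 - ‖w‖ ^ 2) := by
  rw [Complex.sq_norm, Complex.sq_norm, Complex.sq_norm, Complex.sq_norm,
    Complex.normSq_apply, Complex.normSq_apply, Complex.normSq_apply, Complex.normSq_apply]
  simp only [Complex.sub_re, Complex.sub_im, Complex.mul_re, Complex.mul_im, Complex.one_re,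
    Complex.one_im, Complex.conj_re, Complex.conj_im]
  ring

private theorem den_ne {a z : ℂ} (ha : ‖a‖ < 1) (hz : ‖z‖ ≤ 1) : 1 - conj a * z ≠ 0 := by
  intro h
  have h1 : conj a * z = 1 := (sub_eq_zero.mp h).symm
  have h2 : ‖conj a * z‖ = 1 := by rw [h1]; simp
  rw [norm_mul, RCLike.norm_conj] at h2
  nlinarith [norm_nonneg a, norm_nonneg z]

private theorem one_sub_mob {c a z : ℂ} (hc : ‖c‖ = 1) (ha : ‖a‖ < 1) (hz : ‖z‖ ≤ 1) :
    1 - ‖mob c a z‖ ^ 2 = (1 - ‖a‖ ^ 2) / ‖1 - conj a * z‖ ^ 2 * (1 - ‖z‖ ^ 2) := by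
  have hd : ‖1 - conj a * z‖ ≠ 0 := norm_ne_zero_iff.mpr (den_ne ha hz)
  have h1 := norm_one_sub_conj_mul_sq a z
  have h2 : ‖z - a‖ = ‖a - z‖ := norm_sub_rev z a
  unfold mob
  rw [norm_div, norm_mul, hc, one_mul, div_pow, h2]
  generalize ‖1 - conj a * z‖ = D at hd h1 ⊢
  field_simp
  linarith

private theorem mob_sub {c a z w : ℂ} (ha : ‖a‖ < 1) (hz : ‖z‖ ≤ 1) (hw : ‖w‖ ≤ 1) :
    mob c a z - mob c a w = c * ((1 - ‖a‖ ^ 2 : ℝ) : ℂ) * (z - w) /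
      ((1 - conj a * z) * (1 - conj a * w)) := by
  have hd1 := den_ne ha hz
  have hd2 := den_ne ha hw
  have h3 : ((1 - ‖a‖ ^ 2 : ℝ) : ℂ) = 1 - a * conj a := by
    rw [Complex.mul_conj, Complex.normSq_eq_norm_sq]
    push_cast
    ring
  unfold mob
  rw [h3, div_sub_div _ _ hd1 hd2]
  congr 1
  ring

private theorem norm_mob_sub {c a z w : ℂ} (hc : ‖c‖ = 1) (ha : ‖a‖ < 1) (hz : ‖z‖ ≤ 1)
    (hw : ‖w‖ ≤ 1) :
    ‖mob c a z - mob c a w‖ ^ 2 =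
        ((1 - ‖a‖ ^ 2) / ‖1 - conj a * z‖ ^ 2) * ((1 - ‖a‖ ^ 2) / ‖1 - conj a * w‖ ^ 2)
          * ‖z - w‖ ^ 2 := by
  have hd1 : ‖1 - conj a * z‖ ≠ 0 := norm_ne_zero_iff.mpr (den_ne ha hz)
  have hd2 : ‖1 - conj a * w‖ ≠ 0 := norm_ne_zero_iff.mpr (den_ne ha hw)
  have h0 : (0 : ℝ) ≤ 1 - ‖a‖ ^ 2 := by nlinarith [norm_nonneg a]
  rw [mob_sub ha hz hw, norm_div, norm_mul, norm_mul, norm_mul, hc, Complex.norm_real,
    Real.norm_of_nonneg h0, one_mul]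
  generalize ‖1 - conj a * z‖ = D at hd1 ⊢
  generalize ‖1 - conj a * w‖ = E at hd2 ⊢
  field_simp

private theorem mob_meas (c a : ℂ) : Measurable (mob c a) := by
  unfold mob
  exact ((measurable_id.sub_const a).const_mul c).div
    (measurable_const.sub (measurable_id.const_mul (conj a)))

private theorem mob_cont (c a : ℂ) (ha : ‖a‖ < 1) :
    ContinuousOn (mob c a) (Metric.closedBall 0 1) := by
  unfold mob
  refine ContinuousOn.div (by fun_prop) (by fun_prop) ?_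
  intro z hz
  exact den_ne ha (by simpa using hz)

theorem IsDiscIso.measurable {f : ℂ → ℂ} (hf : IsDiscIso f) : Measurable f := by
  rcases hf with ⟨c, a, hc, ha, rfl⟩ | ⟨c, a, hc, ha, rfl⟩
  · exact mob_meas c a
  · exact (mob_meas c a).comp (Complex.continuous_conj.measurable)

theorem IsDiscIso.continuousOn {f : ℂ → ℂ} (hf : IsDiscIso f) :
    ContinuousOn f (Metric.closedBall 0 1) := by
  rcases hf with ⟨c, a, hc, ha, rfl⟩ | ⟨c, a, hc, ha, rfl⟩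
  · exact mob_cont c a ha
  · refine (mob_cont c a ha).comp (Complex.continuous_conj.continuousOn) ?_
    intro z hz
    simpa using hz

theorem IsDiscIso.exists_zero {f : ℂ → ℂ} (hf : IsDiscIso f) :
    ∃ a : ℂ, ‖a‖ < 1 ∧ f a = 0 ∧ ‖f 0‖ = ‖a‖ ∧
      (∀ z w : ℂ, ‖z‖ ≤ 1 → ‖w‖ ≤ 1 → ‖f z - f w‖ ^ 2 =
        ((1 - ‖a‖ ^ 2) / ‖1 - conj a * z‖ ^ 2) * ((1 - ‖a‖ ^ 2) / ‖1 - conj a * w‖ ^ 2)
          * ‖z - w‖ ^ 2) ∧
      (∀ z : ℂ, ‖z‖ ≤ 1 →
        1 - ‖f z‖ ^ 2 = (1 - ‖a‖ ^ 2) / ‖1 - conj a * z‖ ^ 2 * (1 - ‖z‖ ^ 2)) := by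
  rcases hf with ⟨c, a, hc, ha, rfl⟩ | ⟨c, a, hc, ha, rfl⟩
  · refine ⟨a, ha, by simp [mob], by simp [mob, hc], ?_, ?_⟩
    · intro z w hz hw
      exact norm_mob_sub hc ha hz hw
    · intro z hz
      exact one_sub_mob hc ha hz
  · have key : ∀ z : ℂ, ‖1 - conj (conj a) * z‖ = ‖1 - conj a * conj z‖ := by
      intro z
      rw [← RCLike.norm_conj (1 - conj a * conj z)]
      simp
    refine ⟨conj a, by simpa using ha, by simp [mob], by simp [mob, hc], ?_, ?_⟩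
    · intro z w hz hw
      have h1 := norm_mob_sub (z := conj z) (w := conj w) hc ha (by simpa using hz)
        (by simpa using hw)
      have h2 : ‖conj z - conj w‖ = ‖z - w‖ := by
        rw [← map_sub, RCLike.norm_conj]
      rw [h2] at h1
      rw [key z, key w, RCLike.norm_conj]
      exact h1
    · intro z hz
      have h1 := one_sub_mob (z := conj z) hc ha (by simpa using hz)
      rw [RCLike.norm_conj] at h1
      rw [key z, RCLike.norm_conj]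
      exact h1

theorem IsDiscIso.norm_le_one {f : ℂ → ℂ} (hf : IsDiscIso f) {z : ℂ} (hz : ‖z‖ ≤ 1) :
    ‖f z‖ ≤ 1 := by
  obtain ⟨a, ha, -, -, -, h⟩ := hf.exists_zero
  have h1 := h z hz
  have h2 : 0 ≤ (1 - ‖a‖ ^ 2) / ‖1 - conj a * z‖ ^ 2 * (1 - ‖z‖ ^ 2) := by
    have h3 : (0 : ℝ) ≤ 1 - ‖a‖ ^ 2 := by nlinarith [norm_nonneg a]
    have h4 : (0 : ℝ) ≤ 1 - ‖z‖ ^ 2 := by nlinarith [norm_nonneg z]
    positivity
  nlinarith [norm_nonneg (f z)]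

theorem IsDiscIso.norm_lt_one {f : ℂ → ℂ} (hf : IsDiscIso f) {z : ℂ} (hz : ‖z‖ < 1) :
    ‖f z‖ < 1 := by
  obtain ⟨a, ha, -, -, -, h⟩ := hf.exists_zero
  have h1 := h z hz.le
  have h2 : 0 < (1 - ‖a‖ ^ 2) / ‖1 - conj a * z‖ ^ 2 * (1 - ‖z‖ ^ 2) := by
    have h3 : (0 : ℝ) < 1 - ‖a‖ ^ 2 := by nlinarith [norm_nonneg a]
    have h4 : (0 : ℝ) < 1 - ‖z‖ ^ 2 := by nlinarith [norm_nonneg z]
    have h5 : 0 < ‖1 - conj a * z‖ := norm_pos_iff.mpr (den_ne ha hz.le)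
    positivity
  nlinarith [norm_nonneg (f z)]

theorem IsDiscIso.norm_eq_one {f : ℂ → ℂ} (hf : IsDiscIso f) {z : ℂ} (hz : ‖z‖ = 1) :
    ‖f z‖ = 1 := by
  obtain ⟨a, ha, -, -, -, h⟩ := hf.exists_zero
  have h1 := h z hz.le
  rw [hz] at h1
  norm_num at h1
  have h2 : (‖f z‖ - 1) * (‖f z‖ + 1) = 0 := by nlinarith
  rcases mul_eq_zero.mp h2 with h3 | h3
  · linarith
  · have := norm_nonneg (f z)
    linarith

end Pool.Agent.Lib.KLP
end
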