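import Pool.Agent.Lib.MP_a137af_pr.Defs
import Pool.Agent.Lib.MP_a137af_pr.DiscIso
import Pool.Agent.Lib.MP_a137af_pr.IsomClass

section

/-!
# P0: comparison of integrals of a slowly growing holomorphic function along two curves
-/

set_option autoImplicit false
open MeasureTheory Set Filter Topology
open scoped ENNReal ComplexConjugate

namespace Pool.Agent.Lib.KLP

/-- The moving average of `φ` over a window of length `δ`. -/
private noncomputable def avg (φ : ℝ → ℝ) (δ x : ℝ) : ℝ := δ⁻¹ * ∫ t in x..(x + δ), φ t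

private lemma holder_cont {κ H : ℝ} {φ : ℝ → ℝ} (hκ : 0 < κ)
    (h : ∀ x y, |φ x - φ y| ≤ H * |x - y| ^ κ) : Continuous φ := by
  rw [continuous_iff_continuousAt]
  intro x
  rw [ContinuousAt, tendsto_iff_dist_tendsto_zero]
  have h1 : Tendsto (fun y : ℝ => H * |y - x| ^ κ) (𝓝 x) (𝓝 0) := by
    have : Continuous (fun y : ℝ => H * |y - x| ^ κ) := by
      refine continuous_const.mul ?_
      refine Continuous.rpow_const (by fun_prop) (fun _ => Or.inr hκ.le)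
    have h2 := this.tendsto x
    simpa [Real.zero_rpow hκ.ne'] using h2
  refine squeeze_zero (fun _ => dist_nonneg) (fun y => ?_) h1
  rw [Real.dist_eq]
  exact h y x

private lemma avg_hasDeriv {φ : ℝ → ℝ} (hφ : Continuous φ) (δ x : ℝ) :
    HasDerivAt (avg φ δ) (δ⁻¹ * (φ (x + δ) - φ x)) x := by
  have h0 : avg φ δ = fun x => δ⁻¹ * ((∫ t in (0:ℝ)..(x + δ), φ t) - ∫ t in (0:ℝ)..x, φ t) := by
    funext y
    unfold avg
    rw [intervalIntegral.integral_interval_sub_left (hφ.intervalIntegrable _ _)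
      (hφ.intervalIntegrable _ _)]
  rw [h0]
  have h1 : HasDerivAt (fun x => ∫ t in (0:ℝ)..x, φ t) (φ x) x :=
    intervalIntegral.integral_hasDerivAt_right (hφ.intervalIntegrable _ _)
      (hφ.stronglyMeasurableAtFilter _ _) hφ.continuousAt
  have h2 : HasDerivAt (fun x => ∫ t in (0:ℝ)..(x + δ), φ t) (φ (x + δ)) x := by
    have h3 : HasDerivAt (fun x => ∫ t in (0:ℝ)..x, φ t) (φ (x + δ)) (x + δ) :=
      intervalIntegral.integral_hasDerivAt_right (hφ.intervalIntegrable _ _)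
        (hφ.stronglyMeasurableAtFilter _ _) hφ.continuousAt
    exact h3.comp_add_const x δ
  exact (h2.sub h1).const_mul _

private lemma avg_abs_le {H δ : ℝ} {φ : ℝ → ℝ} (hδ : 0 < δ) (hH : ∀ x, |φ x| ≤ H) (x : ℝ) :
    |avg φ δ x| ≤ H := by
  unfold avg
  have h1 : ‖∫ t in x..(x + δ), φ t‖ ≤ H * |x + δ - x| :=
    intervalIntegral.norm_integral_le_of_norm_le_const (fun t _ => hH t)
  rw [add_sub_cancel_left, abs_of_pos hδ, Real.norm_eq_abs] at h1
  rw [abs_mul, abs_of_pos (inv_pos.mpr hδ)]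
  calc δ⁻¹ * |∫ t in x..(x + δ), φ t| ≤ δ⁻¹ * (H * δ) :=
        mul_le_mul_of_nonneg_left h1 (inv_pos.mpr hδ).le
    _ = H := by field_simp

private lemma avg_sub_le {κ H δ : ℝ} {φ : ℝ → ℝ} (hκ : 0 < κ) (hH0 : 0 ≤ H) (hδ : 0 < δ)
    (h : ∀ x y, |φ x - φ y| ≤ H * |x - y| ^ κ) (x : ℝ) :
    |φ x - avg φ δ x| ≤ H * δ ^ κ := by
  have hφ := holder_cont hκ h
  have h0 : φ x - avg φ δ x = δ⁻¹ * ∫ t in x..(x + δ), (φ x - φ t) := by
    unfold avg
    rw [intervalIntegral.integral_sub (by simp) (hφ.intervalIntegrable _ _)]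
    rw [intervalIntegral.integral_const, add_sub_cancel_left, smul_eq_mul, mul_sub]
    congr 1
    field_simp
  have h1 : ‖∫ t in x..(x + δ), (φ x - φ t)‖ ≤ (H * δ ^ κ) * |x + δ - x| := by
    refine intervalIntegral.norm_integral_le_of_norm_le_const (fun t ht => ?_)
    rw [uIoc_of_le (by linarith)] at ht
    rw [Real.norm_eq_abs]
    refine (h x t).trans (mul_le_mul_of_nonneg_left ?_ hH0)
    refine Real.rpow_le_rpow (abs_nonneg _) ?_ hκ.le
    rw [abs_le]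
    constructor <;> linarith [ht.1, ht.2]
  rw [add_sub_cancel_left, abs_of_pos hδ, Real.norm_eq_abs] at h1
  rw [h0, abs_mul, abs_of_pos (inv_pos.mpr hδ)]
  calc δ⁻¹ * |∫ t in x..(x + δ), (φ x - φ t)| ≤ δ⁻¹ * (H * δ ^ κ * δ) :=
        mul_le_mul_of_nonneg_left h1 (inv_pos.mpr hδ).le
    _ = H * δ ^ κ := by field_simp

private lemma avg_periodic {φ : ℝ → ℝ} {T : ℝ} (hp : Function.Periodic φ T) (δ : ℝ) :
    Function.Periodic (avg φ δ) T := by
  intro x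
  unfold avg
  congr 1
  have h1 : (∫ t in x..(x + δ), φ t) = ∫ t in x..(x + δ), φ (t + T) := by
    congr 1
    funext t
    exact (hp t).symm
  rw [h1, intervalIntegral.integral_comp_add_right]
  congr 1
  ring

private lemma avg_deriv_le {κ H δ : ℝ} {φ : ℝ → ℝ} (hδ : 0 < δ)
    (h : ∀ x y, |φ x - φ y| ≤ H * |x - y| ^ κ) (x : ℝ) :
    |δ⁻¹ * (φ (x + δ) - φ x)| ≤ H * δ ^ (κ - 1) := by
  have h1 := h (x + δ) x
  rw [add_sub_cancel_left, abs_of_pos hδ] at h1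
  rw [abs_mul, abs_of_pos (inv_pos.mpr hδ), Real.rpow_sub_one hδ.ne']
  calc δ⁻¹ * |φ (x + δ) - φ x| ≤ δ⁻¹ * (H * δ ^ κ) :=
        mul_le_mul_of_nonneg_left h1 (inv_pos.mpr hδ).le
    _ = H * (δ ^ κ / δ) := by field_simp

/-- Primitive of a slowly growing holomorphic function. -/
private lemma prim_bound {s K : ℝ} (hs1 : s < 1) (hK : 0 ≤ K) {u : ℂ → ℂ}
    (hu : DifferentiableOn ℂ u (Metric.ball 0 1))
    (hb : ∀ z, ‖z‖ < 1 → ‖u z‖ ≤ K * (1 - ‖z‖) ^ (-s)) :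
    ∃ U : ℂ → ℂ, (∀ z, ‖z‖ < 1 → HasDerivAt U (u z) z) ∧
      (∀ z, ‖z‖ < 1 → ‖U z‖ ≤ K / (1 - s)) := by
  obtain ⟨U, hU0, hU⟩ := (DifferentiableOn.isExactOn_ball hu).with_val_at 0 0
  have hU' : ∀ z, ‖z‖ < 1 → HasDerivAt U (u z) z := fun z hz => hU z (by simpa using hz)
  refine ⟨U, hU', fun z hz => ?_⟩
  have h1s : 0 < 1 - s := by linarith
  -- parametrize the ray
  have hmem : ∀ t : ℝ, t ∈ Icc (0:ℝ) 1 → ‖(t : ℂ) * z‖ < 1 := by
    intro t ht
    rw [norm_mul, Complex.norm_real, Real.norm_eq_abs, abs_of_nonneg ht.1]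
    calc t * ‖z‖ ≤ 1 * ‖z‖ := mul_le_mul_of_nonneg_right ht.2 (norm_nonneg _)
      _ < 1 := by linarith
  have hf : ∀ t : ℝ, t ∈ Icc (0:ℝ) 1 →
      HasDerivAt (fun t : ℝ => U ((t : ℂ) * z)) (u ((t : ℂ) * z) * z) t := by
    intro t ht
    have h2 : HasDerivAt (fun t : ℝ => (t : ℂ) * z) z t := by
      have := (Complex.ofRealCLM.hasDerivAt (x := t)).mul_const z
      simpa using this
    exact (hU' _ (hmem t ht)).comp t h2
  have hg : ∀ t : ℝ, t ∈ Icc (0:ℝ) 1 →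
      HasDerivAt (fun t : ℝ => K / (1 - s) * (1 - (1 - t * ‖z‖) ^ (1 - s)))
        (K * (1 - t * ‖z‖) ^ (-s) * ‖z‖) t := by
    intro t ht
    have hpos : 0 < 1 - t * ‖z‖ := by
      have := hmem t ht
      rw [norm_mul, Complex.norm_real, Real.norm_eq_abs, abs_of_nonneg ht.1] at this
      linarith
    have h3 : HasDerivAt (fun t : ℝ => 1 - t * ‖z‖) (-‖z‖) t := by
      have := ((hasDerivAt_id t).mul_const ‖z‖).const_sub 1
      simpa using this
    have h4 := h3.rpow_const (p := 1 - s) (Or.inl hpos.ne')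
    have h5 := (h4.const_sub 1).const_mul (K / (1 - s))
    refine h5.congr_deriv ?_
    rw [show (1 - s - 1 : ℝ) = -s by ring]
    field_simp
  have key := image_norm_le_of_norm_deriv_right_le_deriv_boundary'
    (f := fun t : ℝ => U ((t : ℂ) * z)) (f' := fun t : ℝ => u ((t : ℂ) * z) * z)
    (a := 0) (b := 1)
    (B := fun t : ℝ => K / (1 - s) * (1 - (1 - t * ‖z‖) ^ (1 - s)))
    (B' := fun t : ℝ => K * (1 - t * ‖z‖) ^ (-s) * ‖z‖)
    (fun t ht => (hf t ht).continuousAt.continuousWithinAt)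
    (fun t ht => (hf t (Ico_subset_Icc_self ht)).hasDerivWithinAt)
    (by simp [hU0])
    (fun t ht => (hg t ht).continuousAt.continuousWithinAt)
    (fun t ht => (hg t (Ico_subset_Icc_self ht)).hasDerivWithinAt)
    (by
      intro t ht
      have hm := hmem t (Ico_subset_Icc_self ht)
      have h6 := hb _ hm
      rw [norm_mul (t : ℂ) z, Complex.norm_real, Real.norm_eq_abs, abs_of_nonneg ht.1] at h6
      rw [norm_mul]
      exact mul_le_mul_of_nonneg_right h6 (norm_nonneg _))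
  have h7 := key (show (1:ℝ) ∈ Icc (0:ℝ) 1 from ⟨zero_le_one, le_rfl⟩)
  simp only [Complex.ofReal_one, one_mul] at h7
  refine h7.trans ?_
  have h8 : 0 ≤ (1 - ‖z‖) ^ (1 - s) := Real.rpow_nonneg (by linarith) _
  have h9 : 0 ≤ K / (1 - s) := div_nonneg hK h1s.le
  nlinarith

/-- integration by parts over a period -/
private lemma parts_period {u U : ℂ → ℂ} {A : ℝ → ℂ} {ψ ψ' : ℝ → ℝ} {c : ℝ} (hc : 0 < c)
    (hu : DifferentiableOn ℂ u (Metric.ball 0 1))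
    (hU : ∀ z, ‖z‖ < 1 → HasDerivAt U (u z) z) (hA : ContDiff ℝ 2 A)
    (hAp : Function.Periodic A (2 * Real.pi)) (hA1 : ∀ x, ‖A x‖ < 1)
    (hAc : ∀ x, c ≤ ‖deriv A x‖) (hψ : ∀ x, HasDerivAt ψ (ψ' x) x) (hψ' : Continuous ψ')
    (hψp : Function.Periodic ψ (2 * Real.pi)) :
    (∫ x in (-Real.pi)..Real.pi, u (A x) * (ψ x : ℂ)) =
      - ∫ x in (-Real.pi)..Real.pi, U (A x) *
        ((ψ' x : ℂ) / deriv A x - (ψ x : ℂ) * deriv (deriv A) x / (deriv A x) ^ 2) ∧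
    Continuous (fun x => u (A x)) ∧ Continuous (fun x => U (A x)) ∧
    Continuous (fun x => (ψ' x : ℂ) / deriv A x -
      (ψ x : ℂ) * deriv (deriv A) x / (deriv A x) ^ 2) := by
  have hne : ∀ x, deriv A x ≠ 0 := fun x h => by
    have := hAc x
    rw [h, norm_zero] at this
    linarith
  have hA' : ∀ x, HasDerivAt A (deriv A x) x := fun x =>
    (hA.differentiable (by norm_num) x).hasDerivAt
  have hdA : ContDiff ℝ 1 (deriv A) := by
    have : ContDiff ℝ (1 + 1) A := by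
      simpa [one_add_one_eq_two] using hA
    exact (contDiff_succ_iff_deriv.mp this).2.2
  have hA'' : ∀ x, HasDerivAt (deriv A) (deriv (deriv A) x) x := fun x =>
    (hdA.differentiable (by norm_num) x).hasDerivAt
  have hddA : Continuous (deriv (deriv A)) := hdA.continuous_deriv (le_refl _)
  have hAcont : Continuous A := hA.continuous
  have huA : Continuous (fun x => u (A x)) := by
    refine hu.continuousOn.comp_continuous hAcont (fun x => ?_)
    simpa using hA1 x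
  have hUA : Continuous (fun x => U (A x)) := by
    have hUc : ContinuousOn U (Metric.ball 0 1) := fun z hz =>
      (hU z (by simpa using hz)).continuousAt.continuousWithinAt
    refine hUc.comp_continuous hAcont (fun x => ?_)
    simpa using hA1 x
  have hψc : Continuous ψ := continuous_iff_continuousAt.mpr (fun x => (hψ x).continuousAt)
  have hg : Continuous (fun x => (ψ' x : ℂ) / deriv A x -
      (ψ x : ℂ) * deriv (deriv A) x / (deriv A x) ^ 2) := by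
    refine Continuous.sub ?_ ?_
    · exact (Complex.continuous_ofReal.comp hψ').div hdA.continuous hne
    · exact ((Complex.continuous_ofReal.comp hψc).mul hddA).div (hdA.continuous.pow 2)
        (fun x => pow_ne_zero 2 (hne x))
  refine ⟨?_, huA, hUA, hg⟩
  have hF : ∀ x, HasDerivAt (fun x => U (A x) * ((ψ x : ℂ) / deriv A x))
      (u (A x) * (ψ x : ℂ) + U (A x) *
        ((ψ' x : ℂ) / deriv A x - (ψ x : ℂ) * deriv (deriv A) x / (deriv A x) ^ 2)) x := by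
    intro x
    have h1 : HasDerivAt (fun x => U (A x)) (u (A x) * deriv A x) x :=
      (hU _ (hA1 x)).comp x (hA' x)
    have h2 : HasDerivAt (fun x => (ψ x : ℂ)) (ψ' x : ℂ) x := (hψ x).ofReal_comp
    have h3 := h1.mul (h2.div (hA'' x) (hne x))
    refine h3.congr_deriv ?_
    have := hne x
    simp only [Pi.div_apply]
    field_simp
  have hFTC := intervalIntegral.integral_eq_sub_of_hasDerivAt
    (a := -Real.pi) (b := Real.pi) (fun x _ => hF x)
    (((huA.mul (Complex.continuous_ofReal.comp hψc)).add (hUA.mul hg)).intervalIntegrable _ _)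
  have hper : A Real.pi = A (-Real.pi) := by
    have := hAp (-Real.pi)
    rw [← this]
    congr 1
    ring
  have hperψ : ψ Real.pi = ψ (-Real.pi) := by
    have := hψp (-Real.pi)
    rw [← this]
    congr 1
    ring
  have hperA' : deriv A Real.pi = deriv A (-Real.pi) := by
    have hp : Function.Periodic (deriv A) (2 * Real.pi) := by
      intro x
      have h4 : (fun y => A (y + 2 * Real.pi)) = A := funext hAp
      have h5 : deriv (fun y => A (y + 2 * Real.pi)) x = deriv A (x + 2 * Real.pi) :=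
        deriv_comp_add_const _ _ _
      rw [← h5, h4]
    have := hp (-Real.pi)
    rw [← this]
    congr 1
    ring
  rw [hper, hperψ, hperA', sub_self] at hFTC
  rw [intervalIntegral.integral_add] at hFTC
  · exact eq_neg_of_add_eq_zero_left hFTC
  · exact (huA.mul (Complex.continuous_ofReal.comp hψc)).intervalIntegrable _ _
  · exact (hUA.mul hg).intervalIntegrable _ _

theorem curve_compare {κ s H c C : ℝ} (hκ : 0 < κ) (hκ1 : κ ≤ 1) (hs : 0 ≤ s) (hsκ : s < κ)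
    (hH : 0 ≤ H) (hc : 0 < c) (hC : 0 ≤ C) :
    ∃ B : ℝ, 0 ≤ B ∧ ∀ (δ K : ℝ) (φ : ℝ → ℝ) (u : ℂ → ℂ) (A₀ A₁ : ℝ → ℂ),
      0 < δ → δ ≤ 1 → 0 ≤ K → (∀ x, |φ x| ≤ H) → (∀ x y, |φ x - φ y| ≤ H * |x - y| ^ κ) →
      Function.Periodic φ (2 * Real.pi) → DifferentiableOn ℂ u (Metric.ball 0 1) →
      (∀ z, ‖z‖ < 1 → ‖u z‖ ≤ K * (1 - ‖z‖) ^ (-s)) →
      ContDiff ℝ 2 A₀ → ContDiff ℝ 2 A₁ → Function.Periodic A₀ (2 * Real.pi) →
      Function.Periodic A₁ (2 * Real.pi) →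
      (∀ x, c ≤ ‖deriv A₀ x‖ ∧ ‖deriv A₀ x‖ ≤ C ∧ ‖deriv (deriv A₀) x‖ ≤ C) →
      (∀ x, c ≤ ‖deriv A₁ x‖ ∧ ‖deriv A₁ x‖ ≤ C ∧ ‖deriv (deriv A₁) x‖ ≤ C) →
      (∀ x, ‖A₀ x - A₁ x‖ ≤ C * δ ∧ ‖deriv A₀ x - deriv A₁ x‖ ≤ C * δ ∧
        ‖deriv (deriv A₀) x - deriv (deriv A₁) x‖ ≤ C * δ) →
      (∀ x, c * δ ≤ 1 - ‖A₀ x‖ ∧ c * δ ≤ 1 - ‖A₁ x‖) →
      ‖∫ x in (-Real.pi)..Real.pi, (u (A₀ x) - u (A₁ x)) * (φ x : ℂ)‖ ≤ B * K * δ ^ (κ - s) := by
  have h1s : 0 < 1 - s := by linarith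
  set M1 : ℝ := 2 * c ^ (-s) * H with hM1
  set M2 : ℝ := C * c ^ (-s) * (H * (1 / c + C / c ^ 2)) with hM2
  set M3 : ℝ := 1 / (1 - s) * (H * (2 * C / c ^ 2 + 2 * C ^ 3 / c ^ 4)) with hM3
  have hcs : 0 ≤ c ^ (-s) := Real.rpow_nonneg hc.le _
  have hM1n : 0 ≤ M1 := by positivity
  have hM2n : 0 ≤ M2 := by positivity
  have hM3n : 0 ≤ M3 := by positivity
  refine ⟨(M1 + M2 + M3) * (2 * Real.pi), by positivity, ?_⟩
  intro δ K φ u A₀ A₁ hδ hδ1 hK hφH hφκ hφp hu hub hA0 hA1 hp0 hp1 hb0 hb1 hd hr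
  have hφc : Continuous φ := holder_cont hκ hφκ
  obtain ⟨U, hU, hUb⟩ := prim_bound (by linarith) hK hu hub
  have hcδ : 0 < c * δ := mul_pos hc hδ
  have hn0 : ∀ x, ‖A₀ x‖ < 1 := fun x => by linarith [(hr x).1]
  have hn1 : ∀ x, ‖A₁ x‖ < 1 := fun x => by linarith [(hr x).2]
  set ψ : ℝ → ℝ := avg φ δ with hψdef
  set ψ' : ℝ → ℝ := fun x => δ⁻¹ * (φ (x + δ) - φ x) with hψ'def
  have hψ : ∀ x, HasDerivAt ψ (ψ' x) x := avg_hasDeriv hφc δ
  have hψ'c : Continuous ψ' := by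
    rw [hψ'def]
    fun_prop
  have hψc : Continuous ψ := continuous_iff_continuousAt.mpr (fun x => (hψ x).continuousAt)
  have hψp : Function.Periodic ψ (2 * Real.pi) := avg_periodic hφp δ
  have hψH : ∀ x, |ψ x| ≤ H := avg_abs_le hδ hφH
  have hψ'H : ∀ x, |ψ' x| ≤ H * δ ^ (κ - 1) := avg_deriv_le hδ hφκ
  have hψφ : ∀ x, |φ x - ψ x| ≤ H * δ ^ κ := avg_sub_le hκ hH hδ hφκ
  obtain ⟨e0, cu0, cU0, cg0⟩ := parts_period hc hu hU hA0 hp0 hn0 (fun x => (hb0 x).1) hψ hψ'c hψp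
  obtain ⟨e1, cu1, cU1, cg1⟩ := parts_period hc hu hU hA1 hp1 hn1 (fun x => (hb1 x).1) hψ hψ'c hψp
  set g0 : ℝ → ℂ := fun x => (ψ' x : ℂ) / deriv A₀ x -
      (ψ x : ℂ) * deriv (deriv A₀) x / (deriv A₀ x) ^ 2 with hg0
  set g1 : ℝ → ℂ := fun x => (ψ' x : ℂ) / deriv A₁ x -
      (ψ x : ℂ) * deriv (deriv A₁) x / (deriv A₁ x) ^ 2 with hg1
  have cφ : Continuous (fun x => (φ x : ℂ)) := Complex.continuous_ofReal.comp hφc
  have cψ : Continuous (fun x => (ψ x : ℂ)) := Complex.continuous_ofReal.comp hψc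
  -- decomposition
  have hdec : (∫ x in (-Real.pi)..Real.pi, (u (A₀ x) - u (A₁ x)) * (φ x : ℂ)) =
      ∫ x in (-Real.pi)..Real.pi, ((u (A₀ x) - u (A₁ x)) * ((φ x : ℂ) - (ψ x : ℂ)) -
        (U (A₀ x) * g0 x - U (A₁ x) * g1 x)) := by
    have i1 : IntervalIntegrable (fun x => (u (A₀ x) - u (A₁ x)) * ((φ x : ℂ) - (ψ x : ℂ))) volume
        (-Real.pi) Real.pi := ((cu0.sub cu1).mul (cφ.sub cψ)).intervalIntegrable _ _
    have i2 : IntervalIntegrable (fun x => U (A₀ x) * g0 x) volume (-Real.pi) Real.pi :=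
      (cU0.mul cg0).intervalIntegrable _ _
    have i3 : IntervalIntegrable (fun x => U (A₁ x) * g1 x) volume (-Real.pi) Real.pi :=
      (cU1.mul cg1).intervalIntegrable _ _
    have i4 : IntervalIntegrable (fun x => u (A₀ x) * (ψ x : ℂ)) volume (-Real.pi) Real.pi :=
      (cu0.mul cψ).intervalIntegrable _ _
    have i5 : IntervalIntegrable (fun x => u (A₁ x) * (ψ x : ℂ)) volume (-Real.pi) Real.pi :=
      (cu1.mul cψ).intervalIntegrable _ _
    rw [intervalIntegral.integral_sub i1 (i2.sub i3), intervalIntegral.integral_sub i2 i3]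
    have h1 : (fun x => (u (A₀ x) - u (A₁ x)) * (φ x : ℂ)) = fun x =>
        (u (A₀ x) - u (A₁ x)) * ((φ x : ℂ) - (ψ x : ℂ)) +
          (u (A₀ x) * (ψ x : ℂ) - u (A₁ x) * (ψ x : ℂ)) := by
      funext x
      ring
    rw [h1, intervalIntegral.integral_add i1 (i4.sub i5), intervalIntegral.integral_sub i4 i5,
      e0, e1]
    ring
  rw [hdec]
  have hbound : ∀ x ∈ Set.uIoc (-Real.pi) Real.pi,
      ‖(u (A₀ x) - u (A₁ x)) * ((φ x : ℂ) - (ψ x : ℂ)) -
        (U (A₀ x) * g0 x - U (A₁ x) * g1 x)‖ ≤ (M1 + M2 + M3) * K * δ ^ (κ - s) := by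
    intro x _
    have hδκs : δ ^ (-s) * δ ^ κ = δ ^ (κ - s) := by
      rw [← Real.rpow_add hδ]; congr 1; ring
    -- size of u on the curves
    have hpow : ∀ r : ℝ, c * δ ≤ r → r ^ (-s) ≤ c ^ (-s) * δ ^ (-s) := by
      intro r hr'
      rw [← Real.mul_rpow hc.le hδ.le]
      exact Real.rpow_le_rpow_of_nonpos hcδ hr' (by linarith)
    have hu0 : ‖u (A₀ x)‖ ≤ K * (c ^ (-s) * δ ^ (-s)) :=
      (hub _ (hn0 x)).trans (mul_le_mul_of_nonneg_left (hpow _ (hr x).1) hK)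
    have hu1 : ‖u (A₁ x)‖ ≤ K * (c ^ (-s) * δ ^ (-s)) :=
      (hub _ (hn1 x)).trans (mul_le_mul_of_nonneg_left (hpow _ (hr x).2) hK)
    have b1 : ‖(u (A₀ x) - u (A₁ x)) * ((φ x : ℂ) - (ψ x : ℂ))‖ ≤ M1 * K * δ ^ (κ - s) := by
      rw [norm_mul]
      have h2 : ‖(φ x : ℂ) - (ψ x : ℂ)‖ ≤ H * δ ^ κ := by
        rw [← Complex.ofReal_sub, Complex.norm_real, Real.norm_eq_abs]
        exact hψφ x
      have h3 : ‖u (A₀ x) - u (A₁ x)‖ ≤ 2 * (K * (c ^ (-s) * δ ^ (-s))) :=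
        (norm_sub_le _ _).trans (by linarith)
      calc ‖u (A₀ x) - u (A₁ x)‖ * ‖(φ x : ℂ) - (ψ x : ℂ)‖
          ≤ 2 * (K * (c ^ (-s) * δ ^ (-s))) * (H * δ ^ κ) :=
            mul_le_mul h3 h2 (norm_nonneg _) (by positivity)
        _ = M1 * K * (δ ^ (-s) * δ ^ κ) := by rw [hM1]; ring
        _ = M1 * K * δ ^ (κ - s) := by rw [hδκs]
    -- difference of primitives
    have b2 : ‖U (A₀ x) - U (A₁ x)‖ ≤ K * (c ^ (-s) * δ ^ (-s)) * (C * δ) := by
      have hconv : Convex ℝ (Metric.closedBall (0:ℂ) (1 - c * δ)) := convex_closedBall _ _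
      have h4 := hconv.norm_image_sub_le_of_norm_hasDerivWithin_le (𝕜 := ℂ) (f := U)
        (f' := u) (C := K * (c ^ (-s) * δ ^ (-s))) (x := A₁ x) (y := A₀ x)
        (fun z hz => by
          have hz' : ‖z‖ ≤ 1 - c * δ := by simpa using hz
          exact (hU z (by linarith)).hasDerivWithinAt)
        (fun z hz => by
          have hz' : ‖z‖ ≤ 1 - c * δ := by simpa using hz
          exact (hub z (by linarith)).trans
            (mul_le_mul_of_nonneg_left (hpow _ (by linarith)) hK))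
        (by simpa using (show ‖A₁ x‖ ≤ 1 - c * δ by linarith [(hr x).2]))
        (by simpa using (show ‖A₀ x‖ ≤ 1 - c * δ by linarith [(hr x).1]))
      exact h4.trans (mul_le_mul_of_nonneg_left (hd x).1 (by positivity))
    have hδκ1 : 1 ≤ δ ^ (κ - 1) := Real.one_le_rpow_of_pos_of_le_one_of_nonpos hδ hδ1 (by linarith)
    have hne0 : deriv A₀ x ≠ 0 := fun h => by
      have := (hb0 x).1
      rw [h, norm_zero] at this
      linarith
    have hne1 : deriv A₁ x ≠ 0 := fun h => by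
      have := (hb1 x).1
      rw [h, norm_zero] at this
      linarith
    have hnψ' : ‖(ψ' x : ℂ)‖ ≤ H * δ ^ (κ - 1) := by
      rw [Complex.norm_real, Real.norm_eq_abs]; exact hψ'H x
    have hnψ : ‖(ψ x : ℂ)‖ ≤ H := by
      rw [Complex.norm_real, Real.norm_eq_abs]; exact hψH x
    have b3 : ‖g0 x‖ ≤ H * (1 / c + C / c ^ 2) * δ ^ (κ - 1) := by
      have h5 : ‖(ψ' x : ℂ) / deriv A₀ x‖ ≤ H * δ ^ (κ - 1) / c := by
        rw [norm_div]
        exact div_le_div₀ (by positivity) hnψ' hc (hb0 x).1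
      have h6 : ‖(ψ x : ℂ) * deriv (deriv A₀) x / (deriv A₀ x) ^ 2‖ ≤ H * C / c ^ 2 := by
        rw [norm_div, norm_mul, norm_pow]
        refine div_le_div₀ (by positivity) ?_ (by positivity) ?_
        · exact mul_le_mul hnψ (hb0 x).2.2 (norm_nonneg _) hH
        · exact pow_le_pow_left₀ hc.le (hb0 x).1 2
      calc ‖g0 x‖ ≤ H * δ ^ (κ - 1) / c + H * C / c ^ 2 := (norm_sub_le _ _).trans (add_le_add h5 h6)
        _ ≤ H * δ ^ (κ - 1) / c + H * C / c ^ 2 * δ ^ (κ - 1) := by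
            have : 0 ≤ H * C / c ^ 2 := by positivity
            nlinarith
        _ = H * (1 / c + C / c ^ 2) * δ ^ (κ - 1) := by ring
    have hδκκ : δ ^ (κ - 1) * δ = δ ^ κ := by
      rw [Real.rpow_sub_one hδ.ne']; field_simp
    have hδle : δ ≤ δ ^ κ := by
      have := Real.rpow_le_rpow_of_exponent_ge hδ hδ1 hκ1
      rwa [Real.rpow_one] at this
    have b4 : ‖g0 x - g1 x‖ ≤ H * (2 * C / c ^ 2 + 2 * C ^ 3 / c ^ 4) * δ ^ κ := by
      have hsplit : g0 x - g1 x = (ψ' x : ℂ) * ((deriv A₁ x - deriv A₀ x) /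
          (deriv A₀ x * deriv A₁ x)) -
          (ψ x : ℂ) * ((deriv (deriv A₀) x - deriv (deriv A₁) x) / (deriv A₀ x) ^ 2 +
            deriv (deriv A₁) x * ((deriv A₁ x - deriv A₀ x) * (deriv A₁ x + deriv A₀ x)) /
              ((deriv A₀ x) ^ 2 * (deriv A₁ x) ^ 2)) := by
        simp only [hg0, hg1]
        field_simp
        ring
      have hdd : ‖deriv A₁ x - deriv A₀ x‖ ≤ C * δ := by
        rw [norm_sub_rev]; exact (hd x).2.1
      have hc2 : c ^ 2 ≤ ‖(deriv A₀ x) ^ 2‖ := by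
        rw [norm_pow]; exact pow_le_pow_left₀ hc.le (hb0 x).1 2
      have hc2' : c ^ 2 ≤ ‖(deriv A₁ x) ^ 2‖ := by
        rw [norm_pow]; exact pow_le_pow_left₀ hc.le (hb1 x).1 2
      have h7 : ‖(deriv A₁ x - deriv A₀ x) / (deriv A₀ x * deriv A₁ x)‖ ≤ C * δ / c ^ 2 := by
        rw [norm_div, norm_mul]
        refine div_le_div₀ (by positivity) hdd (by positivity) ?_
        rw [pow_two]
        exact mul_le_mul (hb0 x).1 (hb1 x).1 hc.le (norm_nonneg _)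
      have h8 : ‖(deriv (deriv A₀) x - deriv (deriv A₁) x) / (deriv A₀ x) ^ 2‖ ≤ C * δ / c ^ 2 := by
        rw [norm_div]
        exact div_le_div₀ (by positivity) (hd x).2.2 (by positivity) hc2
      have h9 : ‖deriv (deriv A₁) x * ((deriv A₁ x - deriv A₀ x) * (deriv A₁ x + deriv A₀ x)) /
              ((deriv A₀ x) ^ 2 * (deriv A₁ x) ^ 2)‖ ≤ C * (C * δ * (2 * C)) / c ^ 4 := by
        rw [norm_div, norm_mul, norm_mul, norm_mul ((deriv A₀ x) ^ 2)]
        refine div_le_div₀ (by positivity) ?_ (by positivity) ?_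
        · refine mul_le_mul (hb1 x).2.2 ?_ (by positivity) hC
          refine mul_le_mul hdd ?_ (norm_nonneg _) (by positivity)
          exact (norm_add_le _ _).trans (by linarith [(hb0 x).2.1, (hb1 x).2.1])
        · calc c ^ 4 = c ^ 2 * c ^ 2 := by ring
            _ ≤ _ := mul_le_mul hc2 hc2' (by positivity) (norm_nonneg _)
      rw [hsplit]
      have h10 : ‖(ψ' x : ℂ) * ((deriv A₁ x - deriv A₀ x) / (deriv A₀ x * deriv A₁ x))‖ ≤
          H * δ ^ (κ - 1) * (C * δ / c ^ 2) := by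
        rw [norm_mul]
        exact mul_le_mul hnψ' h7 (norm_nonneg _) (by positivity)
      have h11 : ‖(ψ x : ℂ) * ((deriv (deriv A₀) x - deriv (deriv A₁) x) / (deriv A₀ x) ^ 2 +
            deriv (deriv A₁) x * ((deriv A₁ x - deriv A₀ x) * (deriv A₁ x + deriv A₀ x)) /
              ((deriv A₀ x) ^ 2 * (deriv A₁ x) ^ 2))‖ ≤
          H * (C * δ / c ^ 2 + C * (C * δ * (2 * C)) / c ^ 4) := by
        rw [norm_mul]
        exact mul_le_mul hnψ ((norm_add_le _ _).trans (add_le_add h8 h9)) (norm_nonneg _) hH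
      refine (norm_sub_le _ _).trans ((add_le_add h10 h11).trans ?_)
      have h12 : H * δ ^ (κ - 1) * (C * δ / c ^ 2) = H * C / c ^ 2 * δ ^ κ := by
        rw [← hδκκ]; ring
      have h13 : H * (C * δ / c ^ 2 + C * (C * δ * (2 * C)) / c ^ 4) =
          H * (C / c ^ 2 + 2 * C ^ 3 / c ^ 4) * δ := by ring
      rw [h12, h13]
      have h14 : 0 ≤ H * (C / c ^ 2 + 2 * C ^ 3 / c ^ 4) := by positivity
      calc H * C / c ^ 2 * δ ^ κ + H * (C / c ^ 2 + 2 * C ^ 3 / c ^ 4) * δ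
          ≤ H * C / c ^ 2 * δ ^ κ + H * (C / c ^ 2 + 2 * C ^ 3 / c ^ 4) * δ ^ κ := by
            gcongr
        _ = H * (2 * C / c ^ 2 + 2 * C ^ 3 / c ^ 4) * δ ^ κ := by ring
    have b5 : ‖U (A₀ x) * g0 x - U (A₁ x) * g1 x‖ ≤ M2 * K * δ ^ (κ - s) +
        M3 * K * δ ^ (κ - s) := by
      have h15 : U (A₀ x) * g0 x - U (A₁ x) * g1 x =
          (U (A₀ x) - U (A₁ x)) * g0 x + U (A₁ x) * (g0 x - g1 x) := by ring
      rw [h15]
      refine (norm_add_le _ _).trans (add_le_add ?_ ?_)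
      · rw [norm_mul]
        calc ‖U (A₀ x) - U (A₁ x)‖ * ‖g0 x‖ ≤
            K * (c ^ (-s) * δ ^ (-s)) * (C * δ) * (H * (1 / c + C / c ^ 2) * δ ^ (κ - 1)) :=
              mul_le_mul b2 b3 (norm_nonneg _) (by positivity)
          _ = M2 * K * (δ ^ (-s) * (δ ^ (κ - 1) * δ)) := by rw [hM2]; ring
          _ = M2 * K * δ ^ (κ - s) := by rw [hδκκ, hδκs]
      · rw [norm_mul]
        have hκs : δ ^ κ ≤ δ ^ (κ - s) :=
          Real.rpow_le_rpow_of_exponent_ge hδ hδ1 (by linarith)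
        calc ‖U (A₁ x)‖ * ‖g0 x - g1 x‖ ≤
            K / (1 - s) * (H * (2 * C / c ^ 2 + 2 * C ^ 3 / c ^ 4) * δ ^ κ) :=
              mul_le_mul (hUb _ (hn1 x)) b4 (norm_nonneg _) (by positivity)
          _ = M3 * K * δ ^ κ := by rw [hM3]; ring
          _ ≤ M3 * K * δ ^ (κ - s) := mul_le_mul_of_nonneg_left hκs (by positivity)
    calc ‖(u (A₀ x) - u (A₁ x)) * ((φ x : ℂ) - (ψ x : ℂ)) -
        (U (A₀ x) * g0 x - U (A₁ x) * g1 x)‖ ≤ M1 * K * δ ^ (κ - s) +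
          (M2 * K * δ ^ (κ - s) + M3 * K * δ ^ (κ - s)) :=
          (norm_sub_le _ _).trans (add_le_add b1 b5)
      _ = (M1 + M2 + M3) * K * δ ^ (κ - s) := by ring
  have hfin := intervalIntegral.norm_integral_le_of_norm_le_const hbound
  refine hfin.trans (le_of_eq ?_)
  have hpi : |Real.pi - -Real.pi| = 2 * Real.pi := by
    rw [abs_of_nonneg (by linarith [Real.pi_pos])]; ring
  rw [hpi]
  ring

end Pool.Agent.Lib.KLP
end

section

section

/-!
# P3a: slow growth of exponentials of Bloch functions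
-/

set_option autoImplicit false
open MeasureTheory Set Filter Topology
open scoped ENNReal ComplexConjugate

namespace Pool.Agent.Lib.KLP

variable {Γ : Type*} [Group Γ] {A : DAct Γ} {ι : Type*}

theorem exp_bloch [Fintype ι] (D : BlochData A ι) {s : ℝ} (hs : 0 < s) :
    ∃ t₀ K : ℝ, 0 < t₀ ∧ 0 ≤ K ∧ ∀ t : ℂ, ‖t‖ ≤ t₀ → ∀ i z, ‖z‖ < 1 →
      ‖Complex.exp (t * D.b i z) - 1‖ ≤ K * ‖t‖ * (1 - ‖z‖) ^ (-s) := by
  have hC0 : 0 ≤ max D.C 0 := le_max_right _ _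
  set C' : ℝ := max D.C 0 with hC'
  refine ⟨min 1 (s / (2 * (C' + 1))), C' * Real.exp C' * (1 + 2 / s), ?_, ?_, ?_⟩
  · exact lt_min one_pos (by positivity)
  · positivity
  · intro t ht i z hz
    have ht1 : ‖t‖ ≤ 1 := ht.trans (min_le_left _ _)
    have ht2 : ‖t‖ ≤ s / (2 * (C' + 1)) := ht.trans (min_le_right _ _)
    have h1z : 0 < 1 - ‖z‖ := by linarith
    set l : ℝ := Real.log (1 / (1 - ‖z‖)) with hl
    have hl0 : 0 ≤ l := by
      apply Real.log_nonneg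
      rw [le_div_iff₀ h1z]
      linarith [norm_nonneg z]
    have hlneg : l = - Real.log (1 - ‖z‖) := by
      rw [hl, one_div, Real.log_inv]
    have hb : ‖D.b i z‖ ≤ C' * (1 + l) := by
      refine (D.growth i z hz).trans ?_
      exact mul_le_mul_of_nonneg_right (le_max_left _ _) (by linarith)
    have hw : ‖t * D.b i z‖ ≤ ‖t‖ * (C' * (1 + l)) := by
      rw [norm_mul]
      exact mul_le_mul_of_nonneg_left hb (norm_nonneg t)
    have htC : ‖t‖ * C' ≤ s / 2 := by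
      have h1 : ‖t‖ * (2 * (C' + 1)) ≤ s := by
        rwa [le_div_iff₀ (by positivity)] at ht2
      nlinarith [norm_nonneg t]
    have htC1 : ‖t‖ * C' ≤ C' := by nlinarith [norm_nonneg t]
    have hE : Real.exp ‖t * D.b i z‖ ≤ Real.exp C' * Real.exp (s / 2 * l) := by
      rw [← Real.exp_add]
      apply Real.exp_le_exp.mpr
      refine hw.trans ?_
      have : ‖t‖ * C' * l ≤ s / 2 * l := mul_le_mul_of_nonneg_right htC hl0
      nlinarith
    have h1l : 1 + l ≤ (1 + 2 / s) * Real.exp (s / 2 * l) := by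
      have h2 : s / 2 * l + 1 ≤ Real.exp (s / 2 * l) := Real.add_one_le_exp _
      have h3 : 1 ≤ Real.exp (s / 2 * l) := Real.one_le_exp (by positivity)
      have h4 : l ≤ 2 / s * Real.exp (s / 2 * l) := by
        have : l = 2 / s * (s / 2 * l) := by field_simp
        calc l = 2 / s * (s / 2 * l) := this
          _ ≤ 2 / s * Real.exp (s / 2 * l) :=
            mul_le_mul_of_nonneg_left (by linarith) (by positivity)
      linarith
    have hw2 : ‖t * D.b i z‖ ≤ ‖t‖ * (C' * ((1 + 2 / s) * Real.exp (s / 2 * l))) := by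
      refine hw.trans ?_
      gcongr
    have hmain : ‖Complex.exp (t * D.b i z) - 1‖ ≤
        ‖t * D.b i z‖ * Real.exp ‖t * D.b i z‖ := by
      have := Complex.norm_exp_sub_sum_le_norm_mul_exp (t * D.b i z) 1
      simpa using this
    refine hmain.trans ?_
    have hpow : (1 - ‖z‖) ^ (-s) = Real.exp (s / 2 * l) * Real.exp (s / 2 * l) := by
      rw [Real.rpow_def_of_pos h1z, ← Real.exp_add, hlneg]
      congr 1
      ring
    calc ‖t * D.b i z‖ * Real.exp ‖t * D.b i z‖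
        ≤ (‖t‖ * (C' * ((1 + 2 / s) * Real.exp (s / 2 * l)))) *
            (Real.exp C' * Real.exp (s / 2 * l)) :=
          mul_le_mul hw2 hE (Real.exp_pos _).le (by positivity)
      _ = C' * Real.exp C' * (1 + 2 / s) * ‖t‖ * (1 - ‖z‖) ^ (-s) := by
          rw [hpow]; ring

end Pool.Agent.Lib.KLP
end

section

/-!
# P1: boundedness of the pairing
-/

set_option autoImplicit false
open MeasureTheory Set Filter Topology
open scoped ENNReal ComplexConjugate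

namespace Pool.Agent.Lib.KLP

private lemma pb_exp_sub (x y : ℝ) :
    ‖Complex.exp ((x : ℂ) * Complex.I) - Complex.exp ((y : ℂ) * Complex.I)‖ ≤ |x - y| := by
  have h1 : Complex.exp ((x : ℂ) * Complex.I) - Complex.exp ((y : ℂ) * Complex.I) =
      Complex.exp ((y : ℂ) * Complex.I) * (Complex.exp (Complex.I * ((x - y : ℝ) : ℂ)) - 1) := by
    rw [mul_sub, ← Complex.exp_add, mul_one]
    congr 2
    push_cast
    ring
  rw [h1, norm_mul, Complex.norm_exp_ofReal_mul_I, one_mul]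
  exact Real.norm_exp_I_mul_ofReal_sub_one_le

private lemma pb_period (x : ℝ) : Complex.exp (((x + 2 * Real.pi : ℝ) : ℂ) * Complex.I) =
    Complex.exp ((x : ℂ) * Complex.I) := by
  push_cast
  rw [add_mul, Complex.exp_add, Complex.exp_two_pi_mul_I, mul_one]

private lemma pb_hasDeriv (r θ : ℝ) :
    HasDerivAt (fun θ : ℝ => (r : ℂ) * Complex.exp ((θ : ℂ) * Complex.I))
      ((r : ℂ) * Complex.I * Complex.exp ((θ : ℂ) * Complex.I)) θ := by
  have h1 : HasDerivAt (fun θ : ℝ => (θ : ℂ) * Complex.I) Complex.I θ := by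
    have := (Complex.ofRealCLM.hasDerivAt (x := θ)).mul_const Complex.I
    simpa using this
  have h2 := (h1.cexp).const_mul (r : ℂ)
  refine h2.congr_deriv ?_
  ring

private lemma pb_deriv (r : ℝ) :
    deriv (fun θ : ℝ => (r : ℂ) * Complex.exp ((θ : ℂ) * Complex.I)) =
      fun θ : ℝ => (r : ℂ) * Complex.I * Complex.exp ((θ : ℂ) * Complex.I) := by
  funext θ
  exact (pb_hasDeriv r θ).deriv

private lemma pb_deriv2 (r : ℝ) :
    deriv (deriv (fun θ : ℝ => (r : ℂ) * Complex.exp ((θ : ℂ) * Complex.I))) =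
      fun θ : ℝ => -((r : ℂ) * Complex.exp ((θ : ℂ) * Complex.I)) := by
  rw [pb_deriv]
  funext θ
  have h := (pb_hasDeriv r θ).const_mul Complex.I
  have e : (fun θ : ℝ => (r : ℂ) * Complex.I * Complex.exp ((θ : ℂ) * Complex.I)) =
      fun θ : ℝ => Complex.I * ((r : ℂ) * Complex.exp ((θ : ℂ) * Complex.I)) := by
    funext θ
    ring
  rw [e, h.deriv]
  have : Complex.I * Complex.I = -1 := Complex.I_mul_I
  linear_combination ((r : ℂ) * Complex.exp ((θ : ℂ) * Complex.I)) * this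

private lemma pb_contDiff (r : ℝ) :
    ContDiff ℝ 2 (fun θ : ℝ => (r : ℂ) * Complex.exp ((θ : ℂ) * Complex.I)) := by
  refine contDiff_const.mul ?_
  exact (Complex.ofRealCLM.contDiff.mul contDiff_const).cexp

private lemma pb_norm {r : ℝ} (hr : 0 ≤ r) (θ : ℝ) :
    ‖(r : ℂ) * Complex.exp ((θ : ℂ) * Complex.I)‖ = r := by
  rw [norm_mul, Complex.norm_exp_ofReal_mul_I, mul_one, Complex.norm_real, Real.norm_eq_abs,
    abs_of_nonneg hr]

/-- a function continuous on the closed disc is a.e. strongly measurable for `circ` -/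
private lemma pb_aesm {g : ℂ → ℂ} (hg : ContinuousOn g (Metric.closedBall 0 1)) :
    AEStronglyMeasurable g circ := by
  have h1 := hg.aestronglyMeasurable (μ := circ) Metric.isClosed_closedBall.measurableSet
  rwa [Measure.restrict_eq_self_of_ae_mem] at h1
  filter_upwards [ae_circ_norm] with z hz
  rw [mem_closedBall_zero_iff, hz]

theorem pair_bound {φ : ℂ → ℝ} {H κ s : ℝ} (hκ : 0 < κ) (hκ1 : κ ≤ 1) (hs : 0 ≤ s)
    (hsκ : s < κ) (hm : Measurable φ) (hb : ∀ ξ, |φ ξ| ≤ H)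
    (hH : ∀ ξ η : ℂ, ‖ξ‖ = 1 → ‖η‖ = 1 → |φ ξ - φ η| ≤ H * ‖ξ - η‖ ^ κ) :
    ∃ B : ℝ, 0 ≤ B ∧ ∀ (u : ℂ → ℂ) (K : ℝ), 0 ≤ K → DifferentiableOn ℂ u (Metric.ball 0 1) →
      (∀ z, ‖z‖ < 1 → ‖u z‖ ≤ K * (1 - ‖z‖) ^ (-s)) → ∀ r : ℝ, 0 ≤ r → r < 1 →
      ‖∫ ξ, u ((r : ℂ) * ξ) * (φ ξ : ℂ) ∂circ‖ ≤ B * K := by
  have hpi := Real.pi_pos
  have hH0 : 0 ≤ H := (abs_nonneg _).trans (hb 0)
  obtain ⟨B₀, hB₀, hcc⟩ := curve_compare (c := 1 / 2) (C := 2) hκ hκ1 hs hsκ hH0 (by norm_num)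
    (by norm_num)
  set h : ℝ → ℝ := fun θ => φ (Complex.exp ((θ : ℂ) * Complex.I)) with hh
  have hh1 : ∀ x, |h x| ≤ H := fun x => hb _
  have hh2 : ∀ x y, |h x - h y| ≤ H * |x - y| ^ κ := by
    intro x y
    refine (hH _ _ (Complex.norm_exp_ofReal_mul_I x) (Complex.norm_exp_ofReal_mul_I y)).trans ?_
    refine mul_le_mul_of_nonneg_left ?_ hH0
    exact Real.rpow_le_rpow (norm_nonneg _) (pb_exp_sub x y) hκ.le
  have hh3 : Function.Periodic h (2 * Real.pi) := by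
    intro x
    simp only [hh]
    rw [pb_period]
  set ρ : ℝ := (1 / 2 : ℝ) ^ (κ - s) with hρ
  have hρ0 : 0 < ρ := by rw [hρ]; positivity
  have hρ1 : ρ < 1 := Real.rpow_lt_one (by norm_num) (by norm_num) (by linarith)
  refine ⟨2 ^ s * H + B₀ * (1 / (1 - ρ)), ?_, ?_⟩
  · have : 0 < 1 - ρ := by linarith
    positivity
  intro u K hK hu hgr
  set I : ℝ → ℂ := fun r => ∫ ξ, u ((r : ℂ) * ξ) * (φ ξ : ℂ) ∂circ with hI
  -- measurability
  have hcont : ∀ r : ℝ, 0 ≤ r → r < 1 →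
      ContinuousOn (fun ξ : ℂ => u ((r : ℂ) * ξ)) (Metric.closedBall 0 1) := by
    intro r hr0 hr1
    refine hu.continuousOn.comp (by fun_prop) ?_
    intro ξ hξ
    rw [mem_closedBall_zero_iff] at hξ
    rw [mem_ball_zero_iff, norm_mul, Complex.norm_real, Real.norm_eq_abs, abs_of_nonneg hr0]
    nlinarith [norm_nonneg ξ]
  have hmeas : ∀ r : ℝ, 0 ≤ r → r < 1 →
      AEStronglyMeasurable (fun ξ : ℂ => u ((r : ℂ) * ξ) * (φ ξ : ℂ)) circ := by
    intro r hr0 hr1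
    exact (pb_aesm (hcont r hr0 hr1)).mul
      (Complex.measurable_ofReal.comp hm).aestronglyMeasurable
  -- trivial bound
  have htriv : ∀ r : ℝ, 0 ≤ r → r ≤ 1 / 2 → ‖I r‖ ≤ 2 ^ s * H * K := by
    intro r hr0 hr1
    have h1 : ∀ᵐ ξ ∂circ, ‖u ((r : ℂ) * ξ) * (φ ξ : ℂ)‖ ≤ 2 ^ s * H * K := by
      filter_upwards [ae_circ_norm] with ξ hξ
      have e1 : ‖(r : ℂ) * ξ‖ = r := by
        rw [norm_mul, hξ, mul_one, Complex.norm_real, Real.norm_eq_abs, abs_of_nonneg hr0]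
      have h2 := hgr ((r : ℂ) * ξ) (by rw [e1]; linarith)
      rw [e1] at h2
      have h3 : (1 - r) ^ (-s) ≤ 2 ^ s := by
        rw [Real.rpow_neg (by linarith), ← Real.inv_rpow (by linarith)]
        refine Real.rpow_le_rpow (inv_nonneg.2 (by linarith)) ?_ hs
        rw [inv_le_comm₀ (by linarith) (by norm_num)]
        linarith
      have h4 : ‖(φ ξ : ℂ)‖ ≤ H := by
        rw [Complex.norm_real, Real.norm_eq_abs]
        exact hb ξ
      rw [norm_mul]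
      calc ‖u ((r : ℂ) * ξ)‖ * ‖(φ ξ : ℂ)‖ ≤ (K * 2 ^ s) * H := by
            refine mul_le_mul (h2.trans (mul_le_mul_of_nonneg_left h3 hK)) h4 (norm_nonneg _) ?_
            positivity
        _ = _ := by ring
    have h2 := norm_integral_le_of_norm_le_const h1
    simpa using h2
  -- comparison
  have hcmp : ∀ r r' : ℝ, 1 / 2 ≤ r → r ≤ r' → r' < 1 → 1 - r ≤ 2 * (1 - r') →
      ‖I r - I r'‖ ≤ B₀ * K * (1 - r) ^ (κ - s) := by
    intro r r' hr hrr hr' hr2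
    have h1 := hcc (1 - r) K h u (fun θ : ℝ => (r : ℂ) * Complex.exp ((θ : ℂ) * Complex.I))
      (fun θ : ℝ => (r' : ℂ) * Complex.exp ((θ : ℂ) * Complex.I)) (by linarith) (by linarith) hK
      hh1 hh2 hh3 hu hgr (pb_contDiff r) (pb_contDiff r')
      (fun x => by simp only; rw [pb_period]) (fun x => by simp only; rw [pb_period])
      (by
        intro x
        rw [pb_deriv2, pb_deriv]
        simp only
        have e1 : (r : ℂ) * Complex.I * Complex.exp ((x : ℂ) * Complex.I) =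
          Complex.I * ((r : ℂ) * Complex.exp ((x : ℂ) * Complex.I)) := by ring
        rw [norm_neg, e1, norm_mul, Complex.norm_I, one_mul, pb_norm (by linarith)]
        exact ⟨hr, by linarith, by linarith⟩)
      (by
        intro x
        rw [pb_deriv2, pb_deriv]
        simp only
        have e1 : (r' : ℂ) * Complex.I * Complex.exp ((x : ℂ) * Complex.I) =
          Complex.I * ((r' : ℂ) * Complex.exp ((x : ℂ) * Complex.I)) := by ring
        rw [norm_neg, e1, norm_mul, Complex.norm_I, one_mul, pb_norm (by linarith)]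
        exact ⟨by linarith, by linarith, by linarith⟩)
      (by
        intro x
        rw [pb_deriv2, pb_deriv2, pb_deriv, pb_deriv]
        simp only
        have e1 : (r : ℂ) * Complex.exp ((x : ℂ) * Complex.I) -
            (r' : ℂ) * Complex.exp ((x : ℂ) * Complex.I) =
            -(((r' - r : ℝ) : ℂ) * Complex.exp ((x : ℂ) * Complex.I)) := by
          push_cast
          ring
        have n1 : ‖(r : ℂ) * Complex.exp ((x : ℂ) * Complex.I) -
            (r' : ℂ) * Complex.exp ((x : ℂ) * Complex.I)‖ = r' - r := by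
          rw [e1, norm_neg, pb_norm (by linarith)]
        have e2 : (r : ℂ) * Complex.I * Complex.exp ((x : ℂ) * Complex.I) -
            (r' : ℂ) * Complex.I * Complex.exp ((x : ℂ) * Complex.I) =
            Complex.I * ((r : ℂ) * Complex.exp ((x : ℂ) * Complex.I) -
            (r' : ℂ) * Complex.exp ((x : ℂ) * Complex.I)) := by ring
        have e3 : -((r : ℂ) * Complex.exp ((x : ℂ) * Complex.I)) -
            -((r' : ℂ) * Complex.exp ((x : ℂ) * Complex.I)) =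
            -((r : ℂ) * Complex.exp ((x : ℂ) * Complex.I) -
            (r' : ℂ) * Complex.exp ((x : ℂ) * Complex.I)) := by ring
        rw [e2, e3, norm_neg, norm_mul, Complex.norm_I, one_mul, n1]
        exact ⟨by linarith, by linarith, by linarith⟩)
      (by
        intro x
        rw [pb_norm (by linarith), pb_norm (by linarith)]
        exact ⟨by linarith, by linarith⟩)
    have hr0 : 0 ≤ r := by linarith
    have hr1 : r < 1 := by linarith
    have hr'0 : 0 ≤ r' := by linarith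
    have e : I r - I r' = ((1 / (2 * Real.pi) : ℝ)) • ∫ x in (-Real.pi)..Real.pi,
        (u ((r : ℂ) * Complex.exp ((x : ℂ) * Complex.I)) -
          u ((r' : ℂ) * Complex.exp ((x : ℂ) * Complex.I))) * (h x : ℂ) := by
      have hint : ∀ t : ℝ, 0 ≤ t → t < 1 → IntervalIntegrable
          (fun x : ℝ => u ((t : ℂ) * Complex.exp ((x : ℂ) * Complex.I)) *
            (φ (Complex.exp ((x : ℂ) * Complex.I)) : ℂ)) volume (-Real.pi) Real.pi := by
        intro t ht0 ht1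
        have hc1 : Continuous (fun x : ℝ => u ((t : ℂ) * Complex.exp ((x : ℂ) * Complex.I))) := by
          refine hu.continuousOn.comp_continuous (by fun_prop) fun x => ?_
          rw [mem_ball_zero_iff, pb_norm ht0]
          exact ht1
        have hc2 : Continuous h := by
          rw [continuous_iff_continuousAt]
          intro x
          rw [ContinuousAt, tendsto_iff_norm_sub_tendsto_zero]
          refine squeeze_zero (fun y => norm_nonneg _) (fun y => ?_) (?_ :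
            Tendsto (fun y => H * |y - x| ^ κ) (𝓝 x) (𝓝 0))
          · exact hh2 y x
          · have : Continuous fun y : ℝ => H * |y - x| ^ κ :=
              continuous_const.mul ((by fun_prop : Continuous fun y : ℝ => |y - x|).rpow_const
                (fun _ => Or.inr hκ.le))
            have h5 := this.tendsto x
            simp only [sub_self, abs_zero, Real.zero_rpow hκ.ne', mul_zero] at h5
            exact h5
        exact (hc1.mul (Complex.continuous_ofReal.comp hc2)).intervalIntegrable _ _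
      simp only [hI]
      rw [integral_circ (hmeas r hr0 hr1), integral_circ (hmeas r' hr'0 hr'), ← smul_sub,
        ← intervalIntegral.integral_sub (hint r hr0 hr1) (hint r' hr'0 hr')]
      congr 1
      refine intervalIntegral.integral_congr fun x _ => ?_
      simp only [hh]
      ring
    rw [e, norm_smul, Real.norm_eq_abs, abs_of_pos (by positivity)]
    have h2 : 1 / (2 * Real.pi) ≤ 1 := by
      rw [div_le_one (by positivity)]
      linarith [Real.pi_gt_three]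
    have h3 := norm_nonneg (∫ x in (-Real.pi)..Real.pi,
        (u ((r : ℂ) * Complex.exp ((x : ℂ) * Complex.I)) -
          u ((r' : ℂ) * Complex.exp ((x : ℂ) * Complex.I))) * (h x : ℂ))
    calc _ ≤ 1 * ‖∫ x in (-Real.pi)..Real.pi,
        (u ((r : ℂ) * Complex.exp ((x : ℂ) * Complex.I)) -
          u ((r' : ℂ) * Complex.exp ((x : ℂ) * Complex.I))) * (h x : ℂ)‖ :=
          mul_le_mul_of_nonneg_right h2 h3
      _ ≤ _ := by rw [one_mul]; exact h1
  -- chain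
  have hchain : ∀ n : ℕ, ∀ r : ℝ, 0 ≤ r → r ≤ 1 - (1 / 2) ^ (n + 1) →
      ‖I r‖ ≤ 2 ^ s * H * K + B₀ * K * ∑ j ∈ Finset.range n, ρ ^ j := by
    intro n
    induction n with
    | zero =>
      intro r hr0 hr1
      have := htriv r hr0 (by norm_num at hr1 ⊢; linarith)
      simpa using this
    | succ n ih =>
      intro r hr0 hr1
      have hpn : (0 : ℝ) < (1 / 2) ^ (n + 1) := by positivity
      have hpe : ((1 : ℝ) / 2) ^ (n + 1 + 1) = (1 / 2) ^ (n + 1) / 2 := by ring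
      rw [hpe] at hr1
      rw [Finset.sum_range_succ, mul_add, ← add_assoc]
      have hρn : 0 ≤ B₀ * K * ρ ^ n := by positivity
      by_cases hc : r ≤ 1 - (1 / 2) ^ (n + 1)
      · have := ih r hr0 hc
        linarith
      · have hc' : 1 - (1 / 2) ^ (n + 1) < r := not_le.1 hc
        have hle : ((1 : ℝ) / 2) ^ (n + 1) ≤ 1 / 2 := by
          have : ((1 : ℝ) / 2) ^ (n + 1) ≤ (1 / 2) ^ 1 :=
            pow_le_pow_of_le_one (by norm_num) (by norm_num) (by omega)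
          simpa using this
        have h1 := hcmp (1 - (1 / 2) ^ (n + 1)) r (by linarith) hc'.le (by linarith) (by linarith)
        have h2 := ih (1 - (1 / 2) ^ (n + 1)) (by linarith) le_rfl
        have h3 : (1 - (1 - (1 / 2 : ℝ) ^ (n + 1))) ^ (κ - s) ≤ ρ ^ n := by
          rw [sub_sub_cancel, hρ, ← Real.rpow_natCast, ← Real.rpow_natCast, ← Real.rpow_mul
            (by norm_num), ← Real.rpow_mul (by norm_num)]
          apply Real.rpow_le_rpow_of_exponent_ge (by norm_num) (by norm_num)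
          push_cast
          nlinarith [Nat.cast_nonneg (α := ℝ) n]
        have h4 : ‖I r‖ ≤ ‖I (1 - (1 / 2) ^ (n + 1))‖ + ‖I (1 - (1 / 2) ^ (n + 1)) - I r‖ := by
          have := norm_sub_le (I (1 - (1 / 2) ^ (n + 1))) (I (1 - (1 / 2) ^ (n + 1)) - I r)
          rwa [sub_sub_cancel] at this
        have h5 : B₀ * K * (1 - (1 - (1 / 2 : ℝ) ^ (n + 1))) ^ (κ - s) ≤ B₀ * K * ρ ^ n :=
          mul_le_mul_of_nonneg_left h3 (by positivity)
        linarith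
  intro r hr0 hr1
  obtain ⟨n, hn⟩ := exists_pow_lt_of_lt_one (show (0 : ℝ) < 1 - r by linarith)
    (show (1 / 2 : ℝ) < 1 by norm_num)
  have h1 : r ≤ 1 - (1 / 2) ^ (n + 1) := by
    have : ((1 : ℝ) / 2) ^ (n + 1) ≤ (1 / 2) ^ n :=
      pow_le_pow_of_le_one (by norm_num) (by norm_num) (by omega)
    linarith
  have h2 := hchain n r hr0 h1
  have h3 : ∑ j ∈ Finset.range n, ρ ^ j ≤ 1 / (1 - ρ) := by
    have h4 := (summable_geometric_of_lt_one hρ0.le hρ1).sum_le_tsum (Finset.range n)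
      (fun _ _ => by positivity)
    rw [tsum_geometric_of_lt_one hρ0.le hρ1] at h4
    rw [one_div]
    exact h4
  have h5 : B₀ * K * ∑ j ∈ Finset.range n, ρ ^ j ≤ B₀ * K * (1 / (1 - ρ)) :=
    mul_le_mul_of_nonneg_left h3 (by positivity)
  calc ‖I r‖ ≤ 2 ^ s * H * K + B₀ * K * ∑ j ∈ Finset.range n, ρ ^ j := h2
    _ ≤ 2 ^ s * H * K + B₀ * K * (1 / (1 - ρ)) := by linarith
    _ = (2 ^ s * H + B₀ * (1 / (1 - ρ))) * K := by ring

end Pool.Agent.Lib.KLP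
end

section

/-!
# P2: invariance of the pairing
-/

set_option autoImplicit false
open MeasureTheory Set Filter Topology
open scoped ENNReal ComplexConjugate

namespace Pool.Agent.Lib.KLP

private lemma pi_exp_sub (x y : ℝ) :
    ‖Complex.exp ((x : ℂ) * Complex.I) - Complex.exp ((y : ℂ) * Complex.I)‖ ≤ |x - y| := by
  have h1 : Complex.exp ((x : ℂ) * Complex.I) - Complex.exp ((y : ℂ) * Complex.I) =
      Complex.exp ((y : ℂ) * Complex.I) * (Complex.exp (Complex.I * ((x - y : ℝ) : ℂ)) - 1) := by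
    rw [mul_sub, ← Complex.exp_add, mul_one]
    congr 2
    push_cast
    ring
  rw [h1, norm_mul, Complex.norm_exp_ofReal_mul_I, one_mul]
  exact Real.norm_exp_I_mul_ofReal_sub_one_le

private lemma pi_period (x : ℝ) : Complex.exp (((x + 2 * Real.pi : ℝ) : ℂ) * Complex.I) =
    Complex.exp ((x : ℂ) * Complex.I) := by
  push_cast
  rw [add_mul, Complex.exp_add, Complex.exp_two_pi_mul_I, mul_one]

private lemma pi_aesm {g : ℂ → ℂ} (hg : ContinuousOn g (Metric.closedBall 0 1)) :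
    AEStronglyMeasurable g circ := by
  have h1 := hg.aestronglyMeasurable (μ := circ) Metric.isClosed_closedBall.measurableSet
  rwa [Measure.restrict_eq_self_of_ae_mem] at h1
  filter_upwards [ae_circ_norm] with z hz
  rw [mem_closedBall_zero_iff, hz]

/-! ### the Möbius map and its derivatives -/

/-- `1 - ā z` -/
private noncomputable def pD (a z : ℂ) : ℂ := 1 - conj a * z

private noncomputable def pG1 (c a z : ℂ) : ℂ := c * (1 - conj a * a) * (pD a z)⁻¹ ^ 2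

private noncomputable def pG2 (c a z : ℂ) : ℂ := 2 * conj a * c * (1 - conj a * a) * (pD a z)⁻¹ ^ 3

private lemma pi_D_lower {a z : ℂ} (ha : ‖a‖ < 1) (hz : ‖z‖ ≤ 1) : 1 - ‖a‖ ≤ ‖pD a z‖ := by
  unfold pD
  have h1 := norm_sub_norm_le (1 : ℂ) (conj a * z)
  rw [norm_one, norm_mul, RCLike.norm_conj] at h1
  have h2 : ‖a‖ * ‖z‖ ≤ ‖a‖ * 1 := mul_le_mul_of_nonneg_left hz (norm_nonneg _)
  linarith

private lemma pi_D_upper {a z : ℂ} (ha : ‖a‖ < 1) (hz : ‖z‖ ≤ 1) : ‖pD a z‖ ≤ 2 := by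
  unfold pD
  have h1 := norm_sub_le (1 : ℂ) (conj a * z)
  rw [norm_one, norm_mul, RCLike.norm_conj] at h1
  have h2 : ‖a‖ * ‖z‖ ≤ 1 * 1 := mul_le_mul ha.le hz (norm_nonneg _) (by norm_num)
  linarith

private lemma pi_D_ne {a z : ℂ} (ha : ‖a‖ < 1) (hz : ‖z‖ ≤ 1) : pD a z ≠ 0 := by
  have h := pi_D_lower ha hz
  intro h0
  rw [h0, norm_zero] at h
  linarith

private lemma pi_D_sub (a z w : ℂ) : pD a z - pD a w = -(conj a * (z - w)) := by
  unfold pD
  ring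

private lemma pi_D_sub_norm {a : ℂ} (ha : ‖a‖ < 1) (z w : ℂ) : ‖pD a z - pD a w‖ ≤ ‖z - w‖ := by
  rw [pi_D_sub, norm_neg, norm_mul, RCLike.norm_conj]
  exact mul_le_of_le_one_left (norm_nonneg _) ha.le

private lemma pi_hasDeriv_D (a z : ℂ) : HasDerivAt (pD a) (-conj a) z := by
  unfold pD
  have := ((hasDerivAt_id z).const_mul (conj a)).const_sub 1
  simpa using this

private lemma pi_hasDeriv_mob {c a z : ℂ} (h : pD a z ≠ 0) :
    HasDerivAt (mob c a) (pG1 c a z) z := by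
  have h1 : HasDerivAt (fun z : ℂ => c * (z - a)) c z := by
    have := ((hasDerivAt_id z).sub_const a).const_mul c
    simpa using this
  have h2 := h1.div (pi_hasDeriv_D a z) h
  have e : (fun z : ℂ => c * (z - a)) / (pD a) = mob c a := by
    funext z
    rfl
  rw [e] at h2
  refine h2.congr_deriv ?_
  unfold pG1
  have h3 : pD a z * (pD a z)⁻¹ = 1 := mul_inv_cancel₀ h
  have h4 : pD a z = 1 - conj a * z := rfl
  rw [div_eq_mul_inv, inv_pow]
  congr 1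
  rw [h4]
  ring

private lemma pi_hasDeriv_G1 {c a z : ℂ} (h : pD a z ≠ 0) :
    HasDerivAt (pG1 c a) (pG2 c a z) z := by
  have h1 := (((pi_hasDeriv_D a z).inv h).pow 2).const_mul (c * (1 - conj a * a))
  have e : (fun z : ℂ => c * (1 - conj a * a) * ((pD a)⁻¹ ^ 2) z) = pG1 c a := by
    funext z
    rfl
  have h2 : HasDerivAt (pG1 c a) (c * (1 - conj a * a) *
      (((2 : ℕ) : ℂ) * ((pD a)⁻¹ z) ^ (2 - 1) * (-(-conj a) / pD a z ^ 2))) z := by
    rw [← e]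
    exact h1
  refine h2.congr_deriv ?_
  unfold pG2
  simp only [Pi.inv_apply]
  push_cast
  ring

/-! ### norms -/

private lemma pi_one_sub {a : ℂ} : (1 : ℂ) - conj a * a = ((1 - ‖a‖ ^ 2 : ℝ) : ℂ) := by
  have h := RCLike.conj_mul a
  rw [h]
  push_cast
  rfl

private lemma pi_one_sub_norm {a : ℂ} (ha : ‖a‖ < 1) : ‖(1 : ℂ) - conj a * a‖ = 1 - ‖a‖ ^ 2 := by
  rw [pi_one_sub, Complex.norm_real, Real.norm_eq_abs, abs_of_nonneg]
  nlinarith [norm_nonneg a]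

private lemma pi_inv_norm {a z : ℂ} (ha : ‖a‖ < 1) (hz : ‖z‖ ≤ 1) :
    ‖(pD a z)⁻¹‖ ≤ (1 - ‖a‖)⁻¹ := by
  rw [norm_inv]
  exact inv_anti₀ (by linarith) (pi_D_lower ha hz)

private lemma pi_inv_sub {a z w : ℂ} (ha : ‖a‖ < 1) (hz : ‖z‖ ≤ 1) (hw : ‖w‖ ≤ 1) :
    ‖(pD a z)⁻¹ - (pD a w)⁻¹‖ ≤ (1 - ‖a‖)⁻¹ ^ 2 * ‖z - w‖ := by
  have h1 := pi_D_ne ha hz
  have h2 := pi_D_ne ha hw
  have e : (pD a z)⁻¹ - (pD a w)⁻¹ = (pD a z)⁻¹ * (pD a w)⁻¹ * (pD a w - pD a z) := by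
    field_simp
  rw [e, norm_mul, norm_mul]
  have h3 := pi_inv_norm ha hz
  have h4 := pi_inv_norm ha hw
  have h5 := pi_D_sub_norm ha w z
  rw [norm_sub_rev w z] at h5
  have h6 : 0 ≤ (1 - ‖a‖)⁻¹ := inv_nonneg.2 (by linarith)
  calc ‖(pD a z)⁻¹‖ * ‖(pD a w)⁻¹‖ * ‖pD a w - pD a z‖
      ≤ ((1 - ‖a‖)⁻¹ * (1 - ‖a‖)⁻¹) * ‖z - w‖ := by
        refine mul_le_mul (mul_le_mul h3 h4 (norm_nonneg _) h6) h5 (norm_nonneg _) (by positivity)
    _ = _ := by ring

private lemma pi_sq_sub {x y : ℂ} {Q E : ℝ} (hQ : 0 ≤ Q) (hx : ‖x‖ ≤ Q) (hy : ‖y‖ ≤ Q)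
    (hxy : ‖x - y‖ ≤ E) : ‖x ^ 2 - y ^ 2‖ ≤ 2 * Q * E := by
  have e : x ^ 2 - y ^ 2 = (x + y) * (x - y) := by ring
  rw [e, norm_mul]
  have h1 : ‖x + y‖ ≤ 2 * Q := (norm_add_le _ _).trans (by linarith)
  exact mul_le_mul h1 hxy (norm_nonneg _) (by positivity)

private lemma pi_cube_sub {x y : ℂ} {Q E : ℝ} (hQ : 0 ≤ Q) (hx : ‖x‖ ≤ Q) (hy : ‖y‖ ≤ Q)
    (hxy : ‖x - y‖ ≤ E) : ‖x ^ 3 - y ^ 3‖ ≤ 3 * Q ^ 2 * E := by
  have e : x ^ 3 - y ^ 3 = (x ^ 2 + x * y + y ^ 2) * (x - y) := by ring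
  rw [e, norm_mul]
  have h1 : ‖x ^ 2 + x * y + y ^ 2‖ ≤ 3 * Q ^ 2 := by
    have a1 : ‖x ^ 2‖ ≤ Q ^ 2 := by
      rw [norm_pow]; exact pow_le_pow_left₀ (norm_nonneg _) hx 2
    have a2 : ‖x * y‖ ≤ Q ^ 2 := by
      rw [norm_mul, sq]; exact mul_le_mul hx hy (norm_nonneg _) hQ
    have a3 : ‖y ^ 2‖ ≤ Q ^ 2 := by
      rw [norm_pow]; exact pow_le_pow_left₀ (norm_nonneg _) hy 2
    have a4 := norm_add_le (x ^ 2 + x * y) (y ^ 2)
    have a5 := norm_add_le (x ^ 2) (x * y)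
    linarith
  exact mul_le_mul h1 hxy (norm_nonneg _) (by positivity)

/-- the constant -/
private noncomputable def pC (a : ℂ) : ℝ := 12 * ((1 - ‖a‖)⁻¹ + 1) ^ 4

private lemma pi_C_facts {a : ℂ} (ha : ‖a‖ < 1) :
    ∃ Q : ℝ, 1 ≤ Q ∧ Q = (1 - ‖a‖)⁻¹ := by
  refine ⟨(1 - ‖a‖)⁻¹, ?_, rfl⟩
  rw [one_le_inv₀ (by linarith)]
  linarith [norm_nonneg a]

private lemma pi_G1_norm {c a z : ℂ} (hc : ‖c‖ = 1) (ha : ‖a‖ < 1) (hz : ‖z‖ ≤ 1) :
    (1 - ‖a‖ ^ 2) / 4 ≤ ‖pG1 c a z‖ ∧ ‖pG1 c a z‖ ≤ (1 - ‖a‖)⁻¹ ^ 2 := by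
  unfold pG1
  rw [norm_mul, norm_mul, norm_pow, hc, one_mul, pi_one_sub_norm ha]
  have h0 : 0 ≤ 1 - ‖a‖ ^ 2 := by nlinarith [norm_nonneg a]
  constructor
  · have h1 : (1 / 2 : ℝ) ≤ ‖(pD a z)⁻¹‖ := by
      rw [norm_inv, one_div]
      exact inv_anti₀ (norm_pos_iff.2 (pi_D_ne ha hz)) (pi_D_upper ha hz)
    have h2 : (1 / 2 : ℝ) ^ 2 ≤ ‖(pD a z)⁻¹‖ ^ 2 := pow_le_pow_left₀ (by norm_num) h1 2
    have h3 := mul_le_mul_of_nonneg_left h2 h0
    calc (1 - ‖a‖ ^ 2) / 4 = (1 - ‖a‖ ^ 2) * (1 / 2) ^ 2 := by ring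
      _ ≤ _ := h3
  · have h1 := pow_le_pow_left₀ (norm_nonneg _) (pi_inv_norm ha hz) 2
    have h2 : 1 - ‖a‖ ^ 2 ≤ 1 := by nlinarith [norm_nonneg a]
    calc (1 - ‖a‖ ^ 2) * ‖(pD a z)⁻¹‖ ^ 2 ≤ 1 * (1 - ‖a‖)⁻¹ ^ 2 :=
          mul_le_mul h2 h1 (by positivity) (by norm_num)
      _ = _ := one_mul _

private lemma pi_G2_norm {c a z : ℂ} (hc : ‖c‖ = 1) (ha : ‖a‖ < 1) (hz : ‖z‖ ≤ 1) :
    ‖pG2 c a z‖ ≤ 2 * (1 - ‖a‖)⁻¹ ^ 3 := by
  unfold pG2
  have h0 : 0 ≤ 1 - ‖a‖ ^ 2 := by nlinarith [norm_nonneg a]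
  have h1 := pow_le_pow_left₀ (norm_nonneg _) (pi_inv_norm ha hz) 3
  have h2 : 1 - ‖a‖ ^ 2 ≤ 1 := by nlinarith [norm_nonneg a]
  have h3 : ‖(2 : ℂ)‖ = 2 := by simp
  rw [norm_mul, norm_mul, norm_mul, norm_mul, norm_pow, hc, pi_one_sub_norm ha, h3,
    RCLike.norm_conj, mul_one]
  have h4 : 2 * ‖a‖ * (1 - ‖a‖ ^ 2) ≤ 2 := by
    calc 2 * ‖a‖ * (1 - ‖a‖ ^ 2) ≤ 2 * 1 * 1 := by
          refine mul_le_mul (mul_le_mul_of_nonneg_left ha.le (by norm_num)) h2 h0 (by norm_num)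
      _ = 2 := by norm_num
  exact mul_le_mul h4 h1 (by positivity) (by norm_num)

private lemma pi_mob_sub {c a z w : ℂ} (hc : ‖c‖ = 1) (ha : ‖a‖ < 1) (hz : ‖z‖ ≤ 1)
    (hw : ‖w‖ ≤ 1) : ‖mob c a z - mob c a w‖ ≤ (1 - ‖a‖)⁻¹ ^ 2 * ‖z - w‖ := by
  have h1 := pi_D_ne ha hz
  have h2 := pi_D_ne ha hw
  have e : mob c a z - mob c a w =
      c * (1 - conj a * a) * ((pD a z)⁻¹ * (pD a w)⁻¹) * (z - w) := by
    have a1 : mob c a z = c * (z - a) * (pD a z)⁻¹ := div_eq_mul_inv _ _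
    have a2 : mob c a w = c * (w - a) * (pD a w)⁻¹ := div_eq_mul_inv _ _
    rw [a1, a2]
    field_simp
    unfold pD
    ring
  have h3 := pi_inv_norm ha hz
  have h4 := pi_inv_norm ha hw
  have h6 : 0 ≤ (1 - ‖a‖)⁻¹ := inv_nonneg.2 (by linarith)
  have h0 : 0 ≤ 1 - ‖a‖ ^ 2 := by nlinarith [norm_nonneg a]
  have h7 : 1 - ‖a‖ ^ 2 ≤ 1 := by nlinarith [norm_nonneg a]
  rw [e, norm_mul, norm_mul, norm_mul, norm_mul, hc, one_mul, pi_one_sub_norm ha]
  refine mul_le_mul_of_nonneg_right ?_ (norm_nonneg _)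
  calc (1 - ‖a‖ ^ 2) * (‖(pD a z)⁻¹‖ * ‖(pD a w)⁻¹‖)
      ≤ 1 * ((1 - ‖a‖)⁻¹ * (1 - ‖a‖)⁻¹) :=
        mul_le_mul h7 (mul_le_mul h3 h4 (norm_nonneg _) h6) (by positivity) (by norm_num)
    _ = _ := by ring

private lemma pi_G1_sub {c a z w : ℂ} (hc : ‖c‖ = 1) (ha : ‖a‖ < 1) (hz : ‖z‖ ≤ 1)
    (hw : ‖w‖ ≤ 1) : ‖pG1 c a z - pG1 c a w‖ ≤ 2 * (1 - ‖a‖)⁻¹ ^ 3 * ‖z - w‖ := by
  have h6 : 0 ≤ (1 - ‖a‖)⁻¹ := inv_nonneg.2 (by linarith)
  have h0 : 0 ≤ 1 - ‖a‖ ^ 2 := by nlinarith [norm_nonneg a]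
  have h7 : 1 - ‖a‖ ^ 2 ≤ 1 := by nlinarith [norm_nonneg a]
  have e : pG1 c a z - pG1 c a w =
      c * (1 - conj a * a) * ((pD a z)⁻¹ ^ 2 - (pD a w)⁻¹ ^ 2) := by
    unfold pG1; ring
  rw [e, norm_mul, norm_mul, hc, one_mul, pi_one_sub_norm ha]
  have h1 := pi_sq_sub h6 (pi_inv_norm ha hz) (pi_inv_norm ha hw) (pi_inv_sub ha hz hw)
  calc (1 - ‖a‖ ^ 2) * ‖(pD a z)⁻¹ ^ 2 - (pD a w)⁻¹ ^ 2‖
      ≤ 1 * (2 * (1 - ‖a‖)⁻¹ * ((1 - ‖a‖)⁻¹ ^ 2 * ‖z - w‖)) :=
        mul_le_mul h7 h1 (norm_nonneg _) (by norm_num)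
    _ = _ := by ring

private lemma pi_G2_sub {c a z w : ℂ} (hc : ‖c‖ = 1) (ha : ‖a‖ < 1) (hz : ‖z‖ ≤ 1)
    (hw : ‖w‖ ≤ 1) : ‖pG2 c a z - pG2 c a w‖ ≤ 6 * (1 - ‖a‖)⁻¹ ^ 4 * ‖z - w‖ := by
  have h6 : 0 ≤ (1 - ‖a‖)⁻¹ := inv_nonneg.2 (by linarith)
  have h0 : 0 ≤ 1 - ‖a‖ ^ 2 := by nlinarith [norm_nonneg a]
  have h7 : 1 - ‖a‖ ^ 2 ≤ 1 := by nlinarith [norm_nonneg a]
  have e : pG2 c a z - pG2 c a w =
      2 * conj a * c * (1 - conj a * a) * ((pD a z)⁻¹ ^ 3 - (pD a w)⁻¹ ^ 3) := by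
    unfold pG2; ring
  have h3 : ‖(2 : ℂ)‖ = 2 := by simp
  rw [e, norm_mul, norm_mul, norm_mul, norm_mul, hc, pi_one_sub_norm ha, h3,
    RCLike.norm_conj, mul_one]
  have h1 := pi_cube_sub h6 (pi_inv_norm ha hz) (pi_inv_norm ha hw) (pi_inv_sub ha hz hw)
  have h4 : 2 * ‖a‖ * (1 - ‖a‖ ^ 2) ≤ 2 := by
    calc 2 * ‖a‖ * (1 - ‖a‖ ^ 2) ≤ 2 * 1 * 1 := by
          refine mul_le_mul (mul_le_mul_of_nonneg_left ha.le (by norm_num)) h7 h0 (by norm_num)
      _ = 2 := by norm_num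
  calc 2 * ‖a‖ * (1 - ‖a‖ ^ 2) * ‖(pD a z)⁻¹ ^ 3 - (pD a w)⁻¹ ^ 3‖
      ≤ 2 * (3 * (1 - ‖a‖)⁻¹ ^ 2 * ((1 - ‖a‖)⁻¹ ^ 2 * ‖z - w‖)) :=
        mul_le_mul h4 h1 (norm_nonneg _) (by norm_num)
    _ = _ := by ring

/-- `1 - |f z|` from below -/
private lemma pi_height {c a z : ℂ} (hc : ‖c‖ = 1) (ha : ‖a‖ < 1) (hz : ‖z‖ < 1) :
    (1 - ‖a‖ ^ 2) / 8 * (1 - ‖z‖) ≤ 1 - ‖mob c a z‖ := by
  have hD := pi_D_ne ha hz.le
  have hDu := pi_D_upper ha hz.le
  have hDp : 0 < ‖pD a z‖ := norm_pos_iff.2 hD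
  have h0 : 0 ≤ 1 - ‖a‖ ^ 2 := by nlinarith [norm_nonneg a]
  have key : ‖pD a z‖ ^ 2 - ‖z - a‖ ^ 2 = (1 - ‖a‖ ^ 2) * (1 - ‖z‖ ^ 2) := by
    unfold pD
    rw [← Complex.normSq_eq_norm_sq, ← Complex.normSq_eq_norm_sq, ← Complex.normSq_eq_norm_sq,
      ← Complex.normSq_eq_norm_sq]
    simp only [Complex.normSq_apply, Complex.sub_re, Complex.sub_im, Complex.one_re,
      Complex.one_im, Complex.mul_re, Complex.mul_im, Complex.conj_re, Complex.conj_im]
    ring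
  have hn : ‖mob c a z‖ = ‖z - a‖ / ‖pD a z‖ := by
    unfold mob pD
    rw [norm_div, norm_mul, hc, one_mul]
  have h1 : 1 - ‖mob c a z‖ ^ 2 = (1 - ‖a‖ ^ 2) * (1 - ‖z‖ ^ 2) / ‖pD a z‖ ^ 2 := by
    rw [hn, div_pow, ← key]
    field_simp
  have hz0 := norm_nonneg z
  have h2 : (1 - ‖a‖ ^ 2) / 4 * (1 - ‖z‖) ≤ 1 - ‖mob c a z‖ ^ 2 := by
    rw [h1]
    have h3 : (1 - ‖a‖ ^ 2) * (1 - ‖z‖) ≤ (1 - ‖a‖ ^ 2) * (1 - ‖z‖ ^ 2) := by
      apply mul_le_mul_of_nonneg_left _ h0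
      nlinarith
    have h4 : ‖pD a z‖ ^ 2 ≤ 4 := by nlinarith
    have h5 : 0 ≤ (1 - ‖a‖ ^ 2) * (1 - ‖z‖) := mul_nonneg h0 (by linarith)
    rw [le_div_iff₀ (by positivity)]
    calc (1 - ‖a‖ ^ 2) / 4 * (1 - ‖z‖) * ‖pD a z‖ ^ 2
        = ((1 - ‖a‖ ^ 2) * (1 - ‖z‖)) / 4 * ‖pD a z‖ ^ 2 := by ring
      _ ≤ ((1 - ‖a‖ ^ 2) * (1 - ‖z‖)) / 4 * 4 :=
          mul_le_mul_of_nonneg_left h4 (by positivity)
      _ ≤ _ := by linarith
  have h3 : ‖mob c a z‖ ≤ 1 := by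
    by_contra hcon
    have h4 : 1 < ‖mob c a z‖ := not_le.1 hcon
    have h5 : 0 ≤ (1 - ‖a‖ ^ 2) / 4 * (1 - ‖z‖) := mul_nonneg (by linarith) (by linarith)
    nlinarith
  nlinarith [norm_nonneg (mob c a z)]

private lemma pi_unit {c a z : ℂ} (hc : ‖c‖ = 1) (ha : ‖a‖ < 1) (hz : ‖z‖ = 1) :
    ‖mob c a z‖ = 1 := by
  have hD := pi_D_ne ha hz.le
  have hDp : 0 < ‖pD a z‖ := norm_pos_iff.2 hD
  have key : ‖pD a z‖ ^ 2 - ‖z - a‖ ^ 2 = (1 - ‖a‖ ^ 2) * (1 - ‖z‖ ^ 2) := by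
    unfold pD
    rw [← Complex.normSq_eq_norm_sq, ← Complex.normSq_eq_norm_sq, ← Complex.normSq_eq_norm_sq,
      ← Complex.normSq_eq_norm_sq]
    simp only [Complex.normSq_apply, Complex.sub_re, Complex.sub_im, Complex.one_re,
      Complex.one_im, Complex.mul_re, Complex.mul_im, Complex.conj_re, Complex.conj_im]
    ring
  rw [hz] at key
  have hn : ‖mob c a z‖ = ‖z - a‖ / ‖pD a z‖ := by
    unfold mob pD
    rw [norm_div, norm_mul, hc, one_mul]
  have h1 : ‖z - a‖ = ‖pD a z‖ := by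
    have : ‖z - a‖ ^ 2 = ‖pD a z‖ ^ 2 := by linarith
    exact (pow_left_inj₀ (norm_nonneg _) (norm_nonneg _) (by norm_num)).1 this
  rw [hn, h1, div_self hDp.ne']

/-! ### the curves -/

/-- `e(θ) = e^{iσθ}` -/
private noncomputable def pe (σ θ : ℝ) : ℂ := Complex.exp (((σ * θ : ℝ) : ℂ) * Complex.I)

private lemma pe_norm (σ θ : ℝ) : ‖pe σ θ‖ = 1 := Complex.norm_exp_ofReal_mul_I _

private lemma pe_hasDeriv (σ θ : ℝ) : HasDerivAt (pe σ) ((σ : ℂ) * Complex.I * pe σ θ) θ := by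
  have h1 : HasDerivAt (fun θ : ℝ => ((σ * θ : ℝ) : ℂ) * Complex.I) ((σ : ℂ) * Complex.I) θ := by
    have h0 : HasDerivAt (fun θ : ℝ => ((σ * θ : ℝ) : ℂ)) (σ : ℂ) θ := by
      have := (Complex.ofRealCLM.hasDerivAt (x := θ)).const_mul (σ : ℂ)
      have e : (fun θ : ℝ => (σ : ℂ) * Complex.ofRealCLM θ) = fun θ : ℝ => ((σ * θ : ℝ) : ℂ) := by
        funext θ
        simp
      rw [e] at this
      simpa using this
    exact h0.mul_const Complex.I
  refine (h1.cexp).congr_deriv ?_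
  unfold pe
  ring

private lemma pe_contDiff (σ : ℝ) : ContDiff ℝ 2 (pe σ) := by
  unfold pe
  refine ContDiff.cexp (ContDiff.mul ?_ contDiff_const)
  exact Complex.ofRealCLM.contDiff.comp (contDiff_const.mul contDiff_id)

private lemma pe_period {σ : ℝ} (hσ : σ = 1 ∨ σ = -1) (θ : ℝ) :
    pe σ (θ + 2 * Real.pi) = pe σ θ := by
  unfold pe
  rcases hσ with rfl | rfl
  · rw [one_mul, one_mul]
    exact pi_period θ
  · have := pi_period (-1 * (θ + 2 * Real.pi))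
    rw [← this]
    congr 3
    ring

/-- the curve `s · f(r e(θ))` -/
private noncomputable def pA (c a : ℂ) (σ s r θ : ℝ) : ℂ := (s : ℂ) * mob c a ((r : ℂ) * pe σ θ)

private lemma pr_norm {σ r : ℝ} (hr0 : 0 ≤ r) (θ : ℝ) : ‖(r : ℂ) * pe σ θ‖ = r := by
  rw [norm_mul, pe_norm, mul_one, Complex.norm_real, Real.norm_eq_abs, abs_of_nonneg hr0]

private lemma pA_hasDeriv {c a : ℂ} (ha : ‖a‖ < 1) {σ s r : ℝ} (hr0 : 0 ≤ r) (hr1 : r ≤ 1)
    (θ : ℝ) : HasDerivAt (pA c a σ s r) ((s : ℂ) * ((r : ℂ) * ((σ : ℂ) * Complex.I * pe σ θ) *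
      pG1 c a ((r : ℂ) * pe σ θ))) θ := by
  have hz : ‖(r : ℂ) * pe σ θ‖ ≤ 1 := by rw [pr_norm hr0]; exact hr1
  have h1 := (pe_hasDeriv σ θ).const_mul (r : ℂ)
  have h2 := (pi_hasDeriv_mob (c := c) (pi_D_ne ha hz)).comp θ h1
  have h3 := h2.const_mul (s : ℂ)
  refine h3.congr_deriv ?_
  ring

private lemma pA_deriv {c a : ℂ} (ha : ‖a‖ < 1) {σ s r : ℝ} (hr0 : 0 ≤ r) (hr1 : r ≤ 1) :
    deriv (pA c a σ s r) = fun θ : ℝ => (s : ℂ) * ((r : ℂ) * ((σ : ℂ) * Complex.I * pe σ θ) *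
      pG1 c a ((r : ℂ) * pe σ θ)) := by
  funext θ
  exact (pA_hasDeriv ha hr0 hr1 θ).deriv

private lemma pA_deriv2 {c a : ℂ} (ha : ‖a‖ < 1) {σ s r : ℝ} (hσ : σ = 1 ∨ σ = -1) (hr0 : 0 ≤ r)
    (hr1 : r ≤ 1) :
    deriv (deriv (pA c a σ s r)) = fun θ : ℝ => -((s : ℂ) * (pG2 c a ((r : ℂ) * pe σ θ) *
      ((r : ℂ) * pe σ θ) ^ 2 + pG1 c a ((r : ℂ) * pe σ θ) * ((r : ℂ) * pe σ θ))) := by
  rw [pA_deriv ha hr0 hr1]
  funext θ
  have hz : ‖(r : ℂ) * pe σ θ‖ ≤ 1 := by rw [pr_norm hr0]; exact hr1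
  have h1 := (pe_hasDeriv σ θ).const_mul (r : ℂ)
  have h2 := (pi_hasDeriv_G1 (c := c) (pi_D_ne ha hz)).comp θ h1
  have h3 := ((((pe_hasDeriv σ θ).const_mul ((σ : ℂ) * Complex.I)).const_mul (r : ℂ)).mul
    h2).const_mul (s : ℂ)
  have h4 := h3.deriv
  have e : (fun θ : ℝ => (s : ℂ) * ((r : ℂ) * ((σ : ℂ) * Complex.I * pe σ θ) *
      pG1 c a ((r : ℂ) * pe σ θ))) = fun y : ℝ => (s : ℂ) *
      ((fun y : ℝ => (r : ℂ) * ((σ : ℂ) * Complex.I * pe σ y)) *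
        (pG1 c a ∘ fun y : ℝ => (r : ℂ) * pe σ y)) y := by
    funext y
    rfl
  rw [e]
  refine h4.trans ?_
  have hσ2 : (σ : ℂ) * σ = 1 := by
    rcases hσ with rfl | rfl <;> norm_num
  have hI : Complex.I * Complex.I = -1 := Complex.I_mul_I
  simp only [Function.comp]
  have hσI : ((σ : ℂ) * Complex.I) * ((σ : ℂ) * Complex.I) = -1 := by
    calc ((σ : ℂ) * Complex.I) * ((σ : ℂ) * Complex.I) = (σ * σ) * (Complex.I * Complex.I) := by
          ring
      _ = -1 := by rw [hσ2, hI, one_mul]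
  linear_combination ((s : ℂ) * (pG2 c a ((r : ℂ) * pe σ θ) *
      ((r : ℂ) * pe σ θ) ^ 2 + pG1 c a ((r : ℂ) * pe σ θ) * ((r : ℂ) * pe σ θ))) * hσI

private lemma pA_contDiff {c a : ℂ} (ha : ‖a‖ < 1) {σ s r : ℝ} (hr0 : 0 ≤ r) (hr1 : r ≤ 1) :
    ContDiff ℝ 2 (pA c a σ s r) := by
  have h1 : ContDiff ℝ 2 (fun θ : ℝ => (r : ℂ) * pe σ θ) := contDiff_const.mul (pe_contDiff σ)
  have h2 : ContDiff ℝ 2 (fun θ : ℝ => (pD a ((r : ℂ) * pe σ θ))⁻¹) := by
    refine ContDiff.inv ?_ ?_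
    · unfold pD
      exact contDiff_const.sub (contDiff_const.mul h1)
    · intro θ
      exact pi_D_ne ha (by rw [pr_norm hr0]; exact hr1)
  have h3 : ContDiff ℝ 2 (fun θ : ℝ => (s : ℂ) * (c * ((r : ℂ) * pe σ θ - a) *
      (pD a ((r : ℂ) * pe σ θ))⁻¹)) :=
    contDiff_const.mul ((contDiff_const.mul (h1.sub contDiff_const)).mul h2)
  exact h3

/-- the two curves satisfy the hypotheses of `curve_compare` -/
private lemma pA_main {c a : ℂ} (hc : ‖c‖ = 1) (ha : ‖a‖ < 1) {σ r : ℝ} (hσ : σ = 1 ∨ σ = -1)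
    (hr0 : 1 / 2 ≤ r) (hr1 : r < 1) (x : ℝ) :
    ((1 - ‖a‖ ^ 2) / 8 ≤ ‖deriv (pA c a σ r 1) x‖ ∧ ‖deriv (pA c a σ r 1) x‖ ≤ pC a ∧
      ‖deriv (deriv (pA c a σ r 1)) x‖ ≤ pC a) ∧
    ((1 - ‖a‖ ^ 2) / 8 ≤ ‖deriv (pA c a σ 1 r) x‖ ∧ ‖deriv (pA c a σ 1 r) x‖ ≤ pC a ∧
      ‖deriv (deriv (pA c a σ 1 r)) x‖ ≤ pC a) ∧
    (‖pA c a σ r 1 x - pA c a σ 1 r x‖ ≤ pC a * (1 - r) ∧
      ‖deriv (pA c a σ r 1) x - deriv (pA c a σ 1 r) x‖ ≤ pC a * (1 - r) ∧
      ‖deriv (deriv (pA c a σ r 1)) x - deriv (deriv (pA c a σ 1 r)) x‖ ≤ pC a * (1 - r)) ∧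
    ((1 - ‖a‖ ^ 2) / 8 * (1 - r) ≤ 1 - ‖pA c a σ r 1 x‖ ∧
      (1 - ‖a‖ ^ 2) / 8 * (1 - r) ≤ 1 - ‖pA c a σ 1 r x‖) := by
  have hr0' : 0 ≤ r := by linarith
  obtain ⟨Q, hQ1, hQ⟩ := pi_C_facts ha
  have hCQ : pC a = 12 * (Q + 1) ^ 4 := by rw [hQ]; rfl
  have hQ2 : Q ^ 2 ≤ (Q + 1) ^ 4 := by
    calc Q ^ 2 ≤ (Q + 1) ^ 2 := pow_le_pow_left₀ (by linarith) (by linarith) 2
      _ ≤ (Q + 1) ^ 4 := pow_le_pow_right₀ (by linarith) (by norm_num)
  have hQ3 : Q ^ 3 ≤ (Q + 1) ^ 4 := by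
    calc Q ^ 3 ≤ (Q + 1) ^ 3 := pow_le_pow_left₀ (by linarith) (by linarith) 3
      _ ≤ (Q + 1) ^ 4 := pow_le_pow_right₀ (by linarith) (by norm_num)
  have hQ4 : Q ^ 4 ≤ (Q + 1) ^ 4 := pow_le_pow_left₀ (by linarith) (by linarith) 4
  have hQ0 : 1 ≤ (Q + 1) ^ 4 := one_le_pow₀ (by linarith)
  have ha2 : 0 ≤ 1 - ‖a‖ ^ 2 := by nlinarith [norm_nonneg a]
  have ha2' : 1 - ‖a‖ ^ 2 ≤ 1 := by nlinarith [norm_nonneg a]
  have hσn : ‖(σ : ℂ)‖ = 1 := by
    rcases hσ with rfl | rfl <;> simp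
  -- points
  set z : ℂ := pe σ x with hz
  have hz1 : ‖z‖ = 1 := pe_norm σ x
  have h1z : ((1 : ℝ) : ℂ) * z = z := by push_cast; ring
  have hrz : ‖(r : ℂ) * z‖ = r := pr_norm hr0' x
  have hrz1 : ‖(r : ℂ) * z‖ ≤ 1 := by rw [hrz]; exact hr1.le
  have hrn : ‖(r : ℂ)‖ = r := by
    rw [Complex.norm_real, Real.norm_eq_abs, abs_of_nonneg hr0']
  have hzd : ‖z - (r : ℂ) * z‖ = 1 - r := by
    have : z - (r : ℂ) * z = ((1 - r : ℝ) : ℂ) * z := by push_cast; ring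
    rw [this, norm_mul, hz1, mul_one, Complex.norm_real, Real.norm_eq_abs,
      abs_of_nonneg (by linarith)]
  have g1 := pi_G1_norm hc ha hz1.le
  have g1r := pi_G1_norm hc ha hrz1
  have g2 := pi_G2_norm hc ha hz1.le
  have g2r := pi_G2_norm hc ha hrz1
  have d0 := pi_mob_sub hc ha hz1.le hrz1
  have d1 := pi_G1_sub hc ha hz1.le hrz1
  have d2 := pi_G2_sub hc ha hz1.le hrz1
  rw [← hQ] at g1 g1r g2 g2r d0 d1 d2
  rw [hzd] at d0 d1 d2
  rw [hCQ]
  have D1 : deriv (pA c a σ r 1) x = (r : ℂ) * (((σ : ℂ) * Complex.I * z) * pG1 c a z) := by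
    rw [pA_deriv ha zero_le_one le_rfl]
    simp only
    rw [← hz, h1z]
    push_cast
    ring
  have D1' : deriv (pA c a σ 1 r) x =
      (r : ℂ) * (((σ : ℂ) * Complex.I * z) * pG1 c a ((r : ℂ) * z)) := by
    rw [pA_deriv ha hr0' hr1.le]
    simp only
    rw [← hz]
    push_cast
    ring
  have D2 : deriv (deriv (pA c a σ r 1)) x =
      -((r : ℂ) * (pG2 c a z * z ^ 2 + pG1 c a z * z)) := by
    rw [pA_deriv2 ha hσ zero_le_one le_rfl]
    simp only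
    rw [← hz, h1z]
  have D2' : deriv (deriv (pA c a σ 1 r)) x =
      -(pG2 c a ((r : ℂ) * z) * ((r : ℂ) * z) ^ 2 + pG1 c a ((r : ℂ) * z) * ((r : ℂ) * z)) := by
    rw [pA_deriv2 ha hσ hr0' hr1.le]
    simp only
    rw [← hz]
    push_cast
    ring
  have A1 : pA c a σ r 1 x = (r : ℂ) * mob c a z := by
    unfold pA
    rw [← hz, h1z]
  have A1' : pA c a σ 1 r x = mob c a ((r : ℂ) * z) := by
    unfold pA
    rw [← hz]
    push_cast
    ring
  have hunit : ‖mob c a z‖ = 1 := pi_unit hc ha hz1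
  have nσ : ∀ y : ℂ, ‖(r : ℂ) * (((σ : ℂ) * Complex.I * z) * y)‖ = r * ‖y‖ := by
    intro y
    rw [norm_mul, norm_mul, norm_mul, norm_mul, hrn, hσn, Complex.norm_I, hz1]
    ring
  have n2 : ∀ (y1 y2 v : ℂ), ‖v‖ ≤ 1 → ‖y1 * v ^ 2 + y2 * v‖ ≤ ‖y1‖ + ‖y2‖ := by
    intro y1 y2 v hv
    refine (norm_add_le _ _).trans (add_le_add ?_ ?_)
    · rw [norm_mul, norm_pow]
      exact mul_le_of_le_one_right (norm_nonneg _) (pow_le_one₀ (norm_nonneg _) hv)
    · rw [norm_mul]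
      exact mul_le_of_le_one_right (norm_nonneg _) hv
  refine ⟨⟨?_, ?_, ?_⟩, ⟨?_, ?_, ?_⟩, ⟨?_, ?_, ?_⟩, ?_, ?_⟩
  · rw [D1, nσ]
    have := mul_le_mul hr0 g1.1 (by linarith) hr0'
    linarith
  · rw [D1, nσ]
    have := mul_le_mul hr1.le g1.2 (norm_nonneg _) (by norm_num)
    linarith
  · rw [D2, norm_neg, norm_mul, hrn]
    have h1 := n2 (pG2 c a z) (pG1 c a z) z hz1.le
    have h2 := mul_le_mul hr1.le h1 (norm_nonneg _) (by norm_num)
    linarith [g1.2]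
  · rw [D1', nσ]
    have := mul_le_mul hr0 g1r.1 (by linarith) hr0'
    linarith
  · rw [D1', nσ]
    have := mul_le_mul hr1.le g1r.2 (norm_nonneg _) (by norm_num)
    linarith
  · rw [D2', norm_neg]
    have h1 := n2 (pG2 c a ((r : ℂ) * z)) (pG1 c a ((r : ℂ) * z)) ((r : ℂ) * z) hrz1
    linarith [g1r.2]
  · rw [A1, A1']
    have e : (r : ℂ) * mob c a z - mob c a ((r : ℂ) * z) =
        (mob c a z - mob c a ((r : ℂ) * z)) - ((1 - r : ℝ) : ℂ) * mob c a z := by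
      push_cast
      ring
    rw [e]
    refine (norm_sub_le _ _).trans ?_
    rw [norm_mul, hunit, mul_one, Complex.norm_real, Real.norm_eq_abs,
      abs_of_nonneg (by linarith : (0 : ℝ) ≤ 1 - r)]
    have h1 : Q ^ 2 * (1 - r) ≤ (Q + 1) ^ 4 * (1 - r) :=
      mul_le_mul_of_nonneg_right hQ2 (by linarith)
    have h2 : 1 * (1 - r) ≤ (Q + 1) ^ 4 * (1 - r) :=
      mul_le_mul_of_nonneg_right hQ0 (by linarith)
    linarith
  · rw [D1, D1', ← mul_sub, ← mul_sub, nσ]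
    have h1 := mul_le_mul hr1.le d1 (norm_nonneg _) (by norm_num)
    have h2 : Q ^ 3 * (1 - r) ≤ (Q + 1) ^ 4 * (1 - r) :=
      mul_le_mul_of_nonneg_right hQ3 (by linarith)
    have h3 : 0 ≤ (Q + 1) ^ 4 * (1 - r) := mul_nonneg (by positivity) (by linarith)
    linarith
  · rw [D2, D2']
    have e : -((r : ℂ) * (pG2 c a z * z ^ 2 + pG1 c a z * z)) -
        -(pG2 c a ((r : ℂ) * z) * ((r : ℂ) * z) ^ 2 + pG1 c a ((r : ℂ) * z) * ((r : ℂ) * z)) =
        -((pG2 c a z - pG2 c a ((r : ℂ) * z)) * ((r : ℂ) * z) ^ 2 +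
          (pG1 c a z - pG1 c a ((r : ℂ) * z)) * ((r : ℂ) * z)) -
        ((r : ℂ) * ((1 - r : ℝ) : ℂ)) * (pG2 c a z * z ^ 2) := by
      push_cast
      ring
    rw [e]
    refine (norm_sub_le _ _).trans ?_
    rw [norm_neg]
    have h1 := n2 (pG2 c a z - pG2 c a ((r : ℂ) * z)) (pG1 c a z - pG1 c a ((r : ℂ) * z))
      ((r : ℂ) * z) hrz1
    have h2 : ‖((r : ℂ) * ((1 - r : ℝ) : ℂ)) * (pG2 c a z * z ^ 2)‖ ≤ (1 - r) * (2 * Q ^ 3) := by
      rw [norm_mul, norm_mul, norm_mul, norm_pow, hz1, hrn, Complex.norm_real, Real.norm_eq_abs,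
        abs_of_nonneg (by linarith : (0 : ℝ) ≤ 1 - r), one_pow, mul_one]
      refine mul_le_mul ?_ g2 (norm_nonneg _) (by linarith)
      exact mul_le_of_le_one_left (by linarith) hr1.le
    have h3 : Q ^ 3 * (1 - r) ≤ (Q + 1) ^ 4 * (1 - r) :=
      mul_le_mul_of_nonneg_right hQ3 (by linarith)
    have h4 : Q ^ 4 * (1 - r) ≤ (Q + 1) ^ 4 * (1 - r) :=
      mul_le_mul_of_nonneg_right hQ4 (by linarith)
    have h5 : 0 ≤ (Q + 1) ^ 4 * (1 - r) := mul_nonneg (by positivity) (by linarith)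
    linarith
  · rw [A1, norm_mul, hunit, mul_one, hrn]
    have : (1 - ‖a‖ ^ 2) / 8 * (1 - r) ≤ 1 * (1 - r) :=
      mul_le_mul_of_nonneg_right (by linarith) (by linarith)
    linarith
  · rw [A1']
    have := pi_height hc ha (z := (r : ℂ) * z) (by rw [hrz]; exact hr1)
    rwa [hrz] at this

/-- description of `f` on circles -/
private lemma pi_desc {f : ℂ → ℂ} (hf : IsDiscIso f) : ∃ c a : ℂ, ∃ σ : ℝ, ‖c‖ = 1 ∧ ‖a‖ < 1 ∧
    (σ = 1 ∨ σ = -1) ∧ ∀ r θ : ℝ,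
      f ((r : ℂ) * Complex.exp ((θ : ℂ) * Complex.I)) = mob c a ((r : ℂ) * pe σ θ) := by
  rcases hf with ⟨c, a, hc, ha, hf⟩ | ⟨c, a, hc, ha, hf⟩
  · refine ⟨c, a, 1, hc, ha, Or.inl rfl, fun r θ => ?_⟩
    rw [hf]
    unfold pe
    rw [one_mul]
  · refine ⟨c, a, -1, hc, ha, Or.inr rfl, fun r θ => ?_⟩
    rw [hf]
    simp only
    congr 1
    unfold pe
    rw [map_mul, Complex.conj_ofReal, ← Complex.exp_conj, map_mul, Complex.conj_ofReal,
      Complex.conj_I]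
    congr 2
    push_cast
    ring

theorem pair_inv {φ : ℂ → ℝ} {H κ s : ℝ} (hκ : 0 < κ) (hκ1 : κ ≤ 1) (hs : 0 ≤ s)
    (hsκ : s < κ) (hm : Measurable φ) (hb : ∀ ξ, |φ ξ| ≤ H)
    (hH : ∀ ξ η : ℂ, ‖ξ‖ = 1 → ‖η‖ = 1 → |φ ξ - φ η| ≤ H * ‖ξ - η‖ ^ κ)
    {f : ℂ → ℂ} (hf : IsDiscIso f) {u : ℂ → ℂ} {K : ℝ} (hK : 0 ≤ K)
    (hu : DifferentiableOn ℂ u (Metric.ball 0 1))
    (hgr : ∀ z, ‖z‖ < 1 → ‖u z‖ ≤ K * (1 - ‖z‖) ^ (-s)) :
    Tendsto (fun r : ℝ => ∫ ξ, (u ((r : ℂ) * f ξ) - u (f ((r : ℂ) * ξ))) * (φ ξ : ℂ) ∂circ)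
      (𝓝[<] 1) (𝓝 0) := by
  have hpi := Real.pi_pos
  have hH0 : 0 ≤ H := (abs_nonneg _).trans (hb 0)
  obtain ⟨c, a, σ, hc, ha, hσ, hdesc⟩ := pi_desc hf
  have ha2 : 0 < 1 - ‖a‖ ^ 2 := by nlinarith [norm_nonneg a]
  have hC0 : 0 ≤ pC a := by
    unfold pC
    positivity
  obtain ⟨B₀, hB₀, hcc⟩ := curve_compare (c := (1 - ‖a‖ ^ 2) / 8) (C := pC a) hκ hκ1 hs hsκ hH0
    (by positivity) hC0
  set h : ℝ → ℝ := fun θ => φ (Complex.exp ((θ : ℂ) * Complex.I)) with hh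
  have hh1 : ∀ x, |h x| ≤ H := fun x => hb _
  have hh2 : ∀ x y, |h x - h y| ≤ H * |x - y| ^ κ := by
    intro x y
    refine (hH _ _ (Complex.norm_exp_ofReal_mul_I x) (Complex.norm_exp_ofReal_mul_I y)).trans ?_
    refine mul_le_mul_of_nonneg_left ?_ hH0
    exact Real.rpow_le_rpow (norm_nonneg _) (pi_exp_sub x y) hκ.le
  have hh3 : Function.Periodic h (2 * Real.pi) := by
    intro x
    simp only [hh]
    rw [pi_period]
  -- f on the circle and inside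
  have hf1 : ∀ r θ : ℝ, (r : ℂ) * f (Complex.exp ((θ : ℂ) * Complex.I)) = pA c a σ r 1 θ := by
    intro r θ
    have := hdesc 1 θ
    unfold pA
    rw [← this]
    push_cast
    rw [one_mul]
  have hf2 : ∀ r θ : ℝ, f ((r : ℂ) * Complex.exp ((θ : ℂ) * Complex.I)) = pA c a σ 1 r θ := by
    intro r θ
    unfold pA
    rw [hdesc r θ]
    push_cast
    rw [one_mul]
  have hbound : ∀ r : ℝ, 1 / 2 ≤ r → r < 1 →
      ‖∫ ξ, (u ((r : ℂ) * f ξ) - u (f ((r : ℂ) * ξ))) * (φ ξ : ℂ) ∂circ‖ ≤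
        B₀ * K * (1 - r) ^ (κ - s) := by
    intro r hr0 hr1
    have hr0' : 0 ≤ r := by linarith
    have hmain := pA_main hc ha hσ hr0 hr1
    have hmeas : AEStronglyMeasurable
        (fun ξ : ℂ => (u ((r : ℂ) * f ξ) - u (f ((r : ℂ) * ξ))) * (φ ξ : ℂ)) circ := by
      refine AEStronglyMeasurable.mul ?_ (Complex.measurable_ofReal.comp hm).aestronglyMeasurable
      apply pi_aesm
      refine ContinuousOn.sub ?_ ?_
      · refine hu.continuousOn.comp (continuousOn_const.mul hf.continuousOn) ?_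
        intro ξ hξ
        rw [mem_closedBall_zero_iff] at hξ
        have h1 := hf.norm_le_one hξ
        rw [mem_ball_zero_iff, norm_mul, Complex.norm_real, Real.norm_eq_abs, abs_of_nonneg hr0']
        nlinarith [norm_nonneg (f ξ)]
      · refine hu.continuousOn.comp (hf.continuousOn.comp (by fun_prop) ?_) ?_
        · intro ξ hξ
          rw [mem_closedBall_zero_iff] at hξ ⊢
          rw [norm_mul, Complex.norm_real, Real.norm_eq_abs, abs_of_nonneg hr0']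
          nlinarith [norm_nonneg ξ]
        · intro ξ hξ
          rw [mem_closedBall_zero_iff] at hξ
          rw [mem_ball_zero_iff]
          apply hf.norm_lt_one
          rw [norm_mul, Complex.norm_real, Real.norm_eq_abs, abs_of_nonneg hr0']
          nlinarith [norm_nonneg ξ]
    have h1 := hcc (1 - r) K h u (pA c a σ r 1) (pA c a σ 1 r) (by linarith) (by linarith) hK
      hh1 hh2 hh3 hu hgr (pA_contDiff ha zero_le_one le_rfl) (pA_contDiff ha hr0' hr1.le)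
      (fun x => by unfold pA; rw [pe_period hσ]) (fun x => by unfold pA; rw [pe_period hσ])
      (fun x => (hmain x).1) (fun x => (hmain x).2.1) (fun x => (hmain x).2.2.1)
      (fun x => (hmain x).2.2.2)
    rw [integral_circ hmeas]
    have e : (∫ θ in (-Real.pi)..Real.pi,
        (u ((r : ℂ) * f (Complex.exp ((θ : ℂ) * Complex.I))) -
          u (f ((r : ℂ) * Complex.exp ((θ : ℂ) * Complex.I)))) *
          (φ (Complex.exp ((θ : ℂ) * Complex.I)) : ℂ)) =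
        ∫ x in (-Real.pi)..Real.pi, (u (pA c a σ r 1 x) - u (pA c a σ 1 r x)) * (h x : ℂ) := by
      refine intervalIntegral.integral_congr fun x _ => ?_
      rw [hf1, hf2]
    rw [e, norm_smul, Real.norm_eq_abs, abs_of_pos (by positivity)]
    have h2 : 1 / (2 * Real.pi) ≤ 1 := by
      rw [div_le_one (by positivity)]
      linarith [Real.pi_gt_three]
    calc _ ≤ 1 * ‖∫ x in (-Real.pi)..Real.pi,
          (u (pA c a σ r 1 x) - u (pA c a σ 1 r x)) * (h x : ℂ)‖ :=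
          mul_le_mul_of_nonneg_right h2 (norm_nonneg _)
      _ ≤ _ := by rw [one_mul]; exact h1
  have hlim : Tendsto (fun r : ℝ => B₀ * K * (1 - r) ^ (κ - s)) (𝓝[<] 1) (𝓝 0) := by
    have h1 : Continuous fun r : ℝ => B₀ * K * (1 - r) ^ (κ - s) :=
      continuous_const.mul ((continuous_const.sub continuous_id).rpow_const
        (fun _ => Or.inr (by linarith)))
    have h2 := h1.tendsto 1
    simp only [sub_self] at h2
    rw [Real.zero_rpow (by linarith), mul_zero] at h2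
    exact h2.mono_left nhdsWithin_le_nhds
  refine squeeze_zero_norm' ?_ hlim
  have hmem : Ico (1 / 2 : ℝ) 1 ∈ 𝓝[<] (1 : ℝ) := Ico_mem_nhdsLT (by norm_num)
  filter_upwards [hmem] with r hr
  exact hbound r hr.1 hr.2

end Pool.Agent.Lib.KLP
end

section

/-!
# P3: the determinant vanishes for small exponents
-/

set_option autoImplicit false
open MeasureTheory Set Filter Topology
open scoped ENNReal ComplexConjugate

namespace Pool.Agent.Lib.KLP

variable {Γ : Type*} [Group Γ] {A : DAct Γ} {ι : Type*}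

private theorem dz_int {m : Measure ℂ} [IsFiniteMeasure m] (hm : ∀ᵐ z ∂m, ‖z‖ = 1) {g : ℂ → ℂ}
    (hg : ContinuousOn g (Metric.sphere 0 1)) : Integrable g m := by
  have h1 : IntegrableOn g (Metric.sphere 0 1) m :=
    hg.integrableOn_compact (isCompact_sphere 0 1)
  have h2 : m.restrict (Metric.sphere (0 : ℂ) 1) = m := by
    refine Measure.restrict_eq_self_of_ae_mem ?_
    filter_upwards [hm] with z hz
    simpa using hz
  rwa [IntegrableOn, h2] at h1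

private theorem dz_cont (D : BlochData A ι) (i : ι) :
    ContinuousOn (D.b i) (Metric.ball 0 1) := by
  rcases D.hol i with h | h
  · exact h.continuousOn
  · have h1 := Complex.continuous_conj.comp_continuousOn h.continuousOn
    refine h1.congr fun z _ => ?_
    simp

private theorem dz_split (D : BlochData A ι) (t : ℂ) (i : ι) :
    ∃ u : ℂ → ℂ, DifferentiableOn ℂ u (Metric.ball 0 1) ∧
      ((∀ z, Complex.exp (t * D.b i z) - 1 = u z) ∨
        (∀ z, Complex.exp (t * D.b i z) - 1 = conj (u z))) := by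
  rcases D.hol i with h | h
  · refine ⟨fun z => Complex.exp (t * D.b i z) - 1, ?_, Or.inl fun z => rfl⟩
    exact ((h.const_mul t).cexp).sub_const 1
  · refine ⟨fun z => Complex.exp (conj t * conj (D.b i z)) - 1, ?_, Or.inr fun z => ?_⟩
    · exact ((h.const_mul (conj t)).cexp).sub_const 1
    · rw [map_sub, map_one, ← Complex.exp_conj, map_mul, Complex.conj_conj, Complex.conj_conj]

private theorem dz_mem_ball {r : ℝ} (hr0 : 0 ≤ r) (hr1 : r < 1) {ξ : ℂ} (hξ : ‖ξ‖ = 1) :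
    ‖(r : ℂ) * ξ‖ < 1 := by
  rw [norm_mul, hξ, mul_one, Complex.norm_real, Real.norm_eq_abs, abs_of_nonneg hr0]
  exact hr1

private theorem dz_contV (D : BlochData A ι) (t : ℂ) (i : ι) {r : ℝ} (hr0 : 0 ≤ r) (hr1 : r < 1) :
    ContinuousOn (fun ξ : ℂ => Complex.exp (t * D.b i ((r : ℂ) * ξ))) (Metric.sphere 0 1) := by
  have h1 : ContinuousOn (fun ξ : ℂ => D.b i ((r : ℂ) * ξ)) (Metric.sphere 0 1) := by
    refine (dz_cont D i).comp (by fun_prop) ?_
    intro ξ hξ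
    have h2 : ‖ξ‖ = 1 := by simpa using hξ
    simpa using dz_mem_ball hr0 hr1 h2
  exact (continuousOn_const.mul h1).cexp

private theorem dz_contf {f : ℂ → ℂ} (hf : IsDiscIso f) :
    ContinuousOn f (Metric.sphere 0 1) :=
  hf.continuousOn.mono Metric.sphere_subset_closedBall

private theorem dz_contVf (D : BlochData A ι) (t : ℂ) (i : ι) {f : ℂ → ℂ} (hf : IsDiscIso f)
    {r : ℝ} (hr0 : 0 ≤ r) (hr1 : r < 1) :
    ContinuousOn (fun ξ : ℂ => Complex.exp (t * D.b i ((r : ℂ) * f ξ))) (Metric.sphere 0 1) := by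
  refine (dz_contV D t i hr0 hr1).comp (dz_contf hf) ?_
  intro ξ hξ
  have h2 : ‖ξ‖ = 1 := by simpa using hξ
  simpa using hf.norm_eq_one h2

private theorem dz_contfV (D : BlochData A ι) (t : ℂ) (i : ι) {f : ℂ → ℂ} (hf : IsDiscIso f)
    {r : ℝ} (hr0 : 0 ≤ r) (hr1 : r < 1) :
    ContinuousOn (fun ξ : ℂ => Complex.exp (t * D.b i (f ((r : ℂ) * ξ)))) (Metric.sphere 0 1) := by
  have h0 : ContinuousOn (fun ξ : ℂ => f ((r : ℂ) * ξ)) (Metric.sphere 0 1) := by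
    refine hf.continuousOn.comp (by fun_prop) ?_
    intro ξ hξ
    have h2 : ‖ξ‖ = 1 := by simpa using hξ
    simpa using (dz_mem_ball hr0 hr1 h2).le
  have h1 : ContinuousOn (fun ξ : ℂ => D.b i (f ((r : ℂ) * ξ))) (Metric.sphere 0 1) := by
    refine (dz_cont D i).comp h0 ?_
    intro ξ hξ
    have h2 : ‖ξ‖ = 1 := by simpa using hξ
    simpa using hf.norm_lt_one (dz_mem_ball hr0 hr1 h2)
  exact (continuousOn_const.mul h1).cexp

theorem det_zero (W : Walk Γ) {ν : Measure ℂ} [IsProbabilityMeasure ν] (hst : Stationary A W ν)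
    {φ : ℂ → ℝ} {H κ : ℝ} (hκ : 0 < κ) (hκ1 : κ ≤ 1) (hm : Measurable φ) (h0 : ∀ ξ, 0 ≤ φ ξ)
    (hb : ∀ ξ, φ ξ ≤ H)
    (hH : ∀ ξ η : ℂ, ‖ξ‖ = 1 → ‖η‖ = 1 → |φ ξ - φ η| ≤ H * ‖ξ - η‖ ^ κ)
    (hν : ν = circ.withDensity (fun ξ => ENNReal.ofReal (φ ξ)))
    [Fintype ι] [DecidableEq ι] [Nonempty ι] (D : BlochData A ι) :
    ∃ t₀ : ℝ, 0 < t₀ ∧ ∀ t : ℂ, ‖t‖ < t₀ →
      (1 - D.T W (fun x => Complex.exp (t * x))).det = 0 := by
  have habs : ∀ ξ, |φ ξ| ≤ H := fun ξ => by rw [abs_of_nonneg (h0 ξ)]; exact hb ξ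
  have hs : 0 < κ / 2 := by positivity
  have hsκ : κ / 2 < κ := by linarith
  obtain ⟨t1, K1, ht1, hK1, hexp⟩ := exp_bloch D hs
  obtain ⟨B, hB0, hB⟩ := pair_bound hκ hκ1 hs.le hsκ hm habs hH
  have hcn : ∀ᵐ z ∂circ, ‖z‖ = 1 := ae_circ_norm
  have hνn : ∀ᵐ z ∂ν, ‖z‖ = 1 := by
    rw [hν]
    exact (withDensity_absolutelyContinuous _ _).ae_le hcn
  have hφm : AEStronglyMeasurable (fun ξ => (φ ξ : ℂ)) circ :=
    (Complex.measurable_ofReal.comp hm).aestronglyMeasurable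
  have hφint : ∀ g : ℂ → ℂ, Integrable g circ → Integrable (fun ξ => g ξ * (φ ξ : ℂ)) circ := by
    intro g hg
    refine hg.mul_bdd (c := H) hφm (ae_of_all _ fun ξ => ?_)
    rw [Complex.norm_real, Real.norm_eq_abs]
    exact habs ξ
  have hνi : ∀ g : ℂ → ℂ, ∫ ξ, g ξ ∂ν = ∫ ξ, g ξ * (φ ξ : ℂ) ∂circ := by
    intro g
    rw [hν, integral_withDensity_eq_integral_toReal_smul (by fun_prop)
      (ae_of_all _ fun _ => ENNReal.ofReal_lt_top)]
    refine integral_congr_ae (ae_of_all _ fun ξ => ?_)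
    simp only
    rw [ENNReal.toReal_ofReal (h0 ξ), Complex.real_smul, mul_comm]
  have hone : ∫ ξ, (φ ξ : ℂ) ∂circ = 1 := by
    have h1 := hνi (fun _ => 1)
    simpa using h1.symm
  have hstat : ∀ V : ℂ → ℂ, ContinuousOn V (Metric.sphere 0 1) →
      ∫ ξ, V ξ ∂ν = ∑ s ∈ W.S, (W.μ s : ℂ) * ∫ ξ, V (A.act s ξ) ∂ν := by
    intro V hV
    have hmapn : ∀ s, ∀ᵐ z ∂(ν.map (A.act s)), ‖z‖ = 1 := by
      intro s
      rw [ae_map_iff (A.iso s).measurable.aemeasurable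
        (measurableSet_eq_fun measurable_norm measurable_const)]
      filter_upwards [hνn] with z hz using (A.iso s).norm_eq_one hz
    have hint : ∀ s, Integrable V (ν.map (A.act s)) := fun s => dz_int (hmapn s) hV
    unfold Stationary at hst
    conv_lhs => rw [hst]
    rw [integral_finsetSum_measure (fun s _ => (hint s).smul_measure ENNReal.ofReal_ne_top)]
    refine Finset.sum_congr rfl fun s hs => ?_
    rw [integral_smul_measure, integral_map (A.iso s).measurable.aemeasurable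
      (hint s).aestronglyMeasurable, ENNReal.toReal_ofReal (W.pos s hs).le, Complex.real_smul]
  refine ⟨min t1 (1 / (2 * (B * K1 + 1))), lt_min ht1 (by positivity), ?_⟩
  intro t ht
  have htt1 : ‖t‖ ≤ t1 := ht.le.trans (min_le_left _ _)
  have htB : B * (K1 * ‖t‖) ≤ 1 / 2 := by
    have h1 : ‖t‖ ≤ 1 / (2 * (B * K1 + 1)) := ht.le.trans (min_le_right _ _)
    have h2 : 0 ≤ B * K1 := mul_nonneg hB0 hK1
    have h3 : ‖t‖ * (2 * (B * K1 + 1)) ≤ 1 := by
      rwa [le_div_iff₀ (by positivity)] at h1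
    nlinarith [norm_nonneg t]
  -- the pairing
  set a : ℝ → ι → ℂ := fun r i => ∫ ξ, Complex.exp (t * D.b i ((r : ℂ) * ξ)) * (φ ξ : ℂ) ∂circ
    with ha
  have hVint : ∀ i (r : ℝ), 0 ≤ r → r < 1 →
      Integrable (fun ξ : ℂ => Complex.exp (t * D.b i ((r : ℂ) * ξ)) * (φ ξ : ℂ)) circ :=
    fun i r hr0 hr1 => hφint _ (dz_int hcn (dz_contV D t i hr0 hr1))
  have hφint1 : Integrable (fun ξ : ℂ => (φ ξ : ℂ)) circ := by
    have h1 := hφint (fun _ => 1) (integrable_const _)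
    simpa using h1
  have hbound : ∀ i (r : ℝ), 0 ≤ r → r < 1 → ‖a r i - 1‖ ≤ 1 / 2 := by
    intro i r hr0 hr1
    have h1 : a r i - 1 = ∫ ξ, (Complex.exp (t * D.b i ((r : ℂ) * ξ)) - 1) * (φ ξ : ℂ) ∂circ := by
      have h1a : a r i - 1 = a r i - ∫ ξ, (φ ξ : ℂ) ∂circ := by rw [hone]
      rw [h1a, ha]
      simp only
      rw [← integral_sub (hVint i r hr0 hr1) hφint1]
      refine integral_congr_ae (ae_of_all _ fun ξ => ?_)
      simp only
      ring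
    obtain ⟨u, hu, hcase⟩ := dz_split D t i
    have hun : ∀ z, ‖u z‖ = ‖Complex.exp (t * D.b i z) - 1‖ := by
      intro z
      rcases hcase with h | h
      · rw [h z]
      · rw [h z, Complex.norm_conj]
    have hgr : ∀ z, ‖z‖ < 1 → ‖u z‖ ≤ K1 * ‖t‖ * (1 - ‖z‖) ^ (-(κ / 2)) := by
      intro z hz
      rw [hun z]
      exact hexp t htt1 i z hz
    have h2 := hB u (K1 * ‖t‖) (mul_nonneg hK1 (norm_nonneg t)) hu hgr r hr0 hr1
    have h3 : ‖∫ ξ, (Complex.exp (t * D.b i ((r : ℂ) * ξ)) - 1) * (φ ξ : ℂ) ∂circ‖ =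
        ‖∫ ξ, u ((r : ℂ) * ξ) * (φ ξ : ℂ) ∂circ‖ := by
      rcases hcase with h | h
      · simp only [h]
      · have h4 : ∫ ξ, (Complex.exp (t * D.b i ((r : ℂ) * ξ)) - 1) * (φ ξ : ℂ) ∂circ =
            conj (∫ ξ, u ((r : ℂ) * ξ) * (φ ξ : ℂ) ∂circ) := by
          rw [← integral_conj]
          refine integral_congr_ae (ae_of_all _ fun ξ => ?_)
          simp only
          rw [h, map_mul, Complex.conj_ofReal]
        rw [h4, Complex.norm_conj]
    rw [h1, h3]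
    exact h2.trans htB
  have hlim : ∀ i, Tendsto (fun r : ℝ => a r i -
      ∑ k, D.T W (fun x => Complex.exp (t * x)) i k * a r k) (𝓝[<] 1) (𝓝 0) := by
    intro i
    have hinv : ∀ s, Tendsto (fun r : ℝ => ∫ ξ, (Complex.exp (t * D.b i ((r : ℂ) * A.act s ξ)) -
        Complex.exp (t * D.b i (A.act s ((r : ℂ) * ξ)))) * (φ ξ : ℂ) ∂circ) (𝓝[<] 1) (𝓝 0) := by
      intro s
      obtain ⟨u, hu, hcase⟩ := dz_split D t i
      have hun : ∀ z, ‖u z‖ = ‖Complex.exp (t * D.b i z) - 1‖ := by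
        intro z
        rcases hcase with h | h
        · rw [h z]
        · rw [h z, Complex.norm_conj]
      have hgr : ∀ z, ‖z‖ < 1 → ‖u z‖ ≤ K1 * ‖t‖ * (1 - ‖z‖) ^ (-(κ / 2)) := by
        intro z hz
        rw [hun z]
        exact hexp t htt1 i z hz
      have h2 := pair_inv hκ hκ1 hs.le hsκ hm habs hH (A.iso s)
        (mul_nonneg hK1 (norm_nonneg t)) hu hgr
      rcases hcase with h | h
      · refine h2.congr fun r => ?_
        refine integral_congr_ae (ae_of_all _ fun ξ => ?_)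
        simp only [← h]
        ring
      · have h3 := (Complex.continuous_conj.tendsto 0).comp h2
        rw [map_zero] at h3
        refine h3.congr fun r => ?_
        rw [Function.comp_apply, ← integral_conj]
        refine integral_congr_ae (ae_of_all _ fun ξ => ?_)
        simp only [map_mul, map_sub, ← h, Complex.conj_ofReal]
        ring
    have hsum : Tendsto (fun r : ℝ => ∑ s ∈ W.S, (W.μ s : ℂ) *
        ∫ ξ, (Complex.exp (t * D.b i ((r : ℂ) * A.act s ξ)) -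
          Complex.exp (t * D.b i (A.act s ((r : ℂ) * ξ)))) * (φ ξ : ℂ) ∂circ)
        (𝓝[<] 1) (𝓝 0) := by
      have h4 : (0 : ℂ) = ∑ s ∈ W.S, (W.μ s : ℂ) * 0 := by simp
      rw [h4]
      exact tendsto_finsetSum _ fun s _ => (hinv s).const_mul _
    refine hsum.congr' ?_
    filter_upwards [Ioo_mem_nhdsLT (zero_lt_one' ℝ)] with r hr
    have hr0 : 0 ≤ r := hr.1.le
    have hr1 : r < 1 := hr.2
    have e1 : a r i = ∑ s ∈ W.S, (W.μ s : ℂ) *
        ∫ ξ, Complex.exp (t * D.b i ((r : ℂ) * A.act s ξ)) * (φ ξ : ℂ) ∂circ := by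
      have h5 := hstat _ (dz_contV D t i hr0 hr1)
      rw [hνi] at h5
      rw [ha]
      simp only
      rw [h5]
      refine Finset.sum_congr rfl fun s _ => ?_
      rw [hνi]
    have e2 : ∑ k, D.T W (fun x => Complex.exp (t * x)) i k * a r k = ∑ s ∈ W.S, (W.μ s : ℂ) *
        ∫ ξ, Complex.exp (t * D.b i (A.act s ((r : ℂ) * ξ))) * (φ ξ : ℂ) ∂circ := by
      unfold BlochData.T
      simp only [Finset.sum_mul, ite_mul, zero_mul]
      rw [Finset.sum_comm]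
      refine Finset.sum_congr rfl fun s _ => ?_
      rw [Finset.sum_ite_eq Finset.univ (D.j s i)
        (fun k => (W.μ s : ℂ) * Complex.exp (t * D.χ s i) * a r k), if_pos (Finset.mem_univ _)]
      rw [mul_assoc]
      congr 1
      rw [ha]
      simp only
      rw [← integral_const_mul]
      refine integral_congr_ae ?_
      filter_upwards [hcn] with ξ hξ
      rw [D.equiv s i _ (dz_mem_ball hr0 hr1 hξ), mul_add, Complex.exp_add]
      ring
    rw [e1, e2, ← Finset.sum_sub_distrib]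
    refine Finset.sum_congr rfl fun s _ => ?_
    rw [← mul_sub, ← integral_sub
      (hφint _ (dz_int hcn (dz_contVf D t i (A.iso s) hr0 hr1)))
      (hφint _ (dz_int hcn (dz_contfV D t i (A.iso s) hr0 hr1)))]
    congr 1
    refine integral_congr_ae (ae_of_all _ fun ξ => ?_)
    simp only
    ring
  -- a convergent subsequence
  let r : ℕ → ℝ := fun n => 1 - 1 / ((n : ℝ) + 2)
  have hr0 : ∀ n, 0 ≤ r n := by
    intro n
    have h1 : 1 / ((n : ℝ) + 2) ≤ 1 := by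
      rw [div_le_one (by positivity)]
      have : (0 : ℝ) ≤ n := Nat.cast_nonneg n
      linarith
    simp only [r]
    linarith
  have hr1 : ∀ n, r n < 1 := by
    intro n
    have h1 : 0 < 1 / ((n : ℝ) + 2) := by positivity
    simp only [r]
    linarith
  have hrt : Tendsto r atTop (𝓝[<] 1) := by
    rw [tendsto_nhdsWithin_iff]
    refine ⟨?_, Eventually.of_forall hr1⟩
    have h1 : Tendsto (fun n : ℕ => 1 / ((n : ℝ) + 2)) atTop (𝓝 0) := by
      have h2 := tendsto_one_div_add_atTop_nhds_zero_nat (𝕜 := ℝ)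
      have h3 := h2.comp (tendsto_add_atTop_nat 1)
      refine h3.congr fun n => ?_
      simp only [Function.comp_apply]
      push_cast
      ring_nf
    have h4 := (tendsto_const_nhds (x := (1 : ℝ))).sub h1
    simpa [r] using h4
  have hx : ∀ n, a (r n) ∈ Metric.closedBall (1 : ι → ℂ) (1 / 2) := by
    intro n
    rw [Metric.mem_closedBall, dist_pi_le_iff (by norm_num)]
    intro i
    rw [dist_eq_norm]
    exact hbound i (r n) (hr0 n) (hr1 n)
  obtain ⟨v, hv, ψ, hψ, hlimv⟩ := (isCompact_closedBall (1 : ι → ℂ) (1 / 2)).tendsto_subseq hx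
  rw [← Matrix.exists_mulVec_eq_zero_iff]
  refine ⟨v, ?_, ?_⟩
  · rintro rfl
    rw [Metric.mem_closedBall, dist_pi_le_iff (by norm_num)] at hv
    obtain ⟨i⟩ := (inferInstance : Nonempty ι)
    have h1 := hv i
    simp only [Pi.zero_apply, Pi.one_apply, dist_zero_left, norm_one] at h1
    norm_num at h1
  · ext i
    have h1 : ∀ k, Tendsto (fun n => a (r (ψ n)) k) atTop (𝓝 (v k)) := fun k =>
      (tendsto_pi_nhds.1 hlimv) k
    have h2 : Tendsto (fun n => a (r (ψ n)) i -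
        ∑ k, D.T W (fun x => Complex.exp (t * x)) i k * a (r (ψ n)) k) atTop
        (𝓝 (v i - ∑ k, D.T W (fun x => Complex.exp (t * x)) i k * v k)) :=
      (h1 i).sub (tendsto_finsetSum _ fun k _ => (h1 k).const_mul _)
    have h3 : Tendsto (fun n => a (r (ψ n)) i -
        ∑ k, D.T W (fun x => Complex.exp (t * x)) i k * a (r (ψ n)) k) atTop (𝓝 0) :=
      (hlim i).comp (hrt.comp hψ.tendsto_atTop)
    have h4 := tendsto_nhds_unique h2 h3
    rw [Matrix.sub_mulVec, Matrix.one_mulVec, Pi.sub_apply, Pi.zero_apply, ← h4]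
    rfl

end Pool.Agent.Lib.KLP
end
end
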