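import Pool.Agent.Lib.MP_a137af_pr.IsomClass
import Pool.Agent.Lib.MP_a137af_pr.CircMap
import Pool.Agent.Lib.MP_a137af_pr.DiscIso

section

/-!
# G4: packing estimate
-/

set_option autoImplicit false
open MeasureTheory Set Filter Topology
open scoped ENNReal ComplexConjugate

namespace Pool.Agent.Lib.KLP

variable {Γ : Type*} [Group Γ]

/-- difference of `1 - |z|²` -/
private lemma pk_tau_sub {z w : ℂ} (hz : ‖z‖ ≤ 1) (hw : ‖w‖ ≤ 1) :
    |(1 - ‖z‖ ^ 2) - (1 - ‖w‖ ^ 2)| ≤ 2 * ‖z - w‖ := by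
  have h1 : (1 - ‖z‖ ^ 2) - (1 - ‖w‖ ^ 2) = (‖w‖ - ‖z‖) * (‖w‖ + ‖z‖) := by ring
  rw [h1, abs_mul]
  have h2 : |‖w‖ - ‖z‖| ≤ ‖z - w‖ := by
    rw [abs_sub_comm]
    exact abs_norm_sub_norm_le z w
  have h3 : |‖w‖ + ‖z‖| ≤ 2 := by
    rw [abs_of_nonneg (by positivity)]
    linarith
  calc |‖w‖ - ‖z‖| * |‖w‖ + ‖z‖| ≤ ‖z - w‖ * 2 :=
        mul_le_mul h2 h3 (abs_nonneg _) (norm_nonneg _)
    _ = _ := by ring

private lemma pk_ball_norm {z w : ℂ} (hw : ‖w‖ < 1) (h : ‖z - w‖ < (1 - ‖w‖ ^ 2) / 8) :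
    ‖z‖ < 1 := by
  have h1 : ‖z‖ ≤ ‖w‖ + ‖z - w‖ := by
    have := norm_add_le w (z - w)
    rwa [add_sub_cancel] at this
  have h2 : 0 ≤ ‖w‖ := norm_nonneg w
  nlinarith

/-- algebra of the bounded overlap -/
private lemma pk_alg {t t' τ d e : ℝ} (ht : 0 < t) (ht' : 0 < t') (h1 : |τ - t| ≤ t / 4)
    (h2 : |τ - t'| ≤ t' / 4) (hd0 : 0 ≤ d) (hd : d ≤ (t + t') / 8) (he : e = d ^ 2 + t * t') :
    1 / 2 ≤ t * t' / e := by
  rw [abs_le] at h1 h2
  have ha : t' ≤ 5 / 3 * t := by linarith [h1.1, h1.2, h2.1, h2.2]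
  have hb : t ≤ 5 / 3 * t' := by linarith [h1.1, h1.2, h2.1, h2.2]
  have hd2 : d ^ 2 ≤ ((t + t') / 8) ^ 2 := pow_le_pow_left₀ hd0 hd 2
  have htt : 0 < t * t' := mul_pos ht ht'
  have h3 : (t + t') ^ 2 ≤ 64 * (t * t') := by nlinarith
  have he0 : 0 < e := by rw [he]; positivity
  rw [le_div_iff₀ he0, he]
  nlinarith

private lemma pk_overlap (A : DAct Γ) {z : ℂ} {v v' : Γ}
    (h : ‖z - A.act v 0‖ < A.t v / 8) (h' : ‖z - A.act v' 0‖ < A.t v' / 8) :
    1 / 2 ≤ A.t (v⁻¹ * v') := by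
  have hv := A.norm_act_lt v (z := 0) (by simp)
  have hv' := A.norm_act_lt v' (z := 0) (by simp)
  have hz : ‖z‖ < 1 := pk_ball_norm hv h
  have e1 := pk_tau_sub hz.le hv.le
  have e2 := pk_tau_sub hz.le hv'.le
  rw [← A.kap_orbit, kap]
  refine pk_alg (τ := 1 - ‖z‖ ^ 2) (d := ‖A.act v 0 - A.act v' 0‖) (A.t_pos v) (A.t_pos v') ?_ ?_
    (norm_nonneg _) ?_ (norm_one_sub_conj_mul_sq _ _)
  · unfold DAct.t at *
    linarith
  · unfold DAct.t at *
    linarith
  · have : ‖A.act v 0 - A.act v' 0‖ ≤ ‖z - A.act v 0‖ + ‖z - A.act v' 0‖ := by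
      have := norm_sub_le (z - A.act v' 0) (z - A.act v 0)
      have e : z - A.act v' 0 - (z - A.act v 0) = A.act v 0 - A.act v' 0 := by ring
      rw [e] at this
      linarith
    unfold DAct.t at *
    linarith

/-- the region containing the balls -/
private def pkOmega (ξ : ℂ) (r δ : ℝ) : Set ℂ :=
  {z | ‖z‖ < 1 ∧ 1 - ‖z‖ ≤ 5 / 4 * (δ * r) ∧ ‖z - ξ‖ ≤ 2 * r}

private lemma pk_omega_meas (ξ : ℂ) (r δ : ℝ) : MeasurableSet (pkOmega ξ r δ) := by
  have h1 : MeasurableSet {z : ℂ | ‖z‖ < 1} := (isOpen_lt continuous_norm continuous_const).measurableSet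
  have h2 : MeasurableSet {z : ℂ | 1 - ‖z‖ ≤ 5 / 4 * (δ * r)} :=
    (isClosed_le (by fun_prop) continuous_const).measurableSet
  have h3 : MeasurableSet {z : ℂ | ‖z - ξ‖ ≤ 2 * r} :=
    (isClosed_le (by fun_prop) continuous_const).measurableSet
  exact h1.inter (h2.inter h3)

private lemma pk_ball_subset (A : DAct Γ) {ξ : ℂ} {r δ : ℝ} {v : Γ} (hr : 0 < r)
    (hδ : δ ≤ 2) (h1 : ‖A.act v 0 - ξ‖ ≤ r) (h2 : A.t v ≤ δ * r) :
    Metric.ball (A.act v 0) (A.t v / 8) ⊆ pkOmega ξ r δ := by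
  intro z hz
  rw [mem_ball_iff_norm] at hz
  have hv := A.norm_act_lt v (z := 0) (by simp)
  have hz1 : ‖z‖ < 1 := pk_ball_norm hv hz
  have e1 := pk_tau_sub hz1.le hv.le
  rw [abs_le] at e1
  have ht := A.t_pos v
  refine ⟨hz1, ?_, ?_⟩
  · have e2 : 1 - ‖z‖ ≤ 1 - ‖z‖ ^ 2 := by nlinarith [norm_nonneg z]
    have e3 : 1 - ‖z‖ ^ 2 ≤ 5 / 4 * A.t v := by
      unfold DAct.t at *
      linarith [e1.2]
    linarith
  · have e2 : ‖z - ξ‖ ≤ ‖z - A.act v 0‖ + ‖A.act v 0 - ξ‖ := by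
      have := norm_add_le (z - A.act v 0) (A.act v 0 - ξ)
      rwa [sub_add_sub_cancel] at this
    have e3 : A.t v ≤ 2 * r := by nlinarith
    linarith

private lemma pk_omega_vol {ξ : ℂ} {r δ : ℝ} (hξ : ‖ξ‖ = 1) (hr : 0 < r) (hδ : 0 < δ) :
    volume (pkOmega ξ r δ) ≤ ENNReal.ofReal (10 * Real.pi * δ * r ^ 2) := by
  have hpi := Real.pi_pos
  have h0 : volume (pkOmega ξ r δ) = ∫⁻ z, (pkOmega ξ r δ).indicator 1 z := by
    rw [lintegral_indicator_one (pk_omega_meas ξ r δ)]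
  rw [h0, ← Complex.lintegral_comp_polarCoord_symm]
  set Θ : Set ℝ := {θ : ℝ | Complex.exp ((θ : ℂ) * Complex.I) ∈ Metric.closedBall ξ (4 * r)} ∩
    Ioc (-Real.pi) Real.pi with hΘ
  have hΘm : MeasurableSet Θ := by
    refine MeasurableSet.inter ?_ measurableSet_Ioc
    have : Measurable (fun θ : ℝ => Complex.exp ((θ : ℂ) * Complex.I)) := by fun_prop
    exact this Metric.isClosed_closedBall.measurableSet
  set S : Set (ℝ × ℝ) := (Icc (1 - 5 / 4 * (δ * r)) 1) ×ˢ Θ with hS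
  have hSm : MeasurableSet S := measurableSet_Icc.prod hΘm
  have hle : ∫⁻ p in polarCoord.target, ENNReal.ofReal p.1 •
      (pkOmega ξ r δ).indicator 1 (Complex.polarCoord.symm p) ≤ ∫⁻ p, S.indicator 1 p := by
    calc _ ≤ ∫⁻ p in polarCoord.target, S.indicator 1 p := by
          refine setLIntegral_mono' polarCoord.open_target.measurableSet ?_
          intro p hp
          rw [polarCoord_target] at hp
          have hp1 : 0 < p.1 := hp.1
          have hp2 : p.2 ∈ Ioo (-Real.pi) Real.pi := hp.2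
          by_cases hmem : Complex.polarCoord.symm p ∈ pkOmega ξ r δ
          · have e1 : Complex.polarCoord.symm p = (p.1 : ℂ) * Complex.exp ((p.2 : ℂ) * Complex.I) := by
              rw [Complex.polarCoord_symm_apply, Complex.exp_mul_I]
              push_cast
              rfl
            have e2 : ‖Complex.polarCoord.symm p‖ = p.1 := by
              rw [e1, norm_mul, Complex.norm_exp_ofReal_mul_I, mul_one, Complex.norm_real,
                Real.norm_eq_abs, abs_of_pos hp1]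
            have hm1 := hmem.1
            have hm2 := hmem.2.1
            have hm3 := hmem.2.2
            rw [e2] at hm1 hm2
            have hpS : p ∈ S := by
              refine ⟨⟨by linarith, hm1.le⟩, ?_, hp2.1, hp2.2.le⟩
              rw [mem_ofPred_eq, mem_closedBall_iff_norm]
              have e3 : ‖Complex.exp ((p.2 : ℂ) * Complex.I) - Complex.polarCoord.symm p‖ =
                  1 - p.1 := by
                rw [e1]
                have : Complex.exp ((p.2 : ℂ) * Complex.I) -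
                    (p.1 : ℂ) * Complex.exp ((p.2 : ℂ) * Complex.I) =
                    ((1 - p.1 : ℝ) : ℂ) * Complex.exp ((p.2 : ℂ) * Complex.I) := by
                  push_cast
                  ring
                rw [this, norm_mul, Complex.norm_exp_ofReal_mul_I, mul_one, Complex.norm_real,
                  Real.norm_eq_abs, abs_of_pos (by linarith)]
              have e4 : 1 - p.1 ≤ 2 * r := by
                have := norm_sub_norm_le ξ (Complex.polarCoord.symm p)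
                rw [hξ, e2, norm_sub_rev] at this
                linarith
              have e5 := norm_add_le (Complex.exp ((p.2 : ℂ) * Complex.I) -
                Complex.polarCoord.symm p) (Complex.polarCoord.symm p - ξ)
              rw [sub_add_sub_cancel, e3] at e5
              linarith
            rw [Set.indicator_of_mem hmem, Set.indicator_of_mem hpS, Pi.one_apply, Pi.one_apply,
              smul_eq_mul, mul_one]
            exact ENNReal.ofReal_le_one.2 hm1.le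
          · rw [Set.indicator_of_notMem hmem, smul_zero]
            exact zero_le
      _ ≤ _ := setLIntegral_le_lintegral _ _
  refine hle.trans ?_
  rw [lintegral_indicator_one hSm, hS, Measure.volume_eq_prod, Measure.prod_prod, Real.volume_Icc]
  -- the angular part
  have hc := circ_closedBall_le ξ (ρ := 4 * r) (by positivity)
  rw [circ_apply Metric.isClosed_closedBall.measurableSet] at hc
  have hvol : volume Θ ≤ ENNReal.ofReal (2 * Real.pi * (4 * r)) := by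
    have h1 : volume Θ = ENNReal.ofReal (2 * Real.pi) *
        (ENNReal.ofReal (1 / (2 * Real.pi)) * volume Θ) := by
      rw [← mul_assoc, ← ENNReal.ofReal_mul (by positivity)]
      have : 2 * Real.pi * (1 / (2 * Real.pi)) = 1 := by field_simp
      rw [this, ENNReal.ofReal_one, one_mul]
    rw [h1, ENNReal.ofReal_mul (p := 2 * Real.pi) (by positivity)]
    exact mul_le_mul_right hc _
  calc ENNReal.ofReal (1 - (1 - 5 / 4 * (δ * r))) * volume Θ
      ≤ ENNReal.ofReal (1 - (1 - 5 / 4 * (δ * r))) * ENNReal.ofReal (2 * Real.pi * (4 * r)) :=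
        mul_le_mul_right hvol _
    _ = ENNReal.ofReal (10 * Real.pi * δ * r ^ 2) := by
        rw [← ENNReal.ofReal_mul (by
          have : 0 < δ * r := by positivity
          linarith)]
        congr 1
        ring

/-- finite version -/
private lemma pk_finset (A : DAct Γ) : ∃ C : ℝ, 0 < C ∧ ∀ (ξ : ℂ) (r δ : ℝ), ‖ξ‖ = 1 → 0 < r →
    0 < δ → δ ≤ 2 → ∀ s : Finset Γ, (∀ v ∈ s, ‖A.act v 0 - ξ‖ ≤ r ∧ A.t v ≤ δ * r) →
    ∑ v ∈ s, A.t v ^ 2 ≤ C * δ * r ^ 2 := by
  classical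
  have hpi := Real.pi_pos
  have hfin := A.finite_t (ε := 1 / 2) (by norm_num)
  set T : Finset Γ := hfin.toFinset with hT
  refine ⟨640 * ((T.card : ℝ) + 1), by positivity, ?_⟩
  intro ξ r δ hξ hr hδ hδ2 s hs
  have hcard : ∀ z : ℂ, ∑ v ∈ s, (Metric.ball (A.act v 0) (A.t v / 8)).indicator
      (1 : ℂ → ℝ≥0∞) z ≤ (pkOmega ξ r δ).indicator (fun _ => (T.card : ℝ≥0∞)) z := by
    intro z
    set s' := s.filter (fun v => z ∈ Metric.ball (A.act v 0) (A.t v / 8)) with hs'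
    have h1 : ∑ v ∈ s, (Metric.ball (A.act v 0) (A.t v / 8)).indicator (1 : ℂ → ℝ≥0∞) z =
        (s'.card : ℝ≥0∞) := by
      rw [hs', Finset.card_filter]
      push_cast
      refine Finset.sum_congr rfl fun v _ => ?_
      by_cases h : z ∈ Metric.ball (A.act v 0) (A.t v / 8)
      · rw [Set.indicator_of_mem h, if_pos h, Pi.one_apply]
      · rw [Set.indicator_of_notMem h, if_neg h]
    rw [h1]
    rcases s'.eq_empty_or_nonempty with h | ⟨v₀, hv₀⟩
    · rw [h, Finset.card_empty, Nat.cast_zero]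
      exact zero_le
    · have hv₀' : v₀ ∈ s ∧ z ∈ Metric.ball (A.act v₀ 0) (A.t v₀ / 8) := by
        rw [hs', Finset.mem_filter] at hv₀
        exact hv₀
      have hz : z ∈ pkOmega ξ r δ :=
        pk_ball_subset A hr hδ2 (hs v₀ hv₀'.1).1 (hs v₀ hv₀'.1).2 hv₀'.2
      rw [Set.indicator_of_mem hz]
      have h2 : s'.card ≤ T.card := by
        refine Finset.card_le_card_of_injOn (fun v => v₀⁻¹ * v) ?_ ?_
        · intro v hv
          have hv' : v ∈ s ∧ z ∈ Metric.ball (A.act v 0) (A.t v / 8) := by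
            have := Finset.mem_coe.1 hv
            rw [hs', Finset.mem_filter] at this
            exact this
          rw [hT, Set.Finite.coe_toFinset]
          exact pk_overlap A (mem_ball_iff_norm.1 hv₀'.2) (mem_ball_iff_norm.1 hv'.2)
        · intro v _ v' _ h
          exact mul_left_cancel h
      exact_mod_cast h2
  have hint : ∫⁻ z, ∑ v ∈ s, (Metric.ball (A.act v 0) (A.t v / 8)).indicator
      (1 : ℂ → ℝ≥0∞) z ≤ (T.card : ℝ≥0∞) * ENNReal.ofReal (10 * Real.pi * δ * r ^ 2) := by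
    refine (lintegral_mono hcard).trans ?_
    rw [lintegral_indicator_const (pk_omega_meas ξ r δ)]
    exact mul_le_mul_right (pk_omega_vol hξ hr hδ) _
  rw [lintegral_finsetSum _ (fun v _ => (measurable_one.indicator
    Metric.isOpen_ball.measurableSet))] at hint
  have hball : ∀ v ∈ s, ∫⁻ z, (Metric.ball (A.act v 0) (A.t v / 8)).indicator
      (1 : ℂ → ℝ≥0∞) z = ENNReal.ofReal (A.t v ^ 2 * (Real.pi / 64)) := by
    intro v _
    have ht := A.t_pos v
    rw [lintegral_indicator_one Metric.isOpen_ball.measurableSet, Complex.volume_ball]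
    have : ((NNReal.pi : NNReal) : ℝ≥0∞) = ENNReal.ofReal Real.pi := by
      rw [← NNReal.coe_real_pi, ENNReal.ofReal_coe_nnreal]
    rw [this, ← ENNReal.ofReal_pow (by positivity), ← ENNReal.ofReal_mul (by positivity)]
    congr 1
    ring
  rw [Finset.sum_congr rfl hball, ← ENNReal.ofReal_sum_of_nonneg (fun v _ => by positivity)] at hint
  have h3 : (T.card : ℝ≥0∞) * ENNReal.ofReal (10 * Real.pi * δ * r ^ 2) =
      ENNReal.ofReal ((T.card : ℝ) * (10 * Real.pi * δ * r ^ 2)) := by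
    rw [ENNReal.ofReal_mul (p := (T.card : ℝ)) (by positivity), ENNReal.ofReal_natCast]
  rw [h3, ENNReal.ofReal_le_ofReal_iff (by positivity), ← Finset.sum_mul] at hint
  have h4 : (∑ v ∈ s, A.t v ^ 2) ≤ 640 * (T.card : ℝ) * δ * r ^ 2 := by
    have h5 : (∑ v ∈ s, A.t v ^ 2) * Real.pi ≤ (640 * (T.card : ℝ) * δ * r ^ 2) * Real.pi := by
      nlinarith
    exact le_of_mul_le_mul_right h5 hpi
  refine h4.trans ?_
  have : 0 ≤ δ * r ^ 2 := by positivity
  nlinarith

open Classical in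
theorem packing (A : DAct Γ) : ∃ C : ℝ, 0 < C ∧ ∀ (ξ : ℂ) (r δ : ℝ), ‖ξ‖ = 1 → 0 < r → 0 < δ →
    δ ≤ 2 →
    ∑' v : Γ, (if ‖A.act v 0 - ξ‖ ≤ r ∧ A.t v ≤ δ * r then ENNReal.ofReal (A.t v ^ 2) else 0)
      ≤ ENNReal.ofReal (C * δ * r ^ 2) := by
  obtain ⟨C, hC, h⟩ := pk_finset A
  refine ⟨C, hC, fun ξ r δ hξ hr hδ hδ2 => ?_⟩
  rw [ENNReal.tsum_eq_iSup_sum]
  refine iSup_le fun s => ?_
  rw [← Finset.sum_filter, ← ENNReal.ofReal_sum_of_nonneg (fun v _ => sq_nonneg _)]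
  refine ENNReal.ofReal_le_ofReal (h ξ r δ hξ hr hδ hδ2 _ fun v hv => ?_)
  exact (Finset.mem_filter.1 hv).2

theorem summable_t_sq (A : DAct Γ) : Summable (fun g => A.t g ^ 2) := by
  obtain ⟨C, hC, h⟩ := pk_finset A
  refine summable_of_sum_le (c := C * (1 / 2) * 2 ^ 2) (fun g => sq_nonneg _) fun s => ?_
  refine h 1 2 (1 / 2) (by simp) (by norm_num) (by norm_num) (by norm_num) s fun v _ => ?_
  constructor
  · have h1 := norm_sub_le (A.act v 0) 1
    have h2 := A.norm_act_le v (z := 0) (by simp)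
    rw [norm_one] at h1
    linarith
  · have := A.t_le_one v
    linarith

end Pool.Agent.Lib.KLP
end

section

section

/-!
# P4: independence of exponentials
-/

set_option autoImplicit false
open MeasureTheory Set Filter Topology
open scoped ENNReal ComplexConjugate

namespace Pool.Agent.Lib.KLP

variable {Γ : Type*} [Group Γ] {A : DAct Γ} {ι : Type*}

/-- The multiplicative character of a function `θ` with `θ(x+y) = θ(x) θ(y)`. -/
private noncomputable def dcHom (θ : ℂ → ℂ) (hθ0 : θ 0 = 1)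
    (hθ : ∀ x y, θ (x + y) = θ x * θ y) : Multiplicative ℂ →* ℂ where
  toFun x := θ x.toAdd
  map_one' := hθ0
  map_mul' x y := hθ _ _

/-- Evaluation of the group algebra of `ℂ` at a character. -/
private noncomputable def dcEv (θ : ℂ → ℂ) (hθ0 : θ 0 = 1)
    (hθ : ∀ x y, θ (x + y) = θ x * θ y) : AddMonoidAlgebra ℂ ℂ →ₐ[ℂ] ℂ :=
  AddMonoidAlgebra.lift ℂ ℂ ℂ (dcHom θ hθ0 hθ)

private theorem dcEv_single (θ : ℂ → ℂ) (hθ0 : θ 0 = 1)
    (hθ : ∀ x y, θ (x + y) = θ x * θ y) (x c : ℂ) :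
    dcEv θ hθ0 hθ (AddMonoidAlgebra.single x c) = c * θ x := by
  unfold dcEv
  rw [AddMonoidAlgebra.lift_single]
  rfl

private theorem dcEv_apply (θ : ℂ → ℂ) (hθ0 : θ 0 = 1)
    (hθ : ∀ x y, θ (x + y) = θ x * θ y) (d : AddMonoidAlgebra ℂ ℂ) :
    dcEv θ hθ0 hθ d = ∑ x ∈ d.coeff.support, d.coeff x * θ x := by
  unfold dcEv
  rw [AddMonoidAlgebra.lift_apply]
  rfl

/-- The transfer matrix over the group algebra. -/
private noncomputable def dcTT (W : Walk Γ) [DecidableEq ι] (D : BlochData A ι) :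
    Matrix ι ι (AddMonoidAlgebra ℂ ℂ) :=
  fun i k => ∑ s ∈ W.S, if D.j s i = k then
    AddMonoidAlgebra.single (D.χ s i) ((W.μ s : ℝ) : ℂ) else 0

private theorem dc_det (W : Walk Γ) [Fintype ι] [DecidableEq ι] (D : BlochData A ι)
    (θ : ℂ → ℂ) (hθ0 : θ 0 = 1) (hθ : ∀ x y, θ (x + y) = θ x * θ y) :
    dcEv θ hθ0 hθ ((1 - dcTT W D).det) = (1 - D.T W θ).det := by
  rw [AlgHom.map_det]
  congr 1
  ext i k
  rw [AlgHom.mapMatrix_apply, Matrix.map_apply, Matrix.sub_apply, Matrix.sub_apply, map_sub]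
  congr 1
  · rw [Matrix.one_apply, Matrix.one_apply]
    split_ifs
    · exact map_one _
    · exact map_zero _
  · unfold dcTT BlochData.T
    rw [map_sum]
    refine Finset.sum_congr rfl fun s _ => ?_
    split_ifs
    · exact dcEv_single θ hθ0 hθ _ _
    · exact map_zero _

private theorem dc_exp0 (t : ℂ) : Complex.exp (t * 0) = 1 := by simp

private theorem dc_expadd (t x y : ℂ) :
    Complex.exp (t * (x + y)) = Complex.exp (t * x) * Complex.exp (t * y) := by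
  rw [mul_add, Complex.exp_add]

/-- The character `t ↦ exp (t x)`. -/
private noncomputable def dcChar (x : ℂ) : Multiplicative ℂ →* ℂ where
  toFun t := Complex.exp (t.toAdd * x)
  map_one' := by simp
  map_mul' s t := by
    rw [toAdd_mul, add_mul, Complex.exp_add]

private theorem dcChar_injective : Function.Injective dcChar := by
  intro x y hxy
  by_contra hne
  have hsub : x - y ≠ 0 := sub_ne_zero.2 hne
  have h1 : Complex.exp ((1 / (x - y)) * x) = Complex.exp ((1 / (x - y)) * y) :=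
    congrArg (fun f : Multiplicative ℂ →* ℂ => f (Multiplicative.ofAdd (1 / (x - y)))) hxy
  have h2 : Complex.exp 1 = 1 := by
    have h3 : (1 : ℂ) = (1 / (x - y)) * x - (1 / (x - y)) * y := by
      field_simp
    rw [h3, Complex.exp_sub, h1, div_self (Complex.exp_ne_zero _)]
    field_simp
  have h4 : Real.exp 1 = 1 := by
    have : ((Real.exp 1 : ℝ) : ℂ) = ((1 : ℝ) : ℂ) := by
      rw [Complex.ofReal_exp]
      simpa using h2
    exact_mod_cast this
  have h5 : (1 : ℝ) = 0 := by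
    rw [← Real.exp_eq_one_iff]
    exact h4
  exact one_ne_zero h5

private theorem dc_zero (d : AddMonoidAlgebra ℂ ℂ) {t₀ : ℝ} (ht₀ : 0 < t₀)
    (h : ∀ t : ℂ, ‖t‖ < t₀ → ∑ x ∈ d.coeff.support, d.coeff x * Complex.exp (t * x) = 0) :
    d = 0 := by
  have hall : ∀ t : ℂ, ∑ x ∈ d.coeff.support, d.coeff x * Complex.exp (t * x) = 0 := by
    have hdiff : Differentiable ℂ
        (fun t : ℂ => ∑ x ∈ d.coeff.support, d.coeff x * Complex.exp (t * x)) := by
      fun_prop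
    have hana : AnalyticOnNhd ℂ
        (fun t : ℂ => ∑ x ∈ d.coeff.support, d.coeff x * Complex.exp (t * x)) univ :=
      fun t _ => hdiff.analyticAt t
    have hzero : AnalyticOnNhd ℂ (fun _ : ℂ => (0 : ℂ)) univ := fun t _ => analyticAt_const
    have hev : (fun t : ℂ => ∑ x ∈ d.coeff.support, d.coeff x * Complex.exp (t * x)) =ᶠ[𝓝 0]
        (fun _ : ℂ => (0 : ℂ)) := by
      filter_upwards [Metric.ball_mem_nhds (0 : ℂ) ht₀] with t ht
      refine h t ?_
      simpa using ht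
    have := hana.eq_of_eventuallyEq hzero hev
    intro t
    exact congrFun this t
  have hli : LinearIndependent ℂ (fun x : ℂ => (dcChar x : Multiplicative ℂ → ℂ)) :=
    (linearIndependent_monoidHom (Multiplicative ℂ) ℂ).comp dcChar dcChar_injective
  rw [linearIndependent_iff'] at hli
  have hsum : ∑ x ∈ d.coeff.support, d.coeff x • (dcChar x : Multiplicative ℂ → ℂ) = 0 := by
    funext t
    rw [Finset.sum_apply]
    have := hall t.toAdd
    simpa [dcChar] using this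
  have hz := hli d.coeff.support (fun x => d.coeff x) hsum
  rw [← AddMonoidAlgebra.coeff_eq_zero]
  ext x
  by_cases hx : x ∈ d.coeff.support
  · simpa using hz x hx
  · simpa using hx

theorem det_char (W : Walk Γ) [Fintype ι] [DecidableEq ι] (D : BlochData A ι)
    (h : ∃ t₀ : ℝ, 0 < t₀ ∧ ∀ t : ℂ, ‖t‖ < t₀ →
      (1 - D.T W (fun x => Complex.exp (t * x))).det = 0)
    {θ : ℂ → ℂ} (hθ0 : θ 0 = 1) (hθ : ∀ x y, θ (x + y) = θ x * θ y) :
    (1 - D.T W θ).det = 0 := by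
  obtain ⟨t₀, ht₀, ht⟩ := h
  have hd : (1 - dcTT W D).det = 0 := by
    refine dc_zero _ ht₀ fun t htt => ?_
    have h1 := dc_det W D (fun x => Complex.exp (t * x)) (dc_exp0 t) (dc_expadd t)
    rw [dcEv_apply] at h1
    rw [h1]
    exact ht t htt
  rw [← dc_det W D θ hθ0 hθ, hd, map_zero]

end Pool.Agent.Lib.KLP
end

section

/-!
# P5: maximum principle
-/

set_option autoImplicit false
open MeasureTheory Set Filter Topology
open scoped ENNReal ComplexConjugate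

namespace Pool.Agent.Lib.KLP

variable {Γ : Type*} [Group Γ] {A : DAct Γ} {ι : Type*}

/-- equality case of the triangle inequality for a weighted mean -/
private theorem mp_eq {S : Type*} (T : Finset S) (μ : S → ℝ) (hμ : ∀ s ∈ T, 0 < μ s)
    (hsum : ∑ s ∈ T, μ s = 1) (a : S → ℂ) (v : ℂ) (ha : ∀ s ∈ T, ‖a s‖ ≤ ‖v‖)
    (hv : v = ∑ s ∈ T, (μ s : ℂ) * a s) : ∀ s ∈ T, a s = v := by
  have h1 : ∀ s ∈ T, (conj v * a s).re ≤ ‖v‖ ^ 2 := by
    intro s hs
    refine (Complex.re_le_norm _).trans ?_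
    rw [norm_mul, Complex.norm_conj, sq]
    exact mul_le_mul_of_nonneg_left (ha s hs) (norm_nonneg _)
  have h2 : ∑ s ∈ T, μ s * (‖v‖ ^ 2 - (conj v * a s).re) = 0 := by
    have h3 : (conj v * v).re = ∑ s ∈ T, μ s * (conj v * a s).re := by
      nth_rw 2 [hv]
      rw [Finset.mul_sum, Complex.re_sum]
      refine Finset.sum_congr rfl fun s _ => ?_
      rw [← mul_assoc, mul_comm (conj v) (μ s : ℂ), mul_assoc, Complex.re_ofReal_mul]
    have h4 : (conj v * v).re = ‖v‖ ^ 2 := by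
      rw [Complex.conj_mul']
      norm_cast
    simp only [mul_sub]
    rw [Finset.sum_sub_distrib, ← h3, h4, ← Finset.sum_mul, hsum, one_mul, sub_self]
  intro s hs
  have h5 := (Finset.sum_eq_zero_iff_of_nonneg (fun t ht =>
    mul_nonneg (hμ t ht).le (sub_nonneg.2 (h1 t ht)))).1 h2 s hs
  have h6 : (conj v * a s).re = ‖v‖ ^ 2 := by
    rcases mul_eq_zero.1 h5 with h | h
    · exact absurd h (hμ s hs).ne'
    · linarith
  have h7 : ‖a s - v‖ ^ 2 ≤ 0 := by
    have h8 : ‖a s - v‖ ^ 2 = ‖a s‖ ^ 2 + ‖v‖ ^ 2 - 2 * (conj v * a s).re := by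
      have := Complex.normSq_sub (a s) v
      simp only [Complex.normSq_eq_norm_sq] at this
      rw [this, mul_comm (a s)]
    have h9 : ‖a s‖ ^ 2 ≤ ‖v‖ ^ 2 := by
      have := ha s hs
      gcongr
    rw [h8, h6]
    linarith
  have h10 : ‖a s - v‖ = 0 := by
    have := norm_nonneg (a s - v)
    nlinarith
  exact sub_eq_zero.1 (norm_eq_zero.1 h10)

theorem max_pr (W : Walk Γ) [Fintype ι] [DecidableEq ι] (D : BlochData A ι)
    (h : ∀ θ : ℂ → ℂ, θ 0 = 1 → (∀ x y, θ (x + y) = θ x * θ y) → (∀ x, ‖θ x‖ = 1) →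
      (1 - D.T W θ).det = 0) :
    ∀ g i, D.j g i = i → D.χ g i = 0 := by
  intro g i hgi
  by_contra hx
  obtain ⟨θ, hθdef⟩ : ∃ θ : ℂ → ℂ, θ = fun x => Complex.exp (((D.χ g i)⁻¹ * x).re * Complex.I) :=
    ⟨_, rfl⟩
  have hθ0 : θ 0 = 1 := by rw [hθdef]; simp
  have hθadd : ∀ x y, θ (x + y) = θ x * θ y := by
    intro x y
    rw [hθdef]
    simp only
    rw [← Complex.exp_add, mul_add, Complex.add_re]
    push_cast
    ring_nf
  have hθn : ∀ x, ‖θ x‖ = 1 := by
    intro x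
    rw [hθdef]
    exact Complex.norm_exp_ofReal_mul_I _
  obtain ⟨v, hv0, hv⟩ := Matrix.exists_mulVec_eq_zero_iff.2 (h θ hθ0 hθadd hθn)
  have hveq : ∀ k, v k = ∑ s ∈ W.S, (W.μ s : ℂ) * (θ (D.χ s k) * v (D.j s k)) := by
    intro k
    have h1 := congrFun hv k
    rw [Matrix.sub_mulVec, Matrix.one_mulVec, Pi.sub_apply, Pi.zero_apply, sub_eq_zero] at h1
    rw [h1]
    unfold Matrix.mulVec dotProduct BlochData.T
    simp only [Finset.sum_mul]
    rw [Finset.sum_comm]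
    refine Finset.sum_congr rfl fun s _ => ?_
    simp only [ite_mul, zero_mul]
    rw [Finset.sum_ite_eq]
    simp [mul_assoc]
  have : Nonempty ι := ⟨i⟩
  obtain ⟨i0, hi0⟩ := Finite.exists_max (fun k => ‖v k‖)
  have hM : 0 < ‖v i0‖ := by
    obtain ⟨k, hk⟩ : ∃ k, v k ≠ 0 := by
      by_contra hcon
      push Not at hcon
      exact hv0 (funext hcon)
    exact lt_of_lt_of_le (norm_pos_iff.2 hk) (hi0 k)
  have hQ : ∀ γ : Γ, ∀ k, ‖v k‖ = ‖v i0‖ → v k = θ (D.χ γ k) * v (D.j γ k) := by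
    intro γ
    have hγ : γ ∈ Submonoid.closure (W.S : Set Γ) := by rw [W.gen]; trivial
    induction hγ using Submonoid.closure_induction with
    | mem s hs =>
      intro k hk
      refine (mp_eq W.S W.μ W.pos W.sum_eq (fun s => θ (D.χ s k) * v (D.j s k)) (v k) ?_
        (hveq k) s hs).symm
      intro s _
      rw [norm_mul, hθn, one_mul, hk]
      exact hi0 _
    | one =>
      intro k _
      have h1 := D.χ_mul 1 1 k
      rw [mul_one, D.j_one] at h1
      have h2 : D.χ 1 k = 0 := by linear_combination -h1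
      rw [h2, hθ0, D.j_one, one_mul]
    | mul a b _ _ ha hb =>
      intro k hk
      have h1 := ha k hk
      have h2 : ‖v (D.j a k)‖ = ‖v i0‖ := by
        rw [← hk]
        rw [h1]
        rw [norm_mul, hθn, one_mul]
      have h3 := hb _ h2
      rw [D.χ_mul, D.j_mul, hθadd, mul_assoc, ← h3, ← h1]
  have hall : ∀ k, ‖v k‖ = ‖v i0‖ := by
    intro k
    obtain ⟨γ, hγ⟩ := D.trans i0 k
    have h1 := hQ γ i0 rfl
    rw [hγ] at h1
    rw [h1]
    rw [norm_mul, hθn, one_mul]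
  have h1 := hQ g i (hall i)
  rw [hgi] at h1
  have hvi : v i ≠ 0 := by
    rw [← norm_pos_iff, hall i]
    exact hM
  have h2 : θ (D.χ g i) = 1 := by
    have h3 : (θ (D.χ g i) - 1) * v i = 0 := by linear_combination -h1
    rcases mul_eq_zero.1 h3 with h4 | h4
    · exact sub_eq_zero.1 h4
    · exact absurd h4 hvi
  rw [hθdef] at h2
  simp only at h2
  rw [inv_mul_cancel₀ hx, Complex.one_re, Complex.ofReal_one, one_mul,
    Complex.exp_eq_one_iff] at h2
  obtain ⟨m, hm⟩ := h2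
  have h3 : (1 : ℝ) = m * (2 * Real.pi) := by
    have := congrArg Complex.im hm
    simpa using this
  have hpi := Real.pi_gt_three
  rcases lt_trichotomy m 0 with hm0 | hm0 | hm0
  · have : (m : ℝ) < 0 := by exact_mod_cast hm0
    nlinarith
  · rw [hm0] at h3
    simp at h3
  · have : (1 : ℝ) ≤ m := by exact_mod_cast hm0
    nlinarith

end Pool.Agent.Lib.KLP
end

section

/-!
# P6: contradiction
-/

set_option autoImplicit false
open MeasureTheory Set Filter Topology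
open scoped ENNReal ComplexConjugate

namespace Pool.Agent.Lib.KLP

variable {Γ : Type*} [Group Γ] {A : DAct Γ} {ι : Type*}

private theorem const_of_max {f : ℂ → ℂ} (hf : DifferentiableOn ℂ f (Metric.ball 0 1))
    {w : ℂ} (hw : ‖w‖ < 1) (hmax : ∀ z, ‖z‖ < 1 → ‖f z‖ ≤ ‖f w‖) :
    ∃ c, ∀ z, ‖z‖ < 1 → f z = c := by
  have hw' : w ∈ Metric.ball (0 : ℂ) 1 := by simpa using hw
  have := Complex.eqOn_of_isPreconnected_of_isMaxOn_norm
    (convex_ball (0 : ℂ) 1).isPreconnected Metric.isOpen_ball hf hw'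
    (fun z hz => hmax z (by simpa using hz))
  exact ⟨f w, fun z hz => this (by simpa using hz)⟩

theorem contra [Finite ι] [Nonempty ι] (D : BlochData A ι)
    (h : ∀ g i, D.j g i = i → D.χ g i = 0) : False := by
  classical
  obtain ⟨i⟩ := (inferInstance : Nonempty ι)
  obtain ⟨ρ, hρ1, hρ⟩ := A.cocompact
  have hρ0 : 0 ≤ ρ := by
    obtain ⟨g, hg⟩ := hρ 0 (by simp)
    exact le_trans (norm_nonneg _) hg
  choose gk hgk using fun k => D.trans i k
  have hχ : ∀ g k, D.j g i = k → D.χ g i = D.χ (gk k) i := by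
    intro g k hg
    have h1 : D.j (g * (gk k)⁻¹) i = i := by
      rw [D.j_mul, hg]
      have h2 : D.j (gk k * (gk k)⁻¹) i = i := by rw [mul_inv_cancel, D.j_one]
      rw [D.j_mul, hgk] at h2
      exact h2
    have h3 := h _ _ h1
    have h4 : D.χ (g * (gk k)⁻¹ * gk k) i = D.χ (g * (gk k)⁻¹) i +
      D.χ (gk k) (D.j (g * (gk k)⁻¹) i) := D.χ_mul _ _ _
    rw [h3, h1, zero_add, inv_mul_cancel_right] at h4
    exact h4
  -- every value is taken on the compact set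
  set K : Set ℂ := ⋃ k, A.act (gk k) '' (Metric.closedBall 0 ρ) with hK
  have hsub : Metric.closedBall (0 : ℂ) ρ ⊆ Metric.closedBall 0 1 :=
    Metric.closedBall_subset_closedBall hρ1.le
  have hKc : IsCompact K := by
    rw [hK]
    apply isCompact_iUnion
    intro k
    apply (isCompact_closedBall (0 : ℂ) ρ).image_of_continuousOn
    exact ((A.iso (gk k)).continuousOn).mono hsub
  have hKne : K.Nonempty := by
    refine ⟨A.act (gk i) 0, mem_iUnion.mpr ⟨i, 0, ?_, rfl⟩⟩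
    simpa using hρ0
  have hK1 : ∀ z ∈ K, ‖z‖ < 1 := by
    intro z hz
    obtain ⟨k, w, hw, rfl⟩ := mem_iUnion.mp hz
    apply A.norm_act_lt
    have : ‖w‖ ≤ ρ := by simpa using hw
    linarith
  have hKb : K ⊆ Metric.ball 0 1 := fun z hz => by simpa using hK1 z hz
  have hval : ∀ z, ‖z‖ < 1 → ∃ w ∈ K, D.b i z = D.b i w := by
    intro z hz
    obtain ⟨g, hg⟩ := hρ z hz
    have hw1 : ‖A.act g z‖ < 1 := A.norm_act_lt g hz
    refine ⟨A.act (gk (D.j g⁻¹ i)) (A.act g z), mem_iUnion.mpr ⟨D.j g⁻¹ i, A.act g z, ?_, rfl⟩,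
      ?_⟩
    · simpa using hg
    · have e1 : D.b i (A.act g⁻¹ (A.act g z)) = D.b (D.j g⁻¹ i) (A.act g z) + D.χ g⁻¹ i :=
        D.equiv g⁻¹ i _ hw1
      rw [A.inv_act_act g hz.le] at e1
      rw [e1, D.equiv _ i _ hw1, hgk, hχ g⁻¹ _ rfl]
  have hcont : ContinuousOn (fun z => ‖D.b i z‖) K := by
    rcases D.hol i with h1 | h1
    · exact (h1.continuousOn.norm).mono hKb
    · have : (fun z => ‖D.b i z‖) = fun z => ‖conj (D.b i z)‖ := by
        funext z
        rw [RCLike.norm_conj]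
      rw [this]
      exact (h1.continuousOn.norm).mono hKb
  obtain ⟨w, hwK, hw⟩ := hKc.exists_isMaxOn hKne hcont
  have hmax : ∀ z, ‖z‖ < 1 → ‖D.b i z‖ ≤ ‖D.b i w‖ := by
    intro z hz
    obtain ⟨v, hv, hzv⟩ := hval z hz
    rw [hzv]
    exact hw hv
  apply D.nonconst i
  rcases D.hol i with h1 | h1
  · exact const_of_max h1 (hK1 w hwK) hmax
  · obtain ⟨c, hc⟩ := const_of_max h1 (hK1 w hwK) (by simpa using hmax)
    refine ⟨conj c, fun z hz => ?_⟩
    rw [← hc z hz, Complex.conj_conj]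

end Pool.Agent.Lib.KLP
end

section

/-!
# 3.5: Hölder density from ratio estimates
-/

set_option autoImplicit false
open MeasureTheory Set Filter Topology
open scoped ENNReal ComplexConjugate

namespace Pool.Agent.Lib.KLP

/-- ratio of the measures of a ball -/
private noncomputable def hdA (ν : Measure ℂ) (ξ : ℂ) (r : ℝ) : ℝ :=
  (ν (Metric.closedBall ξ r)).toReal / (circ (Metric.closedBall ξ r)).toReal

private theorem hd_circ_pos {ξ : ℂ} (hξ : ‖ξ‖ = 1) {r : ℝ} (hr : 0 < r) (hr2 : r ≤ 2) :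
    0 < (circ (Metric.closedBall ξ r)).toReal := by
  have h1 := le_circ_ball hξ hr.le hr2
  have h2 : circ (Metric.ball ξ r) ≤ circ (Metric.closedBall ξ r) :=
    measure_mono Metric.ball_subset_closedBall
  apply ENNReal.toReal_pos
  · intro h0
    have h3 : ENNReal.ofReal (r / 4) ≤ 0 := by
      rw [← h0]
      exact h1.trans h2
    have h4 : r / 4 ≤ 0 := by
      rw [nonpos_iff_eq_zero, ENNReal.ofReal_eq_zero] at h3
      exact h3
    linarith
  · exact measure_ne_top _ _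

private theorem hdA_nonneg (ν : Measure ℂ) (ξ : ℂ) (r : ℝ) : 0 ≤ hdA ν ξ r := by
  unfold hdA
  positivity

private theorem hdA_le (ν : Measure ℂ) [IsProbabilityMeasure ν] {M : ℝ} (hM : 0 < M)
    (hup : ∀ E : Set ℂ, MeasurableSet E → ν E ≤ ENNReal.ofReal M * circ E)
    {ξ : ℂ} (hξ : ‖ξ‖ = 1) {r : ℝ} (hr : 0 < r) (hr2 : r ≤ 2) : hdA ν ξ r ≤ M := by
  unfold hdA
  rw [div_le_iff₀ (hd_circ_pos hξ hr hr2)]
  have h1 := hup _ (Metric.isClosed_closedBall (x := ξ) (ε := r)).measurableSet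
  have h2 := ENNReal.toReal_mono (by
    exact ENNReal.mul_ne_top ENNReal.ofReal_ne_top (measure_ne_top _ _)) h1
  rwa [ENNReal.toReal_mul, ENNReal.toReal_ofReal hM.le] at h2

/-- the key estimate -/
private theorem hdA_sub (ν : Measure ℂ) [IsProbabilityMeasure ν] {ρ₀ κ C : ℝ}
    (h : ∀ (ξ₀ : ℂ) (r₀ : ℝ) (E E' : Set ℂ), ‖ξ₀‖ = 1 → 0 < r₀ → r₀ ≤ ρ₀ →
      MeasurableSet E → MeasurableSet E' → E ⊆ Metric.closedBall ξ₀ r₀ →
      E' ⊆ Metric.closedBall ξ₀ r₀ →
      |(ν E).toReal * (circ E').toReal - (ν E').toReal * (circ E).toReal| ≤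
        C * r₀ ^ κ * (circ E).toReal * (circ E').toReal)
    {ξ₀ ξ η : ℂ} (hξ₀ : ‖ξ₀‖ = 1) (hξ : ‖ξ‖ = 1) (hη : ‖η‖ = 1) {r₀ r s : ℝ} (hr₀ : 0 < r₀)
    (hr₀2 : r₀ ≤ ρ₀) (hr : 0 < r) (hr2 : r ≤ 2) (hs : 0 < s) (hs2 : s ≤ 2)
    (h1 : r + dist ξ ξ₀ ≤ r₀) (h2 : s + dist η ξ₀ ≤ r₀) :
    |hdA ν ξ r - hdA ν η s| ≤ C * r₀ ^ κ := by
  have h3 := h ξ₀ r₀ _ _ hξ₀ hr₀ hr₀2
    (Metric.isClosed_closedBall (x := ξ) (ε := r)).measurableSet
    (Metric.isClosed_closedBall (x := η) (ε := s)).measurableSet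
    (Metric.closedBall_subset_closedBall' h1) (Metric.closedBall_subset_closedBall' h2)
  have p1 := hd_circ_pos hξ hr hr2
  have p2 := hd_circ_pos hη hs hs2
  unfold hdA
  rw [div_sub_div _ _ p1.ne' p2.ne', abs_div, abs_of_pos (mul_pos p1 p2), div_le_iff₀ (mul_pos p1 p2)]
  rw [mul_comm (circ (Metric.closedBall ξ r)).toReal (ν (Metric.closedBall η s)).toReal]
  linarith

theorem holder_density (ν : Measure ℂ) [IsProbabilityMeasure ν] {M ρ₀ κ C : ℝ} (hM : 0 < M)
    (hρ₀ : 0 < ρ₀) (hκ : 0 < κ) (hκ1 : κ ≤ 1) (hC : 0 < C)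
    (hup : ∀ E : Set ℂ, MeasurableSet E → ν E ≤ ENNReal.ofReal M * circ E)
    (h : ∀ (ξ₀ : ℂ) (r₀ : ℝ) (E E' : Set ℂ), ‖ξ₀‖ = 1 → 0 < r₀ → r₀ ≤ ρ₀ →
      MeasurableSet E → MeasurableSet E' → E ⊆ Metric.closedBall ξ₀ r₀ →
      E' ⊆ Metric.closedBall ξ₀ r₀ →
      |(ν E).toReal * (circ E').toReal - (ν E').toReal * (circ E).toReal| ≤
        C * r₀ ^ κ * (circ E).toReal * (circ E').toReal) :
    ∃ (φ : ℂ → ℝ) (H : ℝ), Measurable φ ∧ (∀ ξ, 0 ≤ φ ξ) ∧ (∀ ξ, φ ξ ≤ H) ∧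
      (∀ ξ η : ℂ, ‖ξ‖ = 1 → ‖η‖ = 1 → |φ ξ - φ η| ≤ H * ‖ξ - η‖ ^ κ) ∧
      ν = circ.withDensity (fun ξ => ENNReal.ofReal (φ ξ)) := by
  classical
  obtain ⟨ρ, hρ, hρ1, hρρ⟩ : ∃ ρ : ℝ, 0 < ρ ∧ ρ ≤ 1 ∧ ρ ≤ ρ₀ :=
    ⟨min 1 ρ₀, lt_min one_pos hρ₀, min_le_left _ _, min_le_right _ _⟩
  set R : ℕ → ℝ := fun n => ρ * (1 / ((n : ℝ) + 1)) with hR
  have hRpos : ∀ n, 0 < R n := fun n => by simp only [hR]; positivity
  have hRanti : ∀ n m, n ≤ m → R m ≤ R n := by
    intro n m hnm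
    simp only [hR]
    apply mul_le_mul_of_nonneg_left _ hρ.le
    apply one_div_le_one_div_of_le (by positivity)
    have : (n : ℝ) ≤ m := by exact_mod_cast hnm
    linarith
  have hRle : ∀ n, R n ≤ ρ := by
    intro n
    have h1 := hRanti 0 n (Nat.zero_le n)
    simpa [hR] using h1
  have hRlim : Tendsto R atTop (𝓝 0) := by
    have h1 := (tendsto_one_div_add_atTop_nhds_zero_nat (𝕜 := ℝ)).const_mul ρ
    rwa [mul_zero] at h1
  -- Cauchy
  have hcau : ∀ ξ : ℂ, ‖ξ‖ = 1 → CauchySeq (fun n => hdA ν ξ (R n)) := by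
    intro ξ hξ
    apply cauchySeq_of_le_tendsto_0 (fun N => C * R N ^ κ)
    · intro n m N hn hm
      rw [Real.dist_eq]
      have h1 := hRle n
      have h2 := hRle m
      have h3 := hRle N
      apply hdA_sub ν h hξ hξ hξ (hRpos N) (by linarith) (hRpos n) (by linarith) (hRpos m)
        (by linarith)
      · rw [dist_self, add_zero]; exact hRanti N n hn
      · rw [dist_self, add_zero]; exact hRanti N m hm
    · have h1 : Tendsto (fun N => R N ^ κ) atTop (𝓝 ((0 : ℝ) ^ κ)) :=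
        (Real.continuousAt_rpow_const 0 κ (Or.inr hκ.le)).tendsto.comp hRlim
      rw [Real.zero_rpow hκ.ne'] at h1
      have h2 := h1.const_mul C
      rwa [mul_zero] at h2
  choose! L hL using fun ξ (hξ : ‖ξ‖ = 1) => cauchySeq_tendsto_of_complete (hcau ξ hξ)
  have hL0 : ∀ ξ : ℂ, ‖ξ‖ = 1 → 0 ≤ L ξ := fun ξ hξ =>
    ge_of_tendsto (hL ξ hξ) (Eventually.of_forall fun n => hdA_nonneg ν ξ _)
  have hLM : ∀ ξ : ℂ, ‖ξ‖ = 1 → L ξ ≤ M := fun ξ hξ =>
    le_of_tendsto (hL ξ hξ) (Eventually.of_forall fun n =>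
      hdA_le ν hM hup hξ (hRpos n) (by linarith [hRle n]))
  have hLA : ∀ ξ : ℂ, ‖ξ‖ = 1 → ∀ r, 0 < r → r ≤ ρ → |L ξ - hdA ν ξ r| ≤ C * r ^ κ := by
    intro ξ hξ r hr hrρ
    have h1 : Tendsto (fun n => |hdA ν ξ (R n) - hdA ν ξ r|) atTop (𝓝 |L ξ - hdA ν ξ r|) :=
      ((hL ξ hξ).sub_const _).abs
    apply le_of_tendsto h1
    have h2 : ∀ᶠ n in atTop, R n < r := (tendsto_order.1 hRlim).2 r hr
    filter_upwards [h2] with n hn
    apply hdA_sub ν h hξ hξ hξ hr (by linarith) (hRpos n) (by linarith) hr (by linarith)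
    · rw [dist_self, add_zero]; exact hn.le
    · rw [dist_self, add_zero]
  set H : ℝ := 4 * C + M * (2 / ρ) + M with hH
  have hHpos : 0 < H := by positivity
  have hhol : ∀ ξ η : ℂ, ‖ξ‖ = 1 → ‖η‖ = 1 → |L ξ - L η| ≤ H * ‖ξ - η‖ ^ κ := by
    intro ξ η hξ hη
    set s := ‖ξ - η‖ with hs
    rcases (norm_nonneg (ξ - η)).eq_or_lt with h0 | h0
    · have h1 : ξ = η := by
        rw [eq_comm, norm_eq_zero, sub_eq_zero] at h0
        exact h0
      rw [h1, sub_self, abs_zero]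
      positivity
    rw [← hs] at h0
    have hsκ : 0 < s ^ κ := Real.rpow_pos_of_pos h0 κ
    rcases le_or_gt s (ρ / 2) with h1 | h1
    · have e1 := hLA ξ hξ s h0 (by linarith)
      have e2 := hLA η hη s h0 (by linarith)
      have e3 : |hdA ν ξ s - hdA ν η s| ≤ C * (2 * s) ^ κ := by
        apply hdA_sub ν h hξ hξ hη (by linarith) (by linarith) h0 (by linarith) h0 (by linarith)
        · rw [dist_self]; linarith
        · rw [dist_eq_norm, norm_sub_rev, ← hs]; linarith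
      have e4 : (2 * s) ^ κ ≤ 2 * s ^ κ := by
        rw [Real.mul_rpow (by norm_num) h0.le]
        apply mul_le_mul_of_nonneg_right _ hsκ.le
        calc (2 : ℝ) ^ κ ≤ 2 ^ (1 : ℝ) := Real.rpow_le_rpow_of_exponent_le (by norm_num) hκ1
          _ = 2 := Real.rpow_one 2
      have e5 : L ξ - L η = (L ξ - hdA ν ξ s) + (hdA ν ξ s - hdA ν η s) + -(L η - hdA ν η s) := by
        ring
      rw [e5]
      refine (abs_add_three _ _ _).trans ?_
      rw [abs_neg]
      have e6 : C * (2 * s) ^ κ ≤ C * (2 * s ^ κ) := mul_le_mul_of_nonneg_left e4 hC.le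
      have e7 : 4 * C * s ^ κ ≤ H * s ^ κ := by
        apply mul_le_mul_of_nonneg_right _ hsκ.le
        rw [hH]
        have : 0 < M * (2 / ρ) := by positivity
        linarith
      linarith
    · have e1 : |L ξ - L η| ≤ M := by
        rw [abs_le]
        constructor <;> linarith [hL0 ξ hξ, hL0 η hη, hLM ξ hξ, hLM η hη]
      have e2 : ρ / 2 ≤ s ^ κ := by
        calc ρ / 2 = (ρ / 2) ^ (1 : ℝ) := (Real.rpow_one _).symm
          _ ≤ (ρ / 2) ^ κ := Real.rpow_le_rpow_of_exponent_ge (by positivity) (by linarith) hκ1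
          _ ≤ s ^ κ := Real.rpow_le_rpow (by positivity) h1.le hκ.le
      have e3 : M ≤ M * (2 / ρ) * s ^ κ := by
        calc M = M * (2 / ρ) * (ρ / 2) := by field_simp
          _ ≤ _ := mul_le_mul_of_nonneg_left e2 (by positivity)
      have e4 : M * (2 / ρ) * s ^ κ ≤ H * s ^ κ := by
        apply mul_le_mul_of_nonneg_right _ hsκ.le
        rw [hH]
        linarith
      linarith
  set S : Set ℂ := {z : ℂ | ‖z‖ = 1} with hS
  have hSclosed : IsClosed S := isClosed_eq continuous_norm continuous_const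
  set φ : ℂ → ℝ := S.piecewise L (fun _ => 0) with hφ
  have hφS : ∀ ξ : ℂ, ‖ξ‖ = 1 → φ ξ = L ξ := fun ξ hξ => Set.piecewise_eq_of_mem _ _ _ hξ
  have hφn : ∀ ξ : ℂ, ‖ξ‖ ≠ 1 → φ ξ = 0 := fun ξ hξ => Set.piecewise_eq_of_notMem _ _ _ hξ
  have hLcont : ContinuousOn L S := by
    rw [Metric.continuousOn_iff]
    intro b hb ε hε
    have h1 : Tendsto (fun x : ℝ => H * x ^ κ) (𝓝 0) (𝓝 (H * (0 : ℝ) ^ κ)) :=
      ((Real.continuousAt_rpow_const 0 κ (Or.inr hκ.le)).tendsto).const_mul H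
    rw [Real.zero_rpow hκ.ne', mul_zero, Metric.tendsto_nhds_nhds] at h1
    obtain ⟨δ, hδ, h2⟩ := h1 ε hε
    refine ⟨δ, hδ, ?_⟩
    intro a ha hab
    rw [Real.dist_eq]
    refine (hhol a b ha hb).trans_lt ?_
    have h3 := @h2 ‖a - b‖ (by
      rw [Real.dist_eq, sub_zero, abs_of_nonneg (norm_nonneg _), ← dist_eq_norm]
      exact hab)
    rw [Real.dist_eq, sub_zero] at h3
    exact (le_abs_self _).trans_lt h3
  refine ⟨φ, H, hLcont.measurable_piecewise continuousOn_const hSclosed.measurableSet, ?_, ?_, ?_, ?_⟩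
  · intro ξ
    by_cases hξ : ‖ξ‖ = 1
    · rw [hφS ξ hξ]; exact hL0 ξ hξ
    · rw [hφn ξ hξ]
  · intro ξ
    by_cases hξ : ‖ξ‖ = 1
    · rw [hφS ξ hξ]
      have h1 := hLM ξ hξ
      have : 0 < M * (2 / ρ) := by positivity
      linarith
    · rw [hφn ξ hξ]; exact hHpos.le
  · intro ξ η hξ hη
    rw [hφS ξ hξ, hφS η hη]
    exact hhol ξ η hξ hη
  · have hac : ν ≪ circ := by
      refine Measure.AbsolutelyContinuous.mk fun s hs h0 => ?_
      have h1 := hup s hs
      rw [h0, mul_zero] at h1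
      exact nonpos_iff_eq_zero.1 h1
    have h1 : circ.withDensity (ν.rnDeriv circ) = ν := Measure.withDensity_rnDeriv_eq ν circ hac
    rw [← h1]
    apply withDensity_congr_ae
    filter_upwards [ae_circ_norm, Besicovitch.ae_tendsto_rnDeriv ν circ] with x hx hlim
    have h2 : Tendsto R atTop (𝓝[>] 0) := by
      rw [tendsto_nhdsWithin_iff]
      exact ⟨hRlim, Eventually.of_forall fun n => hRpos n⟩
    have h3 := hlim.comp h2
    have h4 : Tendsto (fun n => ENNReal.ofReal (hdA ν x (R n))) atTop (𝓝 (ENNReal.ofReal (L x))) :=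
      (ENNReal.continuous_ofReal.tendsto _).comp (hL x hx)
    rw [hφS x hx]
    refine tendsto_nhds_unique h3 (h4.congr fun n => ?_)
    have p1 := hd_circ_pos hx (hRpos n) (by linarith [hRle n])
    unfold hdA
    rw [ENNReal.ofReal_div_of_pos p1, ENNReal.ofReal_toReal (measure_ne_top _ _),
      ENNReal.ofReal_toReal (measure_ne_top _ _)]
    rfl

end Pool.Agent.Lib.KLP
end

section

/-!
# S7: reduction to absolutely continuous measures
-/

set_option autoImplicit false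
open MeasureTheory Set Filter Topology
open scoped ENNReal ComplexConjugate

namespace Pool.Agent.Lib.KLP

variable {Γ : Type*} [Group Γ]

private theorem ld_circ_map_ac {f : ℂ → ℂ} (hf : IsDiscIso f) : circ.map f ≪ circ := by
  rw [circ_map hf]
  exact withDensity_absolutelyContinuous _ _

private theorem ld_sing (A : DAct Γ) (g : Γ) {m : Measure ℂ} (hm : ∀ᵐ z ∂m, ‖z‖ = 1)
    (hs : m ⟂ₘ circ) : m.map (A.act g) ⟂ₘ circ := by
  obtain ⟨N, hN, hN1, hN2⟩ := hs
  refine ⟨A.act g⁻¹ ⁻¹' N, A.measurable_act g⁻¹ hN, ?_, ?_⟩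
  · rw [Measure.map_apply (A.measurable_act g) (A.measurable_act g⁻¹ hN)]
    rw [← hN1]
    apply measure_congr
    filter_upwards [hm] with z hz
    apply propext
    change A.act g⁻¹ (A.act g z) ∈ N ↔ z ∈ N
    rw [A.inv_act_act g hz.le]
  · rw [← preimage_compl, ← Measure.map_apply (A.measurable_act g⁻¹) hN.compl]
    exact ld_circ_map_ac (A.iso g⁻¹) hN2

private theorem ld_ac (A : DAct Γ) (g : Γ) {m : Measure ℂ} (hm : m ≪ circ) :
    m.map (A.act g) ≪ circ :=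
  (hm.map (A.measurable_act g)).trans (ld_circ_map_ac (A.iso g))

theorem singular_of_no_ac (A : DAct Γ) (W : Walk Γ)
    (hno : ∀ ν : Measure ℂ, IsProbabilityMeasure ν → ν ≪ circ → Stationary A W ν → False)
    (ν : Measure ℂ) [IsProbabilityMeasure ν] (hT : ∀ᵐ z ∂ν, ‖z‖ = 1)
    (hst : Stationary A W ν) : ν ⟂ₘ circ := by
  set νs : Measure ℂ := ν.singularPart circ with hνs
  set νa : Measure ℂ := circ.withDensity (ν.rnDeriv circ) with hνa
  have hdec : νs + νa = ν := Measure.singularPart_add_rnDeriv ν circ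
  have hsing : νs ⟂ₘ circ := Measure.mutuallySingular_singularPart ν circ
  have hac : νa ≪ circ := withDensity_absolutelyContinuous _ _
  have hsle : νs ≤ ν := Measure.singularPart_le ν circ
  have hale : νa ≤ ν := by rw [← hdec]; exact Measure.le_add_left le_rfl
  by_cases h0 : νa = 0
  · rw [← hdec, h0, add_zero]
    exact hsing
  exfalso
  have hafin : IsFiniteMeasure νa :=
    ⟨lt_of_le_of_lt (hale univ) (measure_lt_top ν univ)⟩
  have hsn : ∀ᵐ z ∂νs, ‖z‖ = 1 := (Measure.absolutelyContinuous_of_le hsle).ae_le hT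
  set T : Measure ℂ → Measure ℂ :=
    fun m => ∑ s ∈ W.S, ENNReal.ofReal (W.μ s) • m.map (A.act s) with hTdef
  have hTadd : T ν = T νs + T νa := by
    rw [hTdef]
    simp only
    rw [← Finset.sum_add_distrib]
    refine Finset.sum_congr rfl fun s _ => ?_
    rw [← smul_add, ← Measure.map_add _ _ (A.measurable_act s), hdec]
  have hTs : T νs ⟂ₘ circ := by
    rw [hTdef]
    simp only
    refine Finset.sum_induction _ (fun m : Measure ℂ => m ⟂ₘ circ)
      (fun a b ha hb => ha.add_left hb) Measure.MutuallySingular.zero_left ?_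
    intro s _
    exact Measure.MutuallySingular.smul _ (ld_sing A s hsn hsing)
  have hTa : T νa ≪ circ := by
    rw [hTdef]
    simp only
    refine Finset.sum_induction _ (fun m : Measure ℂ => m ≪ circ) ?_ ?_ ?_
    · intro a b ha hb E hE
      rw [Measure.add_apply, ha hE, hb hE, add_zero]
    · exact Measure.AbsolutelyContinuous.zero _
    · intro s _
      exact (ld_ac A s hac).smul_left _
  have hTν : T ν = ν := hst.symm
  have hTafin : IsFiniteMeasure (T νa) := by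
    refine ⟨lt_of_le_of_lt ?_ (measure_lt_top ν univ)⟩
    conv_rhs => rw [← hTν, hTadd]
    rw [Measure.add_apply]
    exact le_add_self
  have hwd : circ.withDensity ((T νa).rnDeriv circ) = T νa :=
    Measure.withDensity_rnDeriv_eq _ _ hTa
  have hTeq : T νa = νa := by
    have h1 : ν = T νs + circ.withDensity ((T νa).rnDeriv circ) := by
      rw [hwd, ← hTadd, hTν]
    have h2 := Measure.eq_withDensity_rnDeriv (Measure.measurable_rnDeriv _ _) hTs h1
    rw [← hwd, h2]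
  have hm0 : νa univ ≠ 0 := by
    intro h
    exact h0 (Measure.measure_univ_eq_zero.1 h)
  have hmtop : νa univ ≠ ∞ := measure_ne_top _ _
  refine hno ((νa univ)⁻¹ • νa) ?_ ?_ ?_
  · refine ⟨?_⟩
    rw [Measure.smul_apply, smul_eq_mul, ENNReal.inv_mul_cancel hm0 hmtop]
  · exact hac.smul_left _
  · unfold Stationary
    have h3 : νa = ∑ s ∈ W.S, ENNReal.ofReal (W.μ s) • νa.map (A.act s) := hTeq.symm
    generalize (νa univ)⁻¹ = c
    conv_lhs => rw [h3]
    rw [Finset.smul_sum]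
    refine Finset.sum_congr rfl fun s _ => ?_
    rw [Measure.map_smul, smul_comm]

end Pool.Agent.Lib.KLP
end

section

/-!
# S5: cocompact groups have no fixed point on the circle
-/

set_option autoImplicit false
open MeasureTheory Set Filter Topology
open scoped ENNReal ComplexConjugate

namespace Pool.Agent.Lib.KLP

variable {Γ : Type*} [Group Γ]

private lemma nf_dist (A : DAct Γ) {ζ : ℂ} (hζ : ‖ζ‖ = 1) (hfix : ∀ g, A.act g ζ = ζ) (g : Γ) :
    ‖A.act g 0 - ζ‖ ^ 2 = A.t g * A.J g ζ := by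
  have h := A.dist_act g (z := 0) (w := ζ) (by simp) hζ.le
  rw [hfix, A.J_zero] at h
  rw [h, zero_sub, norm_neg, hζ]
  ring

private lemma nf_act_mul (A : DAct Γ) (g h : Γ) : A.act (g * h) 0 = A.act g (A.act h 0) :=
  A.mul g h 0 (by simp)

private lemma nf_t_mul (A : DAct Γ) (g h : Γ) : A.t (g * h) = A.J g (A.act h 0) * A.t h := by
  have h1 := A.tau_act g (z := A.act h 0) (A.norm_act_le h (by simp))
  unfold DAct.t
  rw [nf_act_mul, h1]

private lemma nf_mul (A : DAct Γ) {ζ : ℂ} (hζ : ‖ζ‖ = 1) (hfix : ∀ g, A.act g ζ = ζ) (g h : Γ) :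
    A.J (g * h) ζ = A.J g ζ * A.J h ζ := by
  have h1 := nf_dist A hζ hfix (g * h)
  have h2 := A.dist_act g (z := A.act h 0) (w := ζ) (A.norm_act_le h (by simp)) hζ.le
  rw [hfix, ← nf_act_mul, h1, nf_dist A hζ hfix h] at h2
  have h3 := nf_t_mul A g h
  have h4 := A.t_pos (g * h)
  have h5 : A.t (g * h) * A.J (g * h) ζ = A.t (g * h) * (A.J g ζ * A.J h ζ) := by
    rw [h2, h3]
    ring
  exact mul_left_cancel₀ h4.ne' h5

private lemma nf_J_le (A : DAct Γ) (g : Γ) : ∃ M : ℝ, 0 < M ∧ ∀ z : ℂ, ‖z‖ ≤ 1 → A.J g z ≤ M := by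
  have ha : ‖A.act g⁻¹ 0‖ < 1 := A.norm_act_lt g⁻¹ (by simp)
  have ht := A.t_pos g
  refine ⟨A.t g / (1 - ‖A.act g⁻¹ 0‖) ^ 2, by
    have : 0 < 1 - ‖A.act g⁻¹ 0‖ := by linarith
    positivity, fun z hz => ?_⟩
  unfold DAct.J
  have h1 : 0 < 1 - ‖A.act g⁻¹ 0‖ := by linarith
  have h2 : 1 - ‖A.act g⁻¹ 0‖ ≤ ‖1 - conj (A.act g⁻¹ 0) * z‖ := by
    have h3 : ‖(1 : ℂ)‖ - ‖conj (A.act g⁻¹ 0) * z‖ ≤ ‖1 - conj (A.act g⁻¹ 0) * z‖ :=
      norm_sub_norm_le _ _
    rw [norm_one, norm_mul, RCLike.norm_conj] at h3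
    have h4 : ‖A.act g⁻¹ 0‖ * ‖z‖ ≤ ‖A.act g⁻¹ 0‖ := mul_le_of_le_one_right (norm_nonneg _) hz
    linarith
  gcongr

/-- a central element moves no point of the circle -/
private lemma nf_central (A : DAct Γ) (y : Γ) (hy : ∀ g, y * g = g * y) {η : ℂ} (hη : ‖η‖ = 1) :
    A.act y η = η := by
  obtain ⟨ρ, hρ, hco⟩ := A.cocompact
  have hρ0 : 0 ≤ ρ := by
    obtain ⟨g, hg⟩ := hco 0 (by simp)
    exact (norm_nonneg _).trans hg
  set c₀ : ℝ := (1 - ρ ^ 2) * (A.t y / 4 * (1 - ρ ^ 2)) / 4 with hc₀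
  have hρ2 : 0 < 1 - ρ ^ 2 := by nlinarith
  have hty := A.t_pos y
  have hc₀pos : 0 < c₀ := by positivity
  have key : ∀ z : ℂ, ‖z‖ < 1 → c₀ ≤ kap z (A.act y z) := by
    intro z hz
    obtain ⟨g, hg⟩ := hco z hz
    have e1 : kap z (A.act y z) = kap (A.act g z) (A.act y (A.act g z)) := by
      rw [← A.kap_act g hz (A.norm_act_lt y hz), ← A.mul g y z hz.le, ← A.mul y g z hz.le, hy g]
    rw [e1]
    set w := A.act g z with hw
    have hw1 : ‖w‖ < 1 := A.norm_act_lt g hz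
    have hyw : ‖A.act y w‖ < 1 := A.norm_act_lt y hw1
    have e2 := A.tau_act y hw1.le
    have e3 := A.J_lower y hw1.le
    have e4 : 1 - ρ ^ 2 ≤ 1 - ‖w‖ ^ 2 := by nlinarith [norm_nonneg w]
    have e5 : ‖1 - conj w * A.act y w‖ ^ 2 ≤ 4 := by
      have : ‖1 - conj w * A.act y w‖ ≤ 2 := by
        refine (norm_sub_le _ _).trans ?_
        rw [norm_one, norm_mul, RCLike.norm_conj]
        nlinarith [norm_nonneg w, norm_nonneg (A.act y w)]
      nlinarith [norm_nonneg (1 - conj w * A.act y w)]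
    have e6 : 0 < ‖1 - conj w * A.act y w‖ ^ 2 := by
      rw [norm_one_sub_conj_mul_sq]
      have : 0 < (1 - ‖w‖ ^ 2) * (1 - ‖A.act y w‖ ^ 2) := by
        apply mul_pos
        · linarith
        · nlinarith [norm_nonneg (A.act y w)]
      positivity
    unfold kap
    rw [hc₀, e2]
    have e7 : (1 - ρ ^ 2) * (A.t y / 4 * (1 - ρ ^ 2)) ≤
        (1 - ‖w‖ ^ 2) * (A.J y w * (1 - ‖w‖ ^ 2)) := by
      have : 0 < 1 - ‖w‖ ^ 2 := lt_of_lt_of_le hρ2 e4
      have hJw := (A.J_pos y hw1.le).le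
      gcongr
    have e8 : 0 ≤ (1 - ‖w‖ ^ 2) * (A.J y w * (1 - ‖w‖ ^ 2)) :=
      le_trans (by positivity) e7
    exact div_le_div₀ e8 e7 e6 e5
  have key2 : ∀ z : ℂ, ‖z‖ < 1 → c₀ * ‖1 - conj z * A.act y z‖ ^ 2 ≤ 1 - ‖z‖ ^ 2 := by
    intro z hz
    have h1 := key z hz
    have hyz : ‖A.act y z‖ < 1 := A.norm_act_lt y hz
    have h3 : 0 < 1 - ‖z‖ ^ 2 := by nlinarith [norm_nonneg z]
    have h4 : 0 < 1 - ‖A.act y z‖ ^ 2 := by nlinarith [norm_nonneg (A.act y z)]
    have h2 : 0 < ‖1 - conj z * A.act y z‖ ^ 2 := by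
      rw [norm_one_sub_conj_mul_sq]
      positivity
    unfold kap at h1
    rw [le_div_iff₀ h2] at h1
    refine h1.trans ?_
    exact mul_le_of_le_one_right h3.le (by nlinarith [norm_nonneg (A.act y z)])
  -- limit
  have hz : ∀ n : ℕ, ‖((1 - 1 / ((n : ℝ) + 1) : ℝ) : ℂ) * η‖ = 1 - 1 / ((n : ℝ) + 1) := by
    intro n
    rw [norm_mul, hη, mul_one, Complex.norm_real, Real.norm_of_nonneg]
    have : 1 / ((n : ℝ) + 1) ≤ 1 := by
      rw [div_le_one (by positivity)]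
      linarith [Nat.cast_nonneg (α := ℝ) n]
    linarith
  have hlim : Tendsto (fun n : ℕ => ((1 - 1 / ((n : ℝ) + 1) : ℝ) : ℂ) * η) atTop (𝓝 η) := by
    have h1 : Tendsto (fun n : ℕ => (1 - 1 / ((n : ℝ) + 1) : ℝ)) atTop (𝓝 (1 - 0)) :=
      tendsto_const_nhds.sub tendsto_one_div_add_atTop_nhds_zero_nat
    have h2 := ((Complex.continuous_ofReal.tendsto _).comp h1).mul_const η
    simpa using h2
  have hlt : ∀ n : ℕ, ‖((1 - 1 / ((n : ℝ) + 1) : ℝ) : ℂ) * η‖ < 1 := by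
    intro n
    rw [hz]
    have : 0 < 1 / ((n : ℝ) + 1) := by positivity
    linarith
  have hact : Tendsto (fun n : ℕ => A.act y (((1 - 1 / ((n : ℝ) + 1) : ℝ) : ℂ) * η)) atTop
      (𝓝 (A.act y η)) := by
    have h1 := (A.iso y).continuousOn η (by simp [hη])
    refine h1.tendsto.comp (tendsto_nhdsWithin_iff.2 ⟨hlim, Eventually.of_forall fun n => ?_⟩)
    simpa using (hlt n).le
  have hL : Tendsto (fun n : ℕ => c₀ * ‖1 - conj (((1 - 1 / ((n : ℝ) + 1) : ℝ) : ℂ) * η) *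
      A.act y (((1 - 1 / ((n : ℝ) + 1) : ℝ) : ℂ) * η)‖ ^ 2) atTop
      (𝓝 (c₀ * ‖1 - conj η * A.act y η‖ ^ 2)) := by
    have h1 : Tendsto (fun n : ℕ => conj (((1 - 1 / ((n : ℝ) + 1) : ℝ) : ℂ) * η)) atTop
        (𝓝 (conj η)) := (Complex.continuous_conj.tendsto _).comp hlim
    exact (((tendsto_const_nhds.sub (h1.mul hact)).norm).pow 2).const_mul c₀
  have hR : Tendsto (fun n : ℕ => 1 - ‖((1 - 1 / ((n : ℝ) + 1) : ℝ) : ℂ) * η‖ ^ 2) atTop
      (𝓝 (1 - ‖η‖ ^ 2)) := tendsto_const_nhds.sub (hlim.norm.pow 2)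
  have hfin := le_of_tendsto_of_tendsto' hL hR fun n => key2 _ (hlt n)
  rw [hη, norm_one_sub_conj_mul_sq, hη] at hfin
  have h5 : ‖η - A.act y η‖ ^ 2 ≤ 0 := by
    have : c₀ * ‖η - A.act y η‖ ^ 2 ≤ 0 := by nlinarith
    by_contra hcon
    push Not at hcon
    have := mul_pos hc₀pos hcon
    linarith
  have h6 : ‖η - A.act y η‖ = 0 := by
    have := sq_nonneg ‖η - A.act y η‖
    exact pow_eq_zero_iff (two_ne_zero) |>.1 (le_antisymm h5 this)
  rw [norm_eq_zero, sub_eq_zero] at h6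
  exact h6.symm

theorem noFix (A : DAct Γ) (W : Walk Γ) : NoFix A := by
  intro ζ hζ
  by_contra hcon
  push Not at hcon
  have hfix : ∀ g, A.act g ζ = ζ := hcon
  obtain ⟨c, C, hc, hC, hnear⟩ := exists_near_point A
  have hx : ∀ n : ℕ, ∃ x : Γ, c * (1 / ((n : ℝ) + 1)) ≤ A.t x ∧
      ‖A.act x 0 - ζ‖ ≤ C * (1 / ((n : ℝ) + 1)) := by
    intro n
    refine hnear ζ _ hζ (by positivity) ?_
    rw [div_le_one (by positivity)]
    linarith [Nat.cast_nonneg (α := ℝ) n]
  choose x hx1 hx2 using hx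
  have hJpos : ∀ g, 0 < A.J g ζ := fun g => A.J_pos g hζ.le
  -- `λ(x n) → 0`
  have hsmall : ∀ n : ℕ, A.J (x n) ζ ≤ C ^ 2 / c * (1 / ((n : ℝ) + 1)) := by
    intro n
    have h1 := nf_dist A hζ hfix (x n)
    have h2 : A.t (x n) * A.J (x n) ζ ≤ (C * (1 / ((n : ℝ) + 1))) ^ 2 := by
      rw [← h1]
      exact pow_le_pow_left₀ (norm_nonneg _) (hx2 n) 2
    have h3 : c * (1 / ((n : ℝ) + 1)) * A.J (x n) ζ ≤ (C * (1 / ((n : ℝ) + 1))) ^ 2 :=
      (mul_le_mul_of_nonneg_right (hx1 n) (hJpos _).le).trans h2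
    have hr : 0 < 1 / ((n : ℝ) + 1) := by positivity
    set r := 1 / ((n : ℝ) + 1) with hrdef
    have h4 : c * r * A.J (x n) ζ ≤ c * r * (C ^ 2 / c * r) := by
      have : c * r * (C ^ 2 / c * r) = (C * r) ^ 2 := by
        field_simp
      rw [this]
      exact h3
    exact le_of_mul_le_mul_left h4 (by positivity)
  -- conjugates lie in finite sets
  have hT : ∀ s : Γ, ∃ T : Finset Γ, ∀ n : ℕ, (x n)⁻¹ * (s * x n) ∈ T := by
    intro s
    obtain ⟨M, hM, hMJ⟩ := nf_J_le A s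
    have hts := A.t_pos s
    have hls := hJpos s
    obtain ⟨T, hT⟩ := near_finite A (δ := min c (A.t s * c / 4))
      (R := max C (Real.sqrt (M * A.J s ζ) * C)) (by positivity) (by positivity)
    refine ⟨T, fun n => ?_⟩
    have hr : 0 < 1 / ((n : ℝ) + 1) := by positivity
    refine hT ζ (1 / ((n : ℝ) + 1)) hζ hr (x n) (s * x n) ?_ ?_ ?_ ?_
    · exact (mul_le_mul_of_nonneg_right (min_le_left _ _) hr.le).trans (hx1 n)
    · refine (mul_le_mul_of_nonneg_right (min_le_right _ _) hr.le).trans ?_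
      refine le_trans ?_ (A.t_mul_lower s (x n))
      have := mul_le_mul_of_nonneg_left (hx1 n) (by positivity : (0 : ℝ) ≤ A.t s / 4)
      calc A.t s * c / 4 * (1 / ((n : ℝ) + 1)) = A.t s / 4 * (c * (1 / ((n : ℝ) + 1))) := by ring
        _ ≤ A.t s / 4 * A.t (x n) := this
        _ = A.t s * A.t (x n) / 4 := by ring
    · exact (hx2 n).trans (mul_le_mul_of_nonneg_right (le_max_left _ _) hr.le)
    · refine le_trans ?_ (mul_le_mul_of_nonneg_right (le_max_right _ _) hr.le)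
      have h2 := A.dist_act s (z := A.act (x n) 0) (w := ζ) (A.norm_act_le (x n) (by simp)) hζ.le
      rw [hfix, ← nf_act_mul] at h2
      have h3 := hMJ (A.act (x n) 0) (A.norm_act_le (x n) (by simp))
      have h4 : ‖A.act (s * x n) 0 - ζ‖ ^ 2 ≤
          (Real.sqrt (M * A.J s ζ) * C * (1 / ((n : ℝ) + 1))) ^ 2 := by
        rw [h2, mul_pow, mul_pow, Real.sq_sqrt (by positivity)]
        have h5 : ‖A.act (x n) 0 - ζ‖ ^ 2 ≤ (C * (1 / ((n : ℝ) + 1))) ^ 2 :=
          pow_le_pow_left₀ (norm_nonneg _) (hx2 n) 2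
        rw [mul_pow] at h5
        calc A.J s (A.act (x n) 0) * A.J s ζ * ‖A.act (x n) 0 - ζ‖ ^ 2
            ≤ M * A.J s ζ * (C ^ 2 * (1 / ((n : ℝ) + 1)) ^ 2) := by gcongr
          _ = M * A.J s ζ * C ^ 2 * (1 / ((n : ℝ) + 1)) ^ 2 := by ring
      exact le_of_sq_le_sq h4 (by positivity)
  choose T hT using hT
  -- pigeonhole
  set f : ℕ → ((s : W.S) → T s) := fun n s => ⟨_, hT s n⟩ with hf
  obtain ⟨v, hv⟩ := Finite.exists_infinite_fiber f
  have hvinf : (f ⁻¹' {v}).Infinite := Set.infinite_coe_iff.1 hv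
  obtain ⟨n, hn⟩ := hvinf.nonempty
  obtain ⟨N, hN⟩ := exists_nat_gt (C ^ 2 / c / (A.J (x n) ζ / 2))
  obtain ⟨m, hm, hmN⟩ := hvinf.exists_gt N
  have hlam : A.J (x m) ζ ≤ A.J (x n) ζ / 2 := by
    refine (hsmall m).trans ?_
    have h1 : 0 < A.J (x n) ζ / 2 := by have := hJpos (x n); positivity
    rw [mul_one_div, div_le_iff₀ (by positivity)]
    rw [div_lt_iff₀ h1] at hN
    have h2 : (N : ℝ) < m := by exact_mod_cast hmN
    nlinarith
  set y : Γ := x m * (x n)⁻¹ with hy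
  have hcommS : ∀ s ∈ W.S, y * s = s * y := by
    intro s hs
    have h1 : f n = f m := by
      rw [show f n = v from hn, show f m = v from hm]
    have h2 := congrFun h1 ⟨s, hs⟩
    have h3 : (x n)⁻¹ * (s * x n) = (x m)⁻¹ * (s * x m) := by
      have := congrArg Subtype.val h2
      simpa [hf] using this
    have h4 : x m * ((x n)⁻¹ * (s * x n)) * (x n)⁻¹ = x m * ((x m)⁻¹ * (s * x m)) * (x n)⁻¹ := by
      rw [h3]
    rw [hy]
    calc x m * (x n)⁻¹ * s = x m * ((x n)⁻¹ * (s * x n)) * (x n)⁻¹ := by group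
      _ = x m * ((x m)⁻¹ * (s * x m)) * (x n)⁻¹ := h4
      _ = s * (x m * (x n)⁻¹) := by group
  have hcomm : ∀ g, y * g = g * y := by
    intro g
    have hg : g ∈ Submonoid.closure (W.S : Set Γ) := by rw [W.gen]; trivial
    induction hg using Submonoid.closure_induction with
    | mem s hs => exact hcommS s hs
    | one => simp
    | mul a b _ _ ha hb => rw [← mul_assoc, ha, mul_assoc, hb, mul_assoc]
  have hJy : A.J y ζ * A.J (x n) ζ = A.J (x m) ζ := by
    rw [← nf_mul A hζ hfix, hy]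
    congr 1
    group
  have hJy2 : A.J y ζ ≤ 1 / 2 := by
    have h1 := hJpos (x n)
    by_contra hcon2
    push Not at hcon2
    nlinarith
  -- three points of the circle
  have hcirc : ∀ η η' : ℂ, ‖η‖ = 1 → ‖η'‖ = 1 → η ≠ η' → A.J y η * A.J y η' = 1 := by
    intro η η' h1 h2 h3
    have h4 := A.dist_act y h1.le h2.le
    rw [nf_central A y hcomm h1, nf_central A y hcomm h2] at h4
    have h5 : 0 < ‖η - η'‖ ^ 2 := by
      have := norm_pos_iff.2 (sub_ne_zero.2 h3)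
      positivity
    have h6 : 1 * ‖η - η'‖ ^ 2 = A.J y η * A.J y η' * ‖η - η'‖ ^ 2 := by rw [one_mul]; exact h4
    exact (mul_right_cancel₀ h5.ne' h6).symm
  have hζ0 : ζ ≠ 0 := by
    intro h
    rw [h] at hζ
    simp at hζ
  have hI : ‖Complex.I * ζ‖ = 1 := by rw [norm_mul, Complex.norm_I, hζ, one_mul]
  have a1 := hcirc ζ (-ζ) hζ (by rw [norm_neg, hζ]) (by
    intro h
    have : (2 : ℂ) * ζ = 0 := by linear_combination h
    exact hζ0 (by simpa using this))
  have a2 := hcirc ζ (Complex.I * ζ) hζ hI (by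
    intro h
    have h1 : (1 - Complex.I) * ζ = 0 := by linear_combination h
    rcases mul_eq_zero.1 h1 with h2 | h2
    · have := congrArg Complex.re h2
      simp at this
    · exact hζ0 h2)
  have a3 := hcirc (-ζ) (Complex.I * ζ) (by rw [norm_neg, hζ]) hI (by
    intro h
    have h1 : (1 + Complex.I) * ζ = 0 := by linear_combination -h
    rcases mul_eq_zero.1 h1 with h2 | h2
    · have := congrArg Complex.re h2
      simp at this
    · exact hζ0 h2)
  have b1 := A.J_pos y hζ.le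
  have b2 := A.J_pos y (z := -ζ) (by rw [norm_neg, hζ])
  have b3 := A.J_pos y hI.le
  have b4 : A.J y ζ ^ 2 = 1 := by
    have : A.J y ζ ^ 2 * (A.J y (-ζ) * A.J y (Complex.I * ζ)) =
        (A.J y ζ * A.J y (-ζ)) * (A.J y ζ * A.J y (Complex.I * ζ)) := by ring
    rw [a1, a2, a3] at this
    linarith
  nlinarith

end Pool.Agent.Lib.KLP
end

section

/-!
# G5: orbits on the circle are not small
-/

set_option autoImplicit false
open MeasureTheory Set Filter Topology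
open scoped ENNReal ComplexConjugate

namespace Pool.Agent.Lib.KLP

variable {Γ : Type*} [Group Γ]

private theorem exists_far_aux (A : DAct Γ) (hnf : NoFix A) : ∃ c : ℝ, 0 < c ∧
    ∀ ζ ∈ Metric.sphere (0 : ℂ) 1, ∃ g : Γ, c ≤ ‖A.act g ζ - ζ‖ := by
  refine (isCompact_sphere (0 : ℂ) 1).induction_on
    (p := fun t : Set ℂ => ∃ c : ℝ, 0 < c ∧ ∀ ζ ∈ t, ∃ g : Γ, c ≤ ‖A.act g ζ - ζ‖) ?_ ?_ ?_ ?_
  · exact ⟨1, one_pos, fun ζ hζ => hζ.elim⟩
  · rintro s t hst ⟨c, hc, h⟩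
    exact ⟨c, hc, fun ζ hζ => h ζ (hst hζ)⟩
  · rintro s t ⟨c, hc, h⟩ ⟨d, hd, h'⟩
    refine ⟨min c d, lt_min hc hd, ?_⟩
    rintro ζ (hζ | hζ)
    · obtain ⟨g, hg⟩ := h ζ hζ
      exact ⟨g, (min_le_left _ _).trans hg⟩
    · obtain ⟨g, hg⟩ := h' ζ hζ
      exact ⟨g, (min_le_right _ _).trans hg⟩
  · intro ζ hζ
    have hζ1 : ‖ζ‖ = 1 := by simpa using hζ
    obtain ⟨g, hg⟩ := hnf ζ hζ1
    have hpos : 0 < ‖A.act g ζ - ζ‖ := norm_pos_iff.2 (sub_ne_zero.2 hg)
    have hcont : ContinuousOn (fun z => ‖A.act g z - z‖) (Metric.sphere (0 : ℂ) 1) :=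
      (((A.iso g).continuousOn.mono Metric.sphere_subset_closedBall).sub continuousOn_id).norm
    have hev : ∀ᶠ z in 𝓝[Metric.sphere (0 : ℂ) 1] ζ,
        ‖A.act g ζ - ζ‖ / 2 < ‖A.act g z - z‖ :=
      (hcont ζ hζ).eventually (lt_mem_nhds (by linarith))
    exact ⟨_, hev, ‖A.act g ζ - ζ‖ / 2, by positivity, fun z hz => ⟨g, le_of_lt hz⟩⟩

theorem exists_far (A : DAct Γ) (hnf : NoFix A) : ∃ c₀ : ℝ, 0 < c₀ ∧ c₀ ≤ 1 / 2 ∧
    ∀ ζ ξ : ℂ, ‖ζ‖ = 1 → ‖ξ‖ = 1 → ∃ k : Γ, 2 * c₀ ≤ ‖A.act k ζ - ξ‖ := by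
  obtain ⟨c, hc, h⟩ := exists_far_aux A hnf
  refine ⟨min (c / 4) (1 / 2), lt_min (by positivity) (by norm_num), min_le_right _ _, ?_⟩
  intro ζ ξ hζ hξ
  have hmin : 2 * min (c / 4) (1 / 2) ≤ c / 2 := by
    have := min_le_left (c / 4) (1 / 2 : ℝ)
    linarith
  by_cases hd : c / 2 ≤ ‖ζ - ξ‖
  · refine ⟨1, ?_⟩
    rw [A.one ζ hζ.le]
    exact hmin.trans hd
  · obtain ⟨g, hg⟩ := h ζ (by simpa using hζ)
    refine ⟨g, hmin.trans ?_⟩
    have h1 : ‖A.act g ζ - ζ‖ ≤ ‖A.act g ζ - ξ‖ + ‖ζ - ξ‖ := by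
      have := norm_sub_le (A.act g ζ - ξ) (ζ - ξ)
      simpa using this
    push Not at hd
    linarith

end Pool.Agent.Lib.KLP
end
end
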