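import Pool.Agent.Lib.MP_a137af_pr.IsomClass
import Pool.Agent.Lib.MP_a137af_pr.DiscModel
import Pool.Agent.Lib.MP_a137af_pr.ActGeom

/-!
# S3: the disc action of a cocompact group of isometries
-/

set_option autoImplicit false
open MeasureTheory Set Filter Topology
open scoped ENNReal ComplexConjugate

namespace Pool.Agent.Lib.KLP

private lemma mkd_ext {f f' : ℂ → ℂ} (hf : ContinuousOn f (Metric.closedBall 0 1))
    (hf' : ContinuousOn f' (Metric.closedBall 0 1)) (h : ∀ z, ‖z‖ < 1 → f z = f' z) :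
    ∀ z, ‖z‖ ≤ 1 → f z = f' z := by
  have h1 : Set.EqOn f f' (Metric.ball 0 1) := by
    intro z hz
    exact h z (by simpa using hz)
  have h2 : Set.EqOn f f' (Metric.closedBall 0 1) := by
    refine Set.EqOn.of_subset_closure h1 hf hf' Metric.ball_subset_closedBall ?_
    rw [closure_ball _ one_ne_zero]
  intro z hz
  exact h2 (by simpa using hz)

theorem exists_dact (Γ : Subgroup (UpperHalfPlane ≃ᵢ UpperHalfPlane))
    (hdisc : ∀ K : Set UpperHalfPlane, IsCompact K →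
      {g : Γ | (((g : UpperHalfPlane ≃ᵢ UpperHalfPlane) '' K) ∩ K).Nonempty}.Finite)
    (hcoc : ∃ K : Set UpperHalfPlane, IsCompact K ∧
      ∀ z, ∃ g : Γ, (g : UpperHalfPlane ≃ᵢ UpperHalfPlane) z ∈ K) :
    ∃ A : DAct Γ, ∀ (g : Γ) (z : UpperHalfPlane),
      toDisc ((g : UpperHalfPlane ≃ᵢ UpperHalfPlane) z) = A.act g (toDisc z) := by
  have h0 : ∀ g : Γ, ∃ f : ℂ → ℂ, IsDiscIso f ∧
      ∀ z : UpperHalfPlane, toDisc ((g : UpperHalfPlane ≃ᵢ UpperHalfPlane) z) = f (toDisc z) := by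
    intro g
    obtain ⟨A, hA⟩ := isom_class (g : UpperHalfPlane ≃ᵢ UpperHalfPlane)
    obtain ⟨f, hf, hfz⟩ := exists_disc_of_GL A
    refine ⟨f, hf, fun z => ?_⟩
    rw [hA z, hfz z]
  choose f hf hfz using h0
  refine ⟨⟨f, hf, ?_, ?_, ?_, ?_⟩, hfz⟩
  · -- one
    apply mkd_ext (hf 1).continuousOn continuousOn_id
    intro z hz
    obtain ⟨w, rfl⟩ := toDisc_surj hz
    rw [← hfz 1 w]
    rfl
  · -- mul
    intro g h
    have hmaps : Set.MapsTo (f h) (Metric.closedBall 0 1) (Metric.closedBall 0 1) := by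
      intro z hz
      have : ‖z‖ ≤ 1 := by simpa using hz
      simpa using (hf h).norm_le_one this
    apply mkd_ext (f' := fun z => f g (f h z)) (hf (g * h)).continuousOn
      ((hf g).continuousOn.comp (hf h).continuousOn hmaps)
    intro z hz
    obtain ⟨w, rfl⟩ := toDisc_surj hz
    show f (g * h) (toDisc w) = f g (f h (toDisc w))
    rw [← hfz (g * h) w, ← hfz h w, ← hfz g]
    rfl
  · -- discrete
    intro ρ hρ
    have hK : IsCompact {z : UpperHalfPlane | ‖toDisc z‖ ≤ max ρ 0} :=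
      isCompact_preimage_toDisc (max_lt hρ one_pos)
    refine (hdisc _ hK).subset ?_
    intro g hg
    have hg' : ‖f g 0‖ ≤ ρ := hg
    refine ⟨(g : UpperHalfPlane ≃ᵢ UpperHalfPlane) UpperHalfPlane.I,
      ⟨UpperHalfPlane.I, ?_, rfl⟩, ?_⟩
    · show ‖toDisc UpperHalfPlane.I‖ ≤ max ρ 0
      rw [toDisc_I, norm_zero]
      exact le_max_right _ _
    · show ‖toDisc ((g : UpperHalfPlane ≃ᵢ UpperHalfPlane) UpperHalfPlane.I)‖ ≤ max ρ 0
      rw [hfz g, toDisc_I]
      exact hg'.trans (le_max_left _ _)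
  · -- cocompact
    obtain ⟨K, hK, hKc⟩ := hcoc
    have hne : K.Nonempty := by
      obtain ⟨g, hg⟩ := hKc UpperHalfPlane.I
      exact ⟨_, hg⟩
    obtain ⟨z₀, -, hmax⟩ := hK.exists_isMaxOn hne
      (continuous_toDisc.norm.continuousOn (s := K))
    refine ⟨‖toDisc z₀‖, norm_toDisc_lt z₀, ?_⟩
    intro z hz
    obtain ⟨w, rfl⟩ := toDisc_surj hz
    obtain ⟨g, hg⟩ := hKc w
    refine ⟨g, ?_⟩
    rw [← hfz g w]
    exact hmax hg

end Pool.Agent.Lib.KLP
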