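import Pool.Agent.Lib.MP_a137af_pr.DiscIso
import Pool.Agent.Lib.MP_a137af_pr.IsomClass
import Pool.Agent.Lib.MP_a137af_pr.Decomp
import Pool.Agent.Lib.MP_a137af_pr.CircMap
import Pool.Agent.Lib.MP_a137af_pr.FarPt

section

section

/-!
# B15: finitely generated linear groups are residually finite (finite set version)
-/

set_option autoImplicit false
open MeasureTheory Set Filter Topology
open scoped ENNReal ComplexConjugate

namespace Pool.Agent.Lib.KLP

private theorem isJacobsonRing_int : IsJacobsonRing ℤ := by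
  rw [isJacobsonRing_iff_prime_eq]
  intro P hP
  by_cases h0 : P = ⊥
  · subst h0
    apply le_antisymm _ Ideal.le_jacobson
    intro x hx
    rw [Ideal.mem_jacobson_bot] at hx
    have h3 := hx 3
    rw [Int.isUnit_iff] at h3
    rw [Ideal.mem_bot]
    omega
  · have : P.IsMaximal := hP.isMaximal h0
    exact Ideal.jacobson_eq_self_of_isMaximal

private theorem finite_field_of_finiteType (K : Type*) [Field K] [inst : Algebra ℤ K]
    [Algebra.FiniteType ℤ K] : Finite K := by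
  have := isJacobsonRing_int
  have hfin : @Module.Finite ℤ K _ _ inst.toModule := finite_of_finite_type_of_isJacobsonRing ℤ K
  refine @Module.finite_of_fg_torsion K _ inst.toModule hfin ?_
  have hchar : ¬ CharZero K := by
    intro hc
    have hinj : Function.Injective (algebraMap ℤ K) := by
      exact RingHom.injective_int _
    have hint : @Algebra.IsIntegral ℤ K _ _ inst :=
      @Algebra.IsIntegral.of_finite ℤ K _ _ inst hfin
    have := @isField_of_isIntegral_of_isField ℤ K _ _ inst hint hinj (Field.toIsField K)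
    exact Int.not_isField this
  obtain ⟨p, hp⟩ := CharP.exists K
  have hp0 : p ≠ 0 := by
    rintro rfl
    exact hchar (CharP.charP_to_charZero K)
  intro x
  refine ⟨⟨(p : ℤ), ?_⟩, ?_⟩
  · rw [mem_nonZeroDivisors_iff_ne_zero]
    exact_mod_cast hp0
  · show inst.toModule.toSMul.smul (p : ℤ) x = 0
    have : inst.toModule.toSMul.smul (p : ℤ) x = algebraMap ℤ K (p : ℤ) * x :=
      Algebra.smul_def (p : ℤ) x
    rw [this, eq_intCast]
    push_cast
    rw [CharP.cast_eq_zero K p, zero_mul]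

theorem resid_finite {Γ : Type*} [Group Γ] (hfg : Group.FG Γ) {n : ℕ}
    (R : Γ →* GL (Fin n) ℝ) (hR : Function.Injective R) (T : Finset Γ) (hT : (1 : Γ) ∉ T) :
    ∃ N : Subgroup Γ, N.Normal ∧ N.FiniteIndex ∧ ∀ t ∈ T, t ∉ N := by
  classical
  obtain ⟨S, hS⟩ := Group.fg_def.mp hfg
  -- nonzero entries
  have hx : ∀ t : T, ∃ ij : Fin n × Fin n,
      (R (t : Γ) : Matrix (Fin n) (Fin n) ℝ) ij.1 ij.2 - (1 : Matrix (Fin n) (Fin n) ℝ) ij.1 ij.2
        ≠ 0 := by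
    intro t
    by_contra hcon
    push Not at hcon
    apply hT
    have : (t : Γ) = 1 := by
      apply hR
      rw [map_one]
      apply Units.ext
      ext i j
      have := hcon (i, j)
      simp only [sub_eq_zero] at this
      exact this
    rw [← this]
    exact t.2
  choose ij hij using hx
  set xt : T → ℝ := fun t => (R (t : Γ) : Matrix (Fin n) (Fin n) ℝ) (ij t).1 (ij t).2 -
    (1 : Matrix (Fin n) (Fin n) ℝ) (ij t).1 (ij t).2 with hxt
  set x : ℝ := ∏ t : T, xt t with hxdef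
  have hx0 : x ≠ 0 := Finset.prod_ne_zero_iff.mpr (fun t _ => hij t)
  set E : Finset ℝ := (Finset.image (fun p : Γ × Fin n × Fin n =>
      (R p.1 : Matrix (Fin n) (Fin n) ℝ) p.2.1 p.2.2) (S ×ˢ Finset.univ)) ∪
    (Finset.image (fun p : Γ × Fin n × Fin n =>
      (R p.1⁻¹ : Matrix (Fin n) (Fin n) ℝ) p.2.1 p.2.2) (S ×ˢ Finset.univ)) ∪ {x⁻¹} with hE
  set B : Subalgebra ℤ ℝ := Algebra.adjoin ℤ (E : Set ℝ) with hB
  have hBft : Algebra.FiniteType ℤ B := Subalgebra.fg_iff_finiteType B |>.mp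
    (Subalgebra.fg_adjoin_finset E)
  have hsub : (E : Set ℝ) ⊆ B := Algebra.subset_adjoin
  -- all entries are in B
  have hmem : ∀ g : Γ, ∀ i j, (R g : Matrix (Fin n) (Fin n) ℝ) i j ∈ B := by
    intro g
    have hg : g ∈ Subgroup.closure (S : Set Γ) := by rw [hS]; trivial
    have key : (∀ i j, (R g : Matrix (Fin n) (Fin n) ℝ) i j ∈ B) ∧
        (∀ i j, (R g⁻¹ : Matrix (Fin n) (Fin n) ℝ) i j ∈ B) := by
      induction hg using Subgroup.closure_induction with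
      | mem s hs =>
        refine ⟨fun i j => hsub ?_, fun i j => hsub ?_⟩
        · rw [hE]
          simp only [Finset.coe_union, Finset.coe_image, Set.mem_union, Set.mem_image]
          left; left
          exact ⟨(s, i, j), by simpa using hs, rfl⟩
        · rw [hE]
          simp only [Finset.coe_union, Finset.coe_image, Set.mem_union, Set.mem_image]
          left; right
          exact ⟨(s, i, j), by simpa using hs, rfl⟩
      | one =>
        have h1 : ∀ i j : Fin n, (1 : Matrix (Fin n) (Fin n) ℝ) i j ∈ B := by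
          intro i j
          rw [Matrix.one_apply]
          split_ifs
          · exact B.one_mem
          · exact B.zero_mem
        refine ⟨?_, ?_⟩
        · intro i j
          rw [map_one]
          exact h1 i j
        · intro i j
          rw [inv_one, map_one]
          exact h1 i j
      | mul a b _ _ ha hb =>
        refine ⟨fun i j => ?_, fun i j => ?_⟩
        · rw [map_mul, Units.val_mul, Matrix.mul_apply]
          exact B.sum_mem (fun k _ => B.mul_mem (ha.1 i k) (hb.1 k j))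
        · rw [mul_inv_rev, map_mul, Units.val_mul, Matrix.mul_apply]
          exact B.sum_mem (fun k _ => B.mul_mem (hb.2 i k) (ha.2 k j))
      | inv a _ ha =>
        refine ⟨ha.2, ?_⟩
        rw [inv_inv]
        exact ha.1
    exact key.1
  have hxtB : ∀ t, xt t ∈ B := by
    intro t
    refine B.sub_mem (hmem _ _ _) ?_
    rw [Matrix.one_apply]
    split_ifs
    · exact B.one_mem
    · exact B.zero_mem
  have hxinv : x⁻¹ ∈ B := hsub (by rw [hE]; simp)
  -- the homomorphism to matrices over B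
  let ψ : Γ →* Matrix (Fin n) (Fin n) B :=
    { toFun := fun g => Matrix.of fun i j => ⟨(R g : Matrix (Fin n) (Fin n) ℝ) i j, hmem g i j⟩
      map_one' := by
        ext i j
        simp [Matrix.one_apply]
        split_ifs <;> rfl
      map_mul' := by
        intro a b
        ext i j
        simp [Matrix.mul_apply] }
  obtain ⟨m, hm⟩ := Ideal.exists_maximal B
  have hft : Algebra.FiniteType ℤ (B ⧸ m) :=
    Algebra.FiniteType.of_surjective (Ideal.Quotient.mkₐ ℤ m) (Ideal.Quotient.mkₐ_surjective ℤ m)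
  have : Finite (B ⧸ m) :=
    @finite_field_of_finiteType (B ⧸ m) (Ideal.Quotient.field m) _ hft
  let φ : Γ →* Matrix (Fin n) (Fin n) (B ⧸ m) :=
    ((Ideal.Quotient.mk m).mapMatrix (m := Fin n)).toMonoidHom.comp ψ
  refine ⟨φ.toHomUnits.ker, inferInstance, inferInstance, ?_⟩
  intro t ht htN
  rw [MonoidHom.ker_toHomUnits, MonoidHom.mem_ker] at htN
  have hent := congrFun (congrFun htN (ij ⟨t, ht⟩).1) (ij ⟨t, ht⟩).2
  have hmemm : (⟨xt ⟨t, ht⟩, hxtB _⟩ : B) ∈ m := by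
    rw [← Ideal.Quotient.eq_zero_iff_mem]
    have e1 : (⟨xt ⟨t, ht⟩, hxtB _⟩ : B) = ψ t (ij ⟨t, ht⟩).1 (ij ⟨t, ht⟩).2 -
        (1 : Matrix (Fin n) (Fin n) B) (ij ⟨t, ht⟩).1 (ij ⟨t, ht⟩).2 := by
      apply Subtype.ext
      simp only [hxt, ψ, Matrix.one_apply]
      split_ifs <;> simp
    rw [e1, map_sub]
    have e2 : Ideal.Quotient.mk m (ψ t (ij ⟨t, ht⟩).1 (ij ⟨t, ht⟩).2) =
        φ t (ij ⟨t, ht⟩).1 (ij ⟨t, ht⟩).2 := rfl
    rw [e2, hent]
    simp only [Matrix.one_apply]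
    split_ifs <;> simp
  apply hm.ne_top
  rw [Ideal.eq_top_iff_one]
  have hprod : (1 : B) = (⟨xt ⟨t, ht⟩, hxtB _⟩ : B) *
      ((∏ s ∈ Finset.univ.erase (⟨t, ht⟩ : T), (⟨xt s, hxtB s⟩ : B)) * ⟨x⁻¹, hxinv⟩) := by
    rw [← mul_assoc, Finset.mul_prod_erase _ (fun s => (⟨xt s, hxtB s⟩ : B)) (Finset.mem_univ _)]
    apply Subtype.ext
    push_cast
    rw [← hxdef, mul_inv_cancel₀ hx0]
  rw [hprod]
  exact m.mul_mem_right _ hmemm

end Pool.Agent.Lib.KLP
end

section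

/-!
# B16: restriction of an action to a finite index subgroup
-/

set_option autoImplicit false
open MeasureTheory Set Filter Topology
open scoped ENNReal ComplexConjugate

namespace Pool.Agent.Lib.KLP

theorem exists_restrict {Γ : Type*} [Group Γ] (A : DAct Γ) (Δ : Subgroup Γ)
    (hfi : Δ.FiniteIndex) : ∃ A' : DAct Δ, ∀ g : Δ, A'.act g = A.act (g : Γ) := by
  have hcc : ∃ ρ : ℝ, ρ < 1 ∧ ∀ z, ‖z‖ < 1 → ∃ g : Δ, ‖A.act (g : Γ) z‖ ≤ ρ := by
    obtain ⟨ρ, hρ1, hρ⟩ := A.cocompact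
    have hρ0 : 0 ≤ ρ := by
      obtain ⟨g, hg⟩ := hρ 0 (by simp)
      exact (norm_nonneg _).trans hg
    have : Finite (Γ ⧸ Δ) := Subgroup.finite_quotient_of_finiteIndex
    obtain ⟨x₀, hx₀⟩ := Finite.exists_min (fun x : Γ ⧸ Δ => A.t (Quotient.out x)⁻¹)
    set m := A.t (Quotient.out x₀)⁻¹ with hm
    have hm0 : 0 < m := A.t_pos _
    have hm1 : m ≤ 1 := A.t_le_one _
    have hρ2 : 0 < 1 - ρ ^ 2 := by nlinarith
    refine ⟨√(1 - m / 4 * (1 - ρ ^ 2)), ?_, ?_⟩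
    · rw [Real.sqrt_lt' one_pos]
      have : 0 < m / 4 * (1 - ρ ^ 2) := by positivity
      linarith
    · intro z hz
      obtain ⟨g, hg⟩ := hρ z hz
      set h := Quotient.out (QuotientGroup.mk g : Γ ⧸ Δ) with hh
      have hmem : h⁻¹ * g ∈ Δ := by
        rw [← QuotientGroup.eq, hh]
        exact Quotient.out_eq _
      refine ⟨⟨h⁻¹ * g, hmem⟩, ?_⟩
      show ‖A.act (h⁻¹ * g) z‖ ≤ _
      rw [A.mul _ _ _ hz.le]
      apply Real.le_sqrt_of_sq_le
      have hw := A.norm_act_lt g hz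
      have h1 := A.tau_act h⁻¹ hw.le
      have h2 := A.J_lower h⁻¹ hw.le
      have h3 : m ≤ A.t h⁻¹ := hx₀ (QuotientGroup.mk g)
      have h4 : 1 - ρ ^ 2 ≤ 1 - ‖A.act g z‖ ^ 2 := by
        have := norm_nonneg (A.act g z)
        nlinarith
      have h5 : m / 4 * (1 - ρ ^ 2) ≤ A.J h⁻¹ (A.act g z) * (1 - ‖A.act g z‖ ^ 2) := by
        apply mul_le_mul _ h4 hρ2.le
        · linarith
        · linarith
      linarith
  exact ⟨
    { act := fun g => A.act (g : Γ)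
      iso := fun g => A.iso g
      one := fun z hz => A.one z hz
      mul := fun g h z hz => A.mul g h z hz
      discrete := fun ρ hρ => (A.discrete ρ hρ).preimage Subtype.val_injective.injOn
      cocompact := hcc }, fun g => rfl⟩

end Pool.Agent.Lib.KLP
end

section

/-!
# 3.4: comparison at a Lebesgue point
-/

set_option autoImplicit false
open MeasureTheory Set Filter Topology
open scoped ENNReal ComplexConjugate

namespace Pool.Agent.Lib.KLP

variable {Γ : Type*} [Group Γ] {A : DAct Γ} {W : Walk Γ} {ν : Measure ℂ}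

/-- restriction to the circle does not change the measure of a set -/
private theorem ratioLim_inter {m : Measure ℂ} (hm : ∀ᵐ z ∂m, ‖z‖ = 1) (E : Set ℂ) :
    m (E ∩ {z | ‖z‖ = 1}) = m E := by
  refine measure_congr ?_
  filter_upwards [hm] with z hz
  simp only [eq_iff_iff]
  constructor
  · intro h1; exact h1.1
  · intro h1; exact ⟨h1, hz⟩

/-- two sided bound of `circ` of a preimage -/
private theorem ratioLim_circ (w : Γ) {E : Set ℂ} (hE : MeasurableSet E) {ξ₀ : ℂ} {r₀ : ℝ}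
    (hr₀ : 0 < r₀) (hEb : E ⊆ Metric.closedBall ξ₀ r₀) (hfar : r₀ < ‖A.act w 0 - ξ₀‖) :
    A.t w / (‖A.act w 0 - ξ₀‖ + r₀) ^ 2 * (circ E).toReal ≤ (circ (A.act w ⁻¹' E)).toReal ∧
    (circ (A.act w ⁻¹' E)).toReal ≤
      A.t w / (‖A.act w 0 - ξ₀‖ - r₀) ^ 2 * (circ E).toReal := by
  have ht := A.t_pos w
  have hb : ∀ ξ ∈ E, ‖ξ - ξ₀‖ ≤ r₀ := fun ξ hξ => by
    have := hEb hξ
    rwa [Metric.mem_closedBall, dist_eq_norm] at this
  constructor
  · have h1 := le_circ_preimage A w hE (D := ‖A.act w 0 - ξ₀‖ + r₀)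
      (by linarith) (fun ξ hξ _ => by
        have h2 := hb ξ hξ
        calc ‖ξ - A.act w 0‖ = ‖(ξ - ξ₀) - (A.act w 0 - ξ₀)‖ := by congr 1; ring
          _ ≤ ‖ξ - ξ₀‖ + ‖A.act w 0 - ξ₀‖ := norm_sub_le _ _
          _ ≤ _ := by linarith)
    have h3 := ENNReal.toReal_mono (measure_ne_top _ _) h1
    rwa [ENNReal.toReal_mul, ENNReal.toReal_ofReal (by positivity)] at h3
  · have h1 := circ_preimage_le A w hE (d := ‖A.act w 0 - ξ₀‖ - r₀)
      (by linarith) (fun ξ hξ _ => by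
        have h2 := hb ξ hξ
        have h3 : ‖A.act w 0 - ξ₀‖ ≤ ‖ξ - A.act w 0‖ + ‖ξ - ξ₀‖ := by
          calc ‖A.act w 0 - ξ₀‖ = ‖(ξ - ξ₀) - (ξ - A.act w 0)‖ := by congr 1; ring
            _ ≤ ‖ξ - ξ₀‖ + ‖ξ - A.act w 0‖ := norm_sub_le _ _
            _ = _ := by ring
        linarith)
    have h3 := ENNReal.toReal_mono
      (ENNReal.mul_ne_top ENNReal.ofReal_ne_top (measure_ne_top _ _)) h1
    rwa [ENNReal.toReal_mul, ENNReal.toReal_ofReal (by positivity)] at h3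

theorem ratio_lim (h : Std A W ν) {ξL : ℂ} {L : ℝ} (hL : LebPt ν ξL L) {c₀ : ℝ} (hc₀ : 0 < c₀)
    (hc₀1 : c₀ ≤ 1 / 2)
    (hfar : ∀ ζ ξ : ℂ, ‖ζ‖ = 1 → ‖ξ‖ = 1 → ∃ k : Γ, 2 * c₀ ≤ ‖A.act k ζ - ξ‖) :
    ∃ C₂ : ℝ, 0 < C₂ ∧ ∀ (ξ₀ : ℂ) (r₀ : ℝ) (E E' : Set ℂ) (a b : ℝ), ‖ξ₀‖ = 1 → 0 < r₀ →
      r₀ ≤ c₀ / 2 → MeasurableSet E → MeasurableSet E' → E ⊆ Metric.closedBall ξ₀ r₀ →
      E' ⊆ Metric.closedBall ξ₀ r₀ → 0 ≤ a → a ≤ b →
      (∀ w : Γ, c₀ ≤ ‖A.act w 0 - ξ₀‖ →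
        a * (pf A ν E' w).toReal ≤ (pf A ν E w).toReal ∧
        (pf A ν E w).toReal ≤ b * (pf A ν E' w).toReal) →
      a * (circ E').toReal ≤ (1 + C₂ * r₀) * (circ E).toReal ∧
      (circ E).toReal ≤ (1 + C₂ * r₀) * (b * (circ E').toReal) := by
  obtain ⟨hξL, hLpos, hLeb⟩ := hL
  have := h.prob
  obtain ⟨c2, C2, hc2, hC2, hnear⟩ := exists_near_point A
  -- the sequence
  have hγ : ∀ n : ℕ, ∃ x : Γ, c2 * (1 / ((n : ℝ) + 1)) ≤ A.t x ∧
      ‖A.act x 0 - ξL‖ ≤ C2 * (1 / ((n : ℝ) + 1)) := fun n =>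
    hnear ξL (1 / ((n : ℝ) + 1)) hξL (by positivity) (by
      rw [div_le_one (by positivity)]
      have : (0 : ℝ) ≤ n := Nat.cast_nonneg n
      linarith)
  choose γ hγ1 hγ2 using hγ
  have ht : ∀ n, A.t (γ n) ≤ 2 * C2 * (1 / ((n : ℝ) + 1)) := by
    intro n
    have h1 : 1 - ‖A.act (γ n) 0‖ ≤ ‖A.act (γ n) 0 - ξL‖ := by
      have := norm_sub_norm_le ξL (A.act (γ n) 0)
      rwa [hξL, norm_sub_rev] at this
    have h2 := A.norm_act_le (γ n) (z := 0) (by simp)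
    have h3 := hγ2 n
    unfold DAct.t
    nlinarith [norm_nonneg (A.act (γ n) 0)]
  have hinv : Tendsto (fun n : ℕ => 1 / ((n : ℝ) + 1)) atTop (𝓝 0) :=
    tendsto_one_div_add_atTop_nhds_zero_nat
  obtain ⟨ζ, hζ1, φ, hφ, hlim⟩ := (isCompact_closedBall (0 : ℂ) 1).tendsto_subseq
    (x := fun n => A.act (γ n)⁻¹ 0) (fun n => by
      rw [mem_closedBall_zero_iff]
      exact A.norm_act_le _ (by simp))
  have hinvφ : Tendsto (fun n : ℕ => 1 / (((φ n : ℕ) : ℝ) + 1)) atTop (𝓝 0) :=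
    hinv.comp hφ.tendsto_atTop
  have hζ : ‖ζ‖ = 1 := by
    have h1 : Tendsto (fun n => ‖A.act (γ (φ n))⁻¹ 0‖ ^ 2) atTop (𝓝 (‖ζ‖ ^ 2)) :=
      (hlim.norm).pow 2
    have h2 : Tendsto (fun n => ‖A.act (γ (φ n))⁻¹ 0‖ ^ 2) atTop (𝓝 1) := by
      have h3 : ∀ n, ‖A.act (γ (φ n))⁻¹ 0‖ ^ 2 = 1 - A.t (γ (φ n)) := by
        intro n
        rw [← A.t_inv]
        unfold DAct.t
        ring
      simp_rw [h3]
      have h4 : Tendsto (fun n => A.t (γ (φ n))) atTop (𝓝 0) := by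
        refine squeeze_zero (fun n => (A.t_pos _).le) (fun n => ht (φ n)) ?_
        have := hinvφ.const_mul (2 * C2)
        rwa [mul_zero] at this
      have := h4.const_sub 1
      rwa [sub_zero] at this
    have h5 := tendsto_nhds_unique h1 h2
    exact (pow_eq_one_iff_of_nonneg (norm_nonneg ζ) two_ne_zero).1 h5
  refine ⟨6 / c₀, by positivity, ?_⟩
  intro ξ₀ r₀ E E' a b hξ₀ hr₀ hr₀c hE hE' hEb hEb' ha hab hcmp
  obtain ⟨k, hk⟩ := hfar ζ ξ₀ hζ hξ₀
  set D : ℝ := ‖A.act k ζ - ξ₀‖ with hD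
  set w : ℕ → Γ := fun n => k * (γ (φ n))⁻¹ with hw
  have hw0 : ∀ n, A.act (w n) 0 = A.act k (A.act (γ (φ n))⁻¹ 0) := fun n =>
    A.mul _ _ _ (by simp)
  have hlimw : Tendsto (fun n => A.act (w n) 0) atTop (𝓝 (A.act k ζ)) := by
    simp_rw [hw0]
    have h1 := ((A.iso k).continuousOn ζ hζ1)
    refine h1.tendsto.comp (tendsto_nhdsWithin_iff.2 ⟨hlim, Eventually.of_forall fun n => ?_⟩)
    simp only [mem_closedBall_zero_iff]
    exact A.norm_act_le _ (by simp)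
  have hDn : Tendsto (fun n => ‖A.act (w n) 0 - ξ₀‖) atTop (𝓝 D) :=
    (hlimw.sub_const ξ₀).norm
  have hDlarge : ∀ᶠ n in atTop, 3 / 2 * c₀ ≤ ‖A.act (w n) 0 - ξ₀‖ := by
    refine hDn.eventually (le_mem_nhds ?_)
    linarith
  -- geometry of the preimages
  set q : ℂ := A.act k⁻¹ 0 with hq
  have hq1 : ‖q‖ < 1 := A.norm_act_lt _ (by simp)
  have hq2 : 0 < 1 - ‖q‖ := by linarith
  set R : ℝ := 2 * C2 / (1 - ‖q‖) ^ 2 / c₀ + 2 * C2 / (1 - ‖q‖) + C2 with hR
  have hRpos : 0 < R := by positivity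
  have htw : ∀ n, A.t (w n) ≤ A.t (γ (φ n)) / (1 - ‖q‖) ^ 2 := by
    intro n
    have e1 : A.t (w n) = A.t (γ (φ n) * k⁻¹) := by
      rw [← A.t_inv (w n)]
      congr 1
      simp [hw]
    have e2 : A.t (γ (φ n) * k⁻¹) = 1 - ‖A.act (γ (φ n)) q‖ ^ 2 := by
      unfold DAct.t
      rw [A.mul _ _ _ (by simp)]
    rw [e1, e2, A.tau_act _ hq1.le]
    have h1 := A.J_upper (γ (φ n)) hq1
    have h2 : 0 < A.J (γ (φ n)) q := A.J_pos _ hq1.le
    have h3 : 1 - ‖q‖ ^ 2 ≤ 1 := by nlinarith [norm_nonneg q]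
    calc A.J (γ (φ n)) q * (1 - ‖q‖ ^ 2) ≤ A.J (γ (φ n)) q * 1 :=
          mul_le_mul_of_nonneg_left h3 h2.le
      _ ≤ _ := by rw [mul_one]; exact h1
  have htw2 : ∀ n, A.t k * c2 / 4 * (1 / (((φ n : ℕ) : ℝ) + 1)) ≤ A.t (w n) := by
    intro n
    have h1 := A.t_mul_lower k (γ (φ n))⁻¹
    rw [A.t_inv] at h1
    have h2 := hγ1 (φ n)
    have h3 := A.t_pos k
    calc A.t k * c2 / 4 * (1 / (((φ n : ℕ) : ℝ) + 1))
        = A.t k * (c2 * (1 / (((φ n : ℕ) : ℝ) + 1))) / 4 := by ring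
      _ ≤ A.t k * A.t (γ (φ n)) / 4 := by gcongr
      _ ≤ _ := h1
  have hsub : ∀ n, 3 / 2 * c₀ ≤ ‖A.act (w n) 0 - ξ₀‖ → ∀ E : Set ℂ,
      E ⊆ Metric.closedBall ξ₀ r₀ → (A.act (w n) ⁻¹' E) ∩ {z | ‖z‖ = 1} ⊆
        Metric.closedBall ξL (R * (1 / (((φ n : ℕ) : ℝ) + 1))) := by
    intro n hn E hE η hη
    obtain ⟨hη1, hη2⟩ := hη
    have hη2' : ‖η‖ = 1 := hη2
    rw [Metric.mem_closedBall, dist_eq_norm]
    have hξ := hE hη1
    rw [Metric.mem_closedBall, dist_eq_norm] at hξ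
    set ρ : ℝ := 1 / (((φ n : ℕ) : ℝ) + 1) with hρ
    have hρ0 : 0 < ρ := by positivity
    have h1 := A.circle_dist (w n) hη2'
    have h2 : c₀ ≤ ‖A.act (w n) η - A.act (w n) 0‖ := by
      have h3 : ‖A.act (w n) 0 - ξ₀‖ ≤ ‖A.act (w n) η - ξ₀‖ + ‖A.act (w n) η - A.act (w n) 0‖ := by
        calc ‖A.act (w n) 0 - ξ₀‖ = ‖(A.act (w n) η - ξ₀) - (A.act (w n) η - A.act (w n) 0)‖ := by
              congr 1; ring
          _ ≤ _ := norm_sub_le _ _
      linarith
    have h4 : ‖η - A.act (w n)⁻¹ 0‖ ≤ A.t (w n) / c₀ := by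
      rw [le_div_iff₀ hc₀]
      calc ‖η - A.act (w n)⁻¹ 0‖ * c₀ ≤ ‖η - A.act (w n)⁻¹ 0‖ * ‖A.act (w n) η - A.act (w n) 0‖ :=
            mul_le_mul_of_nonneg_left h2 (norm_nonneg _)
        _ = A.t (w n) := by rw [← h1]; ring
    have h5 : A.act (w n)⁻¹ 0 = A.act (γ (φ n)) q := by
      have : (w n)⁻¹ = γ (φ n) * k⁻¹ := by simp [hw]
      rw [this, A.mul _ _ _ (by simp)]
    have h6 : ‖A.act (γ (φ n)) q - A.act (γ (φ n)) 0‖ ≤ A.t (γ (φ n)) / (1 - ‖q‖) := by
      refine le_of_sq_le_sq ?_ (div_nonneg (A.t_pos _).le hq2.le)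
      rw [A.dist_act _ hq1.le (by simp), A.J_zero, sub_zero]
      have h7 := A.J_upper (γ (φ n)) hq1
      have h8 := A.t_pos (γ (φ n))
      have h9 : ‖q‖ ^ 2 ≤ 1 := by nlinarith [norm_nonneg q]
      calc A.J (γ (φ n)) q * A.t (γ (φ n)) * ‖q‖ ^ 2
          ≤ (A.t (γ (φ n)) / (1 - ‖q‖) ^ 2) * A.t (γ (φ n)) * 1 := by gcongr
        _ = (A.t (γ (φ n)) / (1 - ‖q‖)) ^ 2 := by
            field_simp
    have h10 := ht (φ n)
    have h11 := hγ2 (φ n)
    rw [← hρ] at h10 h11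
    have h12 := htw n
    calc ‖η - ξL‖ = ‖(η - A.act (w n)⁻¹ 0) + (A.act (γ (φ n)) q - A.act (γ (φ n)) 0) +
          (A.act (γ (φ n)) 0 - ξL)‖ := by rw [h5]; congr 1; ring
      _ ≤ ‖η - A.act (w n)⁻¹ 0‖ + ‖A.act (γ (φ n)) q - A.act (γ (φ n)) 0‖ +
          ‖A.act (γ (φ n)) 0 - ξL‖ := norm_add₃_le
      _ ≤ A.t (w n) / c₀ + A.t (γ (φ n)) / (1 - ‖q‖) + C2 * ρ := by linarith
      _ ≤ (2 * C2 * ρ / (1 - ‖q‖) ^ 2) / c₀ + 2 * C2 * ρ / (1 - ‖q‖) + C2 * ρ := by
          have h13 : A.t (w n) ≤ 2 * C2 * ρ / (1 - ‖q‖) ^ 2 :=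
            h12.trans (by gcongr)
          gcongr
      _ = R * ρ := by rw [hR]; ring
  -- the key comparison
  have hDpos : 2 * c₀ ≤ D := hk
  have key : ∀ (E1 E2 : Set ℂ) (p s : ℝ), MeasurableSet E1 → MeasurableSet E2 →
      E1 ⊆ Metric.closedBall ξ₀ r₀ → E2 ⊆ Metric.closedBall ξ₀ r₀ → 0 ≤ p → 0 ≤ s →
      (∀ v : Γ, c₀ ≤ ‖A.act v 0 - ξ₀‖ →
        p * (pf A ν E1 v).toReal ≤ s * (pf A ν E2 v).toReal) →
      p * ((circ E1).toReal / (D + r₀) ^ 2) ≤ s * ((circ E2).toReal / (D - r₀) ^ 2) := by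
    intro E1 E2 p s hE1 hE2 hb1 hb2 hp hs hps
    refine le_of_forall_pos_le_add fun ε hε => ?_
    set K : ℝ := A.t k * c2 / 4 with hK
    have hKpos : 0 < K := by have := A.t_pos k; positivity
    set ε' : ℝ := ε * L * K / (p + s + 1) with hε'
    have hε'pos : 0 < ε' := by positivity
    obtain ⟨r₁, hr₁, hLeb1⟩ := hLeb R hRpos ε' hε'pos
    have hev : ∀ᶠ n in atTop, p * ((circ E1).toReal / (‖A.act (w n) 0 - ξ₀‖ + r₀) ^ 2) ≤
        s * ((circ E2).toReal / (‖A.act (w n) 0 - ξ₀‖ - r₀) ^ 2) + ε := by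
      filter_upwards [hDlarge, hinvφ.eventually (gt_mem_nhds hr₁)] with n hn1 hn2
      set ρ : ℝ := 1 / (((φ n : ℕ) : ℝ) + 1) with hρ
      have hρ0 : 0 < ρ := by positivity
      have hc := hps (w n) (by linarith)
      rw [pf_eq hE1, pf_eq hE2] at hc
      have hmes : ∀ E : Set ℂ, MeasurableSet E →
          MeasurableSet ((A.act (w n) ⁻¹' E) ∩ {z | ‖z‖ = 1}) := fun E hE =>
        (A.measurable_act _ hE).inter (measurableSet_eq_fun measurable_norm measurable_const)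
      have hL1 := hLeb1 ρ hρ0 hn2 _ (hmes E1 hE1) (hsub n hn1 E1 hb1)
      have hL2 := hLeb1 ρ hρ0 hn2 _ (hmes E2 hE2) (hsub n hn1 E2 hb2)
      rw [ratioLim_inter (ae_norm_of_ac h.ac), ratioLim_inter ae_circ_norm] at hL1 hL2
      have hfar' : r₀ < ‖A.act (w n) 0 - ξ₀‖ := by linarith
      have hC1 := (ratioLim_circ (w n) hE1 hr₀ hb1 hfar').1
      have hC2 := (ratioLim_circ (w n) hE2 hr₀ hb2 hfar').2
      set T := A.t (w n) with hT
      have hTpos : 0 < T := A.t_pos _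
      have hTK : K * ρ ≤ T := htw2 n
      set X := (circ E1).toReal / (‖A.act (w n) 0 - ξ₀‖ + r₀) ^ 2 with hX
      set Z := (circ E2).toReal / (‖A.act (w n) 0 - ξ₀‖ - r₀) ^ 2 with hZ
      have hC1' : T * X ≤ (circ (A.act (w n) ⁻¹' E1)).toReal := by
        have e : T * X = T / (‖A.act (w n) 0 - ξ₀‖ + r₀) ^ 2 * (circ E1).toReal := by
          rw [hX]; ring
        rw [e]; exact hC1
      have hC2' : (circ (A.act (w n) ⁻¹' E2)).toReal ≤ T * Z := by
        have e : T * Z = T / (‖A.act (w n) 0 - ξ₀‖ - r₀) ^ 2 * (circ E2).toReal := by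
          rw [hZ]; ring
        rw [e]; exact hC2
      have hN1 : L * (T * X) - ε' * ρ ≤ (ν (A.act (w n) ⁻¹' E1)).toReal := by
        have := (abs_le.1 hL1).1
        have h2 := mul_le_mul_of_nonneg_left hC1' hLpos.le
        linarith
      have hN2 : (ν (A.act (w n) ⁻¹' E2)).toReal ≤ L * (T * Z) + ε' * ρ := by
        have := (abs_le.1 hL2).2
        have h2 := mul_le_mul_of_nonneg_left hC2' hLpos.le
        linarith
      have h1 : p * (L * (T * X) - ε' * ρ) ≤ s * (L * (T * Z) + ε' * ρ) :=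
        (mul_le_mul_of_nonneg_left hN1 hp).trans (hc.trans (mul_le_mul_of_nonneg_left hN2 hs))
      have h2 : (p + s) * (ε' * ρ) ≤ ε * (L * T) := by
        have h3 : (p + s) * ε' ≤ ε * L * K := by
          rw [hε']
          rw [mul_div_assoc']
          rw [div_le_iff₀ (by positivity)]
          have : 0 ≤ ε * L * K := by positivity
          nlinarith
        calc (p + s) * (ε' * ρ) = ((p + s) * ε') * ρ := by ring
          _ ≤ (ε * L * K) * ρ := mul_le_mul_of_nonneg_right h3 hρ0.le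
          _ = ε * L * (K * ρ) := by ring
          _ ≤ ε * L * T := mul_le_mul_of_nonneg_left hTK (by positivity)
          _ = _ := by ring
      have h4 : (L * T) * (p * X) ≤ (L * T) * (s * Z + ε) := by
        nlinarith
      exact le_of_mul_le_mul_left h4 (by positivity)
    refine le_of_tendsto_of_tendsto ?_ ?_ hev
    · exact (tendsto_const_nhds.div ((hDn.add_const r₀).pow 2)
        (pow_ne_zero 2 (by linarith))).const_mul p
    · exact ((tendsto_const_nhds.div ((hDn.sub_const r₀).pow 2)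
        (pow_ne_zero 2 (by linarith))).const_mul s).add_const ε
  -- conclusion
  have hratio : (D + r₀) ^ 2 ≤ (1 + 6 / c₀ * r₀) * (D - r₀) ^ 2 := by
    have h1 : c₀ ≤ D - r₀ := by linarith
    set x : ℝ := r₀ / c₀ with hx
    have hx0 : 0 ≤ x := by positivity
    have hx1 : x ≤ 1 / 2 := by rw [hx, div_le_iff₀ hc₀]; linarith
    have hxr : r₀ = x * c₀ := by rw [hx]; field_simp
    have e : 1 + 6 / c₀ * r₀ = 1 + 6 * x := by rw [hx]; ring
    rw [e]
    have h2 : D + r₀ ≤ (1 + 2 * x) * (D - r₀) := by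
      have h3 : r₀ ≤ x * (D - r₀) := by
        calc r₀ = x * c₀ := hxr
          _ ≤ _ := mul_le_mul_of_nonneg_left h1 hx0
      linarith
    calc (D + r₀) ^ 2 ≤ ((1 + 2 * x) * (D - r₀)) ^ 2 :=
          pow_le_pow_left₀ (by linarith) h2 2
      _ = (1 + 2 * x) ^ 2 * (D - r₀) ^ 2 := by ring
      _ ≤ (1 + 6 * x) * (D - r₀) ^ 2 := by
          refine mul_le_mul_of_nonneg_right ?_ (by positivity)
          nlinarith
  have fin : ∀ X Z : ℝ, 0 ≤ Z → X / (D + r₀) ^ 2 ≤ Z / (D - r₀) ^ 2 →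
      X ≤ (1 + 6 / c₀ * r₀) * Z := by
    intro X Z hZ hXZ
    have hp1 : 0 < (D + r₀) ^ 2 := by positivity
    have hp2 : 0 < (D - r₀) ^ 2 := pow_pos (by linarith) 2
    rw [div_le_div_iff₀ hp1 hp2] at hXZ
    have h1 : Z * (D + r₀) ^ 2 ≤ Z * ((1 + 6 / c₀ * r₀) * (D - r₀) ^ 2) :=
      mul_le_mul_of_nonneg_left hratio hZ
    have h2 : X * (D - r₀) ^ 2 ≤ ((1 + 6 / c₀ * r₀) * Z) * (D - r₀) ^ 2 := by
      linarith
    exact le_of_mul_le_mul_right h2 hp2
  have hb : 0 ≤ b := ha.trans hab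
  constructor
  · have h1 := key E' E a 1 hE' hE hEb' hEb ha zero_le_one (fun v hv => by
      rw [one_mul]; exact (hcmp v hv).1)
    refine fin _ _ ENNReal.toReal_nonneg ?_
    rw [one_mul] at h1
    rw [mul_div_assoc]
    exact h1
  · have h1 := key E E' 1 b hE hE' hEb hEb' zero_le_one hb (fun v hv => by
      rw [one_mul]; exact (hcmp v hv).2)
    refine fin _ _ (mul_nonneg hb ENNReal.toReal_nonneg) ?_
    rw [one_mul] at h1
    rw [mul_div_assoc]
    exact h1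

end Pool.Agent.Lib.KLP
end

section

/-!
# B17: a free orientation preserving subgroup of finite index
-/

set_option autoImplicit false
open MeasureTheory Set Filter Topology
open scoped ENNReal ComplexConjugate

namespace Pool.Agent.Lib.KLP

private theorem not_differentiableAt_conj : ¬ DifferentiableAt ℂ (fun z : ℂ => conj z) 0 := by
  intro h
  have h1 := h.hasFDerivAt.restrictScalars ℝ
  have h2 : HasFDerivAt (fun z : ℂ => conj z) (Complex.conjCLE : ℂ →L[ℝ] ℂ) 0 :=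
    Complex.conjCLE.hasFDerivAt
  have h3 := h1.unique h2
  have e1 : (fderiv ℂ (fun z : ℂ => conj z) 0) 1 = 1 := by
    have := congrArg (fun L : ℂ →L[ℝ] ℂ => L 1) h3
    simpa using this
  have e2 : (fderiv ℂ (fun z : ℂ => conj z) 0) Complex.I = -Complex.I := by
    have := congrArg (fun L : ℂ →L[ℝ] ℂ => L Complex.I) h3
    simpa using this
  have e3 : (fderiv ℂ (fun z : ℂ => conj z) 0) Complex.I =
      Complex.I * (fderiv ℂ (fun z : ℂ => conj z) 0) 1 := by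
    have := (fderiv ℂ (fun z : ℂ => conj z) 0).map_smul Complex.I 1
    simpa using this
  rw [e1, e2] at e3
  have := congrArg Complex.im e3
  simp at this
  norm_num at this

private theorem denom_ne {a z : ℂ} (ha : ‖a‖ < 1) (hz : ‖z‖ < 1) : 1 - conj a * z ≠ 0 := by
  intro h
  have h1 : conj a * z = 1 := by linear_combination -h
  have h2 : ‖a‖ * ‖z‖ = 1 := by
    have := congrArg norm h1
    simpa using this
  have h3 : ‖a‖ * ‖z‖ < 1 := by
    have := norm_nonneg a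
    have := norm_nonneg z
    nlinarith
  linarith

private theorem mob_diff {c a : ℂ} (ha : ‖a‖ < 1) :
    DifferentiableOn ℂ (mob c a) (Metric.ball 0 1) := by
  unfold mob
  apply DifferentiableOn.div
  · fun_prop
  · fun_prop
  · intro z hz
    exact denom_ne ha (by simpa using hz)

private theorem IsMob.diff {f : ℂ → ℂ} (hf : IsMob f) :
    DifferentiableOn ℂ f (Metric.ball 0 1) := by
  obtain ⟨c, a, _, ha, rfl⟩ := hf
  exact mob_diff ha

private theorem IsAntiMob.diff {f : ℂ → ℂ} (hf : IsAntiMob f) :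
    DifferentiableOn ℂ (fun z => conj (f z)) (Metric.ball 0 1) := by
  obtain ⟨c, a, _, ha, rfl⟩ := hf
  have : (fun z => conj (mob c a (conj z))) = mob (conj c) (conj a) := by
    funext z
    simp [mob]
  rw [this]
  exact mob_diff (by simpa using ha)

private theorem IsAntiMob.diff' {f : ℂ → ℂ} (hf : IsAntiMob f) :
    ∃ h : ℂ → ℂ, DifferentiableOn ℂ h (Metric.ball 0 1) ∧ ∀ z, f z = h (conj z) := by
  obtain ⟨c, a, _, ha, rfl⟩ := hf
  exact ⟨mob c a, mob_diff ha, fun z => rfl⟩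

section

variable {Γ : Type*} [Group Γ] (A : DAct Γ)

private theorem mapsBall (g : Γ) : MapsTo (A.act g) (Metric.ball 0 1) (Metric.ball 0 1) := by
  intro z hz
  have : ‖z‖ < 1 := by simpa using hz
  simpa using A.norm_act_lt g this

private def Dg (g : Γ) : Prop := DifferentiableOn ℂ (A.act g) (Metric.ball 0 1)

private theorem Dg_mul {g h : Γ} (hg : Dg A g) (hh : Dg A h) : Dg A (g * h) := by
  have h1 : DifferentiableOn ℂ (A.act g ∘ A.act h) (Metric.ball 0 1) :=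
    DifferentiableOn.comp hg hh (mapsBall A h)
  refine h1.congr ?_
  intro z hz
  have : ‖z‖ < 1 := by simpa using hz
  exact A.mul g h z this.le

private theorem Dg_one : Dg A 1 := by
  have h1 : DifferentiableOn ℂ (fun z : ℂ => z) (Metric.ball 0 1) := by fun_prop
  refine h1.congr ?_
  intro z hz
  have : ‖z‖ < 1 := by simpa using hz
  exact A.one z this.le

private theorem not_Dg_of_anti {g : Γ} (hg : IsAntiMob (A.act g)) : ¬ Dg A g⁻¹ := by
  intro h
  have h1 : DifferentiableOn ℂ ((fun z => conj (A.act g z)) ∘ A.act g⁻¹) (Metric.ball 0 1) :=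
    DifferentiableOn.comp hg.diff h (mapsBall A g⁻¹)
  have h2 : DifferentiableOn ℂ (fun z : ℂ => conj z) (Metric.ball 0 1) := by
    refine h1.congr ?_
    intro z hz
    have hz' : ‖z‖ < 1 := by simpa using hz
    simp only [Function.comp]
    rw [A.act_inv_act g hz'.le]
  exact not_differentiableAt_conj (h2.differentiableAt (Metric.ball_mem_nhds 0 one_pos))

private theorem Dg_inv {g : Γ} (hg : Dg A g) : Dg A g⁻¹ := by
  rcases A.iso g⁻¹ with h | h
  · exact h.diff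
  · exact absurd (by rw [inv_inv]; exact hg) (not_Dg_of_anti A h)

private theorem isMob_iff (g : Γ) : IsMob (A.act g) ↔ Dg A g := by
  constructor
  · intro h
    exact h.diff
  · intro h
    rcases A.iso g with h' | h'
    · exact h'
    · exact absurd (Dg_inv A h) (not_Dg_of_anti A h')

private theorem Dg_mul_anti {g h : Γ} (hg : ¬ Dg A g) (hh : ¬ Dg A h) : Dg A (g * h) := by
  have hg' : IsAntiMob (A.act g) := by
    rcases A.iso g with h' | h'
    · exact absurd h'.diff hg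
    · exact h'
  have hh' : IsAntiMob (A.act h) := by
    rcases A.iso h with h' | h'
    · exact absurd h'.diff hh
    · exact h'
  obtain ⟨k, hk, hk2⟩ := hg'.diff'
  have h1 : DifferentiableOn ℂ (k ∘ (fun z => conj (A.act h z))) (Metric.ball 0 1) := by
    refine DifferentiableOn.comp hk hh'.diff ?_
    intro z hz
    have := mapsBall A h hz
    simpa using this
  refine h1.congr ?_
  intro z hz
  have : ‖z‖ < 1 := by simpa using hz
  rw [A.mul g h z this.le, hk2]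
  rfl

private def plus : Subgroup Γ where
  carrier := {g | Dg A g}
  mul_mem' := fun ha hb => Dg_mul A ha hb
  one_mem' := Dg_one A
  inv_mem' := fun ha => Dg_inv A ha

private theorem plus_finiteIndex : (plus A).FiniteIndex := by
  by_cases h : plus A = ⊤
  · rw [h]
    infer_instance
  · have : ∃ a, a ∉ plus A := by
      by_contra hcon
      push Not at hcon
      exact h (eq_top_iff.mpr fun x _ => hcon x)
    obtain ⟨a, ha⟩ := this
    refine ⟨?_⟩
    rw [(Subgroup.index_eq_two_iff (H := plus A)).mpr ⟨a, ?_⟩]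
    · norm_num
    · intro b
      by_cases hb : b ∈ plus A
      · right
        refine ⟨hb, fun hba => ha ?_⟩
        exact ((plus A).mul_mem_cancel_left hb).mp hba
      · left
        refine ⟨?_, hb⟩
        exact Dg_mul_anti A hb ha

end

theorem exists_free_subgroup {Γ : Type*} [Group Γ] (A : DAct Γ)
    (hfaith : ∀ g : Γ, (∀ z, ‖z‖ < 1 → A.act g z = z) → g = 1) (hfg : Group.FG Γ)
    (hlin : ∃ (n : ℕ) (R : Γ →* GL (Fin n) ℝ), Function.Injective R) :
    ∃ Δ : Subgroup Γ, Δ.FiniteIndex ∧ (∀ g ∈ Δ, IsMob (A.act g)) ∧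
      ∀ g ∈ Δ, ∀ z, ‖z‖ < 1 → A.act g z = z → g = 1 := by
  classical
  obtain ⟨ρ, hρ1, hρ⟩ := A.cocompact
  have hρ0 : 0 ≤ ρ := by
    obtain ⟨g, hg⟩ := hρ 0 (by simp)
    exact le_trans (norm_nonneg _) hg
  obtain ⟨n, R, hR⟩ := hlin
  have hbad : {g : Γ | g ≠ 1 ∧ ∃ z : ℂ, ‖z‖ ≤ ρ ∧ A.act g z = z}.Finite := by
    have hε : 0 < (1 - ρ ^ 2) * (1 - ρ) ^ 2 := by
      have : 0 < 1 - ρ := by linarith
      have : 0 < 1 - ρ ^ 2 := by nlinarith
      positivity
    refine (A.finite_t hε).subset ?_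
    rintro g ⟨_, z, hz, hgz⟩
    have hz1 : ‖z‖ < 1 := lt_of_le_of_lt hz hρ1
    have h1 : kap (A.act g 0) (A.act g z) = kap 0 z := A.kap_act g (by simp) hz1
    rw [hgz] at h1
    have h2 : kap (0 : ℂ) z = 1 - ‖z‖ ^ 2 := by simp [kap]
    have h0 : ‖A.act g 0‖ < 1 := A.norm_act_lt g (by simp)
    have h3 : (1 - ‖z‖) ^ 2 ≤ ‖1 - conj (A.act g 0) * z‖ ^ 2 := by
      have : 1 - ‖z‖ ≤ ‖1 - conj (A.act g 0) * z‖ := by
        have h4 : ‖(1 : ℂ)‖ - ‖conj (A.act g 0) * z‖ ≤ ‖1 - conj (A.act g 0) * z‖ :=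
          norm_sub_norm_le _ _
        have h5 : ‖conj (A.act g 0) * z‖ ≤ ‖z‖ := by
          rw [norm_mul, RCLike.norm_conj]
          have := norm_nonneg z
          nlinarith
        rw [norm_one] at h4
        linarith
      have h6 : 0 ≤ 1 - ‖z‖ := by linarith
      exact pow_le_pow_left₀ h6 this 2
    have hpos : 0 < (1 - ‖z‖) ^ 2 := by
      have : 0 < 1 - ‖z‖ := by linarith
      positivity
    have hD : 0 < ‖1 - conj (A.act g 0) * z‖ ^ 2 := lt_of_lt_of_le hpos h3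
    rw [h2, kap, div_eq_iff hD.ne'] at h1
    have hz2 : 0 < 1 - ‖z‖ ^ 2 := by
      have := norm_nonneg z
      nlinarith
    have h7 : 1 - ‖A.act g 0‖ ^ 2 = ‖1 - conj (A.act g 0) * z‖ ^ 2 := by
      have : (1 - ‖z‖ ^ 2) * (1 - ‖A.act g 0‖ ^ 2) =
          (1 - ‖z‖ ^ 2) * ‖1 - conj (A.act g 0) * z‖ ^ 2 := by linarith
      exact mul_left_cancel₀ hz2.ne' this
    show (1 - ρ ^ 2) * (1 - ρ) ^ 2 ≤ A.t g
    have h8 : A.t g = ‖1 - conj (A.act g 0) * z‖ ^ 2 := h7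
    rw [h8]
    refine le_trans ?_ h3
    have h9 : (1 - ρ) ^ 2 ≤ (1 - ‖z‖) ^ 2 := by
      apply pow_le_pow_left₀ (by linarith)
      linarith
    have h10 : (1 - ρ ^ 2) * (1 - ρ) ^ 2 ≤ 1 * (1 - ρ) ^ 2 := by
      apply mul_le_mul_of_nonneg_right _ (by positivity)
      nlinarith
    linarith
  obtain ⟨N, hNn, hNf, hN⟩ := resid_finite hfg R hR hbad.toFinset (by simp)
  have hpf := plus_finiteIndex A
  refine ⟨N ⊓ plus A, inferInstance, ?_, ?_⟩
  · intro g hg
    rw [isMob_iff]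
    exact hg.2
  · intro g hg z hz hgz
    obtain ⟨h, hh⟩ := hρ z hz
    by_contra hg1
    have hmem : h * g * h⁻¹ ∈ N := hNn.conj_mem g hg.1 h
    apply hN (h * g * h⁻¹) _ hmem
    rw [Set.Finite.mem_toFinset]
    refine ⟨?_, A.act h z, hh, ?_⟩
    · intro hcon
      apply hg1
      have : g = h⁻¹ * (h * g * h⁻¹) * h := by group
      rw [this, hcon]
      group
    · have hhz : ‖A.act h z‖ < 1 := A.norm_act_lt h hz
      rw [A.mul (h * g) h⁻¹ _ hhz.le, A.inv_act_act h hz.le, A.mul h g z hz.le, hgz]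

end Pool.Agent.Lib.KLP
end
end

section

section

/-!
# 3.1: lower bound for killed hitting probabilities
-/

set_option autoImplicit false
open MeasureTheory Set Filter Topology
open scoped ENNReal ComplexConjugate

namespace Pool.Agent.Lib.KLP

variable {Γ : Type*} [Group Γ] {A : DAct Γ} {W : Walk Γ} {ν : Measure ℂ}

private theorem t_le_two (A : DAct Γ) (g : Γ) {ξ : ℂ} (hξ : ‖ξ‖ = 1) :
    A.t g ≤ 2 * ‖A.act g 0 - ξ‖ := by
  have h1 : ‖A.act g 0‖ < 1 := A.norm_act_lt g (by simp)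
  have h2 : 1 - ‖A.act g 0‖ ≤ ‖A.act g 0 - ξ‖ := by
    have := norm_sub_norm_le ξ (A.act g 0)
    rw [hξ, norm_sub_rev] at this
    exact this
  have h0 := norm_nonneg (A.act g 0)
  unfold DAct.t
  nlinarith

private theorem t_formula (A : DAct Γ) (g h : Γ) :
    A.t (g⁻¹ * h) = A.t g * A.t h / ‖1 - conj (A.act g 0) * A.act h 0‖ ^ 2 := by
  rw [← A.kap_orbit g h]; rfl

private theorem one_sub_sq (A : DAct Γ) (g h : Γ) :
    ‖1 - conj (A.act g 0) * A.act h 0‖ ^ 2 =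
      ‖A.act g 0 - A.act h 0‖ ^ 2 + A.t g * A.t h :=
  norm_one_sub_conj_mul_sq _ _

private theorem F_shift (W : Walk Γ) (w x : Γ) : W.F w x = W.F 1 (w⁻¹ * x) := by
  have := W.F_mul_left w⁻¹ w x
  rw [inv_mul_cancel] at this
  exact this.symm

/-- `t(v⁻¹ x) ≤ 4 t(v)/t(x)`. -/
private theorem t_ratio (A : DAct Γ) (v x : Γ) : A.t (v⁻¹ * x) ≤ 4 * A.t v / A.t x := by
  have hx := A.t_pos x
  have hv := A.t_pos v
  have h1 : ‖A.act x 0‖ < 1 := A.norm_act_lt x (by simp)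
  have h2 : ‖A.act v 0‖ < 1 := A.norm_act_lt v (by simp)
  have h0 := norm_nonneg (A.act x 0)
  have h3 : A.t x / 2 ≤ ‖1 - conj (A.act v 0) * A.act x 0‖ := by
    have h4 : 1 - ‖A.act x 0‖ ≤ ‖1 - conj (A.act v 0) * A.act x 0‖ := by
      have h5 := norm_sub_norm_le (1 : ℂ) (conj (A.act v 0) * A.act x 0)
      rw [norm_one, norm_mul, Complex.norm_conj] at h5
      have : ‖A.act v 0‖ * ‖A.act x 0‖ ≤ ‖A.act x 0‖ := by nlinarith
      linarith
    have : A.t x / 2 ≤ 1 - ‖A.act x 0‖ := by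
      unfold DAct.t; nlinarith
    linarith
  rw [t_formula]
  have h6 : (A.t x / 2) ^ 2 ≤ ‖1 - conj (A.act v 0) * A.act x 0‖ ^ 2 :=
    pow_le_pow_left₀ (by positivity) h3 2
  calc A.t v * A.t x / ‖1 - conj (A.act v 0) * A.act x 0‖ ^ 2
      ≤ A.t v * A.t x / (A.t x / 2) ^ 2 := by
        apply div_le_div_of_nonneg_left (by positivity) (by positivity) h6
    _ = 4 * A.t v / A.t x := by field_simp; ring

theorem killed {c C : ℝ} (hB : Bds A W ν c C) (htr : W.Transient) {c₂ C₂ : ℝ} (hc₂ : 0 < c₂)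
    (hC₂ : 0 < C₂) : ∃ Λ₀ Λ₁ c' : ℝ, 1 ≤ Λ₀ ∧ Λ₀ ≤ Λ₁ ∧ 0 < c' ∧
      ∀ (ξ₀ : ℂ) (r : ℝ) (x w : Γ), ‖ξ₀‖ = 1 → 0 < r → Λ₀ * r ≤ 1 →
        c₂ * (Λ₀ * r) ≤ A.t x → ‖A.act x 0 - ξ₀‖ ≤ C₂ * (Λ₀ * r) →
        Λ₁ * r ≤ ‖A.act w 0 - ξ₀‖ →
        ENNReal.ofReal (c' * (Λ₀ * r) * A.t w / ‖A.act w 0 - ξ₀‖ ^ 2) ≤
          W.hit (A.U ξ₀ r ∪ {x}) (Set.indicator {x} (fun _ => 1)) w := by
  classical
  obtain ⟨Cp, hCp, hpack⟩ := packing A
  have hc : 0 < c := hB.c_pos
  have hC : 0 < C := hc.trans_le hB.c_le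
  set Λ₀ : ℝ := 1 + 512 * C ^ 2 * Cp / (c * c₂ ^ 2) with hΛ₀
  have hΛ₀1 : 1 ≤ Λ₀ := by rw [hΛ₀]; have : 0 ≤ 512 * C ^ 2 * Cp / (c * c₂ ^ 2) := by positivity
                           linarith
  have hΛ₀0 : 0 < Λ₀ := by linarith
  have hkey : 32 * C ^ 2 * Cp / (c₂ * Λ₀ ^ 2) ≤ c * c₂ / 16 := by
    have h1 : 512 * C ^ 2 * Cp / (c * c₂ ^ 2) ≤ Λ₀ ^ 2 := by
      have : 512 * C ^ 2 * Cp / (c * c₂ ^ 2) ≤ Λ₀ := by rw [hΛ₀]; linarith
      nlinarith
    rw [div_le_iff₀ (by positivity)] at h1 ⊢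
    nlinarith
  refine ⟨Λ₀, max (max 2 (C₂ * Λ₀)) Λ₀, c * c₂ / 16, hΛ₀1, le_max_right _ _, by positivity, ?_⟩
  intro ξ₀ r x w hξ₀ hr hr1 hx hxξ hw
  set d : ℝ := ‖A.act w 0 - ξ₀‖ with hd
  set ρ : ℝ := Λ₀ * r with hρ
  have hρ0 : 0 < ρ := by positivity
  have hd2 : 2 * r ≤ d := le_trans (mul_le_mul_of_nonneg_right
    ((le_max_left _ _).trans (le_max_left _ _)) hr.le) hw
  have hdC : C₂ * ρ ≤ d := by
    have : C₂ * Λ₀ * r ≤ d := le_trans (mul_le_mul_of_nonneg_right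
      ((le_max_right _ _).trans (le_max_left _ _)) hr.le) hw
    rw [hρ]; linarith
  have hd0 : 0 < d := by linarith
  have htw := A.t_pos w
  have htx := A.t_pos x
  -- (a) lower bound for `F w x`
  have hlow : ENNReal.ofReal (c * c₂ / 8 * ρ * A.t w / d ^ 2) ≤ W.F w x := by
    rw [F_shift]
    refine le_trans ?_ (hB.lowF _)
    apply ENNReal.ofReal_le_ofReal
    rw [t_formula, one_sub_sq]
    have h1 : ‖A.act w 0 - A.act x 0‖ ≤ 2 * d := by
      have : A.act w 0 - A.act x 0 = (A.act w 0 - ξ₀) - (A.act x 0 - ξ₀) := by ring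
      rw [this]
      refine (norm_sub_le _ _).trans ?_
      linarith
    have h2 : A.t w ≤ 2 * d := t_le_two A w hξ₀
    have h3 : A.t x ≤ 2 * d := (t_le_two A x hξ₀).trans (by linarith)
    have h4 : ‖A.act w 0 - A.act x 0‖ ^ 2 + A.t w * A.t x ≤ 8 * d ^ 2 := by
      have h5 : ‖A.act w 0 - A.act x 0‖ ^ 2 ≤ (2 * d) ^ 2 :=
        pow_le_pow_left₀ (norm_nonneg _) h1 2
      have h6 : A.t w * A.t x ≤ (2 * d) * (2 * d) :=
        mul_le_mul h2 h3 htx.le (by linarith)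
      nlinarith
    have h7 : 0 < ‖A.act w 0 - A.act x 0‖ ^ 2 + A.t w * A.t x := by positivity
    calc c * c₂ / 8 * ρ * A.t w / d ^ 2 = c * (A.t w * (c₂ * ρ) / (8 * d ^ 2)) := by
          field_simp
      _ ≤ c * (A.t w * A.t x / (8 * d ^ 2)) := by gcongr
      _ ≤ c * (A.t w * A.t x / (‖A.act w 0 - A.act x 0‖ ^ 2 + A.t w * A.t x)) := by
          gcongr
  -- (b) decomposition
  set V : Set Γ := A.U ξ₀ r ∪ {x} with hV
  have hdec : W.F w x ≤ W.hit V (fun y => W.F y x) w := by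
    refine W.le_hit htr (C := 1) ENNReal.one_ne_top (fun y => W.F_le_one y x) ?_ ?_ w
    · intro y hy
      apply W.F_harmonic
      rintro rfl
      exact hy (Or.inr rfl)
    · intro ε hε
      obtain ⟨e, he0, he⟩ : ∃ e : ℝ, 0 < e ∧ ENNReal.ofReal e ≤ ε := by
        rcases eq_or_ne ε ∞ with h | h
        · exact ⟨1, one_pos, by rw [h]; exact le_top⟩
        · exact ⟨ε.toReal, ENNReal.toReal_pos hε.ne' h, by rw [ENNReal.ofReal_toReal h]⟩
      have hfin : {g | e / C ≤ A.t g}.Finite := A.finite_t (by positivity)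
      refine Set.Finite.subset (hfin.image (fun g => x * g⁻¹)) ?_
      rintro y ⟨_, hy⟩
      refine ⟨y⁻¹ * x, ?_, by simp⟩
      have h1 : ENNReal.ofReal e ≤ ENNReal.ofReal (C * A.t (y⁻¹ * x)) := by
        refine he.trans (hy.trans ?_)
        rw [F_shift]; exact hB.upF _
      have h2 : e ≤ C * A.t (y⁻¹ * x) := by
        have hp := A.t_pos (y⁻¹ * x)
        exact (ENNReal.ofReal_le_ofReal_iff (by positivity)).1 h1
      show e / C ≤ A.t (y⁻¹ * x)
      rw [div_le_iff₀ hC]; linarith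
  set g : Γ → ℝ≥0∞ := Set.indicator (A.U ξ₀ r \ {x}) (fun y => W.F y x) with hg
  have hsplit : W.hit V (fun y => W.F y x) w ≤
      W.hit V (Set.indicator {x} (fun _ => 1)) w + W.hit V g w := by
    rw [← W.hit_add]
    apply W.hit_mono
    intro y hy
    by_cases hyx : y = x
    · subst hyx
      rw [Set.indicator_of_mem (by simp)]
      exact (W.F_le_one _ _).trans le_self_add
    · have hyU : y ∈ A.U ξ₀ r \ {x} := by
        rcases hy with hy | hy
        · exact ⟨hy, hyx⟩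
        · exact absurd hy hyx
      rw [hg, Set.indicator_of_mem hyU]
      exact le_add_self
  -- (c) upper bound for the second term
  set M : ℝ := 16 * C ^ 2 * A.t w / (d ^ 2 * (c₂ * ρ)) with hM
  have hM0 : 0 ≤ M := by positivity
  have hup : W.hit V g w ≤ ENNReal.ofReal (c * c₂ / 16 * ρ * A.t w / d ^ 2) := by
    refine (W.hit_le_tsum V g w).trans ?_
    have hterm : ∀ y : Γ, Set.indicator V (fun y => W.F w y * g y) y ≤
        ENNReal.ofReal M *
          (if ‖A.act y 0 - ξ₀‖ ≤ r ∧ A.t y ≤ 2 * r then ENNReal.ofReal (A.t y ^ 2) else 0) := by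
      intro y
      by_cases hyU : y ∈ A.U ξ₀ r \ {x}
      · have hyV : y ∈ V := Or.inl hyU.1
        rw [Set.indicator_of_mem hyV, hg, Set.indicator_of_mem hyU]
        have hyr : ‖A.act y 0 - ξ₀‖ < r := hyU.1
        have hty := A.t_pos y
        have hty2 : A.t y ≤ 2 * r := (t_le_two A y hξ₀).trans (by linarith)
        rw [if_pos ⟨hyr.le, hty2⟩, ← ENNReal.ofReal_mul hM0, F_shift, F_shift W y x]
        calc W.F 1 (w⁻¹ * y) * W.F 1 (y⁻¹ * x)
            ≤ ENNReal.ofReal (C * A.t (w⁻¹ * y)) * ENNReal.ofReal (C * A.t (y⁻¹ * x)) :=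
              mul_le_mul' (hB.upF _) (hB.upF _)
          _ = ENNReal.ofReal (C * A.t (w⁻¹ * y) * (C * A.t (y⁻¹ * x))) := by
              have := A.t_pos (w⁻¹ * y)
              rw [ENNReal.ofReal_mul (by positivity : 0 ≤ C * A.t (w⁻¹ * y))]
          _ ≤ ENNReal.ofReal (M * A.t y ^ 2) := by
              apply ENNReal.ofReal_le_ofReal
              have h1 : A.t (w⁻¹ * y) ≤ 4 * A.t w * A.t y / d ^ 2 := by
                rw [t_formula, one_sub_sq]
                have h2 : d / 2 ≤ ‖A.act w 0 - A.act y 0‖ := by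
                  have h3 := norm_sub_norm_le (A.act w 0 - ξ₀) (A.act y 0 - ξ₀)
                  have : A.act w 0 - A.act y 0 = (A.act w 0 - ξ₀) - (A.act y 0 - ξ₀) := by ring
                  rw [this]
                  linarith
                have h4 : (d / 2) ^ 2 ≤ ‖A.act w 0 - A.act y 0‖ ^ 2 + A.t w * A.t y := by
                  have := pow_le_pow_left₀ (by positivity) h2 2
                  have h5 : 0 ≤ A.t w * A.t y := by positivity
                  linarith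
                calc A.t w * A.t y / (‖A.act w 0 - A.act y 0‖ ^ 2 + A.t w * A.t y)
                    ≤ A.t w * A.t y / (d / 2) ^ 2 := by
                      apply div_le_div_of_nonneg_left (by positivity) (by positivity) h4
                  _ = 4 * A.t w * A.t y / d ^ 2 := by field_simp; ring
              have h6 : A.t (y⁻¹ * x) ≤ 4 * A.t y / (c₂ * ρ) := by
                refine (t_ratio A y x).trans ?_
                apply div_le_div_of_nonneg_left (by positivity) (by positivity) hx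
              have h7 := A.t_pos (y⁻¹ * x)
              calc C * A.t (w⁻¹ * y) * (C * A.t (y⁻¹ * x))
                  ≤ C * (4 * A.t w * A.t y / d ^ 2) * (C * (4 * A.t y / (c₂ * ρ))) := by
                    gcongr
                _ = M * A.t y ^ 2 := by rw [hM]; field_simp; ring
      · have h0 : g y = 0 := by rw [hg, Set.indicator_of_notMem hyU]
        by_cases hyV : y ∈ V
        · rw [Set.indicator_of_mem hyV, h0, mul_zero]; exact zero_le
        · rw [Set.indicator_of_notMem hyV]; exact zero_le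
    refine (ENNReal.tsum_le_tsum hterm).trans ?_
    rw [ENNReal.tsum_mul_left]
    refine (mul_le_mul_right (hpack ξ₀ r 2 hξ₀ hr two_pos le_rfl) _).trans ?_
    rw [← ENNReal.ofReal_mul hM0]
    apply ENNReal.ofReal_le_ofReal
    calc M * (Cp * 2 * r ^ 2) = (32 * C ^ 2 * Cp / (c₂ * Λ₀ ^ 2)) * (ρ * A.t w / d ^ 2) := by
          rw [hM, hρ]; field_simp; ring
      _ ≤ (c * c₂ / 16) * (ρ * A.t w / d ^ 2) := by
          apply mul_le_mul_of_nonneg_right hkey (by positivity)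
      _ = c * c₂ / 16 * ρ * A.t w / d ^ 2 := by ring
  -- (d) conclusion
  have hfinal : ENNReal.ofReal (c * c₂ / 8 * ρ * A.t w / d ^ 2) ≤
      W.hit V (Set.indicator {x} (fun _ => 1)) w +
        ENNReal.ofReal (c * c₂ / 16 * ρ * A.t w / d ^ 2) :=
    hlow.trans (hdec.trans (hsplit.trans (by gcongr)))
  have hsum : ENNReal.ofReal (c * c₂ / 8 * ρ * A.t w / d ^ 2) =
      ENNReal.ofReal (c * c₂ / 16 * ρ * A.t w / d ^ 2) +
        ENNReal.ofReal (c * c₂ / 16 * ρ * A.t w / d ^ 2) := by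
    rw [← ENNReal.ofReal_add (by positivity) (by positivity)]
    congr 1; ring
  rw [hsum] at hfinal
  exact (ENNReal.add_le_add_iff_right ENNReal.ofReal_ne_top).1 hfinal

end Pool.Agent.Lib.KLP
end

section

/-!
# 3.2: one step of the oscillation decay
-/

set_option autoImplicit false
open MeasureTheory Set Filter Topology
open scoped ENNReal ComplexConjugate

namespace Pool.Agent.Lib.KLP

variable {Γ : Type*} [Group Γ] {A : DAct Γ} {W : Walk Γ} {ν : Measure ℂ}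

/-- A real function which is `P`-harmonic and nonnegative at distance `≥ r` of `ξ₀` is at least
its value at `x` times the probability to hit `x` before the ball of radius `r / cS`. -/
private theorem rs_min {cS r : ℝ} (hcS : 0 < cS) (hcS1 : cS ≤ 1) (_hr : 0 < r) {ξ₀ : ℂ}
    (hstep : ∀ w : Γ, ∀ s ∈ W.S, cS * ‖A.act w 0 - ξ₀‖ ≤ ‖A.act (w * s) 0 - ξ₀‖)
    {g : Γ → ℝ} (hg : ∀ w, g w = ∑ s ∈ W.S, W.μ s * g (w * s))
    (hg0 : ∀ w, r ≤ ‖A.act w 0 - ξ₀‖ → 0 ≤ g w) (x w : Γ) (hw : r ≤ ‖A.act w 0 - ξ₀‖)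
    {κ : ℝ} (hκ0 : 0 ≤ κ)
    (hκ : ENNReal.ofReal κ ≤ W.hit (A.U ξ₀ (r / cS) ∪ {x}) (Set.indicator {x} (fun _ => 1)) w) :
    κ * g x ≤ g w := by
  classical
  have hgw := hg0 w hw
  rcases le_or_gt (g x) 0 with hx | hx
  · exact (mul_nonpos_of_nonneg_of_nonpos hκ0 hx).trans hgw
  set G : Γ → ℝ≥0∞ := fun v => if r ≤ ‖A.act v 0 - ξ₀‖ then ENNReal.ofReal (g v) else ⊤ with hG
  have key : W.hit (A.U ξ₀ (r / cS) ∪ {x})
      (fun y => ENNReal.ofReal (g x) * Set.indicator {x} (fun _ => 1) y) w ≤ G w := by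
    refine W.hit_le (g := G) ?_ ?_ w
    · intro v _
      by_cases hv : v = x
      · subst hv
        rw [Set.indicator_of_mem (Set.mem_singleton v), mul_one]
        simp only [hG]
        split_ifs with h1
        · exact le_rfl
        · exact le_top
      · rw [Set.indicator_of_notMem (by simpa using hv), mul_zero]
        exact bot_le
    · intro v hv
      have hvU : r / cS ≤ ‖A.act v 0 - ξ₀‖ := by
        by_contra hc
        push Not at hc
        exact hv (Or.inl hc)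
      have hv1 : r ≤ cS * ‖A.act v 0 - ξ₀‖ := by
        rw [div_le_iff₀ hcS] at hvU
        linarith
      have hv2 : r ≤ ‖A.act v 0 - ξ₀‖ := by
        refine hv1.trans ?_
        exact mul_le_of_le_one_left (norm_nonneg _) hcS1
      have h1 : ∀ s ∈ W.S, G (v * s) = ENNReal.ofReal (g (v * s)) := by
        intro s hs
        simp only [hG]
        rw [if_pos (hv1.trans (hstep v s hs))]
      have h2 : G v = ENNReal.ofReal (g v) := by
        simp only [hG]
        rw [if_pos hv2]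
      rw [h2, hg v]
      unfold Walk.P
      rw [Finset.sum_congr rfl (fun s hs => by rw [h1 s hs])]
      rw [ENNReal.ofReal_sum_of_nonneg]
      · refine le_of_eq (Finset.sum_congr rfl fun s hs => ?_)
        rw [ENNReal.ofReal_mul (W.pos s hs).le]
      · intro s hs
        exact mul_nonneg (W.pos s hs).le (hg0 _ (hv1.trans (hstep v s hs)))
  rw [W.hit_const_mul] at key
  have hGw : G w = ENNReal.ofReal (g w) := by
    simp only [hG]
    rw [if_pos hw]
  rw [hGw] at key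
  have h3 : ENNReal.ofReal (κ * g x) ≤ ENNReal.ofReal (g w) := by
    rw [ENNReal.ofReal_mul hκ0, mul_comm]
    exact (mul_le_mul_right hκ _).trans key
  exact (ENNReal.ofReal_le_ofReal_iff hgw).1 h3

private theorem rs_harm (h : Std A W ν) {E : Set ℂ} (hE : MeasurableSet E) (w : Γ) :
    (pf A ν E w).toReal = ∑ s ∈ W.S, W.μ s * (pf A ν E (w * s)).toReal := by
  rw [pf_harmonic h hE w]
  unfold Walk.P
  rw [ENNReal.toReal_sum]
  · refine Finset.sum_congr rfl fun s hs => ?_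
    rw [ENNReal.toReal_mul, ENNReal.toReal_ofReal (W.pos s hs).le]
  · intro s _
    refine ENNReal.mul_ne_top ENNReal.ofReal_ne_top ?_
    exact ne_top_of_le_ne_top ENNReal.one_ne_top (pf_le_one h E _)

private theorem rs_upper (_h : Std A W ν) {c C : ℝ} (hB : Bds A W ν c C) {E : Set ℂ}
    (hE : MeasurableSet E) (w : Γ) {d : ℝ} (hd : 0 < d)
    (hdE : ∀ ξ ∈ E, ‖ξ‖ = 1 → d ≤ ‖ξ - A.act w 0‖) :
    (pf A ν E w).toReal ≤ C * (A.t w / d ^ 2) * (circ E).toReal := by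
  have hC : 0 ≤ C := hB.c_pos.le.trans hB.c_le
  have h1 : pf A ν E w ≤ ENNReal.ofReal C * (ENNReal.ofReal (A.t w / d ^ 2) * circ E) := by
    rw [pf_eq hE]
    refine (hB.upν _ ((A.measurable_act w) hE)).trans ?_
    gcongr
    exact circ_preimage_le A w hE hd hdE
  have hfin : circ E ≠ ⊤ := measure_ne_top _ _
  have h2 := ENNReal.toReal_mono (ENNReal.mul_ne_top ENNReal.ofReal_ne_top
    (ENNReal.mul_ne_top ENNReal.ofReal_ne_top hfin)) h1
  rw [ENNReal.toReal_mul, ENNReal.toReal_mul, ENNReal.toReal_ofReal hC,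
    ENNReal.toReal_ofReal (by have := A.t_pos w; positivity)] at h2
  linarith

private theorem rs_lower (h : Std A W ν) {c C : ℝ} (hB : Bds A W ν c C) {E : Set ℂ}
    (hE : MeasurableSet E) (w : Γ) {D : ℝ} (hD : 0 < D)
    (hdE : ∀ ξ ∈ E, ‖ξ‖ = 1 → ‖ξ - A.act w 0‖ ≤ D) :
    c * (A.t w / D ^ 2) * (circ E).toReal ≤ (pf A ν E w).toReal := by
  have h1 : ENNReal.ofReal c * (ENNReal.ofReal (A.t w / D ^ 2) * circ E) ≤ pf A ν E w := by
    rw [pf_eq hE]
    refine le_trans ?_ (hB.lowν _ ((A.measurable_act w) hE))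
    gcongr
    exact le_circ_preimage A w hE hD hdE
  have hfin : pf A ν E w ≠ ⊤ := ne_top_of_le_ne_top ENNReal.one_ne_top (pf_le_one h E _)
  have h2 := ENNReal.toReal_mono hfin h1
  rw [ENNReal.toReal_mul, ENNReal.toReal_mul, ENNReal.toReal_ofReal hB.c_pos.le,
    ENNReal.toReal_ofReal (by have := A.t_pos w; positivity)] at h2
  linarith

theorem ratio_step (h : Std A W ν) (htr : W.Transient) {c C : ℝ} (hB : Bds A W ν c C) :
    ∃ Λ θ : ℝ, 1 < Λ ∧ 0 < θ ∧ θ < 1 ∧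
      ∀ (ξ₀ : ℂ) (r₀ r : ℝ) (E E' : Set ℂ), ‖ξ₀‖ = 1 → 0 < r₀ → 2 * r₀ ≤ r → Λ * r ≤ 1 →
        MeasurableSet E → MeasurableSet E' → E ⊆ Metric.closedBall ξ₀ r₀ →
        E' ⊆ Metric.closedBall ξ₀ r₀ → ∀ a b : ℝ, 0 ≤ a → a ≤ b →
        (∀ w : Γ, r ≤ ‖A.act w 0 - ξ₀‖ →
          a * (pf A ν E' w).toReal ≤ (pf A ν E w).toReal ∧
          (pf A ν E w).toReal ≤ b * (pf A ν E' w).toReal) →
        ∃ a' b' : ℝ, a ≤ a' ∧ a' ≤ b' ∧ b' ≤ b ∧ b' - a' ≤ (1 - θ) * (b - a) ∧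
          ∀ w : Γ, Λ * r ≤ ‖A.act w 0 - ξ₀‖ →
            a' * (pf A ν E' w).toReal ≤ (pf A ν E w).toReal ∧
            (pf A ν E w).toReal ≤ b' * (pf A ν E' w).toReal := by
  obtain ⟨cS, CS, hcS, hcS1, hCS, hstep⟩ := step_bounds A W.S
  obtain ⟨c2, C2, hc2, hC2, hnear⟩ := exists_near_point A
  obtain ⟨L0, L1, c', h1L0, h01, hc', hkill⟩ := killed hB htr hc2 hC2
  have hc := hB.c_pos
  have hC : 0 < C := hc.trans_le hB.c_le
  set B : ℝ := 4 * C * (1 + C2) ^ 2 / (c * c2) with hBdef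
  have hB0 : 0 < B := by positivity
  set θ : ℝ := min (c' / (2 * B)) (1 / 2) with hθ
  have hθ0 : 0 < θ := lt_min (by positivity) (by norm_num)
  have hθ1 : θ ≤ 1 / 2 := min_le_right _ _
  have hθ2 : θ ≤ c' / (2 * B) := min_le_left _ _
  have hL1 : 1 ≤ L1 := h1L0.trans h01
  have hL1c : 1 ≤ L1 / cS := by
    rw [le_div_iff₀ hcS]
    linarith
  refine ⟨L1 / cS + 1, θ, by linarith, hθ0, by linarith, ?_⟩
  intro ξ₀ r₀ r E E' hξ hr0 hr hΛ hE hE' hEr hE'r a b ha hab hyp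
  have hrpos : 0 < r := by linarith
  set rU : ℝ := r / cS with hrU
  have hrU0 : 0 < rU := by positivity
  have hrrU : r ≤ rU := by
    rw [hrU, le_div_iff₀ hcS]
    nlinarith
  set ρ : ℝ := L0 * rU with hρ
  have hρ0 : 0 < ρ := by positivity
  have hrρ : r ≤ ρ := by nlinarith
  have hΛr : L1 * rU + r ≤ 1 := by
    have : (L1 / cS + 1) * r = L1 * rU + r := by
      rw [hrU]
      field_simp
    linarith
  have hρ1 : ρ ≤ 1 := by
    have : L0 * rU ≤ L1 * rU := by gcongr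
    linarith
  obtain ⟨x, hx1, hx2⟩ := hnear ξ₀ ρ hξ hρ0 hρ1
  set f : Γ → ℝ := fun w => (pf A ν E w).toReal with hf
  set f' : Γ → ℝ := fun w => (pf A ν E' w).toReal with hf'
  have hf'0 : ∀ w, 0 ≤ f' w := fun w => ENNReal.toReal_nonneg
  have hfh : ∀ w, f w = ∑ s ∈ W.S, W.μ s * f (w * s) := fun w => rs_harm h hE w
  have hf'h : ∀ w, f' w = ∑ s ∈ W.S, W.μ s * f' (w * s) := fun w => rs_harm h hE' w
  -- the comparison of `f' w` and `f' x`
  have hcomp : ∀ w : Γ, (L1 / cS + 1) * r ≤ ‖A.act w 0 - ξ₀‖ →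
      f' w ≤ B * (ρ * A.t w / ‖A.act w 0 - ξ₀‖ ^ 2) * f' x := by
    intro w hw
    set d := ‖A.act w 0 - ξ₀‖ with hd
    have hdr : 2 * r ≤ d := by nlinarith
    have hd0 : 0 < d := by linarith
    have htw := A.t_pos w
    have h1 := rs_upper h hB hE' w (d := d / 2) (by positivity) (fun ξ hξE _ => by
      have a1 : ‖ξ - ξ₀‖ ≤ r₀ := by
        have := hE'r hξE
        rwa [Metric.mem_closedBall, dist_eq_norm] at this
      have a2 : d ≤ ‖ξ - A.act w 0‖ + ‖ξ - ξ₀‖ := by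
        rw [hd]
        calc ‖A.act w 0 - ξ₀‖ = ‖(ξ - ξ₀) - (ξ - A.act w 0)‖ := by congr 1; ring
          _ ≤ ‖ξ - ξ₀‖ + ‖ξ - A.act w 0‖ := norm_sub_le _ _
          _ = _ := by ring
      linarith)
    have h2 := rs_lower h hB hE' x (D := (1 + C2) * ρ) (by positivity) (fun ξ hξE _ => by
      have a1 : ‖ξ - ξ₀‖ ≤ r₀ := by
        have := hE'r hξE
        rwa [Metric.mem_closedBall, dist_eq_norm] at this
      calc ‖ξ - A.act x 0‖ = ‖(ξ - ξ₀) - (A.act x 0 - ξ₀)‖ := by congr 1; ring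
        _ ≤ ‖ξ - ξ₀‖ + ‖A.act x 0 - ξ₀‖ := norm_sub_le _ _
        _ ≤ (1 + C2) * ρ := by linarith)
    set m := (circ E').toReal with hm
    have hm0 : 0 ≤ m := ENNReal.toReal_nonneg
    have h3 : c * (c2 / ((1 + C2) ^ 2 * ρ)) * m ≤ f' x := by
      refine le_trans ?_ h2
      have : c2 / ((1 + C2) ^ 2 * ρ) ≤ A.t x / ((1 + C2) * ρ) ^ 2 := by
        rw [div_le_div_iff₀ (by positivity) (by positivity)]
        calc c2 * ((1 + C2) * ρ) ^ 2 = (c2 * ρ) * ((1 + C2) ^ 2 * ρ) := by ring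
          _ ≤ A.t x * ((1 + C2) ^ 2 * ρ) := by gcongr
      gcongr
    have h4 : f' w ≤ C * (A.t w / (d / 2) ^ 2) * m := h1
    refine h4.trans ?_
    have h5 : C * (A.t w / (d / 2) ^ 2) * m =
        B * (ρ * A.t w / d ^ 2) * (c * (c2 / ((1 + C2) ^ 2 * ρ)) * m) := by
      rw [hBdef]
      field_simp
      ring
    rw [h5]
    gcongr
  -- the lower bound of a harmonic function
  have hmin : ∀ g : Γ → ℝ, (∀ w, g w = ∑ s ∈ W.S, W.μ s * g (w * s)) →
      (∀ w, r ≤ ‖A.act w 0 - ξ₀‖ → 0 ≤ g w) → ∀ w : Γ,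
      (L1 / cS + 1) * r ≤ ‖A.act w 0 - ξ₀‖ →
      c' * (ρ * A.t w / ‖A.act w 0 - ξ₀‖ ^ 2) * g x ≤ g w := by
    intro g hg hg0 w hw
    have hwr : (L1 / cS + 1) * r = L1 * rU + r := by
      rw [hrU]
      field_simp
    have hL1rU : 0 < L1 * rU := by positivity
    have htw := A.t_pos w
    refine rs_min hcS hcS1 hrpos (fun v s hs => (hstep v s hs).2.2.2 ξ₀ hξ) hg hg0 x w
      (by linarith) (by positivity) ?_
    refine le_trans (ENNReal.ofReal_le_ofReal (le_of_eq ?_))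
      (hkill ξ₀ rU x w hξ hrU0 hρ1 hx1 hx2 (by linarith))
    rw [← hρ]
    ring
  have hfar : ∀ w : Γ, (L1 / cS + 1) * r ≤ ‖A.act w 0 - ξ₀‖ → r ≤ ‖A.act w 0 - ξ₀‖ := by
    intro w hw
    have : r ≤ (L1 / cS + 1) * r := by
      nlinarith
    linarith
  have hba : 0 ≤ b - a := by linarith
  -- final comparison
  have hfin : ∀ g : Γ → ℝ, (∀ w, g w = ∑ s ∈ W.S, W.μ s * g (w * s)) →
      (∀ w, r ≤ ‖A.act w 0 - ξ₀‖ → 0 ≤ g w) → (b - a) / 2 * f' x ≤ g x → ∀ w : Γ,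
      (L1 / cS + 1) * r ≤ ‖A.act w 0 - ξ₀‖ → θ * (b - a) * f' w ≤ g w := by
    intro g hg hg0 hgx w hw
    have h1 := hmin g hg hg0 w hw
    have h2 := hcomp w hw
    have htw := A.t_pos w
    set k := ρ * A.t w / ‖A.act w 0 - ξ₀‖ ^ 2 with hk
    have hk0 : 0 ≤ k := by positivity
    calc θ * (b - a) * f' w ≤ c' / (2 * B) * (b - a) * (B * k * f' x) := by
          have := hf'0 w
          gcongr
      _ = c' * k * ((b - a) / 2 * f' x) := by
          field_simp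
      _ ≤ c' * k * g x := by gcongr
      _ ≤ g w := h1
  have hlin : ∀ (α β : ℝ) (w : Γ), α * f w + β * f' w =
      ∑ s ∈ W.S, W.μ s * (α * f (w * s) + β * f' (w * s)) := by
    intro α β w
    rw [hfh w, hf'h w, Finset.mul_sum, Finset.mul_sum, ← Finset.sum_add_distrib]
    refine Finset.sum_congr rfl fun s _ => ?_
    ring
  have hab2 : (b - a) / 2 * f' x ≤ 1 * f x + (-a) * f' x ∨
      (b - a) / 2 * f' x ≤ (-1) * f x + b * f' x := by
    rcases le_or_gt ((b - a) / 2 * f' x) (1 * f x + (-a) * f' x) with h1 | h1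
    · exact Or.inl h1
    · right
      linarith
  rcases hab2 with h1 | h1
  · refine ⟨a + θ * (b - a), b, by nlinarith, by nlinarith, le_rfl, by linarith, ?_⟩
    intro w hw
    refine ⟨?_, (hyp w (hfar w hw)).2⟩
    have h2 := hfin (fun w => 1 * f w + (-a) * f' w) (hlin 1 (-a))
      (fun w hw => by have := (hyp w hw).1; simp only [hf, hf']; linarith) h1 w hw
    simp only [hf, hf'] at h2
    linarith
  · refine ⟨a, b - θ * (b - a), le_rfl, by nlinarith, by nlinarith, by linarith, ?_⟩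
    intro w hw
    refine ⟨(hyp w (hfar w hw)).1, ?_⟩
    have h2 := hfin (fun w => (-1) * f w + b * f' w) (hlin (-1) b)
      (fun w hw => by have := (hyp w hw).2; simp only [hf, hf']; linarith) h1 w hw
    simp only [hf, hf'] at h2
    linarith

end Pool.Agent.Lib.KLP
end

section

/-!
# 3.3: iteration
-/

set_option autoImplicit false
open MeasureTheory Set Filter Topology
open scoped ENNReal ComplexConjugate

namespace Pool.Agent.Lib.KLP

variable {Γ : Type*} [Group Γ] {A : DAct Γ} {W : Walk Γ} {ν : Measure ℂ}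

private theorem ri_upper {c C : ℝ} (hB : Bds A W ν c C) {E : Set ℂ}
    (hE : MeasurableSet E) (w : Γ) {d : ℝ} (hd : 0 < d)
    (hdE : ∀ ξ ∈ E, ‖ξ‖ = 1 → d ≤ ‖ξ - A.act w 0‖) :
    (pf A ν E w).toReal ≤ C * (A.t w / d ^ 2) * (circ E).toReal := by
  have hC : 0 ≤ C := hB.c_pos.le.trans hB.c_le
  have h1 : pf A ν E w ≤ ENNReal.ofReal C * (ENNReal.ofReal (A.t w / d ^ 2) * circ E) := by
    rw [pf_eq hE]
    refine (hB.upν _ ((A.measurable_act w) hE)).trans ?_
    gcongr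
    exact circ_preimage_le A w hE hd hdE
  have hfin : circ E ≠ ⊤ := measure_ne_top _ _
  have h2 := ENNReal.toReal_mono (ENNReal.mul_ne_top ENNReal.ofReal_ne_top
    (ENNReal.mul_ne_top ENNReal.ofReal_ne_top hfin)) h1
  rw [ENNReal.toReal_mul, ENNReal.toReal_mul, ENNReal.toReal_ofReal hC,
    ENNReal.toReal_ofReal (by have := A.t_pos w; positivity)] at h2
  linarith

private theorem ri_lower (h : Std A W ν) {c C : ℝ} (hB : Bds A W ν c C) {E : Set ℂ}
    (hE : MeasurableSet E) (w : Γ) {D : ℝ} (hD : 0 < D)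
    (hdE : ∀ ξ ∈ E, ‖ξ‖ = 1 → ‖ξ - A.act w 0‖ ≤ D) :
    c * (A.t w / D ^ 2) * (circ E).toReal ≤ (pf A ν E w).toReal := by
  have h1 : ENNReal.ofReal c * (ENNReal.ofReal (A.t w / D ^ 2) * circ E) ≤ pf A ν E w := by
    rw [pf_eq hE]
    refine le_trans ?_ (hB.lowν _ ((A.measurable_act w) hE))
    gcongr
    exact le_circ_preimage A w hE hD hdE
  have hfin : pf A ν E w ≠ ⊤ := ne_top_of_le_ne_top ENNReal.one_ne_top (pf_le_one h E _)
  have h2 := ENNReal.toReal_mono hfin h1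
  rw [ENNReal.toReal_mul, ENNReal.toReal_mul, ENNReal.toReal_ofReal hB.c_pos.le,
    ENNReal.toReal_ofReal (by have := A.t_pos w; positivity)] at h2
  linarith

private theorem ri_base (h : Std A W ν) {c C : ℝ} (hB : Bds A W ν c C)
    {ξ₀ : ℂ} {r₀ : ℝ} {E E' : Set ℂ} (hr₀ : 0 < r₀)
    (hE : MeasurableSet E) (hE' : MeasurableSet E') (hEr : E ⊆ Metric.closedBall ξ₀ r₀)
    (hE'r : E' ⊆ Metric.closedBall ξ₀ r₀) (hE'0 : circ E' ≠ 0) (w : Γ)
    (hw : 2 * r₀ ≤ ‖A.act w 0 - ξ₀‖) :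
    (pf A ν E w).toReal ≤
      (16 * C / c * ((circ E).toReal / (circ E').toReal)) * (pf A ν E' w).toReal := by
  have hc := hB.c_pos
  have hC : 0 < C := hc.trans_le hB.c_le
  have ht := A.t_pos w
  have hm' : 0 < (circ E').toReal := ENNReal.toReal_pos hE'0 (measure_ne_top _ _)
  have hm : 0 ≤ (circ E).toReal := ENNReal.toReal_nonneg
  set d := ‖A.act w 0 - ξ₀‖ with hd
  have hd0 : 0 < d := by linarith
  have h1 := ri_upper hB hE w (d := d / 2) (by positivity) (fun ξ hξE _ => by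
    have a1 : ‖ξ - ξ₀‖ ≤ r₀ := by
      have := hEr hξE
      rwa [Metric.mem_closedBall, dist_eq_norm] at this
    have a2 : d ≤ ‖ξ - A.act w 0‖ + ‖ξ - ξ₀‖ := by
      rw [hd]
      calc ‖A.act w 0 - ξ₀‖ = ‖(ξ - ξ₀) - (ξ - A.act w 0)‖ := by congr 1; ring
        _ ≤ ‖ξ - ξ₀‖ + ‖ξ - A.act w 0‖ := norm_sub_le _ _
        _ = _ := by ring
    linarith)
  have h2 := ri_lower h hB hE' w (D := 2 * d) (by positivity) (fun ξ hξE _ => by
    have a1 : ‖ξ - ξ₀‖ ≤ r₀ := by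
      have := hE'r hξE
      rwa [Metric.mem_closedBall, dist_eq_norm] at this
    calc ‖ξ - A.act w 0‖ = ‖(ξ - ξ₀) - (A.act w 0 - ξ₀)‖ := by congr 1; ring
      _ ≤ ‖ξ - ξ₀‖ + ‖A.act w 0 - ξ₀‖ := norm_sub_le _ _
      _ ≤ 2 * d := by rw [← hd]; linarith)
  refine h1.trans ?_
  have h3 : C * (A.t w / (d / 2) ^ 2) * (circ E).toReal =
      (16 * C / c * ((circ E).toReal / (circ E').toReal)) *
        (c * (A.t w / (2 * d) ^ 2) * (circ E').toReal) := by
    field_simp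
    ring
  rw [h3]
  gcongr

theorem ratio_iter (h : Std A W ν) (htr : W.Transient) {c C : ℝ} (hB : Bds A W ν c C)
    {c₀ : ℝ} (hc₀ : 0 < c₀) (hc₀1 : c₀ ≤ 1) :
    ∃ κ C₁ : ℝ, 0 < κ ∧ κ ≤ 1 ∧ 0 < C₁ ∧
      ∀ (ξ₀ : ℂ) (r₀ : ℝ) (E E' : Set ℂ), ‖ξ₀‖ = 1 → 0 < r₀ → r₀ ≤ c₀ / 2 →
        MeasurableSet E → MeasurableSet E' → E ⊆ Metric.closedBall ξ₀ r₀ →
        E' ⊆ Metric.closedBall ξ₀ r₀ → circ E' ≠ 0 →
        ∃ a b : ℝ, 0 ≤ a ∧ a ≤ b ∧
          b - a ≤ C₁ * r₀ ^ κ * ((circ E).toReal / (circ E').toReal) ∧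
          ∀ w : Γ, c₀ ≤ ‖A.act w 0 - ξ₀‖ →
            a * (pf A ν E' w).toReal ≤ (pf A ν E w).toReal ∧
            (pf A ν E w).toReal ≤ b * (pf A ν E' w).toReal := by
  obtain ⟨Λ, θ, hΛ, hθ0, hθ1, hstep⟩ := ratio_step h htr hB
  have hc := hB.c_pos
  have hC : 0 < C := hc.trans_le hB.c_le
  set q : ℝ := 1 - θ with hq
  have hq0 : 0 < q := by linarith
  have hq1 : q < 1 := by linarith
  have hlogΛ : 0 < Real.log Λ := Real.log_pos hΛ
  have hlogq : Real.log q < 0 := Real.log_neg hq0 hq1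
  set κ' : ℝ := -Real.log q / Real.log Λ with hκ'
  have hκ'0 : 0 < κ' := by
    rw [hκ']
    apply div_pos _ hlogΛ
    linarith
  set κ : ℝ := min κ' 1 with hκ
  have hκ0 : 0 < κ := lt_min hκ'0 one_pos
  refine ⟨κ, q⁻¹ * (2 / c₀) ^ κ * (16 * C / c), hκ0, min_le_right _ _, by positivity, ?_⟩
  intro ξ₀ r₀ E E' hξ hr₀ hr₀c hE hE' hEr hE'r hE'0
  have hm' : 0 < (circ E').toReal := ENNReal.toReal_pos hE'0 (measure_ne_top _ _)
  have hm : 0 ≤ (circ E).toReal := ENNReal.toReal_nonneg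
  set b0 : ℝ := 16 * C / c * ((circ E).toReal / (circ E').toReal) with hb0
  have hb00 : 0 ≤ b0 := by positivity
  have hind : ∀ n : ℕ, Λ ^ n * (2 * r₀) ≤ 1 → ∃ a b : ℝ, 0 ≤ a ∧ a ≤ b ∧
      b - a ≤ q ^ n * b0 ∧
      ∀ w : Γ, Λ ^ n * (2 * r₀) ≤ ‖A.act w 0 - ξ₀‖ →
        a * (pf A ν E' w).toReal ≤ (pf A ν E w).toReal ∧
        (pf A ν E w).toReal ≤ b * (pf A ν E' w).toReal := by
    intro n
    induction n with
    | zero =>
      intro _
      refine ⟨0, b0, le_rfl, hb00, by simp, ?_⟩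
      intro w hw
      rw [pow_zero, one_mul] at hw
      refine ⟨?_, ri_base h hB hr₀ hE hE' hEr hE'r hE'0 w hw⟩
      rw [zero_mul]
      exact ENNReal.toReal_nonneg
    | succ n ih =>
      intro hn
      have h1 : 1 ≤ Λ ^ n := one_le_pow₀ hΛ.le
      have h2 : Λ * (Λ ^ n * (2 * r₀)) = Λ ^ (n + 1) * (2 * r₀) := by ring
      have h3 : Λ ^ n * (2 * r₀) ≤ Λ ^ (n + 1) * (2 * r₀) := by
        rw [← h2]
        exact le_mul_of_one_le_left (by positivity) hΛ.le
      obtain ⟨a, b, ha, hab, hba, hw⟩ := ih (h3.trans hn)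
      obtain ⟨a', b', haa', ha'b', _, hb'a', hw'⟩ := hstep ξ₀ r₀ (Λ ^ n * (2 * r₀)) E E' hξ hr₀
        (le_mul_of_one_le_left (by positivity) h1) (by rw [h2]; exact hn) hE hE' hEr hE'r a b
        ha hab hw
      refine ⟨a', b', ha.trans haa', ha'b', ?_, ?_⟩
      · calc b' - a' ≤ q * (b - a) := hb'a'
          _ ≤ q * (q ^ n * b0) := by gcongr
          _ = q ^ (n + 1) * b0 := by ring
      · intro w hw1
        rw [← h2] at hw1
        exact hw' w hw1
  obtain ⟨n, hn1, hn2⟩ := exists_nat_pow_near (x := c₀ / (2 * r₀)) (y := Λ)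
    (by rw [le_div_iff₀ (by positivity)]; linarith) hΛ
  rw [le_div_iff₀ (by positivity)] at hn1
  obtain ⟨a, b, ha, hab, hba, hw⟩ := hind n (hn1.trans hc₀1)
  refine ⟨a, b, ha, hab, ?_, fun w hw1 => hw w (hn1.trans hw1)⟩
  refine hba.trans ?_
  have hx0 : 0 < 2 * r₀ / c₀ := by positivity
  have hx1 : 2 * r₀ / c₀ ≤ 1 := by
    rw [div_le_one hc₀]
    linarith
  have h1 : q ^ (n + 1) ≤ (2 * r₀ / c₀) ^ κ' := by
    rw [Real.rpow_def_of_pos hx0]
    have h2 : q ^ (n + 1) = Real.exp ((n + 1 : ℕ) * Real.log q) := by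
      rw [Real.exp_nat_mul, Real.exp_log hq0]
    rw [h2]
    apply Real.exp_le_exp.2
    have h3 : Real.log q = -(κ' * Real.log Λ) := by
      rw [hκ']
      field_simp
    rw [h3]
    have h4 : Real.log (c₀ / (2 * r₀)) < (n + 1 : ℕ) * Real.log Λ := by
      rw [← Real.log_pow]
      exact Real.log_lt_log (by positivity) hn2
    have h5 : Real.log (2 * r₀ / c₀) = -Real.log (c₀ / (2 * r₀)) := by
      rw [← Real.log_inv]
      congr 1
      rw [inv_div]
    rw [h5]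
    nlinarith
  have h6 : (2 * r₀ / c₀) ^ κ' ≤ (2 * r₀ / c₀) ^ κ :=
    Real.rpow_le_rpow_of_exponent_ge hx0 hx1 (min_le_left _ _)
  have h7 : (2 * r₀ / c₀) ^ κ = (2 / c₀) ^ κ * r₀ ^ κ := by
    rw [← Real.mul_rpow (by positivity) hr₀.le]
    congr 1
    ring
  have h8 : q ^ n ≤ q⁻¹ * ((2 / c₀) ^ κ * r₀ ^ κ) := by
    rw [← h7]
    have h9 : q ^ n = q⁻¹ * q ^ (n + 1) := by
      rw [pow_succ]
      field_simp
    rw [h9]
    have := h1.trans h6
    gcongr
  calc q ^ n * b0 ≤ q⁻¹ * ((2 / c₀) ^ κ * r₀ ^ κ) * b0 := by gcongr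
    _ = _ := by
      rw [hb0]
      ring

end Pool.Agent.Lib.KLP
end
end
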