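import Pool.Agent.Lib.MP_a137af_pr.DiscMain
import Pool.Agent.Lib.MP_a137af_pr.MkDAct
import Pool.Agent.Lib.MP_a137af_pr.Bdry
import Pool.Agent.Lib.MP_a137af_pr.Linear

/-!
# Stationary measures of finitely supported random walks on cocompact Fuchsian groups are singular
(MP_a137af_pr, Q1; the Kaimanovich-Le Prince singularity conjecture)

Let `Γ` be a discrete cocompact group of isometries of the hyperbolic plane (orientation reversing
isometries and torsion are allowed), `μ` a finitely supported probability measure on `Γ` whose
support generates `Γ` as a semigroup, and `ν` a `μ`-stationary probability measure on the boundary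
circle.  Then `ν` is singular with respect to Lebesgue measure.

The hyperbolic plane is Mathlib's upper half-plane `UpperHalfPlane` with its hyperbolic metric, its
isometry group is `UpperHalfPlane ≃ᵢ UpperHalfPlane`, and the boundary is the unit circle of the
disc model, to which the half-plane is mapped by the Cayley transform `toDisc`.
-/

set_option autoImplicit false

open MeasureTheory Set Filter Topology
open scoped ENNReal

namespace Pool.Agent.Lib.KLPCocompact

/-! ## Definitions used in the statement -/

/-- The circle carries its Borel `σ`-algebra. -/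
noncomputable instance : MeasurableSpace Circle := borel Circle

instance : BorelSpace Circle := ⟨rfl⟩

/-- The Cayley transform from the upper half-plane to the unit disc. -/
noncomputable def toDisc (z : UpperHalfPlane) : ℂ :=
  ((z : ℂ) - Complex.I) / ((z : ℂ) + Complex.I)

/-- `e : Circle → Circle` is the boundary extension of the isometry `g` of the hyperbolic plane
(in the disc model): `g z → e ξ` whenever `z → ξ`. -/
def IsBoundaryMap (g : UpperHalfPlane ≃ᵢ UpperHalfPlane) (e : Circle → Circle) : Prop :=
  ∀ ξ : Circle, Tendsto (fun z : UpperHalfPlane => toDisc (g z))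
    (comap toDisc (𝓝 (ξ : ℂ))) (𝓝 (e ξ : ℂ))

/-- `Γ` is a Fuchsian (that is, discrete) group of isometries: it acts properly discontinuously. -/
def IsFuchsian (Γ : Subgroup (UpperHalfPlane ≃ᵢ UpperHalfPlane)) : Prop :=
  ∀ K : Set UpperHalfPlane, IsCompact K →
    {g : Γ | (((g : UpperHalfPlane ≃ᵢ UpperHalfPlane) '' K) ∩ K).Nonempty}.Finite

/-- `Γ` is cocompact: the translates of some compact set cover the plane. -/
def IsCocompact (Γ : Subgroup (UpperHalfPlane ≃ᵢ UpperHalfPlane)) : Prop :=
  ∃ K : Set UpperHalfPlane, IsCompact K ∧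
    ∀ z, ∃ g : Γ, (g : UpperHalfPlane ≃ᵢ UpperHalfPlane) z ∈ K

/-- Lebesgue measure (of total mass `2π`) on the unit circle. -/
noncomputable def lebCircle : Measure Circle :=
  (volume.restrict (Ioc (-Real.pi) Real.pi)).map Circle.exp

/-! ## Auxiliary results -/

open Pool.Agent.Lib.KLP in
/-- Every isometry has a (continuous) boundary extension, so that the hypothesis `hbd` of `result`
can always be satisfied. -/
theorem exists_boundaryMap (g : UpperHalfPlane ≃ᵢ UpperHalfPlane) :
    ∃ e : Circle → Circle, Continuous e ∧ IsBoundaryMap g e := by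
  obtain ⟨M, hM⟩ := isom_class g
  obtain ⟨f, hf, hfM⟩ := exists_disc_of_GL M
  exact exists_bdryExt_of_disc hf (fun z => by rw [hM z]; exact hfM z)

open Pool.Agent.Lib.KLP in
theorem map_lebCircle :
    lebCircle.map (fun ξ : Circle => (ξ : ℂ)) = ENNReal.ofReal (2 * Real.pi) • circ := by
  have h2 : (0:ℝ) < 2 * Real.pi := by positivity
  have hexp : Measurable (fun θ : ℝ => Complex.exp ((θ : ℂ) * Complex.I)) := by fun_prop
  rw [lebCircle, circ, smul_smul, ← ENNReal.ofReal_mul h2.le,
    show 2 * Real.pi * (1 / (2 * Real.pi)) = 1 by field_simp, ENNReal.ofReal_one, one_smul,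
    Measure.map_map (by fun_prop) (by fun_prop)]
  rfl

/-! ## The theorem -/

open Pool.Agent.Lib.KLP in
/-- **Singularity of stationary measures.** Let `Γ` be a cocompact Fuchsian group, `μ` a finitely
supported probability measure on `Γ` whose support generates `Γ` as a semigroup, `bd g` the action
of `g ∈ Γ` on the boundary circle, and `ν` a `μ`-stationary Borel probability measure on the
circle. Then `ν` is singular with respect to Lebesgue measure. -/
theorem result (Γ : Subgroup (UpperHalfPlane ≃ᵢ UpperHalfPlane))
    (hΓ : IsFuchsian Γ) (hcc : IsCocompact Γ)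
    (μ : Γ → ℝ) (hμ0 : ∀ g, 0 ≤ μ g) (hμf : (Function.support μ).Finite)
    (hμ1 : ∑ g ∈ hμf.toFinset, μ g = 1)
    (hgen : Subsemigroup.closure (Function.support μ) = ⊤)
    (bd : Γ → Circle → Circle) (hbd : ∀ g : Γ, IsBoundaryMap (g : UpperHalfPlane ≃ᵢ UpperHalfPlane) (bd g))
    (ν : Measure Circle) [IsProbabilityMeasure ν]
    (hν : ∀ E : Set Circle, MeasurableSet E →
      ν E = ∑ g ∈ hμf.toFinset, ENNReal.ofReal (μ g) * ν (bd g ⁻¹' E)) :
    ν ⟂ₘ lebCircle := by
  classical
  obtain ⟨A, hA⟩ := exists_dact Γ hΓ hcc
  -- the walk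
  let W : Walk Γ :=
    { S := hμf.toFinset
      μ := μ
      pos := fun s hs => lt_of_le_of_ne (hμ0 s) (Ne.symm (by simpa using hs))
      sum_eq := hμ1
      gen := by
        rw [Set.Finite.coe_toFinset, eq_top_iff]
        intro x _
        have hx : x ∈ Subsemigroup.closure (Function.support μ) := by rw [hgen]; trivial
        have hle : Subsemigroup.closure (Function.support μ) ≤
            (Submonoid.closure (Function.support μ)).toSubsemigroup :=
          Subsemigroup.closure_le.2 Submonoid.subset_closure
        exact hle hx }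
  have hfaith : ∀ g : Γ, (∀ z, ‖z‖ < 1 → A.act g z = z) → g = 1 := by
    intro g hg
    apply Subtype.ext
    apply IsometryEquiv.ext
    intro z
    apply toDisc_injective
    rw [hA g z, hg _ (norm_toDisc_lt z)]
    rfl
  have hbdA : ∀ (g : Γ) (ξ : Circle), (bd g ξ : ℂ) = A.act g (ξ : ℂ) := by
    intro g ξ
    exact bdryExt_of_disc (A.iso g) (hA g) (hbd g) ξ
  set c : Circle → ℂ := fun ξ => (ξ : ℂ) with hc
  have hcc' : Continuous c := continuous_subtype_val
  have hcm : Measurable c := hcc'.measurable
  have hemb : MeasurableEmbedding c :=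
    (hcc'.isClosedEmbedding Subtype.val_injective).measurableEmbedding
  have hprob : IsProbabilityMeasure (ν.map c) := Measure.isProbabilityMeasure_map hcm.aemeasurable
  have hT : ∀ᵐ z ∂(ν.map c), ‖z‖ = 1 := by
    rw [ae_map_iff hcm.aemeasurable (measurableSet_eq_fun (by fun_prop) (by fun_prop))]
    exact Eventually.of_forall fun ξ => Circle.norm_coe ξ
  have hbm : ∀ g : Γ, Measurable (bd g) := by
    intro g
    rw [← hemb.measurable_comp_iff]
    have : c ∘ bd g = fun ξ => A.act g (c ξ) := by
      funext ξ; exact hbdA g ξ
    rw [this]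
    exact (A.measurable_act g).comp hcm
  have hst : Stationary A W (ν.map c) := by
    unfold Stationary
    ext E hE
    rw [Measure.map_apply hcm hE, hν _ (hcm hE)]
    simp only [Measure.coe_finsetSum, Finset.sum_apply, Measure.smul_apply, smul_eq_mul]
    apply Finset.sum_congr rfl
    intro g _
    rw [Measure.map_map (A.measurable_act g) hcm, Measure.map_apply
      ((A.measurable_act g).comp hcm) hE]
    congr 2
    ext ξ
    simp only [Set.mem_preimage, Function.comp_apply]
    rw [hc]; simp only; rw [hbdA g ξ]
  obtain ⟨s, hs, h1, h2⟩ := disc_main A W hfaith (exists_linear Γ) (ν.map c) hT hst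
  -- transfer back to the circle
  refine ⟨c ⁻¹' s, hcm hs, ?_, ?_⟩
  · rwa [Measure.map_apply hcm hs] at h1
  · rw [← Set.preimage_compl, ← Measure.map_apply hcm hs.compl, map_lebCircle,
      Measure.smul_apply, h2, smul_zero]

end Pool.Agent.Lib.KLPCocompact
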