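import Pool.Agent.Lib.MP_a137af_pr.IsomClass
import Pool.Agent.Lib.MP_a137af_pr.Decomp
import Pool.Agent.Lib.MP_a137af_pr.CircMap

section

/-!
# C4: Lebesgue points
-/

set_option autoImplicit false
open MeasureTheory Set Filter Topology
open scoped ENNReal ComplexConjugate

namespace Pool.Agent.Lib.KLP

/-- the exponential parametrisation -/
private noncomputable def ex (θ : ℝ) : ℂ := Complex.exp ((θ : ℂ) * Complex.I)

private lemma measurable_ex : Measurable ex := by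
  unfold ex
  fun_prop

private lemma norm_ex (θ : ℝ) : ‖ex θ‖ = 1 := Complex.norm_exp_ofReal_mul_I θ

/-- chord and arc -/
private lemma chord_ge {θ θ₀ : ℝ} (h : |θ - θ₀| ≤ 2 * Real.pi) :
    2 / Real.pi * min |θ - θ₀| (2 * Real.pi - |θ - θ₀|) ≤ ‖ex θ - ex θ₀‖ := by
  have hpi := Real.pi_pos
  have h1 : ex θ - ex θ₀ = ex θ₀ * (Complex.exp (Complex.I * ((θ - θ₀ : ℝ) : ℂ)) - 1) := by
    unfold ex
    rw [mul_sub, mul_one, ← Complex.exp_add]
    congr 2
    push_cast
    ring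
  rw [h1, norm_mul, norm_ex, one_mul, Complex.norm_exp_I_mul_ofReal_sub_one, norm_mul,
    Real.norm_eq_abs, Real.norm_eq_abs, abs_two]
  set D := |θ - θ₀| with hD
  have hD0 : 0 ≤ D := abs_nonneg _
  have h2 : |Real.sin ((θ - θ₀) / 2)| = Real.sin (D / 2) := by
    rcases abs_cases (θ - θ₀) with ⟨h3, h4⟩ | ⟨h3, h4⟩
    · rw [hD, h3]
      refine abs_of_nonneg (Real.sin_nonneg_of_nonneg_of_le_pi (by linarith) ?_)
      rw [hD, h3] at h
      linarith
    · rw [hD, h3]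
      have h5 : Real.sin ((θ - θ₀) / 2) = - Real.sin (-(θ - θ₀) / 2) := by
        rw [← Real.sin_neg]
        congr 1
        ring
      rw [h5, abs_neg]
      refine abs_of_nonneg (Real.sin_nonneg_of_nonneg_of_le_pi (by linarith) ?_)
      rw [hD, h3] at h
      linarith
  rw [h2]
  rcases le_total (D / 2) (Real.pi / 2) with h3 | h3
  · have h4 := Real.mul_le_sin (x := D / 2) (by linarith) h3
    have h5 : 2 / Real.pi * min D (2 * Real.pi - D) ≤ 2 / Real.pi * D :=
      mul_le_mul_of_nonneg_left (min_le_left _ _) (by positivity)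
    linarith
  · have h4 := Real.mul_le_sin (x := Real.pi - D / 2) (by linarith) (by linarith)
    rw [Real.sin_pi_sub] at h4
    have h5 : 2 / Real.pi * min D (2 * Real.pi - D) ≤ 2 / Real.pi * (2 * Real.pi - D) :=
      mul_le_mul_of_nonneg_left (min_le_right _ _) (by positivity)
    have h6 : 2 / Real.pi * (2 * Real.pi - D) = 2 * (2 / Real.pi * (Real.pi - D / 2)) := by ring
    linarith

theorem exists_lebPt (ν : Measure ℂ) [IsProbabilityMeasure ν] (hac : ν ≪ circ) :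
    ∃ (ξ₀ : ℂ) (L : ℝ), LebPt ν ξ₀ L := by
  classical
  have hpi := Real.pi_pos
  set φ : ℂ → ℝ≥0∞ := ν.rnDeriv circ with hφ
  have hφm : Measurable φ := Measure.measurable_rnDeriv ν circ
  have hν : circ.withDensity φ = ν := Measure.withDensity_rnDeriv_eq ν circ hac
  set I : Set ℝ := Ioc (-Real.pi) Real.pi with hI
  have hIm : MeasurableSet I := measurableSet_Ioc
  set c : ℝ := 1 / (2 * Real.pi) with hc
  have hc0 : 0 < c := by positivity
  -- the measure of a set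
  have hνE : ∀ E : Set ℂ, MeasurableSet E →
      ν E = ENNReal.ofReal c * ∫⁻ θ in ex ⁻¹' E ∩ I, φ (ex θ) := by
    intro E hE
    have hEm : MeasurableSet (ex ⁻¹' E) := measurable_ex hE
    rw [← hν, withDensity_apply _ hE, ← lintegral_indicator hE,
      lintegral_circ (hφm.indicator hE)]
    congr 1
    rw [← Measure.restrict_restrict hEm, ← lintegral_indicator hEm]
    rfl
  have hcE : ∀ E : Set ℂ, MeasurableSet E →
      circ E = ENNReal.ofReal c * volume (ex ⁻¹' E ∩ I) := fun E hE => circ_apply hE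
  -- the total mass
  have htot : ENNReal.ofReal c * ∫⁻ θ in I, φ (ex θ) = 1 := by
    have h := hνE Set.univ MeasurableSet.univ
    rw [preimage_univ, univ_inter, measure_univ] at h
    exact h.symm
  have hfin : ∫⁻ θ in I, φ (ex θ) ≠ ∞ := by
    intro h
    rw [h, ENNReal.mul_top (by positivity)] at htot
    exact ENNReal.top_ne_one htot
  have hne : ∫⁻ θ in I, φ (ex θ) ≠ 0 := by
    intro h
    rw [h, mul_zero] at htot
    exact zero_ne_one htot
  have hφex : Measurable fun θ => φ (ex θ) := hφm.comp measurable_ex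
  -- the density on the line
  set h : ℝ → ℝ := I.indicator fun θ => (φ (ex θ)).toReal with hh
  have hint : Integrable h volume := by
    rw [hh, integrable_indicator_iff hIm]
    exact integrable_toReal_of_lintegral_ne_top hφex.aemeasurable hfin
  have hleb := IsUnifLocDoublingMeasure.ae_tendsto_average_norm_sub (μ := (volume : Measure ℝ))
    hint.locallyIntegrable 1
  have hfinae : ∀ᵐ θ ∂volume.restrict I, φ (ex θ) < ∞ := ae_lt_top hφex hfin
  -- a good point
  obtain ⟨θ₀, hθI, hθ1, hθ2, hθ3⟩ : ∃ θ₀ : ℝ, θ₀ ∈ Ioo (-Real.pi) Real.pi ∧ φ (ex θ₀) ≠ 0 ∧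
      φ (ex θ₀) < ∞ ∧ Tendsto (fun δ : ℝ => ⨍ y in Metric.closedBall θ₀ δ, ‖h y - h θ₀‖)
        (𝓝[>] 0) (𝓝 0) := by
    by_contra hcon
    push Not at hcon
    apply hne
    have h1 : ∫⁻ θ in I, φ (ex θ) = ∫⁻ θ in Ioo (-Real.pi) Real.pi, φ (ex θ) :=
      setLIntegral_congr Ioo_ae_eq_Ioc.symm
    rw [h1]
    have h2 : ∀ᵐ θ ∂volume.restrict (Ioo (-Real.pi) Real.pi), φ (ex θ) < ∞ :=
      ae_restrict_of_ae_restrict_of_subset Ioo_subset_Ioc_self hfinae
    have h3 : ∀ᵐ θ ∂volume.restrict (Ioo (-Real.pi) Real.pi), φ (ex θ) = 0 := by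
      rw [ae_restrict_iff' measurableSet_Ioo] at h2 ⊢
      filter_upwards [h2, hleb] with θ h4 h5 h6
      by_contra h7
      refine hcon θ h6 h7 (h4 h6) ?_
      refine h5 (fun _ => θ) (fun δ => δ) tendsto_id ?_
      filter_upwards [self_mem_nhdsWithin] with δ hδ
      rw [one_mul]
      exact Metric.mem_closedBall_self (le_of_lt hδ)
    rw [lintegral_congr_ae h3]
    simp
  have hθI' : θ₀ ∈ I := Ioo_subset_Ioc_self hθI
  have hL : h θ₀ = (φ (ex θ₀)).toReal := by rw [hh, indicator_of_mem hθI']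
  have hL0 : 0 < h θ₀ := by
    rw [hL]
    exact ENNReal.toReal_pos hθ1 hθ2.ne
  refine ⟨ex θ₀, h θ₀, norm_ex θ₀, hL0, fun R hR ε hε => ?_⟩
  -- the scale
  have hev : ∀ᶠ δ in 𝓝[>] (0 : ℝ),
      ⨍ y in Metric.closedBall θ₀ δ, ‖h y - h θ₀‖ < 2 * ε / R :=
    hθ3.eventually (gt_mem_nhds (by positivity))
  rw [eventually_nhdsWithin_iff, Metric.eventually_nhds_iff] at hev
  obtain ⟨δ₀, hδ₀, hδ⟩ := hev
  set m₀ : ℝ := Real.pi - |θ₀| with hm₀
  have hm₀' : 0 < m₀ := by
    have := abs_lt.2 ⟨hθI.1, hθI.2⟩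
    rw [hm₀]
    linarith
  refine ⟨min (2 * δ₀ / (Real.pi * R)) (2 * m₀ / (Real.pi * R)), by positivity,
    fun r hr hr' E hE hER => ?_⟩
  have hr1 : Real.pi / 2 * (R * r) < δ₀ := by
    have := lt_of_lt_of_le hr' (min_le_left _ _)
    rw [lt_div_iff₀ (by positivity)] at this
    nlinarith
  have hr2 : R * r < 2 / Real.pi * m₀ := by
    have := lt_of_lt_of_le hr' (min_le_right _ _)
    rw [lt_div_iff₀ (by positivity)] at this
    rw [div_mul_eq_mul_div, lt_div_iff₀ hpi]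
    linarith
  set δ : ℝ := Real.pi / 2 * (R * r) with hδdef
  have hδpos : 0 < δ := by positivity
  set E' : Set ℝ := ex ⁻¹' E ∩ I with hE'
  have hE'm : MeasurableSet E' := (measurable_ex hE).inter hIm
  have hsub : E' ⊆ Metric.closedBall θ₀ δ := by
    rintro θ ⟨h1, h2⟩
    rw [Metric.mem_closedBall, Real.dist_eq]
    have h3 := hER h1
    rw [Metric.mem_closedBall, dist_eq_norm] at h3
    have habs : |θ| ≤ Real.pi := abs_le.2 ⟨h2.1.le, h2.2⟩
    have h4 : |θ - θ₀| ≤ Real.pi + |θ₀| := by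
      have := abs_sub θ θ₀
      linarith
    have h5 : |θ₀| < Real.pi := abs_lt.2 ⟨hθI.1, hθI.2⟩
    have h6 := chord_ge (θ := θ) (θ₀ := θ₀) (by linarith)
    have h7 : 2 / Real.pi * min |θ - θ₀| (2 * Real.pi - |θ - θ₀|) ≤ R * r := h6.trans h3
    rcases min_cases |θ - θ₀| (2 * Real.pi - |θ - θ₀|) with ⟨h8, -⟩ | ⟨h8, -⟩
    · rw [h8] at h7
      rw [hδdef]
      have h9 : |θ - θ₀| = Real.pi / 2 * (2 / Real.pi * |θ - θ₀|) := by
        field_simp
      rw [h9]
      exact mul_le_mul_of_nonneg_left h7 (by positivity)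
    · exfalso
      rw [h8] at h7
      have h9 : 2 / Real.pi * m₀ ≤ 2 / Real.pi * (2 * Real.pi - |θ - θ₀|) :=
        mul_le_mul_of_nonneg_left (by rw [hm₀]; linarith) (by positivity)
      linarith
  have hE'I : E' ⊆ I := inter_subset_right
  -- the two measures
  have h1 : (ν E).toReal = c * ∫ θ in E', h θ := by
    rw [hνE E hE, ENNReal.toReal_mul, ENNReal.toReal_ofReal hc0.le]
    congr 1
    have h2 : ∀ᵐ θ ∂volume.restrict E', φ (ex θ) < ∞ :=
      ae_restrict_of_ae_restrict_of_subset hE'I hfinae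
    rw [← integral_toReal hφex.aemeasurable h2]
    refine setIntegral_congr_fun hE'm fun θ hθ => ?_
    rw [hh, indicator_of_mem (hE'I hθ)]
  have hvolfin : volume E' ≠ ∞ :=
    ne_top_of_le_ne_top (by rw [hI, Real.volume_Ioc]; exact ENNReal.ofReal_ne_top)
      (measure_mono hE'I)
  have h2 : (circ E).toReal = c * (volume E').toReal := by
    rw [hcE E hE, ENNReal.toReal_mul, ENNReal.toReal_ofReal hc0.le]
  have h3 : (ν E).toReal - h θ₀ * (circ E).toReal = c * ∫ θ in E', (h θ - h θ₀) := by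
    rw [integral_sub hint.integrableOn (integrableOn_const (by exact hvolfin)), h1, h2,
      setIntegral_const, smul_eq_mul]
    unfold Measure.real
    ring
  rw [h3, abs_mul, abs_of_pos hc0]
  have hint2 : IntegrableOn (fun θ => ‖h θ - h θ₀‖) (Metric.closedBall θ₀ δ) := by
    refine Integrable.norm (Integrable.sub hint.integrableOn (integrableOn_const ?_))
    exact (isCompact_closedBall θ₀ δ).measure_lt_top.ne
  have h4 : |∫ θ in E', (h θ - h θ₀)| ≤ ∫ θ in Metric.closedBall θ₀ δ, ‖h θ - h θ₀‖ := by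
    have h5 : |∫ θ in E', (h θ - h θ₀)| ≤ ∫ θ in E', ‖h θ - h θ₀‖ := by
      rw [← Real.norm_eq_abs]
      exact norm_integral_le_integral_norm _
    refine h5.trans ?_
    exact setIntegral_mono_set hint2 (Eventually.of_forall fun _ => norm_nonneg _)
      (HasSubset.Subset.eventuallyLE hsub)
  have h5 : ∫ θ in Metric.closedBall θ₀ δ, ‖h θ - h θ₀‖ =
      2 * δ * ⨍ y in Metric.closedBall θ₀ δ, ‖h y - h θ₀‖ := by
    rw [setAverage_eq, smul_eq_mul, Real.volume_real_closedBall hδpos.le]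
    field_simp
  have h6 : ⨍ y in Metric.closedBall θ₀ δ, ‖h y - h θ₀‖ < 2 * ε / R := by
    refine hδ ?_ hδpos
    rw [Real.dist_eq, sub_zero, abs_of_pos hδpos]
    exact hr1
  calc c * |∫ θ in E', (h θ - h θ₀)| ≤ c * (2 * δ * (2 * ε / R)) := by
        refine mul_le_mul_of_nonneg_left ?_ hc0.le
        refine h4.trans ?_
        rw [h5]
        exact mul_le_mul_of_nonneg_left h6.le (by positivity)
    _ = ε * r := by
        rw [hc, hδdef]
        field_simp

end Pool.Agent.Lib.KLP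
end

section

/-!
# K: concentration of translates
-/

set_option autoImplicit false
open MeasureTheory Set Filter Topology
open scoped ENNReal ComplexConjugate

namespace Pool.Agent.Lib.KLP

variable {Γ : Type*} [Group Γ] {A : DAct Γ} {W : Walk Γ} {ν : Measure ℂ}

private theorem conc_ac (hν : IsProbabilityMeasure ν) (hac : ν ≪ circ) :
    ∃ δ : ℝ≥0∞, 0 < δ ∧ ∀ E : Set ℂ, MeasurableSet E → circ E < δ → ν E < 1 / 2 := by
  have h1 : ∫⁻ x, ν.rnDeriv circ x ∂circ ≠ ∞ := by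
    rw [← setLIntegral_univ, ← withDensity_apply _ MeasurableSet.univ,
      Measure.withDensity_rnDeriv_eq _ _ hac]
    exact measure_ne_top _ _
  obtain ⟨δ, hδ, h2⟩ := exists_pos_setLIntegral_lt_of_measure_lt h1
    (ε := 1 / 2) (by simp)
  refine ⟨δ, hδ, ?_⟩
  intro E hE hlt
  have h3 := h2 E hlt
  rwa [← withDensity_apply _ hE, Measure.withDensity_rnDeriv_eq _ _ hac] at h3

theorem conc (h : Std A W ν) : ∃ K : ℝ, 1 ≤ K ∧ ∀ y : Γ,
    pf A ν {ξ : ℂ | K * A.t y < ‖ξ - A.act y 0‖} y ≤ 1 / 2 := by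
  obtain ⟨δ, hδ, hac⟩ := conc_ac h.prob h.ac
  obtain ⟨K, hK1, hKδ⟩ : ∃ K : ℝ, 1 ≤ K ∧ ENNReal.ofReal (1 / K) < δ := by
    have h1 : Tendsto (fun K : ℝ => ENNReal.ofReal (1 / K)) atTop (𝓝 0) := by
      rw [← ENNReal.ofReal_zero]
      apply ENNReal.tendsto_ofReal
      exact tendsto_const_nhds.div_atTop tendsto_id
    exact ((eventually_ge_atTop (1 : ℝ)).and (h1.eventually_lt_const hδ)).exists
  have hK0 : 0 < K := by linarith
  refine ⟨K, hK1, ?_⟩
  intro y
  have hE : MeasurableSet {ξ : ℂ | K * A.t y < ‖ξ - A.act y 0‖} :=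
    measurableSet_lt measurable_const (measurable_id.sub_const _).norm
  rw [pf_eq hE]
  have hle : ν (A.act y ⁻¹' {ξ : ℂ | K * A.t y < ‖ξ - A.act y 0‖}) ≤
      ν (Metric.closedBall (A.act y⁻¹ 0) (1 / K)) := by
    apply measure_mono_ae
    filter_upwards [ae_norm_of_ac h.ac] with z hz
    intro hz2
    have hz3 : K * A.t y < ‖A.act y z - A.act y 0‖ := hz2
    change z ∈ Metric.closedBall (A.act y⁻¹ 0) (1 / K)
    rw [Metric.mem_closedBall, dist_eq_norm]
    have h1 := A.circle_dist y hz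
    have h2 := A.t_pos y
    by_contra hcon
    rw [not_le] at hcon
    have h3 : A.t y < ‖A.act y z - A.act y 0‖ * ‖z - A.act y⁻¹ 0‖ := by
      calc A.t y = K * A.t y * (1 / K) := by field_simp
        _ < ‖A.act y z - A.act y 0‖ * ‖z - A.act y⁻¹ 0‖ :=
          mul_lt_mul'' hz3 hcon (by positivity) (by positivity)
    linarith
  refine hle.trans (hac _ Metric.isClosed_closedBall.measurableSet ?_).le
  exact (circ_closedBall_le _ (by positivity)).trans_lt hKδ

end Pool.Agent.Lib.KLP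
end

section

/-!
# T: transience
-/

set_option autoImplicit false
open MeasureTheory Set Filter Topology
open scoped ENNReal ComplexConjugate

namespace Pool.Agent.Lib.KLP

variable {Γ : Type*} [Group Γ] {A : DAct Γ} {W : Walk Γ} {ν : Measure ℂ}

/-- If all generators fix `ν` then all translates of `ν` agree. -/
private theorem tr_all_eq (h : Std A W ν)
    (hS : ∀ s ∈ W.S, ∀ E : Set ℂ, MeasurableSet E → pf A ν E s = ν E) :
    ∀ x : Γ, ∀ E : Set ℂ, MeasurableSet E → pf A ν E x = ν E := by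
  have key : ∀ g : Γ, g ∈ Submonoid.closure (W.S : Set Γ) →
      ∀ E : Set ℂ, MeasurableSet E → pf A ν E g = ν E := by
    intro g hg
    induction hg using Submonoid.closure_induction with
    | mem s hs => exact hS s (Finset.mem_coe.1 hs)
    | one => exact fun E hE => pf_one h hE
    | mul a b _ _ iha ihb =>
      intro E hE
      have hm : MeasurableSet (A.act a ⁻¹' E) := A.measurable_act a hE
      rw [pf_mul h hE, ihb _ hm, ← pf_eq hE, iha E hE]
  intro x
  exact key x (by rw [W.gen]; trivial)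

/-- Step 1: some translate of `ν` is not the same as `ν`. -/
private theorem tr_step_one (h : Std A W ν) (g : Γ) :
    ∃ E : Set ℂ, MeasurableSet E ∧ ∃ s ∈ W.S, pf A ν E (g * s) ≠ pf A ν E g := by
  by_contra hcon
  push Not at hcon
  have hS : ∀ s ∈ W.S, ∀ E : Set ℂ, MeasurableSet E → pf A ν E s = ν E := by
    intro s hs E hE
    have hm : MeasurableSet (A.act g⁻¹ ⁻¹' E) := A.measurable_act g⁻¹ hE
    have h1 := pf_mul h hE g⁻¹ (g * s)
    have h2 := pf_mul h hE g⁻¹ g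
    rw [inv_mul_cancel_left] at h1
    rw [inv_mul_cancel] at h2
    rw [h1, hcon _ hm s hs, ← h2, pf_one h hE]
  have hall := tr_all_eq h hS
  have := h.prob
  obtain ⟨K, hK1, hK⟩ := conc h
  obtain ⟨c, C, hc, hC, hnp⟩ := exists_near_point A
  have hfin : ∫⁻ x, ν.rnDeriv circ x ∂circ ≠ ∞ := (Measure.lintegral_rnDeriv_lt_top ν circ).ne
  obtain ⟨δ, hδ, hδ'⟩ := exists_pos_setLIntegral_lt_of_measure_lt hfin
    (ε := 1 / 2) (by norm_num)
  have hνlt : ∀ s : Set ℂ, circ s < δ → ν s < 1 / 2 := by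
    intro s hs
    have h3 := hδ' s hs
    rwa [← withDensity_apply' _ s, Measure.withDensity_rnDeriv_eq ν circ h.ac] at h3
  -- choose a small radius
  obtain ⟨η, hη0, hηδ⟩ : ∃ η : ℝ, 0 < η ∧ ENNReal.ofReal η < δ := by
    rcases eq_or_ne δ ∞ with hd | hd
    · exact ⟨1, one_pos, by rw [hd]; exact ENNReal.ofReal_lt_top⟩
    · refine ⟨δ.toReal / 2, by have := ENNReal.toReal_pos hδ.ne' hd; linarith, ?_⟩
      have hpos := ENNReal.toReal_pos hδ.ne' hd
      rw [ENNReal.ofReal_lt_iff_lt_toReal (by linarith) hd]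
      linarith
  set ρ : ℝ := min 1 (η / (2 * C * K)) with hρ
  have hK0 : 0 < K := by linarith
  have hρ0 : 0 < ρ := lt_min one_pos (by positivity)
  obtain ⟨x, -, hx⟩ := hnp 1 ρ (by simp) hρ0 (min_le_left _ _)
  have ht : A.t x ≤ 2 * C * ρ := by
    have h4 : ‖A.act x 0‖ ≤ 1 := A.norm_act_le x (by simp)
    have h5 : 1 - ‖A.act x 0‖ ≤ ‖A.act x 0 - 1‖ := by
      have := norm_sub_norm_le (1 : ℂ) (A.act x 0)
      rw [norm_one] at this
      rw [norm_sub_rev]
      exact this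
    have h6 : 0 ≤ ‖A.act x 0‖ := norm_nonneg _
    unfold DAct.t
    nlinarith
  have hKt : K * A.t x ≤ η := by
    have h7 : ρ ≤ η / (2 * C * K) := min_le_right _ _
    rw [le_div_iff₀ (by positivity)] at h7
    calc K * A.t x ≤ K * (2 * C * ρ) := by
          exact mul_le_mul_of_nonneg_left ht hK0.le
      _ = ρ * (2 * C * K) := by ring
      _ ≤ η := h7
  have hme : MeasurableSet {ξ : ℂ | K * A.t x < ‖ξ - A.act x 0‖} := by
    refine (isOpen_lt continuous_const (by fun_prop)).measurableSet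
  have h8 : ν {ξ : ℂ | K * A.t x < ‖ξ - A.act x 0‖} ≤ 1 / 2 := by
    rw [← hall x _ hme]
    exact hK x
  have h9 : ν (Metric.closedBall (A.act x 0) (K * A.t x)) < 1 / 2 := by
    refine hνlt _ (lt_of_le_of_lt (circ_closedBall_le _
      (mul_nonneg hK0.le (A.t_pos x).le)) (lt_of_le_of_lt (ENNReal.ofReal_le_ofReal hKt) hηδ))
  have h10 : ν (Metric.closedBall (A.act x 0) (K * A.t x)) +
      ν {ξ : ℂ | K * A.t x < ‖ξ - A.act x 0‖} = 1 := by
    have h11 : {ξ : ℂ | K * A.t x < ‖ξ - A.act x 0‖} =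
        (Metric.closedBall (A.act x 0) (K * A.t x))ᶜ := by
      ext y
      simp [dist_eq_norm]
    rw [h11, measure_add_measure_compl Metric.isClosed_closedBall.measurableSet, measure_univ]
  have h12 : ν (Metric.closedBall (A.act x 0) (K * A.t x)) +
      ν {ξ : ℂ | K * A.t x < ‖ξ - A.act x 0‖} < 1 / 2 + 1 / 2 :=
    ENNReal.add_lt_add_of_lt_of_le (ne_top_of_le_ne_top (by norm_num) h8) h9 h8
  rw [h10, ENNReal.add_halves] at h12
  exact lt_irrefl _ h12

private theorem tr_P_add (f g : Γ → ℝ≥0∞) (w : Γ) :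
    W.P (fun v => f v + g v) w = W.P f w + W.P g w := by
  unfold Walk.P
  rw [← Finset.sum_add_distrib]
  exact Finset.sum_congr rfl fun s _ => by ring

private theorem tr_P_mul (a : ℝ≥0∞) (f : Γ → ℝ≥0∞) (w : Γ) :
    W.P (fun v => a * f v) w = a * W.P f w := by
  unfold Walk.P
  rw [Finset.mul_sum]
  exact Finset.sum_congr rfl fun s _ => by ring

private theorem tr_P_sum (F : ℕ → Γ → ℝ≥0∞) (n : ℕ) (w : Γ) :
    W.P (fun v => ∑ k ∈ Finset.range n, F k v) w = ∑ k ∈ Finset.range n, W.P (F k) w := by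
  unfold Walk.P
  rw [Finset.sum_comm]
  refine Finset.sum_congr rfl fun s _ => ?_
  rw [Finset.mul_sum]

private theorem tr_iter_mul (a : ℝ≥0∞) (f : Γ → ℝ≥0∞) (n : ℕ) (w : Γ) :
    (W.P^[n] (fun v => a * f v)) w = a * (W.P^[n] f) w := by
  induction n generalizing w with
  | zero => rfl
  | succ n ih =>
    rw [Function.iterate_succ_apply', Function.iterate_succ_apply', ← tr_P_mul]
    congr 1
    funext v
    exact ih v

private theorem tr_iter_mono {f g : Γ → ℝ≥0∞} (hfg : ∀ w, f w ≤ g w) (n : ℕ) (w : Γ) :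
    (W.P^[n] f) w ≤ (W.P^[n] g) w := by
  induction n generalizing w with
  | zero => exact hfg w
  | succ n ih =>
    rw [Function.iterate_succ_apply', Function.iterate_succ_apply']
    exact W.P_mono ih w

/-- Telescoping. -/
private theorem tr_telescope {q D : Γ → ℝ≥0∞} (hq : ∀ w, W.P q w = q w + D w) (n : ℕ) (w : Γ) :
    (W.P^[n] q) w = q w + ∑ k ∈ Finset.range n, (W.P^[k] D) w := by
  induction n generalizing w with
  | zero => simp
  | succ n ih =>
    rw [Function.iterate_succ_apply']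
    have h1 : W.P^[n] q = fun v => q v + ∑ k ∈ Finset.range n, (W.P^[k] D) v := by
      funext v; exact ih v
    rw [h1, tr_P_add q (fun v => ∑ k ∈ Finset.range n, (W.P^[k] D) v), hq,
      tr_P_sum (fun k v => (W.P^[k] D) v), Finset.sum_range_succ']
    simp only [Function.iterate_zero, id_eq, Function.iterate_succ_apply']
    rw [add_assoc, add_comm (D w)]

theorem transient (h : Std A W ν) : W.Transient := by
  intro g w
  have := h.prob
  obtain ⟨E, hE, s, hs, hne⟩ := tr_step_one h g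
  set f : Γ → ℝ := fun w => (pf A ν E w).toReal with hf
  have hfle : ∀ w, pf A ν E w ≤ 1 := pf_le_one h E
  have hfne : ∀ w, pf A ν E w ≠ ∞ := fun w => ne_top_of_le_ne_top ENNReal.one_ne_top (hfle w)
  have hf0 : ∀ w, 0 ≤ f w := fun w => ENNReal.toReal_nonneg
  have hf1 : ∀ w, f w ≤ 1 := fun w => by
    have := ENNReal.toReal_mono ENNReal.one_ne_top (hfle w)
    simpa using this
  have hμ0 : ∀ s ∈ W.S, 0 ≤ W.μ s := fun s hs => (W.pos s hs).le
  have hharm : ∀ w, ∑ s ∈ W.S, W.μ s * f (w * s) = f w := by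
    intro w
    have h1 := pf_harmonic h hE w
    have h2 : f w = (W.P (pf A ν E) w).toReal := by
      simp only [hf]
      rw [← h1]
    rw [h2]
    unfold Walk.P
    rw [ENNReal.toReal_sum (fun s _ => ENNReal.mul_ne_top ENNReal.ofReal_ne_top (hfne _))]
    refine Finset.sum_congr rfl fun s hs => ?_
    rw [ENNReal.toReal_mul, ENNReal.toReal_ofReal (hμ0 s hs)]
  set q : Γ → ℝ≥0∞ := fun w => ENNReal.ofReal (f w ^ 2) with hq
  set D : Γ → ℝ≥0∞ := fun w =>
    ENNReal.ofReal (∑ s ∈ W.S, W.μ s * (f (w * s) - f w) ^ 2) with hD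
  have hPq : ∀ w, W.P q w = q w + D w := by
    intro w
    unfold Walk.P
    rw [hq, hD]
    simp only
    rw [← ENNReal.ofReal_add (sq_nonneg _)
      (Finset.sum_nonneg fun s hs => mul_nonneg (hμ0 s hs) (sq_nonneg _))]
    have h3 : ∑ s ∈ W.S, ENNReal.ofReal (W.μ s) * ENNReal.ofReal (f (w * s) ^ 2) =
        ENNReal.ofReal (∑ s ∈ W.S, W.μ s * f (w * s) ^ 2) := by
      rw [ENNReal.ofReal_sum_of_nonneg fun s hs => mul_nonneg (hμ0 s hs) (sq_nonneg _)]
      refine Finset.sum_congr rfl fun s hs => ?_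
      rw [ENNReal.ofReal_mul (hμ0 s hs)]
    rw [h3]
    congr 1
    have h4 : ∑ s ∈ W.S, W.μ s * (f (w * s) - f w) ^ 2 =
        ∑ s ∈ W.S, W.μ s * f (w * s) ^ 2 - 2 * f w * ∑ s ∈ W.S, W.μ s * f (w * s) +
          f w ^ 2 * ∑ s ∈ W.S, W.μ s := by
      rw [Finset.mul_sum, Finset.mul_sum, ← Finset.sum_sub_distrib, ← Finset.sum_add_distrib]
      exact Finset.sum_congr rfl fun s _ => by ring
    rw [h4, hharm, W.sum_eq]
    ring
  have hq1 : ∀ w, q w ≤ 1 := by
    intro w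
    rw [hq]
    simp only
    rw [← ENNReal.ofReal_one]
    exact ENNReal.ofReal_le_ofReal (pow_le_one₀ (hf0 w) (hf1 w))
  have hiter1 : ∀ n w, (W.P^[n] q) w ≤ 1 := by
    intro n
    induction n with
    | zero => exact hq1
    | succ n ih =>
      intro w
      rw [Function.iterate_succ_apply']
      exact (W.P_mono ih w).trans (W.P_const 1 w).le
  have hsum : ∀ n, ∑ k ∈ Finset.range n, (W.P^[k] D) w ≤ 1 := by
    intro n
    have h5 := tr_telescope hPq n w
    have h6 := hiter1 n w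
    rw [h5] at h6
    exact le_trans le_add_self h6
  have htsum : ∑' k, (W.P^[k] D) w ≠ ∞ := by
    refine ne_top_of_le_ne_top ENNReal.one_ne_top ?_
    rw [ENNReal.tsum_eq_iSup_nat]
    exact iSup_le hsum
  have hlim : Tendsto (fun k => (W.P^[k] D) w) atTop (𝓝 0) :=
    ENNReal.tendsto_atTop_zero_of_tsum_ne_top htsum
  -- comparison
  have hDg : D g ≠ 0 := by
    rw [hD]
    simp only
    rw [ne_eq, ENNReal.ofReal_eq_zero, not_le]
    have hne' : f (g * s) ≠ f g := by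
      intro h7
      exact hne ((ENNReal.toReal_eq_toReal_iff' (hfne _) (hfne _)).1 h7)
    have h8 : 0 < W.μ s * (f (g * s) - f g) ^ 2 :=
      mul_pos (W.pos s hs) (by have := sub_ne_zero.2 hne'; positivity)
    refine lt_of_lt_of_le h8 ?_
    exact Finset.single_le_sum (f := fun s => W.μ s * (f (g * s) - f g) ^ 2)
      (fun s hs => mul_nonneg (hμ0 s hs) (sq_nonneg _)) hs
  have hDg' : D g ≠ ∞ := ENNReal.ofReal_ne_top
  have hcomp : ∀ v, D g * Set.indicator {g} (fun _ => (1 : ℝ≥0∞)) v ≤ D v := by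
    intro v
    by_cases hv : v = g
    · subst hv; simp
    · rw [Set.indicator_of_notMem (by simpa using hv), mul_zero]
      exact zero_le
  have hle : ∀ n, (W.P^[n] (Set.indicator {g} (fun _ => (1 : ℝ≥0∞)))) w ≤
      (D g)⁻¹ * (W.P^[n] D) w := by
    intro n
    have h9 := tr_iter_mono (W := W) hcomp n w
    rw [tr_iter_mul] at h9
    calc (W.P^[n] (Set.indicator {g} (fun _ => (1 : ℝ≥0∞)))) w
        = (D g)⁻¹ * (D g * (W.P^[n] (Set.indicator {g} (fun _ => (1 : ℝ≥0∞)))) w) := by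
          rw [← mul_assoc, ENNReal.inv_mul_cancel hDg hDg', one_mul]
      _ ≤ _ := mul_le_mul_right h9 _
  have hlim2 : Tendsto (fun k => (D g)⁻¹ * (W.P^[k] D) w) atTop (𝓝 0) := by
    have h10 := ENNReal.Tendsto.const_mul (a := (D g)⁻¹) hlim (Or.inr (ENNReal.inv_ne_top.2 hDg))
    rwa [mul_zero] at h10
  exact tendsto_of_tendsto_of_tendsto_of_le_of_le tendsto_const_nhds hlim2
    (fun _ => zero_le) hle

end Pool.Agent.Lib.KLP
end

section

/-!
# V: the harmonic functions vanish away from the set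
-/

set_option autoImplicit false
open MeasureTheory Set Filter Topology
open scoped ENNReal ComplexConjugate

namespace Pool.Agent.Lib.KLP

variable {Γ : Type*} [Group Γ] {A : DAct Γ} {W : Walk Γ} {ν : Measure ℂ}

private theorem vanish_ac (hν : IsProbabilityMeasure ν) (hac : ν ≪ circ) {ε : ℝ≥0∞}
    (hε : ε ≠ 0) :
    ∃ δ : ℝ≥0∞, 0 < δ ∧ ∀ E : Set ℂ, MeasurableSet E → circ E < δ → ν E < ε := by
  have h1 : ∫⁻ x, ν.rnDeriv circ x ∂circ ≠ ∞ := by
    rw [← setLIntegral_univ, ← withDensity_apply _ MeasurableSet.univ,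
      Measure.withDensity_rnDeriv_eq _ _ hac]
    exact measure_ne_top _ _
  obtain ⟨δ, hδ, h2⟩ := exists_pos_setLIntegral_lt_of_measure_lt h1 hε
  refine ⟨δ, hδ, ?_⟩
  intro E hE hlt
  have h3 := h2 E hlt
  rwa [← withDensity_apply _ hE, Measure.withDensity_rnDeriv_eq _ _ hac] at h3

theorem vanish (h : Std A W ν) {ξ₀ : ℂ} (hξ₀ : ‖ξ₀‖ = 1) {r : ℝ} (hr : 0 < r) {E : Set ℂ}
    (hE : MeasurableSet E) (hsub : E ⊆ Metric.ball ξ₀ (r / 2)) {ε : ℝ≥0∞} (hε : 0 < ε) :
    {w : Γ | w ∉ A.U ξ₀ r ∧ ε ≤ pf A ν E w}.Finite := by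
  obtain ⟨δ, hδ, hac⟩ := vanish_ac h.prob h.ac hε.ne'
  obtain ⟨a, ha, haδ⟩ : ∃ a : ℝ, 0 < a ∧ ENNReal.ofReal a < δ := by
    have h1 : Tendsto (fun K : ℝ => ENNReal.ofReal (1 / K)) atTop (𝓝 0) := by
      rw [← ENNReal.ofReal_zero]
      apply ENNReal.tendsto_ofReal
      exact tendsto_const_nhds.div_atTop tendsto_id
    obtain ⟨K, hK1, hK2⟩ := ((eventually_ge_atTop (1 : ℝ)).and
      (h1.eventually_lt_const hδ)).exists
    exact ⟨1 / K, by positivity, hK2⟩
  refine (A.finite_t (ε := a * (r / 2) ^ 2) (by positivity)).subset ?_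
  rintro w ⟨hw, hle⟩
  change a * (r / 2) ^ 2 ≤ A.t w
  by_contra hcon
  rw [not_le] at hcon
  have hw' : r ≤ ‖A.act w 0 - ξ₀‖ := not_lt.mp hw
  rw [pf_eq hE] at hle
  refine absurd (hac _ (A.measurable_act w hE) ?_) (not_lt.mpr hle)
  calc circ (A.act w ⁻¹' E) ≤ ENNReal.ofReal (A.t w / (r / 2) ^ 2) * circ E := by
        apply circ_preimage_le A w hE (by positivity)
        intro ξ hξ _
        have h1 := hsub hξ
        rw [Metric.mem_ball, dist_eq_norm] at h1
        have h2 : ‖A.act w 0 - ξ₀‖ ≤ ‖A.act w 0 - ξ‖ + ‖ξ - ξ₀‖ :=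
          norm_sub_le_norm_sub_add_norm_sub _ _ _
        rw [norm_sub_rev (A.act w 0) ξ] at h2
        linarith
    _ ≤ ENNReal.ofReal (A.t w / (r / 2) ^ 2) * 1 := by
        gcongr
        exact prob_le_one
    _ ≤ ENNReal.ofReal a := by
        rw [mul_one]
        apply ENNReal.ofReal_le_ofReal
        rw [div_le_iff₀ (by positivity)]
        exact hcon.le
    _ < δ := haδ

/-- `f_E ≤ hit_U f_E` for walls around `E`. -/
theorem pf_le_hit (h : Std A W ν) (htr : W.Transient) {ξ₀ : ℂ} (hξ₀ : ‖ξ₀‖ = 1) {r : ℝ}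
    (hr : 0 < r) {E : Set ℂ} (hE : MeasurableSet E) (hsub : E ⊆ Metric.ball ξ₀ (r / 2)) (w : Γ) :
    pf A ν E w ≤ W.hit (A.U ξ₀ r) (pf A ν E) w :=
  W.le_hit htr ENNReal.one_ne_top (pf_le_one h E) (fun w _ => pf_harmonic h hE w)
    (fun _ hε => vanish h hξ₀ hr hE hsub hε) w

end Pool.Agent.Lib.KLP
end

section

/-!
# 2.1, 2.2: near and far points of a wall
-/

set_option autoImplicit false
open MeasureTheory Set Filter Topology
open scoped ENNReal ComplexConjugate

namespace Pool.Agent.Lib.KLP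

variable {Γ : Type*} [Group Γ] {A : DAct Γ} {W : Walk Γ} {ν : Measure ℂ}

theorem near_bound (h : Std A W ν) : ∃ K' : ℝ, 1 ≤ K' ∧ ∀ δ : ℝ, 0 < δ → δ ≤ 1 →
    ∃ N : ℕ, ∀ (ξ₀ : ℂ) (r : ℝ), ‖ξ₀‖ = 1 → 0 < r → r < 1 → ∀ b : ℝ≥0∞,
      (∀ y ∈ A.U ξ₀ r, δ * r ≤ A.t y → W.F 1 y ≤ b) →
      ν (Metric.ball ξ₀ (r / 2)) ≤
        2 * ν {ξ : ℂ | r - K' * δ * r ≤ ‖ξ - ξ₀‖ ∧ ‖ξ - ξ₀‖ ≤ r + K' * δ * r} + N * b := by
  classical
  haveI := h.prob
  have htr : W.Transient := transient h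
  obtain ⟨c, C, hc, hc1, hC1, hstep⟩ := step_bounds A W.S
  obtain ⟨K, hK1, hconc⟩ := conc h
  refine ⟨K + C / c, by have : 0 ≤ C / c := by positivity
                        linarith, ?_⟩
  intro δ hδ hδ1
  obtain ⟨T, hT⟩ := near_finite A hδ one_pos
  refine ⟨T.card, ?_⟩
  intro ξ₀ r hξ₀ hr hr1 b hb
  set K' : ℝ := K + C / c with hK'
  set U : Set Γ := A.U ξ₀ r with hU
  set J : Set ℂ := {ξ : ℂ | r - K' * δ * r ≤ ‖ξ - ξ₀‖ ∧ ‖ξ - ξ₀‖ ≤ r + K' * δ * r} with hJ
  have hJm : MeasurableSet J := by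
    have hm : Measurable (fun ξ : ℂ => ‖ξ - ξ₀‖) := by fun_prop
    exact (measurableSet_le measurable_const hm).inter (measurableSet_le hm measurable_const)
  have h1U : (1 : Γ) ∉ U := by
    intro hmem
    have h1 : ‖A.act 1 0 - ξ₀‖ < r := hmem
    rw [A.one 0 (by simp), zero_sub, norm_neg, hξ₀] at h1
    linarith
  set far : Γ → ℝ≥0∞ := Set.indicator {y | A.t y < δ * r} (fun _ => 1) with hfar
  set near : Γ → ℝ≥0∞ := Set.indicator {y | δ * r ≤ A.t y} (fun _ => 1) with hnear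
  -- first bound
  have hfirst : ν (Metric.ball ξ₀ (r / 2)) ≤ W.hit U far 1 + W.hit U near 1 := by
    rw [← pf_one h measurableSet_ball, ← W.hit_add]
    refine (pf_le_hit h htr hξ₀ hr measurableSet_ball le_rfl 1).trans ?_
    apply W.hit_mono
    intro y _
    refine (pf_le_one h _ y).trans ?_
    by_cases hy : A.t y < δ * r
    · rw [hfar, Set.indicator_of_mem (by exact hy)]; exact le_self_add
    · rw [hnear, Set.indicator_of_mem (by exact not_lt.1 hy)]; exact le_add_self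
  -- far points
  have hfar' : W.hit U far 1 ≤ 2 * ν J := by
    rw [W.hit_bd h1U]
    have h2 : ∀ y ∈ U, Set.indicator (W.bd U) far y ≤ 2 * pf A ν J y := by
      intro y hyU
      by_cases hy : y ∈ W.bd U
      · rw [Set.indicator_of_mem hy]
        by_cases hty : A.t y < δ * r
        · rw [hfar, Set.indicator_of_mem (by exact hty)]
          obtain ⟨_, s, hs, hw⟩ := hy
          have hst := hstep (y * s⁻¹) s hs
          rw [inv_mul_cancel_right] at hst
          obtain ⟨h3, _, h4, _⟩ := hst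
          have hw' : r ≤ ‖A.act (y * s⁻¹) 0 - ξ₀‖ := not_lt.1 hw
          have htw : A.t (y * s⁻¹) ≤ A.t y / c := by
            rw [le_div_iff₀ hc]; linarith
          have h5 : ‖A.act y 0 - A.act (y * s⁻¹) 0‖ ≤ C / c * (δ * r) := by
            refine h4.trans ?_
            calc C * A.t (y * s⁻¹) ≤ C * (A.t y / c) := by gcongr
              _ = C / c * A.t y := by ring
              _ ≤ C / c * (δ * r) := by gcongr
          have h6 : r - C / c * (δ * r) ≤ ‖A.act y 0 - ξ₀‖ := by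
            have h7 := norm_sub_norm_le (A.act (y * s⁻¹) 0 - ξ₀) (A.act y 0 - ξ₀)
            have h8 : (A.act (y * s⁻¹) 0 - ξ₀) - (A.act y 0 - ξ₀) =
              -(A.act y 0 - A.act (y * s⁻¹) 0) := by ring
            rw [h8, norm_neg] at h7
            linarith
          have h9 : ‖A.act y 0 - ξ₀‖ < r := hyU
          have hsub : {ξ : ℂ | K * A.t y < ‖ξ - A.act y 0‖}ᶜ ⊆ J := by
            intro ξ hξ
            have hξ' : ‖ξ - A.act y 0‖ ≤ K * A.t y := not_lt.1 hξ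
            have h10 : K * A.t y ≤ K * (δ * r) := by gcongr
            have h11 : ξ - ξ₀ = (ξ - A.act y 0) + (A.act y 0 - ξ₀) := by ring
            have h12 : K' * δ * r = K * (δ * r) + C / c * (δ * r) := by rw [hK']; ring
            have h13 : 0 ≤ C / c * (δ * r) := by positivity
            constructor
            · have h14 := norm_sub_norm_le (A.act y 0 - ξ₀) (-(ξ - A.act y 0))
              rw [sub_neg_eq_add, norm_neg, add_comm (A.act y 0 - ξ₀), ← h11] at h14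
              linarith
            · rw [h11]
              refine (norm_add_le _ _).trans ?_
              linarith
          have hKm : MeasurableSet {ξ : ℂ | K * A.t y < ‖ξ - A.act y 0‖} :=
            measurableSet_lt measurable_const (by fun_prop)
          haveI : IsProbabilityMeasure (ν.map (A.act y)) :=
            Measure.isProbabilityMeasure_map (A.measurable_act y).aemeasurable
          have h15 : (1 : ℝ≥0∞) ≤ 1 / 2 + pf A ν J y := by
            calc (1 : ℝ≥0∞) = (ν.map (A.act y)) univ := measure_univ.symm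
              _ ≤ (ν.map (A.act y)) {ξ : ℂ | K * A.t y < ‖ξ - A.act y 0‖} +
                  (ν.map (A.act y)) {ξ : ℂ | K * A.t y < ‖ξ - A.act y 0‖}ᶜ := by
                  rw [measure_add_measure_compl hKm]
              _ ≤ 1 / 2 + pf A ν J y :=
                  add_le_add (hconc y) (measure_mono hsub)
          have h16 : (1 / 2 : ℝ≥0∞) ≤ pf A ν J y := by
            have h17 : (1 / 2 : ℝ≥0∞) + 1 / 2 ≤ 1 / 2 + pf A ν J y := by
              rw [ENNReal.add_halves]; exact h15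
            exact (ENNReal.add_le_add_iff_left (by simp)).1 h17
          calc (1 : ℝ≥0∞) = 2 * (1 / 2) := by
                rw [one_div, ENNReal.mul_inv_cancel two_ne_zero ENNReal.ofNat_ne_top]
            _ ≤ 2 * pf A ν J y := by gcongr
        · rw [hfar, Set.indicator_of_notMem (by exact hty)]; exact zero_le
      · rw [Set.indicator_of_notMem hy]; exact zero_le
    refine (W.hit_mono h2 1).trans ?_
    rw [W.hit_const_mul, ← pf_one h hJm]
    gcongr
    exact W.hit_le (fun y _ => le_rfl) (fun y _ => (pf_harmonic h hJm y).symm.le) 1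
  -- near points
  have hnear' : W.hit U near 1 ≤ T.card * b := by
    refine (W.hit_le_tsum U near 1).trans ?_
    by_cases hne : ∃ y₁ ∈ U, δ * r ≤ A.t y₁
    · obtain ⟨y₁, hy₁U, hy₁⟩ := hne
      have hterm : ∀ y, Set.indicator U (fun y => W.F 1 y * near y) y ≤
          Set.indicator (↑(T.image (fun g => y₁ * g)) : Set Γ) (fun _ => b) y := by
        intro y
        by_cases hyU : y ∈ U
        · rw [Set.indicator_of_mem hyU]
          by_cases hy : δ * r ≤ A.t y
          · rw [hnear, Set.indicator_of_mem (by exact hy), mul_one, Set.indicator_of_mem]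
            · exact hb y hyU hy
            · rw [Finset.coe_image]
              refine ⟨y₁⁻¹ * y, ?_, by simp⟩
              have hU1 : ‖A.act y₁ 0 - ξ₀‖ < r := hy₁U
              have hU2 : ‖A.act y 0 - ξ₀‖ < r := hyU
              exact hT ξ₀ r hξ₀ hr y₁ y hy₁ hy (by linarith) (by linarith)
          · rw [hnear, Set.indicator_of_notMem (by exact hy), mul_zero]; exact zero_le
        · rw [Set.indicator_of_notMem hyU]; exact zero_le
      refine (ENNReal.tsum_le_tsum hterm).trans ?_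
      rw [← tsum_subtype,
        Finset.tsum_subtype' (T.image (fun g => y₁ * g)) (fun _ : Γ => b),
        Finset.sum_const, nsmul_eq_mul]
      exact mul_le_mul' (Nat.cast_le.2 Finset.card_image_le) le_rfl
    · have hz : ∀ y, Set.indicator U (fun y => W.F 1 y * near y) y = 0 := by
        intro y
        by_cases hyU : y ∈ U
        · rw [Set.indicator_of_mem hyU]
          have : ¬ δ * r ≤ A.t y := fun hy => hne ⟨y, hyU, hy⟩
          rw [hnear, Set.indicator_of_notMem (by exact this), mul_zero]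
        · rw [Set.indicator_of_notMem hyU]
      simp only [hz, tsum_zero]
      exact zero_le
  exact hfirst.trans (add_le_add hfar' hnear')

end Pool.Agent.Lib.KLP
end

section

/-!
# 2.3: good points near a Lebesgue point
-/

set_option autoImplicit false
open MeasureTheory Set Filter Topology
open scoped ENNReal ComplexConjugate

namespace Pool.Agent.Lib.KLP

variable {Γ : Type*} [Group Γ] {A : DAct Γ} {W : Walk Γ} {ν : Measure ℂ}

theorem good_near (h : Std A W ν) {ξ₀ : ℂ} {L : ℝ} (hL : LebPt ν ξ₀ L) :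
    ∃ c δ r₀ : ℝ, 0 < c ∧ 0 < δ ∧ 0 < r₀ ∧ ∀ r : ℝ, 0 < r → r < r₀ →
      ∃ γ ∈ A.U ξ₀ r, δ * r ≤ A.t γ ∧ ENNReal.ofReal (c * r) ≤ W.F 1 γ := by
  haveI := h.prob
  obtain ⟨hξ₀, hL0, hLeb⟩ := hL
  obtain ⟨K', hK', hnb⟩ := near_bound h
  have hK'0 : 0 < K' := by linarith
  set δ : ℝ := 1 / (128 * K') with hδ
  have hδ0 : 0 < δ := by positivity
  have hKδ : K' * δ = 1 / 128 := by rw [hδ]; field_simp
  have hδ1 : δ ≤ 1 := by nlinarith
  obtain ⟨N, hN⟩ := hnb δ hδ0 hδ1
  obtain ⟨r₁, hr₁, hleb⟩ := hLeb 2 two_pos (L / 128) (by positivity)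
  set c : ℝ := L / (40 * (N + 1)) with hc
  have hc0 : 0 < c := by positivity
  refine ⟨c, δ, min r₁ (1 / 2), hc0, hδ0, by positivity, ?_⟩
  intro r hr hrr
  have hrr₁ : r < r₁ := hrr.trans_le (min_le_left _ _)
  have hr2 : r < 1 / 2 := hrr.trans_le (min_le_right _ _)
  by_contra hcon
  push Not at hcon
  have hb : ∀ y ∈ A.U ξ₀ r, δ * r ≤ A.t y → W.F 1 y ≤ ENNReal.ofReal (c * r) :=
    fun y hy hty => (hcon y hy hty).le
  have hmain := hN ξ₀ r hξ₀ hr (by linarith) _ hb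
  set J : Set ℂ := {ξ : ℂ | r - K' * δ * r ≤ ‖ξ - ξ₀‖ ∧ ‖ξ - ξ₀‖ ≤ r + K' * δ * r} with hJ
  have hJm : MeasurableSet J := by
    have hm : Measurable (fun ξ : ℂ => ‖ξ - ξ₀‖) := by fun_prop
    exact (measurableSet_le measurable_const hm).inter (measurableSet_le hm measurable_const)
  have hJsub : J ⊆ Metric.closedBall ξ₀ (2 * r) := by
    intro ξ hξ
    rw [Metric.mem_closedBall, dist_eq_norm]
    have := hξ.2
    rw [hKδ] at this
    linarith
  have hcJ : (circ J).toReal ≤ 2 * (r / 128) := by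
    have h1 := circ_annulus_le hξ₀ (r := r) (a := K' * δ * r) hr.le (by rw [hKδ]; positivity)
      (by rw [hKδ]; linarith)
    rw [← hJ] at h1
    have h2 := ENNReal.toReal_mono ENNReal.ofReal_ne_top h1
    rw [ENNReal.toReal_ofReal (by rw [hKδ]; positivity), hKδ] at h2
    linarith
  have hνJ : (ν J).toReal ≤ L * (2 * (r / 128)) + L / 128 * r := by
    have h1 := (abs_le.1 (hleb r hr hrr₁ J hJm hJsub)).2
    have h2 : L * (circ J).toReal ≤ L * (2 * (r / 128)) := by gcongr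
    linarith
  have hBsub : Metric.ball ξ₀ (r / 2) ⊆ Metric.closedBall ξ₀ (2 * r) :=
    Metric.ball_subset_closedBall.trans (Metric.closedBall_subset_closedBall (by linarith))
  have hcfin : circ (Metric.ball ξ₀ (r / 2)) ≠ ∞ := by
    have h1 := circ_closedBall_le ξ₀ (ρ := r / 2) (by positivity)
    exact ((measure_mono Metric.ball_subset_closedBall).trans h1).trans_lt
      ENNReal.ofReal_lt_top |>.ne
  have hcB : r / 8 ≤ (circ (Metric.ball ξ₀ (r / 2))).toReal := by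
    have h1 := le_circ_ball hξ₀ (ρ := r / 2) (by positivity) (by linarith)
    have h2 := ENNReal.toReal_mono hcfin h1
    rw [ENNReal.toReal_ofReal (by positivity)] at h2
    linarith
  have hνB : L * (r / 8) - L / 128 * r ≤ (ν (Metric.ball ξ₀ (r / 2))).toReal := by
    have h1 := (abs_le.1 (hleb r hr hrr₁ _ measurableSet_ball hBsub)).1
    have h2 : L * (r / 8) ≤ L * (circ (Metric.ball ξ₀ (r / 2))).toReal := by gcongr
    linarith
  have hfin : (ν (Metric.ball ξ₀ (r / 2))).toReal ≤ 2 * (ν J).toReal + N * (c * r) := by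
    have h1 : 2 * ν J + N * ENNReal.ofReal (c * r) ≠ ∞ := by
      apply ENNReal.add_ne_top.2 ⟨?_, ?_⟩
      · exact ENNReal.mul_ne_top (by simp) (measure_ne_top _ _)
      · exact ENNReal.mul_ne_top (by simp) ENNReal.ofReal_ne_top
    have h2 := ENNReal.toReal_mono h1 hmain
    rw [ENNReal.toReal_add (ENNReal.mul_ne_top (by simp) (measure_ne_top _ _))
      (ENNReal.mul_ne_top (by simp) ENNReal.ofReal_ne_top), ENNReal.toReal_mul,
      ENNReal.toReal_mul, ENNReal.toReal_ofReal (by positivity)] at h2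
    simpa using h2
  have hNc : (N : ℝ) * (c * r) ≤ L / 40 * r := by
    rw [hc]
    have h1 : (N : ℝ) * (L / (40 * (N + 1)) * r) = (N / (N + 1)) * (L / 40 * r) := by
      field_simp
    rw [h1]
    have h2 : (N : ℝ) / (N + 1) ≤ 1 := by
      rw [div_le_one (by positivity)]; linarith
    have h3 : 0 ≤ L / 40 * r := by positivity
    nlinarith
  have hLr : 0 < L * r := by positivity
  nlinarith

end Pool.Agent.Lib.KLP
end

section

/-!
# 2.4: the density is bounded above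
-/

set_option autoImplicit false
open MeasureTheory Set Filter Topology
open scoped ENNReal ComplexConjugate

namespace Pool.Agent.Lib.KLP

variable {Γ : Type*} [Group Γ] {A : DAct Γ} {W : Walk Γ} {ν : Measure ℂ}

private theorem upper_circle_meas : MeasurableSet {z : ℂ | ‖z‖ = 1} :=
  measurableSet_eq_fun measurable_norm measurable_const

/-- A measure absolutely continuous with respect to `circ` lives on the circle. -/
private theorem upper_inter (hac : ν ≪ circ) (E : Set ℂ) : ν (E ∩ {z : ℂ | ‖z‖ = 1}) = ν E := by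
  apply measure_congr
  filter_upwards [ae_norm_of_ac hac] with z hz
  exact propext ⟨fun h => h.1, fun h => ⟨h, hz⟩⟩

/-- One good element `γ` near the Lebesgue point bounds `ν` away from `ζ`. -/
private theorem upper_step (h : Std A W ν) {ξ₀ ζ : ℂ} {L c r ε e : ℝ} (hξ₀ : ‖ξ₀‖ = 1)
    (hL : 0 < L) (hc : 0 < c) (hr : 0 < r) (hε : 0 < ε) {γ : Γ} (hγ : γ ∈ A.U ξ₀ r)
    (hF : ENNReal.ofReal (c * r) ≤ W.F 1 γ) (hζ : ‖A.act γ⁻¹ 0 - ζ‖ ≤ ε / 2)
    (hleb : ∀ E : Set ℂ, MeasurableSet E → E ⊆ Metric.closedBall ξ₀ ((1 + 4 / ε) * r) →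
      |(ν E).toReal - L * (circ E).toReal| ≤ e * r)
    {E : Set ℂ} (hE : MeasurableSet E) (hE1 : ∀ ξ ∈ E, ‖ξ‖ = 1) (hE2 : ∀ ξ ∈ E, ε ≤ ‖ξ - ζ‖) :
    c * (ν E).toReal ≤ L * (8 / ε ^ 2) * (circ E).toReal + e := by
  have := h.prob
  set E₁ : Set ℂ := A.act γ⁻¹ ⁻¹' E with hE₁
  set E₂ : Set ℂ := E₁ ∩ {z : ℂ | ‖z‖ = 1} with hE₂
  have hmE₁ : MeasurableSet E₁ := A.measurable_act γ⁻¹ hE
  have hmE₂ : MeasurableSet E₂ := hmE₁.inter upper_circle_meas
  have htpos : 0 < A.t γ := A.t_pos γ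
  have ht : A.t γ ≤ 2 * r := by
    have h1 : ‖A.act γ 0 - ξ₀‖ < r := hγ
    have h2 : ‖A.act γ 0‖ ≤ 1 := A.norm_act_le γ (by simp)
    have h3 : ‖ξ₀‖ - ‖A.act γ 0‖ ≤ ‖A.act γ 0 - ξ₀‖ := by
      rw [norm_sub_rev]
      exact norm_sub_norm_le _ _
    have h4 : 0 ≤ ‖A.act γ 0‖ := norm_nonneg _
    unfold DAct.t
    nlinarith
  -- the lower bound for `ν E₂`
  have hlow : ENNReal.ofReal (c * r) * ν E ≤ ν E₂ := by
    have h1 := F_mul_pf_le h hE γ⁻¹ 1
    rw [pf_one h hE, pf_eq hE] at h1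
    have h2 : W.F γ⁻¹ 1 = W.F 1 γ := by
      have := W.F_mul_left γ γ⁻¹ 1
      rw [mul_inv_cancel, mul_one] at this
      exact this.symm
    rw [h2] at h1
    calc ENNReal.ofReal (c * r) * ν E ≤ W.F 1 γ * ν E := mul_le_mul_left hF _
      _ ≤ ν E₁ := h1
      _ = ν E₂ := (upper_inter h.ac E₁).symm
  -- distance of points of `E` to the centre
  have hdist : ∀ η ∈ E, ε / 2 ≤ ‖η - A.act γ⁻¹ 0‖ := by
    intro η hη
    have h1 := hE2 η hη
    have h2 : ‖η - ζ‖ ≤ ‖η - A.act γ⁻¹ 0‖ + ‖A.act γ⁻¹ 0 - ζ‖ := norm_sub_le_norm_sub_add_norm_sub _ _ _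
    linarith
  have hsub : E₂ ⊆ Metric.closedBall ξ₀ ((1 + 4 / ε) * r) := by
    rintro ξ ⟨hξE, hξ1⟩
    have hξ1' : ‖ξ‖ = 1 := hξ1
    have hη : A.act γ⁻¹ ξ ∈ E := hξE
    have hη1 := hE1 _ hη
    have h1 := A.circle_dist γ hη1
    rw [A.act_inv_act γ hξ1'.le] at h1
    have h2 := hdist _ hη
    have h3 : ‖ξ - A.act γ 0‖ ≤ 4 / ε * r := by
      have h4 : ‖ξ - A.act γ 0‖ * (ε / 2) ≤ 2 * r :=
        (mul_le_mul_of_nonneg_left h2 (norm_nonneg _)).trans (h1.le.trans ht)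
      have h5 : 4 / ε * r = 2 * r / (ε / 2) := by field_simp; ring
      rw [h5, le_div_iff₀ (by positivity)]
      exact h4
    have h6 : ‖A.act γ 0 - ξ₀‖ < r := hγ
    rw [Metric.mem_closedBall, dist_eq_norm]
    have h7 : ‖ξ - ξ₀‖ ≤ ‖ξ - A.act γ 0‖ + ‖A.act γ 0 - ξ₀‖ := norm_sub_le_norm_sub_add_norm_sub _ _ _
    nlinarith
  have hup := (abs_le.mp (hleb E₂ hmE₂ hsub)).2
  -- the circle measure of `E₂`
  have hcirc : circ E₂ ≤ ENNReal.ofReal (8 / ε ^ 2 * r) * circ E := by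
    calc circ E₂ ≤ circ E₁ := measure_mono inter_subset_left
      _ ≤ ENNReal.ofReal (A.t γ⁻¹ / (ε / 2) ^ 2) * circ E :=
        circ_preimage_le A γ⁻¹ hE (by positivity) fun ξ hξ _ => hdist ξ hξ
      _ ≤ ENNReal.ofReal (8 / ε ^ 2 * r) * circ E := by
        apply mul_le_mul_left
        apply ENNReal.ofReal_le_ofReal
        rw [A.t_inv]
        have h5 : 8 / ε ^ 2 * r = 2 * r / (ε / 2) ^ 2 := by field_simp; ring
        rw [h5]
        gcongr
  have hcirc' : (circ E₂).toReal ≤ 8 / ε ^ 2 * r * (circ E).toReal := by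
    have h1 := ENNReal.toReal_mono (ENNReal.mul_ne_top ENNReal.ofReal_ne_top (measure_ne_top _ _))
      hcirc
    rw [ENNReal.toReal_mul, ENNReal.toReal_ofReal (by positivity)] at h1
    exact h1
  have hlow' : c * r * (ν E).toReal ≤ (ν E₂).toReal := by
    have h1 := ENNReal.toReal_mono (measure_ne_top _ _) hlow
    rw [ENNReal.toReal_mul, ENNReal.toReal_ofReal (by positivity)] at h1
    exact h1
  have hfin : c * r * (ν E).toReal ≤ L * (8 / ε ^ 2 * r * (circ E).toReal) + e * r := by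
    have h1 := mul_le_mul_of_nonneg_left hcirc' hL.le
    linarith
  have h8 : r * (c * (ν E).toReal) ≤ r * (L * (8 / ε ^ 2) * (circ E).toReal + e) := by
    calc r * (c * (ν E).toReal) = c * r * (ν E).toReal := by ring
      _ ≤ L * (8 / ε ^ 2 * r * (circ E).toReal) + e * r := hfin
      _ = r * (L * (8 / ε ^ 2) * (circ E).toReal + e) := by ring
  exact le_of_mul_le_mul_left h8 hr

/-- Claim A: the bound away from a point `ζ` of the circle. -/
private theorem upper_away (h : Std A W ν) : ∃ ζ : ℂ, ‖ζ‖ = 1 ∧ ∃ c L : ℝ, 0 < c ∧ 0 < L ∧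
    ∀ ε : ℝ, 0 < ε → ∀ E : Set ℂ, MeasurableSet E → (∀ ξ ∈ E, ‖ξ‖ = 1) →
      (∀ ξ ∈ E, ε ≤ ‖ξ - ζ‖) → ν E ≤ ENNReal.ofReal (L * (8 / ε ^ 2) / c) * circ E := by
  have := h.prob
  obtain ⟨ξ₀, L, hLeb⟩ := exists_lebPt ν h.ac
  obtain ⟨c, δ, r₀, hc, hδ, hr₀, hgood⟩ := good_near h hLeb
  obtain ⟨hξ₀, hL, hleb⟩ := hLeb
  let r : ℕ → ℝ := fun n => r₀ / (n + 2)
  have hrpos : ∀ n, 0 < r n := fun n => by positivity
  have hrlt : ∀ n, r n < r₀ := fun n => by
    have : (0 : ℝ) ≤ n := Nat.cast_nonneg n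
    change r₀ / (n + 2) < r₀
    rw [div_lt_iff₀ (by positivity)]
    nlinarith
  have hr0 : Tendsto r atTop (𝓝 0) := by
    apply Tendsto.div_atTop tendsto_const_nhds
    exact tendsto_atTop_add_const_right _ _ tendsto_natCast_atTop_atTop
  choose γ hγU hγt hγF using fun n => hgood (r n) (hrpos n) (hrlt n)
  obtain ⟨ζ, -, φ, hφ, hζ⟩ := (isCompact_closedBall (0 : ℂ) 1).tendsto_subseq
    (x := fun n => A.act (γ n)⁻¹ 0) (fun n => by
      rw [mem_closedBall_zero_iff]
      exact A.norm_act_le _ (by simp))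
  have hrφ : Tendsto (fun n => r (φ n)) atTop (𝓝 0) := hr0.comp hφ.tendsto_atTop
  have ht0 : ∀ n, ‖A.act (γ n)⁻¹ 0‖ ^ 2 = 1 - A.t (γ n) := by
    intro n
    rw [← A.t_inv]
    unfold DAct.t
    ring
  have htle : ∀ n, A.t (γ n) ≤ 2 * r n := by
    intro n
    have h1 : ‖A.act (γ n) 0 - ξ₀‖ < r n := hγU n
    have h2 : ‖A.act (γ n) 0‖ ≤ 1 := A.norm_act_le _ (by simp)
    have h3 : ‖ξ₀‖ - ‖A.act (γ n) 0‖ ≤ ‖A.act (γ n) 0 - ξ₀‖ := by
      rw [norm_sub_rev]
      exact norm_sub_norm_le _ _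
    have h4 : 0 ≤ ‖A.act (γ n) 0‖ := norm_nonneg _
    unfold DAct.t
    nlinarith
  have hζ1 : ‖ζ‖ = 1 := by
    have h1 : Tendsto (fun n => ‖A.act (γ (φ n))⁻¹ 0‖ ^ 2) atTop (𝓝 (‖ζ‖ ^ 2)) :=
      (hζ.norm).pow 2
    have h2 : Tendsto (fun n => ‖A.act (γ (φ n))⁻¹ 0‖ ^ 2) atTop (𝓝 1) := by
      have h3 : Tendsto (fun n => A.t (γ (φ n))) atTop (𝓝 0) := by
        refine tendsto_of_tendsto_of_tendsto_of_le_of_le tendsto_const_nhds
          (by simpa using hrφ.const_mul 2) (fun n => (A.t_pos _).le) (fun n => htle _)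
      have h4 := h3.const_sub 1
      rw [sub_zero] at h4
      exact h4.congr fun n => (ht0 _).symm
    have h3 : ‖ζ‖ ^ 2 = 1 := tendsto_nhds_unique h1 h2
    have h4 : 0 ≤ ‖ζ‖ := norm_nonneg _
    nlinarith
  refine ⟨ζ, hζ1, c, L, hc, hL, ?_⟩
  intro ε hε E hE hE1 hE2
  -- real inequality
  have hreal : c * (ν E).toReal ≤ L * (8 / ε ^ 2) * (circ E).toReal := by
    apply le_of_forall_pos_le_add
    intro e he
    obtain ⟨r₁, hr₁, hleb1⟩ := hleb (1 + 4 / ε) (by positivity) e he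
    have hev1 : ∀ᶠ n in atTop, r (φ n) < r₁ := hrφ.eventually_lt_const hr₁
    have hev2 : ∀ᶠ n in atTop, ‖A.act (γ (φ n))⁻¹ 0 - ζ‖ ≤ ε / 2 := by
      have h1 : Tendsto (fun n => ‖A.act (γ (φ n))⁻¹ 0 - ζ‖) atTop (𝓝 0) := by
        rw [← tendsto_iff_norm_sub_tendsto_zero]
        exact hζ
      exact (h1.eventually_lt_const (by positivity : (0 : ℝ) < ε / 2)).mono fun _ h => h.le
    obtain ⟨n, hn1, hn2⟩ := (hev1.and hev2).exists
    exact upper_step h hξ₀ hL hc (hrpos (φ n)) hε (hγU (φ n)) (hγF (φ n)) hn2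
      (hleb1 (r (φ n)) (hrpos _) hn1) hE hE1 hE2
  rw [← ENNReal.ofReal_toReal (measure_ne_top ν E), ← ENNReal.ofReal_toReal (measure_ne_top circ E),
    ← ENNReal.ofReal_mul (by positivity)]
  apply ENNReal.ofReal_le_ofReal
  rw [div_mul_eq_mul_div, le_div_iff₀ hc]
  linarith

theorem upper (h : Std A W ν) : ∃ M : ℝ, 0 < M ∧ ∀ E : Set ℂ, MeasurableSet E →
    ν E ≤ ENNReal.ofReal M * circ E := by
  have := h.prob
  obtain ⟨ζ, hζ, c, L, hc, hL, haway⟩ := upper_away h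
  obtain ⟨g, hg⟩ := h.nofix ζ hζ
  set ε : ℝ := ‖A.act g ζ - ζ‖ / 2 with hε
  have hεpos : 0 < ε := by
    have : 0 < ‖A.act g ζ - ζ‖ := norm_pos_iff.mpr (sub_ne_zero.mpr hg)
    positivity
  -- continuity at `ζ`
  obtain ⟨ρ, hρ, hcont⟩ : ∃ ρ : ℝ, 0 < ρ ∧ ∀ ξ : ℂ, ‖ξ‖ = 1 → ‖ξ - ζ‖ < ρ →
      ε ≤ ‖A.act g ξ - ζ‖ := by
    have h1 := (A.iso g).continuousOn ζ (by rw [mem_closedBall_zero_iff]; exact hζ.le)
    obtain ⟨ρ, hρ, h2⟩ := Metric.continuousWithinAt_iff.mp h1 ε hεpos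
    refine ⟨ρ, hρ, ?_⟩
    intro ξ hξ hξρ
    have h3 := h2 (x := ξ) (by rw [mem_closedBall_zero_iff]; exact hξ.le)
      (by rw [dist_eq_norm]; exact hξρ)
    rw [dist_eq_norm] at h3
    have h4 : ‖A.act g ζ - ζ‖ ≤ ‖A.act g ξ - ζ‖ + ‖A.act g ξ - A.act g ζ‖ := by
      have := norm_sub_le (A.act g ξ - ζ) (A.act g ξ - A.act g ζ)
      have e1 : A.act g ξ - ζ - (A.act g ξ - A.act g ζ) = A.act g ζ - ζ := by ring
      rwa [e1] at this
    have h5 : ‖A.act g ζ - ζ‖ = 2 * ε := by rw [hε]; ring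
    linarith
  -- the element `s = g⁻¹`
  set d : ℝ := 1 - ‖A.act g⁻¹ 0‖ with hd
  have hdpos : 0 < d := by
    have := A.norm_act_lt g⁻¹ (z := 0) (by simp)
    linarith
  set K : ℝ≥0∞ := (W.F g⁻¹ 1)⁻¹ * (ENNReal.ofReal (L * (8 / ε ^ 2) / c) *
    ENNReal.ofReal (A.t g⁻¹ / d ^ 2)) with hK
  have hKtop : K ≠ ∞ := by
    apply ENNReal.mul_ne_top
    · exact ENNReal.inv_ne_top.mpr (W.F_ne_zero _ _)
    · exact ENNReal.mul_ne_top ENNReal.ofReal_ne_top ENNReal.ofReal_ne_top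
  have hnear : ∀ E : Set ℂ, MeasurableSet E → (∀ ξ ∈ E, ‖ξ‖ = 1) → (∀ ξ ∈ E, ‖ξ - ζ‖ < ρ) →
      ν E ≤ K * circ E := by
    intro E hE hE1 hE2
    have h1 := F_mul_pf_le h hE g⁻¹ 1
    rw [pf_one h hE, pf_eq hE] at h1
    set E₁ : Set ℂ := A.act g⁻¹ ⁻¹' E with hE₁
    have hmE₁ : MeasurableSet E₁ := A.measurable_act g⁻¹ hE
    have h2 : ν E₁ ≤ ENNReal.ofReal (L * (8 / ε ^ 2) / c) *
        (ENNReal.ofReal (A.t g⁻¹ / d ^ 2) * circ E) := by
      rw [← upper_inter h.ac E₁]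
      refine (haway ε hεpos _ (hmE₁.inter upper_circle_meas) (fun ξ hξ => hξ.2) ?_).trans ?_
      · rintro ξ ⟨hξE, hξ1⟩
        have hξ1' : ‖ξ‖ = 1 := hξ1
        have h3 := hcont (A.act g⁻¹ ξ) (hE1 _ hξE) (hE2 _ hξE)
        rwa [A.act_inv_act g hξ1'.le] at h3
      · apply mul_le_mul_right
        refine (measure_mono inter_subset_left).trans ?_
        apply circ_preimage_le A g⁻¹ hE hdpos
        intro ξ hξ hξ1
        have h3 := norm_sub_norm_le ξ (A.act g⁻¹ 0)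
        rw [hξ1] at h3
        exact h3
    have h3 : W.F g⁻¹ 1 ≠ ∞ := ne_top_of_le_ne_top ENNReal.one_ne_top (W.F_le_one _ _)
    have h4 := W.F_ne_zero g⁻¹ 1
    calc ν E = (W.F g⁻¹ 1)⁻¹ * (W.F g⁻¹ 1 * ν E) := by
          rw [← mul_assoc, ENNReal.inv_mul_cancel h4 h3, one_mul]
      _ ≤ (W.F g⁻¹ 1)⁻¹ * (ENNReal.ofReal (L * (8 / ε ^ 2) / c) *
        (ENNReal.ofReal (A.t g⁻¹ / d ^ 2) * circ E)) := mul_le_mul_right (h1.trans h2) _
      _ = K * circ E := by rw [hK]; ring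
  refine ⟨L * (8 / ρ ^ 2) / c + K.toReal + 1, by positivity, ?_⟩
  intro E hE
  have hmb : MeasurableSet {ξ : ℂ | ‖ξ - ζ‖ < ρ} :=
    measurableSet_lt (measurable_id.sub_const ζ).norm measurable_const
  have hmE : MeasurableSet (E ∩ {z : ℂ | ‖z‖ = 1}) := hE.inter upper_circle_meas
  have h1 : ν ((E ∩ {z : ℂ | ‖z‖ = 1}) ∩ {ξ : ℂ | ‖ξ - ζ‖ < ρ}) ≤ K * circ E :=
    (hnear _ (hmE.inter hmb) (fun ξ hξ => hξ.1.2) (fun ξ hξ => hξ.2)).trans
      (mul_le_mul_right (measure_mono fun ξ hξ => hξ.1.1) _)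
  have h2 : ν ((E ∩ {z : ℂ | ‖z‖ = 1}) \ {ξ : ℂ | ‖ξ - ζ‖ < ρ}) ≤
      ENNReal.ofReal (L * (8 / ρ ^ 2) / c) * circ E :=
    (haway ρ hρ _ (hmE.diff hmb) (fun ξ hξ => hξ.1.2) (fun ξ hξ => not_lt.mp hξ.2)).trans
      (mul_le_mul_right (measure_mono fun ξ hξ => hξ.1.1) _)
  calc ν E = ν (E ∩ {z : ℂ | ‖z‖ = 1}) := (upper_inter h.ac E).symm
    _ = ν ((E ∩ {z : ℂ | ‖z‖ = 1}) ∩ {ξ : ℂ | ‖ξ - ζ‖ < ρ}) +
        ν ((E ∩ {z : ℂ | ‖z‖ = 1}) \ {ξ : ℂ | ‖ξ - ζ‖ < ρ}) :=
      (measure_inter_add_sdiff _ hmb).symm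
    _ ≤ K * circ E + ENNReal.ofReal (L * (8 / ρ ^ 2) / c) * circ E := add_le_add h1 h2
    _ = (ENNReal.ofReal (L * (8 / ρ ^ 2) / c) + ENNReal.ofReal K.toReal) * circ E := by
      rw [ENNReal.ofReal_toReal hKtop]; ring
    _ ≤ ENNReal.ofReal (L * (8 / ρ ^ 2) / c + K.toReal + 1) * circ E := by
      apply mul_le_mul_left
      rw [← ENNReal.ofReal_add (by positivity) ENNReal.toReal_nonneg]
      apply ENNReal.ofReal_le_ofReal
      linarith

end Pool.Agent.Lib.KLP
end
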