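import Pool.Agent.Lib.MP_a137af_pr.DiscIso
import Pool.Agent.Lib.MP_a137af_pr.IsomClass
import Pool.Agent.Lib.MP_a137af_pr.FarPt

section

/-!
# B0: derivatives of the action
-/

set_option autoImplicit false
open MeasureTheory Set Filter Topology
open scoped ENNReal ComplexConjugate

namespace Pool.Agent.Lib.KLP

variable {Δ : Type*} [Group Δ] {A : DAct Δ}

theorem act_one_eqOn (A : DAct Δ) : Set.EqOn (A.act 1) id (Metric.ball 0 1) := by
  intro z hz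
  rw [Metric.mem_ball, dist_zero_right] at hz
  exact A.one z hz.le

private theorem ball_mem_nhds_of_norm_lt {z : ℂ} (hz : ‖z‖ < 1) :
    Metric.ball (0 : ℂ) 1 ∈ 𝓝 z :=
  Metric.isOpen_ball.mem_nhds (by rwa [Metric.mem_ball, dist_zero_right])

theorem deriv_act_one (A : DAct Δ) {z : ℂ} (hz : ‖z‖ < 1) : deriv (A.act 1) z = 1 := by
  have h : A.act 1 =ᶠ[𝓝 z] id := by
    filter_upwards [ball_mem_nhds_of_norm_lt hz] with w hw
    exact act_one_eqOn A hw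
  rw [h.deriv_eq]
  exact deriv_id z

private theorem one_sub_ne {a z : ℂ} (ha : ‖a‖ < 1) (hz : ‖z‖ < 1) : 1 - conj a * z ≠ 0 := by
  intro h
  have h1 : conj a * z = 1 := (sub_eq_zero.mp h).symm
  have h2 : ‖a‖ * ‖z‖ = 1 := by
    have := congrArg norm h1
    rwa [norm_mul, RCLike.norm_conj, norm_one] at this
  have h3 : ‖a‖ * ‖z‖ < 1 := by
    have h4 := norm_nonneg a
    have h5 := norm_nonneg z
    nlinarith
  linarith

private theorem mob_hasDerivAt (c : ℂ) {a z : ℂ} (h : 1 - conj a * z ≠ 0) :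
    HasDerivAt (mob c a) (c * (1 - conj a * a) / (1 - conj a * z) ^ 2) z := by
  have h1 : HasDerivAt (fun z : ℂ => c * (z - a)) c z := by
    simpa using ((hasDerivAt_id z).sub_const a).const_mul c
  have h2 : HasDerivAt (fun z : ℂ => 1 - conj a * z) (-conj a) z := by
    simpa using ((hasDerivAt_id z).const_mul (conj a)).const_sub 1
  refine (h1.div h2 h).congr_deriv ?_
  congr 1
  ring

theorem differentiableAt_act (h : HF A) (g : Δ) {z : ℂ} (hz : ‖z‖ < 1) :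
    DifferentiableAt ℂ (A.act g) z := by
  obtain ⟨c, a, hc, ha, hg⟩ := h.hol g
  rw [hg]
  exact (mob_hasDerivAt c (one_sub_ne ha hz)).differentiableAt

theorem differentiableAt_deriv_act (h : HF A) (g : Δ) {z : ℂ} (hz : ‖z‖ < 1) :
    DifferentiableAt ℂ (deriv (A.act g)) z := by
  obtain ⟨c, a, hc, ha, hg⟩ := h.hol g
  rw [hg]
  have h1 : deriv (mob c a) =ᶠ[𝓝 z] fun z => c * (1 - conj a * a) / (1 - conj a * z) ^ 2 := by
    filter_upwards [ball_mem_nhds_of_norm_lt hz] with w hw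
    rw [Metric.mem_ball, dist_zero_right] at hw
    exact (mob_hasDerivAt c (one_sub_ne ha hw)).deriv
  refine DifferentiableAt.congr_of_eventuallyEq ?_ h1
  have h2 : (1 - conj a * z) ^ 2 ≠ 0 := pow_ne_zero 2 (one_sub_ne ha hz)
  exact (differentiableAt_const _).div (by fun_prop) h2

theorem deriv_act_mul (h : HF A) (g k : Δ) {z : ℂ} (hz : ‖z‖ < 1) :
    deriv (A.act (g * k)) z = deriv (A.act g) (A.act k z) * deriv (A.act k) z := by
  have h1 : A.act (g * k) =ᶠ[𝓝 z] A.act g ∘ A.act k := by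
    filter_upwards [ball_mem_nhds_of_norm_lt hz] with w hw
    rw [Metric.mem_ball, dist_zero_right] at hw
    exact A.mul g k w hw.le
  rw [h1.deriv_eq]
  exact deriv_comp z (differentiableAt_act h g (A.norm_act_lt k hz)) (differentiableAt_act h k hz)

theorem norm_deriv_act (h : HF A) (g : Δ) {z : ℂ} (hz : ‖z‖ < 1) :
    ‖deriv (A.act g) z‖ = A.J g z := by
  have hd := (differentiableAt_act h g hz).hasDerivAt
  rw [hasDerivAt_iff_tendsto_slope] at hd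
  have h1 : Tendsto (fun w => ‖slope (A.act g) z w‖ ^ 2) (𝓝[≠] z)
      (𝓝 (‖deriv (A.act g) z‖ ^ 2)) := (hd.norm).pow 2
  have ha : ‖A.act g⁻¹ 0‖ < 1 := A.norm_act_lt g⁻¹ (by simp)
  have hJ : ContinuousAt (fun w => A.J g w) z := by
    unfold DAct.J
    refine ContinuousAt.div continuousAt_const ?_ ?_
    · exact Continuous.continuousAt (by fun_prop)
    · exact pow_ne_zero 2 (norm_ne_zero_iff.mpr (one_sub_ne ha hz))
  have h2 : Tendsto (fun w => A.J g z * A.J g w) (𝓝[≠] z) (𝓝 (A.J g z * A.J g z)) :=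
    (tendsto_const_nhds.mul hJ.tendsto).mono_left nhdsWithin_le_nhds
  have h3 : (fun w => ‖slope (A.act g) z w‖ ^ 2) =ᶠ[𝓝[≠] z] fun w => A.J g z * A.J g w := by
    have h4 : Metric.ball (0 : ℂ) 1 ∈ 𝓝[≠] z := mem_nhdsWithin_of_mem_nhds
      (ball_mem_nhds_of_norm_lt hz)
    filter_upwards [h4, self_mem_nhdsWithin] with w hw hne
    rw [Metric.mem_ball, dist_zero_right] at hw
    have hne' : ‖w - z‖ ≠ 0 := norm_ne_zero_iff.mpr (sub_ne_zero.mpr hne)
    have h5 := A.dist_act g hw.le hz.le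
    rw [slope_def_module, norm_smul, mul_pow, norm_inv, h5]
    field_simp
  have h6 := tendsto_nhds_unique h1 (h2.congr' h3.symm)
  have h7 := A.J_pos g hz.le
  have h8 : ‖deriv (A.act g) z‖ ^ 2 = A.J g z ^ 2 := by rw [h6]; ring
  exact (pow_left_inj₀ (norm_nonneg _) h7.le two_ne_zero).mp h8

theorem deriv_act_ne_zero (h : HF A) (g : Δ) {z : ℂ} (hz : ‖z‖ < 1) :
    deriv (A.act g) z ≠ 0 := by
  rw [← norm_ne_zero_iff, norm_deriv_act h g hz]
  exact (A.J_pos g hz.le).ne'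

theorem norm_deriv_act_le (h : HF A) (g : Δ) {z : ℂ} {ρ : ℝ} (hρ : ρ < 1) (hz : ‖z‖ ≤ ρ) :
    ‖deriv (A.act g) z‖ ≤ A.t g / (1 - ρ) ^ 2 := by
  have hz1 : ‖z‖ < 1 := lt_of_le_of_lt hz hρ
  rw [norm_deriv_act h g hz1]
  refine (A.J_upper g hz1).trans ?_
  have h1 : 0 < 1 - ρ := by linarith
  have h2 : (1 - ρ) ^ 2 ≤ (1 - ‖z‖) ^ 2 := pow_le_pow_left₀ h1.le (by linarith) 2
  exact div_le_div_of_nonneg_left (A.t_pos g).le (by positivity) h2

/-- Orbits are discrete in the open disc. -/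
theorem orbit_discrete (A : DAct Δ) {z w : ℂ} (hz : ‖z‖ < 1) (hw : ‖w‖ < 1) :
    ∀ᶠ ζ in 𝓝[≠] w, ∀ g, A.act g z ≠ ζ := by
  obtain ⟨ρ, hwρ, hρ⟩ := exists_between hw
  have hfin : {g | ‖A.act g z‖ ≤ ρ}.Finite := by
    have hρ' : 0 < 1 - ρ := by linarith
    have hz' : 0 < 1 - ‖z‖ ^ 2 := by
      have := norm_nonneg z
      nlinarith
    refine (A.finite_t (ε := (1 - ‖z‖ ^ 2) * (1 - ρ) ^ 2) (by positivity)).subset ?_
    intro g hg
    have hg' : ‖A.act g z‖ ≤ ρ := hg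
    have hρ0 : 0 ≤ ρ := (norm_nonneg _).trans hg'
    have h0 : ‖A.act g 0‖ < 1 := A.norm_act_lt g (by simp)
    have h1 := A.kap_act g hz (w := 0) (by simp)
    have h2 : kap z 0 = 1 - ‖z‖ ^ 2 := by simp [kap]
    have h3 : 1 - ρ ≤ ‖1 - conj (A.act g z) * A.act g 0‖ := by
      have h4 : ‖conj (A.act g z) * A.act g 0‖ ≤ ρ := by
        rw [norm_mul, RCLike.norm_conj]
        have := norm_nonneg (A.act g 0)
        have := norm_nonneg (A.act g z)
        nlinarith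
      have h5 := norm_sub_norm_le (1 : ℂ) (conj (A.act g z) * A.act g 0)
      rw [norm_one] at h5
      linarith
    have h6 : (1 - ρ) ^ 2 ≤ ‖1 - conj (A.act g z) * A.act g 0‖ ^ 2 :=
      pow_le_pow_left₀ hρ'.le h3 2
    have h7 : 0 < ‖1 - conj (A.act g z) * A.act g 0‖ ^ 2 := lt_of_lt_of_le (by positivity) h6
    rw [h2, kap, div_eq_iff h7.ne'] at h1
    have ht : A.t g = 1 - ‖A.act g 0‖ ^ 2 := rfl
    rw [← ht] at h1
    have h8 : 0 < A.t g := A.t_pos g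
    have h9 : (1 - ‖A.act g z‖ ^ 2) * A.t g ≤ A.t g := by
      have : 0 ≤ ‖A.act g z‖ ^ 2 * A.t g := by positivity
      linarith
    show (1 - ‖z‖ ^ 2) * (1 - ρ) ^ 2 ≤ A.t g
    calc (1 - ‖z‖ ^ 2) * (1 - ρ) ^ 2
        ≤ (1 - ‖z‖ ^ 2) * ‖1 - conj (A.act g z) * A.act g 0‖ ^ 2 := by gcongr
      _ = (1 - ‖A.act g z‖ ^ 2) * A.t g := h1.symm
      _ ≤ A.t g := h9
  have h1 : ∀ᶠ ζ in 𝓝[≠] w, ∀ g ∈ {g | ‖A.act g z‖ ≤ ρ}, A.act g z ≠ ζ := by
    rw [Filter.eventually_all_finite hfin]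
    intro g _
    by_cases h : A.act g z = w
    · filter_upwards [self_mem_nhdsWithin] with ζ hζ
      intro h2
      exact hζ (by rw [Set.mem_singleton_iff, ← h2, h])
    · have h2 : ∀ᶠ ζ in 𝓝 w, ζ ≠ A.act g z := (isOpen_ne.mem_nhds (Ne.symm h))
      exact (h2.filter_mono nhdsWithin_le_nhds).mono fun ζ hζ => hζ.symm
  have h2 : ∀ᶠ ζ in 𝓝[≠] w, ‖ζ‖ < ρ := by
    have h3 : ∀ᶠ ζ in 𝓝 w, ‖ζ‖ < ρ := continuous_norm.continuousAt.eventually_lt
      continuousAt_const hwρ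
    exact h3.filter_mono nhdsWithin_le_nhds
  filter_upwards [h1, h2] with ζ h3 h4 g h5
  exact h3 g (by show ‖A.act g z‖ ≤ ρ; rw [h5]; exact h4.le) h5

end Pool.Agent.Lib.KLP
end

section

section

/-!
# B8: invariant functions are constant
-/

set_option autoImplicit false
open MeasureTheory Set Filter Topology
open scoped ENNReal ComplexConjugate

namespace Pool.Agent.Lib.KLP

variable {Δ : Type*} [Group Δ] {A : DAct Δ}

/-- The action maps punctured neighbourhoods to punctured neighbourhoods. -/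
theorem tendsto_act_punctured (h : HF A) (g : Δ) {z : ℂ} (hz : ‖z‖ < 1) :
    Tendsto (A.act g) (𝓝[≠] z) (𝓝[≠] (A.act g z)) := by
  refine tendsto_nhdsWithin_iff.2 ⟨?_, ?_⟩
  · exact (differentiableAt_act h g hz).continuousAt.tendsto.mono_left nhdsWithin_le_nhds
  · have h1 : ∀ᶠ w in 𝓝[≠] z, ‖w‖ < 1 :=
      nhdsWithin_le_nhds (continuous_norm.continuousAt.eventually_lt continuousAt_const hz)
    filter_upwards [h1, self_mem_nhdsWithin] with w hw hne heq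
    apply hne
    have h2 := congrArg (A.act g⁻¹) (show A.act g w = A.act g z from heq)
    rw [A.inv_act_act g hw.le, A.inv_act_act g hz.le] at h2
    exact h2

theorem invariant_const (h : HF A) {S : Set ℂ} (hS : ∀ z, ‖z‖ < 1 → ∀ᶠ w in 𝓝[≠] z, w ∉ S)
    {f : ℂ → ℂ} (hd : ∀ z, ‖z‖ < 1 → z ∉ S → DifferentiableAt ℂ f z)
    (hb : ∀ z, ‖z‖ < 1 → ∃ B : ℝ, ∀ᶠ w in 𝓝[≠] z, ‖f w‖ ≤ B)
    (hinv : ∀ g z, ‖z‖ < 1 → z ∉ S → f (A.act g z) = f z) :
    ∃ c, ∀ z, ‖z‖ < 1 → z ∉ S → f z = c := by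
  classical
  set F : ℂ → ℂ := fun z => limUnder (𝓝[≠] z) f with hF
  have hnorm : ∀ z : ℂ, ‖z‖ < 1 → ∀ᶠ w in 𝓝 z, ‖w‖ < 1 := fun z hz =>
    continuous_norm.continuousAt.eventually_lt continuousAt_const hz
  -- `F` extends `f`
  have hFf : ∀ z, ‖z‖ < 1 → z ∉ S → F z = f z := fun z hz hzS =>
    ((hd z hz hzS).continuousAt.tendsto.mono_left nhdsWithin_le_nhds).limUnder_eq
  -- `F` is holomorphic
  have hFd : ∀ z, ‖z‖ < 1 → DifferentiableAt ℂ F z := by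
    intro z hz
    obtain ⟨B, hB⟩ := hb z hz
    have h1 : ∀ᶠ w in 𝓝 z, w ≠ z → (‖w‖ < 1 ∧ w ∉ S ∧ ‖f w‖ ≤ B) := by
      have h0 : ∀ᶠ w in 𝓝[≠] z, ‖w‖ < 1 := nhdsWithin_le_nhds (hnorm z hz)
      have h2 : ∀ᶠ w in 𝓝[≠] z, ‖w‖ < 1 ∧ w ∉ S ∧ ‖f w‖ ≤ B :=
        h0.and ((hS z hz).and hB)
      exact eventually_nhdsWithin_iff.1 h2
    obtain ⟨s, hs, hsm⟩ := eventually_iff_exists_mem.1 h1
    have hds : DifferentiableOn ℂ f (s \ {z}) := fun w hw =>
      (hd w (hsm w hw.1 hw.2).1 (hsm w hw.1 hw.2).2.1).differentiableWithinAt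
    have hbs : BddAbove (norm ∘ f '' (s \ {z})) := by
      refine ⟨B, ?_⟩
      rintro _ ⟨w, hw, rfl⟩
      exact (hsm w hw.1 hw.2).2.2
    have h3 := Complex.differentiableOn_update_limUnder_of_bddAbove hs hds hbs
    have h4 : DifferentiableAt ℂ (Function.update f z (limUnder (𝓝[≠] z) f)) z :=
      h3.differentiableAt hs
    refine h4.congr_of_eventuallyEq ?_
    filter_upwards [hs] with w hw
    by_cases hwz : w = z
    · rw [hwz, Function.update_self]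
    · rw [Function.update_of_ne hwz]
      exact hFf w (hsm w hw hwz).1 (hsm w hw hwz).2.1
  -- `F` is invariant
  have hFi : ∀ g z, ‖z‖ < 1 → F (A.act g z) = F z := by
    intro g z hz
    have hgz := A.norm_act_lt g hz
    have c1 : ContinuousAt (fun w => F (A.act g w)) z :=
      ContinuousAt.comp (f := A.act g) (g := F) (hFd _ hgz).continuousAt
        (differentiableAt_act h g hz).continuousAt
    have c2 : ContinuousAt F z := (hFd z hz).continuousAt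
    have t1 : Tendsto (fun w => F (A.act g w)) (𝓝[≠] z) (𝓝 (F (A.act g z))) :=
      c1.tendsto.mono_left nhdsWithin_le_nhds
    have t2 : Tendsto F (𝓝[≠] z) (𝓝 (F z)) := c2.tendsto.mono_left nhdsWithin_le_nhds
    have e : (fun w => F (A.act g w)) =ᶠ[𝓝[≠] z] F := by
      have h5 := (tendsto_act_punctured h g hz).eventually (hS _ hgz)
      filter_upwards [h5, hS z hz, nhdsWithin_le_nhds (hnorm z hz)] with w hw1 hw2 hw3
      rw [hFf _ (A.norm_act_lt g hw3) hw1, hFf _ hw3 hw2, hinv g w hw3 hw2]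
    exact tendsto_nhds_unique (t1.congr' e) t2
  -- maximum principle
  obtain ⟨ρ, hρ1, hρ⟩ := A.cocompact
  have hρ0 : 0 ≤ ρ := by
    obtain ⟨g, hg⟩ := hρ 0 (by simp)
    exact (norm_nonneg _).trans hg
  have hsub : Metric.closedBall (0 : ℂ) ρ ⊆ Metric.ball 0 1 := Metric.closedBall_subset_ball hρ1
  have hFD : DifferentiableOn ℂ F (Metric.ball 0 1) := fun z hz =>
    (hFd z (by simpa using hz)).differentiableWithinAt
  obtain ⟨z0, hz0, hmax⟩ := (isCompact_closedBall (0 : ℂ) ρ).exists_isMaxOn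
    ⟨0, by simpa using hρ0⟩ (f := fun z => ‖F z‖) ((hFD.continuousOn.mono hsub).norm)
  have hmax' : IsMaxOn (norm ∘ F) (Metric.ball 0 1) z0 := by
    intro z hz
    obtain ⟨g, hg⟩ := hρ z (by simpa using hz)
    have h6 : ‖F (A.act g z)‖ ≤ ‖F z0‖ := hmax (show A.act g z ∈ Metric.closedBall (0:ℂ) ρ by simpa using hg)
    rw [hFi g z (by simpa using hz)] at h6
    exact h6
  have h7 := Complex.eqOn_of_isPreconnected_of_isMaxOn_norm
    (convex_ball (0 : ℂ) 1).isPreconnected Metric.isOpen_ball hFD (hsub hz0) hmax'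
  refine ⟨F z0, fun z hz hzS => ?_⟩
  rw [← hFf z hz hzS]
  exact h7 (show z ∈ Metric.ball (0:ℂ) 1 by simpa using hz)

end Pool.Agent.Lib.KLP
end

section

/-!
# B6: the kernel as a function of the first variable
-/

set_option autoImplicit false
open MeasureTheory Set Filter Topology
open scoped ENNReal ComplexConjugate

namespace Pool.Agent.Lib.KLP

variable {Δ : Type*} [Group Δ] {A : DAct Δ}

private lemma kz_tlow (A : DAct Δ) (g : Δ) {z : ℂ} {ρ ρ' : ℝ} (hρ : ρ < 1) (hz : ‖z‖ ≤ ρ)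
    (hg : ‖A.act g z‖ ≤ ρ') : (1 - ρ) ^ 2 * (1 - ρ' ^ 2) ≤ A.t g := by
  have hz1 : ‖z‖ < 1 := lt_of_le_of_lt hz hρ
  have h1 := A.tau_act g hz1.le
  have h2 := A.J_upper g hz1
  have h3 : 0 < 1 - ‖z‖ := by linarith
  have h4 : 0 < 1 - ρ := by linarith
  have h5 : A.J g z ≤ A.t g / (1 - ρ) ^ 2 := by
    refine h2.trans ?_
    have := A.t_pos g
    gcongr
  have h6 : 1 - ‖A.act g z‖ ^ 2 ≤ A.J g z := by
    rw [h1]
    exact mul_le_of_le_one_right (A.J_pos g hz1.le).le (by nlinarith [norm_nonneg z])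
  have h7 : 1 - ρ' ^ 2 ≤ 1 - ‖A.act g z‖ ^ 2 := by
    have := pow_le_pow_left₀ (norm_nonneg _) hg 2
    linarith
  have h8 : 1 - ρ' ^ 2 ≤ A.t g / (1 - ρ) ^ 2 := h7.trans (h6.trans h5)
  rw [le_div_iff₀ (by positivity)] at h8
  linarith

private lemma kz_sep (h : HF A) {ζ z₀ : ℂ} (hζ : ‖ζ‖ < 1) (hz₀ : ‖z₀‖ < 1) (S : Set Δ)
    (hS : ∀ g ∈ S, A.act g z₀ ≠ ζ) :
    ∃ ε : ℝ, 0 < ε ∧ ∀ᶠ z in 𝓝 z₀, ∀ g ∈ S, ε ≤ ‖A.act g z - ζ‖ := by
  set ρ : ℝ := (1 + ‖z₀‖) / 2 with hρdef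
  set ρ' : ℝ := (1 + ‖ζ‖) / 2 with hρ'def
  have hρ : ρ < 1 := by rw [hρdef]; linarith
  have hρ'1 : ρ' < 1 := by rw [hρ'def]; linarith
  set ε₀ : ℝ := (1 - ρ) ^ 2 * (1 - ρ' ^ 2) with hε₀
  have hε₀pos : 0 < ε₀ := by
    have h1 : 0 < 1 - ρ := by linarith
    have hρ'0 : 0 ≤ ρ' := by rw [hρ'def]; positivity
    have h2 : 0 < 1 - ρ' ^ 2 := by nlinarith
    positivity
  have hfin : {g | ε₀ ≤ A.t g}.Finite := A.finite_t hε₀pos
  have hfinS : ({g | ε₀ ≤ A.t g} ∩ S).Finite := hfin.inter_of_left S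
  have hm : 0 < (1 - ‖ζ‖) / 2 := by linarith
  -- a lower bound at `z₀`
  have hex : ∃ ε : ℝ, 0 < ε ∧ ε ≤ (1 - ‖ζ‖) / 2 ∧
      ∀ g ∈ {g | ε₀ ≤ A.t g} ∩ S, ε < ‖A.act g z₀ - ζ‖ := by
    have h1 : ∀ᶠ ε : ℝ in 𝓝[>] 0, 0 < ε := eventually_mem_nhdsWithin
    have h2 : ∀ᶠ ε : ℝ in 𝓝[>] 0, ε ≤ (1 - ‖ζ‖) / 2 :=
      eventually_nhdsWithin_of_eventually_nhds (eventually_le_nhds hm)
    have h3 : ∀ᶠ ε : ℝ in 𝓝[>] 0, ∀ g ∈ {g | ε₀ ≤ A.t g} ∩ S, ε < ‖A.act g z₀ - ζ‖ := by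
      rw [Filter.eventually_all_finite hfinS]
      intro g hg
      have h4 : 0 < ‖A.act g z₀ - ζ‖ := norm_pos_iff.2 (sub_ne_zero.2 (hS g hg.2))
      exact eventually_nhdsWithin_of_eventually_nhds (eventually_lt_nhds h4)
    obtain ⟨ε, ⟨h5, h6⟩, h7⟩ := ((h1.and h2).and h3).exists
    exact ⟨ε, h5, h6, h7⟩
  obtain ⟨ε, hε, hεm, hεg⟩ := hex
  refine ⟨ε, hε, ?_⟩
  have c1 : ∀ᶠ z in 𝓝 z₀, ‖z‖ ≤ ρ := by
    have : ‖z₀‖ < ρ := by rw [hρdef]; linarith
    exact (continuous_norm.tendsto z₀).eventually (eventually_le_nhds this)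
  have c2 : ∀ᶠ z in 𝓝 z₀, ∀ g ∈ {g | ε₀ ≤ A.t g} ∩ S, ε < ‖A.act g z - ζ‖ := by
    rw [Filter.eventually_all_finite hfinS]
    intro g hg
    have h1 : Tendsto (fun z => ‖A.act g z - ζ‖) (𝓝 z₀) (𝓝 ‖A.act g z₀ - ζ‖) :=
      ((differentiableAt_act h g hz₀).continuousAt.tendsto.sub_const ζ).norm
    exact h1.eventually (eventually_gt_nhds (hεg g hg))
  filter_upwards [c1, c2] with z hz1 hz2 g hg
  by_cases hcase : ‖A.act g z‖ ≤ ρ'
  · exact (hz2 g ⟨kz_tlow A g hρ hz1 hcase, hg⟩).le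
  · push Not at hcase
    refine hεm.trans ?_
    have h1 : ‖A.act g z‖ - ‖ζ‖ ≤ ‖A.act g z - ζ‖ := norm_sub_norm_le _ _
    rw [hρ'def] at hcase
    linarith

open Classical in
private lemma kz_main (h : HF A) {k : ℕ} (hk : 2 ≤ k) {ζ z₀ : ℂ} (hζ : ‖ζ‖ < 1)
    (hz₀ : ‖z₀‖ < 1) (S : Set Δ) (hS : ∀ g ∈ S, A.act g z₀ ≠ ζ) :
    ∃ U : Set ℂ, IsOpen U ∧ z₀ ∈ U ∧ U ⊆ Metric.ball 0 1 ∧
      (∀ z ∈ U, Summable fun g => if g ∈ S then (deriv (A.act g) z) ^ k / (A.act g z - ζ) else 0) ∧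
      DifferentiableOn ℂ
        (fun z => ∑' g, if g ∈ S then (deriv (A.act g) z) ^ k / (A.act g z - ζ) else 0) U := by
  obtain ⟨ε, hε, hev⟩ := kz_sep h hζ hz₀ S hS
  set ρ : ℝ := (1 + ‖z₀‖) / 2 with hρdef
  have hρ : ρ < 1 := by rw [hρdef]; linarith
  have c1 : ∀ᶠ z in 𝓝 z₀, ‖z‖ ≤ ρ := by
    have : ‖z₀‖ < ρ := by rw [hρdef]; linarith
    exact (continuous_norm.tendsto z₀).eventually (eventually_le_nhds this)
  obtain ⟨U, hU, hUo, hz₀U⟩ := mem_nhds_iff.1 (hev.and c1)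
  have hUb : U ⊆ Metric.ball 0 1 := fun z hz => by
    rw [mem_ball_zero_iff]
    exact lt_of_le_of_lt (hU hz).2 hρ
  have hlt : ∀ z ∈ U, ‖z‖ < 1 := fun z hz => lt_of_le_of_lt (hU hz).2 hρ
  set u : Δ → ℝ := fun g => (1 / (1 - ρ) ^ 2) ^ k / ε * A.t g ^ 2 with hu
  have hsum : Summable u := (summable_t_sq A).mul_left _
  have hρ1 : 0 < 1 - ρ := by linarith
  have hbound : ∀ g, ∀ z ∈ U,
      ‖if g ∈ S then (deriv (A.act g) z) ^ k / (A.act g z - ζ) else 0‖ ≤ u g := by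
    intro g z hz
    have htp := A.t_pos g
    split_ifs with hgS
    · rw [norm_div, norm_pow]
      have h1 := norm_deriv_act_le h g hρ (hU hz).2
      have h2 : ε ≤ ‖A.act g z - ζ‖ := (hU hz).1 g hgS
      have h3 : ‖deriv (A.act g) z‖ ^ k ≤ (1 / (1 - ρ) ^ 2) ^ k * A.t g ^ 2 := by
        calc ‖deriv (A.act g) z‖ ^ k ≤ (A.t g / (1 - ρ) ^ 2) ^ k :=
              pow_le_pow_left₀ (norm_nonneg _) h1 k
          _ = (1 / (1 - ρ) ^ 2) ^ k * A.t g ^ k := by rw [← mul_pow]; congr 1; ring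
          _ ≤ (1 / (1 - ρ) ^ 2) ^ k * A.t g ^ 2 := by
              have := pow_le_pow_of_le_one htp.le (A.t_le_one g) hk
              gcongr
      calc ‖deriv (A.act g) z‖ ^ k / ‖A.act g z - ζ‖
          ≤ (1 / (1 - ρ) ^ 2) ^ k * A.t g ^ 2 / ε := by
            exact div_le_div₀ (by positivity) h3 hε h2
        _ = u g := by rw [hu]; ring
    · rw [norm_zero, hu]
      positivity
  refine ⟨U, hUo, hz₀U, hUb, fun z hz => ?_, ?_⟩
  · exact Summable.of_norm_bounded hsum fun g => hbound g z hz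
  · refine Complex.differentiableOn_tsum_of_summable_norm hsum (fun g => ?_) hUo
      (fun g w hw => hbound g w hw)
    by_cases hgS : g ∈ S
    · simp only [hgS, if_true]
      intro z hz
      have h2 : ε ≤ ‖A.act g z - ζ‖ := (hU hz).1 g hgS
      have h3 : A.act g z - ζ ≠ 0 := by
        intro h0
        rw [h0, norm_zero] at h2
        linarith
      exact (((differentiableAt_deriv_act h g (hlt z hz)).pow k).div
        ((differentiableAt_act h g (hlt z hz)).sub_const ζ) h3).differentiableWithinAt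
    · simp only [hgS, if_false]
      exact differentiableOn_const _

theorem ker_z_diff (h : HF A) {k : ℕ} (hk : 2 ≤ k) {z ζ : ℂ} (hz : ‖z‖ < 1) (hζ : ‖ζ‖ < 1)
    (hne : ∀ g, A.act g z ≠ ζ) : DifferentiableAt ℂ (fun z => ker A k z ζ) z := by
  classical
  obtain ⟨U, hUo, hzU, _, _, hd⟩ := kz_main h hk hζ hz Set.univ (fun g _ => hne g)
  have h1 := hd.differentiableAt (hUo.mem_nhds hzU)
  simp only [Set.mem_univ, if_true] at h1
  exact h1

theorem ker_z_pole (h : HF A) {k : ℕ} (hk : 2 ≤ k) {ζ : ℂ} (hζ : ‖ζ‖ < 1) :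
    ∃ r : ℂ → ℂ, AnalyticAt ℂ r ζ ∧ ∀ᶠ z in 𝓝[≠] ζ, ker A k z ζ = 1 / (z - ζ) + r z := by
  classical
  obtain ⟨U, hUo, hzU, hUb, hs, hd⟩ := kz_main h hk hζ hζ {g | g ≠ 1}
    (fun g hg he => hg (h.free g ζ hζ he))
  refine ⟨_, hd.analyticAt (hUo.mem_nhds hzU), ?_⟩
  filter_upwards [nhdsWithin_le_nhds (hUo.mem_nhds hzU)] with z hz
  have hz1 : ‖z‖ < 1 := by simpa using hUb hz
  have h1 : ker A k z ζ = ∑' g, ((if g = 1 then 1 / (z - ζ) else 0) +
      (if g ∈ {g : Δ | g ≠ 1} then (deriv (A.act g) z) ^ k / (A.act g z - ζ) else 0)) := by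
    unfold ker
    refine tsum_congr fun g => ?_
    by_cases hg : g = 1
    · subst hg
      simp [deriv_act_one A hz1, A.one z hz1.le]
    · simp [hg]
  have h2 := Summable.tsum_add (hasSum_ite_eq (1 : Δ) (1 / (z - ζ))).summable (hs z hz)
  rw [tsum_ite_eq] at h2
  rw [h1]
  convert h2

theorem ker_z_wt (h : HF A) (k : ℕ) (g : Δ) {z : ℂ} (hz : ‖z‖ < 1) (ζ : ℂ) :
    ker A k (A.act g z) ζ * (deriv (A.act g) z) ^ k = ker A k z ζ := by
  unfold ker
  rw [← tsum_mul_right, ← (Equiv.mulRight g).tsum_eq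
    (fun g => (deriv (A.act g) z) ^ k / (A.act g z - ζ))]
  refine tsum_congr fun g' => ?_
  simp only [Equiv.coe_mulRight]
  rw [deriv_act_mul h g' g hz, A.mul g' g z hz.le, mul_pow]
  ring

end Pool.Agent.Lib.KLP
end

section

/-!
# B5: the kernel as a function of the second variable
-/

set_option autoImplicit false
open MeasureTheory Set Filter Topology
open scoped ENNReal ComplexConjugate

namespace Pool.Agent.Lib.KLP

variable {Δ : Type*} [Group Δ] {A : DAct Δ}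

/-- bound for the coefficients of the kernel -/
private theorem kzeta_coef (h : HF A) {k : ℕ} (hk : 2 ≤ k) {z : ℂ} (hz : ‖z‖ < 1) (g : Δ) :
    ‖(deriv (A.act g) z) ^ k‖ ≤ (1 / (1 - ‖z‖) ^ 2) ^ k * A.t g ^ 2 := by
  have h1 := norm_deriv_act_le h g hz le_rfl
  have h0 : 0 < 1 - ‖z‖ := by linarith
  have ht0 := (A.t_pos g).le
  have ht1 := A.t_le_one g
  rw [norm_pow]
  calc ‖deriv (A.act g) z‖ ^ k ≤ (A.t g / (1 - ‖z‖) ^ 2) ^ k :=
        pow_le_pow_left₀ (norm_nonneg _) h1 k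
    _ = (1 / (1 - ‖z‖) ^ 2) ^ k * A.t g ^ k := by
        rw [← mul_pow]
        congr 1
        ring
    _ ≤ (1 / (1 - ‖z‖) ^ 2) ^ k * A.t g ^ 2 := by
        apply mul_le_mul_of_nonneg_left _ (by positivity)
        exact pow_le_pow_of_le_one ht0 ht1 hk

private theorem kzeta_aux (h : HF A) {k : ℕ} (hk : 2 ≤ k) {z : ℂ} (hz : ‖z‖ < 1) {ζ : ℂ} {ε : ℝ}
    (hε : 0 < ε) (S : Set Δ)
    (hS : ∀ g ∈ S, ∀ ζ' ∈ Metric.ball ζ ε, ε ≤ ‖A.act g z - ζ'‖) :
    DifferentiableOn ℂ (fun ζ' => ∑' g, S.indicator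
      (fun g => (deriv (A.act g) z) ^ k / (A.act g z - ζ')) g) (Metric.ball ζ ε) ∧
    ∀ ζ' ∈ Metric.ball ζ ε, Summable (S.indicator
      (fun g => (deriv (A.act g) z) ^ k / (A.act g z - ζ'))) := by
  classical
  have hsum : Summable (fun g => (1 / (1 - ‖z‖) ^ 2) ^ k * A.t g ^ 2 / ε) :=
    ((summable_t_sq A).mul_left _).div_const ε
  have hbd : ∀ g, ∀ ζ' ∈ Metric.ball ζ ε, ‖S.indicator
      (fun g => (deriv (A.act g) z) ^ k / (A.act g z - ζ')) g‖ ≤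
      (1 / (1 - ‖z‖) ^ 2) ^ k * A.t g ^ 2 / ε := by
    intro g ζ' hζ'
    have h0 : 0 < 1 - ‖z‖ := by linarith
    by_cases hg : g ∈ S
    · rw [Set.indicator_of_mem hg, norm_div]
      have h1 := kzeta_coef h hk hz g
      have h2 := hS g hg ζ' hζ'
      exact div_le_div₀ (by positivity) h1 hε h2
    · rw [Set.indicator_of_notMem hg, norm_zero]
      positivity
  refine ⟨?_, fun ζ' hζ' => Summable.of_norm_bounded hsum (fun g => hbd g ζ' hζ')⟩
  refine Complex.differentiableOn_tsum_of_summable_norm hsum ?_ Metric.isOpen_ball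
    (fun g ζ' hζ' => hbd g ζ' hζ')
  intro g ζ' hζ'
  by_cases hg : g ∈ S
  · have h2 := hS g hg ζ' hζ'
    have h3 : A.act g z - ζ' ≠ 0 := by
      intro h4
      rw [h4, norm_zero] at h2
      linarith
    simp only [Set.indicator_of_mem hg]
    exact ((differentiableAt_const _).div (by fun_prop) h3).differentiableWithinAt
  · simp only [Set.indicator_of_notMem hg]
    exact differentiableWithinAt_const _

/-- A ball around `ζ` which contains no orbit point other than (possibly) `ζ`. -/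
private theorem kzeta_ball (A : DAct Δ) {z ζ : ℂ} (hz : ‖z‖ < 1) (hζ : ‖ζ‖ < 1) :
    ∃ ε : ℝ, 0 < ε ∧ ∀ g, A.act g z ≠ ζ → ∀ ζ' ∈ Metric.ball ζ ε, ε ≤ ‖A.act g z - ζ'‖ := by
  have h1 := orbit_discrete A hz hζ
  rw [eventually_nhdsWithin_iff, Metric.eventually_nhds_iff] at h1
  obtain ⟨ε, hε, h2⟩ := h1
  refine ⟨ε / 2, by positivity, ?_⟩
  intro g hg ζ' hζ'
  by_contra h3
  push Not at h3
  rw [Metric.mem_ball] at hζ'
  have h4 : dist (A.act g z) ζ < ε := by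
    have h5 : dist (A.act g z) ζ ≤ dist (A.act g z) ζ' + dist ζ' ζ := dist_triangle _ _ _
    rw [dist_eq_norm (A.act g z) ζ'] at h5
    linarith
  exact h2 h4 hg g rfl

theorem ker_zeta_diff (h : HF A) {k : ℕ} (hk : 2 ≤ k) {z ζ : ℂ} (hz : ‖z‖ < 1) (hζ : ‖ζ‖ < 1)
    (hne : ∀ g, A.act g z ≠ ζ) : DifferentiableAt ℂ (fun ζ => ker A k z ζ) ζ := by
  obtain ⟨ε, hε, h1⟩ := kzeta_ball A hz hζ
  have h2 := (kzeta_aux h hk hz hε Set.univ (fun g _ => h1 g (hne g))).1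
  simp only [Set.indicator_univ] at h2
  exact h2.differentiableAt (Metric.ball_mem_nhds ζ hε)

theorem ker_zeta_pole (h : HF A) {k : ℕ} (hk : 2 ≤ k) {z : ℂ} (hz : ‖z‖ < 1) :
    ∃ r : ℂ → ℂ, AnalyticAt ℂ r z ∧ ∀ᶠ ζ in 𝓝[≠] z, ker A k z ζ = 1 / (z - ζ) + r ζ := by
  classical
  obtain ⟨ε, hε, h1⟩ := kzeta_ball A hz hz
  obtain ⟨h2, h3⟩ := kzeta_aux h hk hz hε {g : Δ | g ≠ 1}
    (fun g hg => h1 g (fun h4 => hg (h.free g z hz h4)))
  refine ⟨_, h2.analyticAt (Metric.ball_mem_nhds z hε), ?_⟩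
  have h4 : ∀ᶠ ζ in 𝓝[≠] z, ζ ∈ Metric.ball z ε :=
    (Metric.ball_mem_nhds z hε : Metric.ball z ε ∈ 𝓝 z) |> fun h => mem_nhdsWithin_of_mem_nhds h
  filter_upwards [h4] with ζ hζ
  have h5 := h3 ζ hζ
  have e1 : (deriv (A.act 1) z) ^ k / (A.act 1 z - ζ) = 1 / (z - ζ) := by
    rw [deriv_act_one A hz, one_pow, A.one z hz.le]
  have e2 : ∀ g, (deriv (A.act g) z) ^ k / (A.act g z - ζ) =
      (if g = 1 then 1 / (z - ζ) else 0) + ({g : Δ | g ≠ 1}.indicator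
        (fun g => (deriv (A.act g) z) ^ k / (A.act g z - ζ))) g := by
    intro g
    by_cases hg : g = 1
    · subst hg
      rw [if_pos rfl, Set.indicator_of_notMem (by simp), e1, add_zero]
    · rw [if_neg hg, Set.indicator_of_mem (show g ∈ {g : Δ | g ≠ 1} from hg), zero_add]
  have e3 : Summable (fun g : Δ => if g = 1 then 1 / (z - ζ) else 0) :=
    (hasSum_ite_eq (1 : Δ) (1 / (z - ζ))).summable
  show (∑' g, (deriv (A.act g) z) ^ k / (A.act g z - ζ)) = _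
  rw [tsum_congr e2, e3.tsum_add h5, tsum_ite_eq]

end Pool.Agent.Lib.KLP
end

section

/-!
# B1: Poincaré series
-/

set_option autoImplicit false
open MeasureTheory Set Filter Topology
open scoped ENNReal ComplexConjugate

namespace Pool.Agent.Lib.KLP

variable {Δ : Type*} [Group Δ] {A : DAct Δ}

private theorem theta_term_diff (h : HF A) (k : ℕ) {q : ℂ → ℂ}
    (hq : DifferentiableOn ℂ q (Metric.ball 0 1)) (g : Δ) {z : ℂ} (hz : ‖z‖ < 1) :
    DifferentiableAt ℂ (fun z => q (A.act g z) * (deriv (A.act g) z) ^ k) z := by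
  have h1 : ‖A.act g z‖ < 1 := A.norm_act_lt g hz
  have h2 : DifferentiableAt ℂ q (A.act g z) :=
    hq.differentiableAt (Metric.isOpen_ball.mem_nhds (by simpa using h1))
  have h3 : DifferentiableAt ℂ (fun z => q (A.act g z)) z :=
    h2.comp z (differentiableAt_act h g hz)
  exact h3.mul ((differentiableAt_deriv_act h g hz).pow k)

private theorem theta_term_le (h : HF A) {k : ℕ} (hk : 2 ≤ k) {q : ℂ → ℂ} {B : ℝ}
    (hB : ∀ z, ‖z‖ < 1 → ‖q z‖ ≤ B) {ρ : ℝ} (hρ : ρ < 1) (g : Δ) {z : ℂ} (hz : ‖z‖ ≤ ρ) :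
    ‖q (A.act g z) * (deriv (A.act g) z) ^ k‖ ≤ B * (1 / (1 - ρ) ^ 2) ^ k * A.t g ^ 2 := by
  have hz1 : ‖z‖ < 1 := lt_of_le_of_lt hz hρ
  have h1 : ‖A.act g z‖ < 1 := A.norm_act_lt g hz1
  have h2 := hB _ h1
  have hB0 : 0 ≤ B := (norm_nonneg _).trans h2
  have h3 := norm_deriv_act_le h g hρ hz
  have ht : 0 < A.t g := A.t_pos g
  have ht1 : A.t g ≤ 1 := A.t_le_one g
  have hpos : 0 < 1 - ρ := by linarith
  rw [norm_mul, norm_pow]
  have h4 : ‖deriv (A.act g) z‖ ^ k ≤ (A.t g / (1 - ρ) ^ 2) ^ k :=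
    pow_le_pow_left₀ (norm_nonneg _) h3 k
  have h5 : (A.t g / (1 - ρ) ^ 2) ^ k = (1 / (1 - ρ) ^ 2) ^ k * A.t g ^ k := by
    rw [← mul_pow]
    congr 1
    ring
  have h6 : A.t g ^ k ≤ A.t g ^ 2 := pow_le_pow_of_le_one ht.le ht1 hk
  calc ‖q (A.act g z)‖ * ‖deriv (A.act g) z‖ ^ k
      ≤ B * ((1 / (1 - ρ) ^ 2) ^ k * A.t g ^ 2) := by
        refine mul_le_mul h2 (h4.trans ?_) (by positivity) hB0
        rw [h5]
        exact mul_le_mul_of_nonneg_left h6 (by positivity)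
    _ = B * (1 / (1 - ρ) ^ 2) ^ k * A.t g ^ 2 := by ring

theorem theta_wt (h : HF A) {k : ℕ} (hk : 2 ≤ k) {q : ℂ → ℂ}
    (hq : DifferentiableOn ℂ q (Metric.ball 0 1)) (hb : ∃ B : ℝ, ∀ z, ‖z‖ < 1 → ‖q z‖ ≤ B) :
    Wt A k (theta A k q) := by
  obtain ⟨B, hB⟩ := hb
  constructor
  · intro z hz
    have hz1 : ‖z‖ < 1 := by simpa using hz
    obtain ⟨ρ, hρ1, hρ2⟩ := exists_between hz1
    have h1 : DifferentiableOn ℂ (fun w => ∑' g, q (A.act g w) * (deriv (A.act g) w) ^ k)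
        (Metric.ball 0 ρ) := by
      refine Complex.differentiableOn_tsum_of_summable_norm
        (u := fun g => B * (1 / (1 - ρ) ^ 2) ^ k * A.t g ^ 2)
        ((summable_t_sq A).mul_left _) ?_ Metric.isOpen_ball ?_
      · intro g w hw
        have hw1 : ‖w‖ < 1 := lt_trans (by simpa using hw) hρ2
        exact (theta_term_diff h k hq g hw1).differentiableWithinAt
      · intro g w hw
        have hw1 : ‖w‖ ≤ ρ := le_of_lt (by simpa using hw)
        exact theta_term_le h hk hB hρ2 g hw1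
    have h2 : DifferentiableAt ℂ (theta A k q) z :=
      h1.differentiableAt (Metric.isOpen_ball.mem_nhds (by simpa using hρ1))
    exact h2.differentiableWithinAt
  · intro g z hz
    unfold theta
    rw [← tsum_mul_right]
    have h1 : ∀ g' : Δ, q (A.act g' (A.act g z)) * deriv (A.act g') (A.act g z) ^ k *
        deriv (A.act g) z ^ k =
        (fun x : Δ => q (A.act x z) * deriv (A.act x) z ^ k) (Equiv.mulRight g g') := by
      intro g'
      simp only [Equiv.coe_mulRight]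
      rw [A.mul g' g z hz.le, deriv_act_mul h g' g hz, mul_pow]
      ring
    rw [tsum_congr h1]
    exact Equiv.tsum_eq (Equiv.mulRight g) (fun x : Δ => q (A.act x z) * deriv (A.act x) z ^ k)

end Pool.Agent.Lib.KLP
end

section

/-!
# B3: zeros of forms are finite modulo the group
-/

set_option autoImplicit false
open MeasureTheory Set Filter Topology
open scoped ENNReal ComplexConjugate

namespace Pool.Agent.Lib.KLP

variable {Δ : Type*} [Group Δ] {A : DAct Δ}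

/-- Orbit equivalence in the open disc. -/
def orbSetoid (A : DAct Δ) : Setoid {z : ℂ // ‖z‖ < 1} where
  r z w := ∃ g, A.act g z.1 = w.1
  iseqv :=
    { refl := fun z => ⟨1, A.one z.1 z.2.le⟩
      symm := fun {z w} ⟨g, hg⟩ => ⟨g⁻¹, by rw [← hg, A.inv_act_act g z.2.le]⟩
      trans := fun {z w v} ⟨g, hg⟩ ⟨g', hg'⟩ => ⟨g' * g, by rw [A.mul g' g z.1 z.2.le, hg, hg']⟩ }

theorem zeros_finite (h : HF A) {k : ℕ} {f : ℂ → ℂ} (hf : Wt A k f) {q : ℂ} (hq : ‖q‖ < 1)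
    (hfq : f q ≠ 0) :
    ∃ Z : Finset ℂ, (∀ z ∈ Z, ‖z‖ < 1 ∧ f z = 0) ∧
      (∀ z ∈ Z, ∀ w ∈ Z, ∀ g, A.act g z = w → z = w) ∧
      (∀ z, ‖z‖ < 1 → f z = 0 → ∃ w ∈ Z, ∃ g, A.act g w = z) := by
  classical
  obtain ⟨ρ, hρ1, hρ⟩ := A.cocompact
  have hz_iff : ∀ g z, ‖z‖ < 1 → f z = 0 → f (A.act g z) = 0 := by
    intro g z hz hfz
    have h1 := hf.eq g z hz
    rw [hfz] at h1
    exact (mul_eq_zero.1 h1).resolve_right (pow_ne_zero _ (deriv_act_ne_zero h g hz))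
  have hfin : {z : ℂ | ‖z‖ ≤ ρ ∧ f z = 0}.Finite := by
    by_contra hinf
    obtain ⟨x, hx, hacc⟩ := Set.Infinite.exists_accPt_of_subset_isCompact hinf
      (isCompact_closedBall (0:ℂ) ρ) (fun z hz => by simpa using hz.1)
    rw [accPt_iff_frequently_nhdsNE] at hacc
    have h2 : AnalyticOnNhd ℂ f (Metric.ball 0 1) := hf.diff.analyticOnNhd Metric.isOpen_ball
    have h3 := h2.eqOn_zero_of_preconnected_of_frequently_eq_zero
      (convex_ball (0:ℂ) 1).isPreconnected (Metric.closedBall_subset_ball hρ1 hx)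
      (hacc.mono fun z hz => hz.2)
    exact hfq (h3 (show q ∈ Metric.ball (0:ℂ) 1 by simpa using hq))
  let D : Type := {z : ℂ // ‖z‖ < 1}
  have hfin' : {z : D | ‖z.1‖ ≤ ρ ∧ f z.1 = 0}.Finite :=
    hfin.preimage Subtype.val_injective.injOn
  let s := orbSetoid A
  let rep : D → D := fun z => Quotient.out (Quotient.mk s z)
  have hrep : ∀ z : D, ∃ g, A.act g (rep z).1 = z.1 := fun z =>
    (Quotient.exact (s := s) (Quotient.out_eq (Quotient.mk s z)) : (orbSetoid A).r (rep z) z)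
  refine ⟨hfin'.toFinset.image fun z => (rep z).1, ?_, ?_, ?_⟩
  · intro z hz
    obtain ⟨w, hw, rfl⟩ := Finset.mem_image.1 hz
    rw [Set.Finite.mem_toFinset] at hw
    refine ⟨(rep w).2, ?_⟩
    obtain ⟨g, hg⟩ := hrep w
    have h4 : A.act g⁻¹ w.1 = (rep w).1 := by rw [← hg, A.inv_act_act g (rep w).2.le]
    rw [← h4]
    exact hz_iff _ _ w.2 hw.2
  · intro z hz w hw g hg
    obtain ⟨z', hz', rfl⟩ := Finset.mem_image.1 hz
    obtain ⟨w', hw', rfl⟩ := Finset.mem_image.1 hw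
    have h5 : Quotient.mk s z' = Quotient.mk s w' := by
      rw [← Quotient.out_eq (Quotient.mk s z'), ← Quotient.out_eq (Quotient.mk s w')]
      exact Quotient.sound (s := s) ⟨g, hg⟩
    show (rep z').1 = (rep w').1
    simp only [rep, h5]
  · intro z hz hfz
    obtain ⟨g, hg⟩ := hρ z hz
    have h6 := hz_iff g z hz hfz
    let w : D := ⟨A.act g z, A.norm_act_lt g hz⟩
    refine ⟨(rep w).1, Finset.mem_image.2 ⟨w, ?_, rfl⟩, ?_⟩
    · rw [Set.Finite.mem_toFinset]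
      exact ⟨hg, h6⟩
    · obtain ⟨g', hg'⟩ := hrep w
      refine ⟨g⁻¹ * g', ?_⟩
      rw [A.mul _ _ _ (rep w).2.le, hg']
      exact A.inv_act_act g hz.le

end Pool.Agent.Lib.KLP
end
end
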